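import Pool.Agent.H3NS.Field

set_option autoImplicit false
set_option maxHeartbeats 4000000
set_option synthInstance.maxHeartbeats 400000

open MeasureTheory Set Filter Topology
open scoped ENNReal NNReal ContDiff

namespace Pool.Agent.H3NS

open Pool.Agent.H356R3.NS

/-- `(a · ∇) b` -/
noncomputable def adv (a b : R3 → R3) (x : R3) (i : Fin 3) : ℝ :=
  ∑ j, a x j * pd j (fun y => b y i) x

/-- the Laplacian -/
noncomputable def lap (a : R3 → R3) (x : R3) (i : Fin 3) : ℝ := ∑ j, pd j (pd j fun y => a y i) x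

/-- the force for which `(U, P)` solves the equations -/
noncomputable def res (ν : ℝ) (U : ℝ → R3 → R3) (P : ℝ → R3 → ℝ) (t : ℝ) (x : R3) (i : Fin 3) : ℝ :=
  deriv (fun s => U s x i) t + adv (U t) (U t) x i - ν * lap (U t) x i + pd i (P t) x

/-- `C^∞` fields -/
def Smo (a : R3 → R3) : Prop := ContDiff ℝ ∞ a

lemma Smo.comp {a : R3 → R3} (h : Smo a) (i : Fin 3) : ContDiff ℝ ∞ (fun x => a x i) :=
  (contDiff_apply ℝ ℝ i).comp h

lemma pd_smooth {g : R3 → ℝ} (h : ContDiff ℝ ∞ g) (j : Fin 3) : ContDiff ℝ ∞ (fun x => pd j g x) := by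
  have h1 : ContDiff ℝ ∞ (fderiv ℝ g) := h.fderiv_right (by simp)
  exact h1.clm_apply contDiff_const

lemma pd_add {g h : R3 → ℝ} (hg : ContDiff ℝ ∞ g) (hh : ContDiff ℝ ∞ h) (j : Fin 3) (x : R3) :
    pd j (fun y => g y + h y) x = pd j g x + pd j h x := by
  unfold pd
  rw [fderiv_fun_add (hg.differentiable (by simp) x) (hh.differentiable (by simp) x)]
  rfl

lemma pd_sub {g h : R3 → ℝ} (hg : ContDiff ℝ ∞ g) (hh : ContDiff ℝ ∞ h) (j : Fin 3) (x : R3) :
    pd j (fun y => g y - h y) x = pd j g x - pd j h x := by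
  unfold pd
  rw [fderiv_fun_sub (hg.differentiable (by simp) x) (hh.differentiable (by simp) x)]
  rfl

lemma pd_mul {g : R3 → ℝ} (hg : ContDiff ℝ ∞ g) (c : ℝ) (j : Fin 3) (x : R3) :
    pd j (fun y => c * g y) x = c * pd j g x := by
  unfold pd
  rw [fderiv_const_mul (hg.differentiable (by simp) x)]
  rfl

lemma pd_const (c : ℝ) (j : Fin 3) (x : R3) : pd j (fun _ => c) x = 0 := by
  unfold pd
  simp

/-- the mixture `v + c (B - v)` -/
lemma mix_pd {v B : R3 → ℝ} (hv : ContDiff ℝ ∞ v) (hB : ContDiff ℝ ∞ B) (c : ℝ) (j : Fin 3) (x : R3) :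
    pd j (fun y => v y + c * (B y - v y)) x = pd j v x + c * (pd j B x - pd j v x) := by
  rw [pd_add hv (contDiff_const.mul (hB.sub hv)), pd_mul (hB.sub hv), pd_sub hB hv]

lemma mix_lap {v B : R3 → R3} (hv : Smo v) (hB : Smo B) (c : ℝ) (x : R3) (i : Fin 3) :
    lap (fun y i => v y i + c * (B y i - v y i)) x i = (1 - c) * lap v x i + c * lap B x i := by
  unfold lap
  have e : ∀ j, (pd j fun y => v y i + c * (B y i - v y i))
      = fun x => pd j (fun y => v y i) x + c * (pd j (fun y => B y i) x - pd j (fun y => v y i) x) :=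
    fun j => funext fun x => mix_pd (hv.comp i) (hB.comp i) c j x
  simp only [e]
  have e2 : ∀ j, pd j (fun x => pd j (fun y => v y i) x
      + c * (pd j (fun y => B y i) x - pd j (fun y => v y i) x)) x
      = pd j (pd j fun y => v y i) x + c * (pd j (pd j fun y => B y i) x - pd j (pd j fun y => v y i) x) :=
    fun j => mix_pd (pd_smooth (hv.comp i) j) (pd_smooth (hB.comp i) j) c j x
  simp only [e2]
  rw [Finset.mul_sum, Finset.mul_sum, ← Finset.sum_add_distrib]
  refine Finset.sum_congr rfl fun j _ => ?_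
  ring

lemma mix_adv {v B : R3 → R3} (hv : Smo v) (hB : Smo B) (c : ℝ) (x : R3) (i : Fin 3) :
    adv (fun y i => v y i + c * (B y i - v y i)) (fun y i => v y i + c * (B y i - v y i)) x i
      = (1 - c) * adv v v x i + c * adv B B x i
        - c * (1 - c) * adv (fun y i => B y i - v y i) (fun y i => B y i - v y i) x i := by
  unfold adv
  have e : ∀ j, pd j (fun y => v y i + c * (B y i - v y i)) x
      = pd j (fun y => v y i) x + c * (pd j (fun y => B y i) x - pd j (fun y => v y i) x) :=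
    fun j => mix_pd (hv.comp i) (hB.comp i) c j x
  have e2 : ∀ j, pd j (fun y => B y i - v y i) x = pd j (fun y => B y i) x - pd j (fun y => v y i) x :=
    fun j => pd_sub (hB.comp i) (hv.comp i) j x
  simp only [e, e2]
  rw [Finset.mul_sum, Finset.mul_sum, Finset.mul_sum, ← Finset.sum_add_distrib, ← Finset.sum_sub_distrib]
  refine Finset.sum_congr rfl fun j _ => ?_
  ring

lemma res_mix {ν : ℝ} {U v B : ℝ → R3 → R3} {P pv pB : ℝ → R3 → ℝ} {χ : ℝ → ℝ} {t χ' : ℝ}
    (hU : ∀ᶠ s in 𝓝 t, U s = fun x i => v s x i + χ s * (B s x i - v s x i))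
    (hP : P t = fun x => pv t x + χ t * (pB t x - pv t x))
    (hχ : HasDerivAt χ χ' t) (hv : Smo (v t)) (hB : Smo (B t)) (hpv : ContDiff ℝ ∞ (pv t))
    (hpB : ContDiff ℝ ∞ (pB t)) (x : R3) (i : Fin 3)
    (hdv : DifferentiableAt ℝ (fun s => v s x i) t) (hdB : DifferentiableAt ℝ (fun s => B s x i) t) :
    res ν U P t x i = (1 - χ t) * res ν v pv t x i + χ t * res ν B pB t x i
      + χ' * (B t x i - v t x i)
      - χ t * (1 - χ t) * adv (fun y i => B t y i - v t y i) (fun y i => B t y i - v t y i) x i := by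
  have hUt := hU.self_of_nhds
  unfold res
  have e1 : deriv (fun s => U s x i) t
      = deriv (fun s => v s x i) t + (χ' * (B t x i - v t x i)
        + χ t * (deriv (fun s => B s x i) t - deriv (fun s => v s x i) t)) := by
    have h1 : (fun s => U s x i) =ᶠ[𝓝 t] fun s => v s x i + χ s * (B s x i - v s x i) := by
      filter_upwards [hU] with s hs
      rw [hs]
    rw [h1.deriv_eq]
    exact (hdv.hasDerivAt.add (hχ.mul (hdB.hasDerivAt.sub hdv.hasDerivAt))).deriv
  rw [e1, hUt, hP, mix_adv hv hB, mix_lap hv hB, mix_pd hpv hpB]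
  ring

/-! ### Smoothness with cut-offs -/

lemma Sm.cut {F : ℝ → R3 → ℝ} (hF : Sm (Ici 0) F) {c : ℝ → ℝ} (hc : ContDiff ℝ ∞ c) {a : ℝ}
    (ha : 0 < a) (h0 : ∀ τ < a, c τ = 0) : Sm univ (fun t x => c t * F t x) := by
  intro z _
  refine ContDiffAt.contDiffWithinAt ?_
  rcases lt_or_ge z.1 a with h | h
  · have : (fun z : ℝ × R3 => c z.1 * F z.1 z.2) =ᶠ[𝓝 z] fun _ => (0 : ℝ) := by
      have h1 : ∀ᶠ w : ℝ × R3 in 𝓝 z, w.1 < a := continuous_fst.continuousAt.eventually (gt_mem_nhds h)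
      filter_upwards [h1] with w hw
      rw [h0 _ hw, zero_mul]
    exact contDiffAt_const.congr_of_eventuallyEq this
  · have hz : (Ici (0 : ℝ)) ×ˢ (univ : Set R3) ∈ 𝓝 z := by
      apply prod_mem_nhds (Ici_mem_nhds (ha.trans_le h)) univ_mem
    have h1 : ContDiffAt ℝ ∞ (fun z : ℝ × R3 => F z.1 z.2) z := ContDiffOn.contDiffAt hF hz
    exact (hc.comp contDiff_fst).contDiffAt.mul h1

lemma Sm.congr {T : Set ℝ} {F G : ℝ → R3 → ℝ} (hF : Sm T F) (h : ∀ t ∈ T, ∀ x, G t x = F t x) : Sm T G :=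
  ContDiffOn.congr hF fun z hz => h z.1 hz.1 z.2

/-- the field `(a · ∇) b` is smooth -/
lemma Sm.adv {T : Set ℝ} (hT : UniqueDiffOn ℝ T) {a b : ℝ → R3 → R3} (ha : ∀ i, Sm T (fun t x => a t x i))
    (hb : ∀ i, Sm T (fun t x => b t x i)) (i : Fin 3) : Sm T (fun t x => adv (a t) (b t) x i) := by
  unfold H3NS.adv
  exact Sm.sum fun j _ => (ha j).mul ((hb i).pd hT j)

lemma Sm.lap {T : Set ℝ} (hT : UniqueDiffOn ℝ T) {a : ℝ → R3 → R3} (ha : ∀ i, Sm T (fun t x => a t x i))
    (i : Fin 3) : Sm T (fun t x => lap (a t) x i) := by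
  unfold H3NS.lap
  exact Sm.sum fun j _ => ((ha i).pd hT j).pd hT j

lemma Pe.adv {a b : R3 → R3} (ha : Pe a) (hb : Pe b) : Pe (adv a b) := by
  intro x l
  funext i
  unfold H3NS.adv
  refine Finset.sum_congr rfl fun j _ => ?_
  have h1 : Pe (fun y => b y i) := fun x j => congrFun (hb x j) i
  have h2 := h1.pd j x l
  simp only at h2
  rw [ha x l, h2]

lemma Pe.lap {a : R3 → R3} (ha : Pe a) : Pe (lap a) := by
  intro x l
  funext i
  unfold H3NS.lap
  refine Finset.sum_congr rfl fun j _ => ?_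
  have h1 : Pe (fun y => a y i) := fun x j => congrFun (ha x j) i
  exact (h1.pd j).pd j x l

lemma SV.adv {T : Set ℝ} (hT : UniqueDiffOn ℝ T) {a b : ℝ → R3 → R3} (ha : SV T a) (hb : SV T b) :
    SV T (fun t => adv (a t) (b t)) :=
  ⟨fun i => Sm.adv hT ha.sm hb.sm i, fun t ht => (ha.per t ht).adv (hb.per t ht)⟩

lemma SV.lap {T : Set ℝ} (hT : UniqueDiffOn ℝ T) {a : ℝ → R3 → R3} (ha : SV T a) :
    SV T (fun t => lap (a t)) :=
  ⟨fun i => Sm.lap hT ha.sm i, fun t ht => (ha.per t ht).lap⟩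

lemma SV.sub {T : Set ℝ} {a b : ℝ → R3 → R3} (ha : SV T a) (hb : SV T b) :
    SV T (fun t x i => a t x i - b t x i) :=
  ⟨fun i => (ha.sm i).sub (hb.sm i), fun t ht x j => by
    funext i
    simp only [ha.per t ht x j, hb.per t ht x j]⟩

end Pool.Agent.H3NS
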