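import Pool.Agent.H3NS.Cost

set_option autoImplicit false
set_option maxHeartbeats 4000000
set_option synthInstance.maxHeartbeats 400000

open MeasureTheory Set Filter Topology
open scoped ENNReal NNReal ContDiff

namespace Pool.Agent.H3NS

open Pool.Agent.H356R3.NS

lemma ex_sub (k : K) (x y : E3) : ex k (x - y) = ex k (-y) * ex k x := by
  unfold ex
  rw [← Complex.exp_add]
  congr 1
  rw [← mul_add, ← Finset.sum_add_distrib]
  congr 1
  refine Finset.sum_congr rfl fun j _ => ?_
  simp only [Pi.sub_apply, Pi.neg_apply]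
  push_cast
  ring

lemma fc_tsum {c : K → C3} (hs : SN c) (hsym : Sym c) :
    fc (fun x i => (∑' k, c k i * ex k x).re) = c := by
  have hs' : ∀ i, Summable fun k => ‖c k i‖ := fun i =>
    hs.of_nonneg_of_le (fun _ => norm_nonneg _) fun k => norm_le_pi_norm _ i
  have hsx : ∀ i x, Summable fun k => c k i * ex k x := by
    intro i x
    refine Summable.of_norm_bounded (hs' i) fun k => ?_
    rw [norm_mul, norm_ex, mul_one]
  have hre : ∀ i x, (((∑' k, c k i * ex k x).re : ℝ) : ℂ) = ∑' k, c k i * ex k x := by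
    intro i x
    have h1 : (SF (fun k _ => c k i) ((0 : ℝ), x)).im = 0 := SF_real (fun k _ => hsym k i) _
    have h2 : SF (fun k _ => c k i) ((0 : ℝ), x) = ∑' k, c k i * ex k x := rfl
    rw [h2] at h1
    exact Complex.ext (by simp) (by simp [h1])
  funext k i
  rw [fc_eq]
  simp only [hre]
  have h3 : IsFiniteMeasure (volume.restrict Q3 : Measure E3) :=
    ⟨by rw [Measure.restrict_apply_univ, Q3_vol]; exact ENNReal.one_lt_top⟩
  have hnorm : ∀ l, ∫ x in Q3, ‖c l i * ex (l - k) x‖ = ‖c l i‖ := by
    intro l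
    simp only [norm_mul, norm_ex, mul_one]
    rw [integral_const]
    have : (volume.restrict Q3 : Measure E3).real univ = 1 := by
      rw [Measure.real, Measure.restrict_apply_univ, Q3_vol]; rfl
    rw [this, one_smul]
  have e1 : ∀ x, (∑' l, c l i * ex l x) * ex (-k) x = ∑' l, c l i * ex (l - k) x := by
    intro x
    rw [← tsum_mul_right]
    refine tsum_congr fun l => ?_
    rw [mul_assoc, ← ex_add, ← sub_eq_add_neg]
  simp only [e1]
  have hint : ∀ l, Integrable (fun x => c l i * ex (l - k) x) (volume.restrict Q3) := by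
    intro l
    have : Continuous fun x => c l i * ex (l - k) x := continuous_const.mul (ex_cont _)
    exact this.continuousOn.integrableOn_compact isCompact_Icc
  rw [← integral_tsum_of_summable_integral_norm hint (by simpa only [hnorm] using hs' i)]
  simp only [integral_const_mul, ex_int, sub_eq_zero, mul_ite, mul_one, mul_zero]
  rw [tsum_ite_eq]

lemma fc_phys {c ρ : ℝ} (hρ : 0 < ρ) {V : K → C3} {u : Fam} (hu : Sol c ρ V u) {a0 : C3}
    (ha0 : ∀ i, a0 i = star (a0 i)) (t : ℝ) :
    fc (fun x i => (a0 i).re + (GS (fun i => (a0 i).re) (cf' u i) t x).re)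
      = fun k => if k = 0 then a0 else fun i => u k t i * ex k (-(t • fun i => (a0 i).re)) := by
  have hdom := hu.dom' hρ
  set m : E3 := fun i => (a0 i).re with hm
  set d : K → C3 := fun k => if k = 0 then a0 else fun i => u k t i * ex k (-(t • m)) with hd
  have d0 : d 0 = a0 := by simp [hd]
  have dk : ∀ k, k ≠ 0 → d k = fun i => u k t i * ex k (-(t • m)) := fun k hk => by
    simp only [hd]
    rw [if_neg hk]
  have hsn : SN d := by
    have h1 : Summable fun k => ‖u k t‖ + (if k = 0 then ‖a0‖ else 0) := by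
      have h0 : Summable fun k => ‖u k t‖ := hdom.sn t
      refine h0.add (summable_of_ne_finset_zero (s := {0}) fun k hk => ?_)
      rw [if_neg (by simpa using hk)]
    refine h1.of_nonneg_of_le (fun _ => norm_nonneg _) fun k => ?_
    by_cases h : k = 0
    · subst h
      rw [d0, if_pos rfl]
      have := norm_nonneg (u 0 t)
      linarith
    · rw [dk k h, if_neg h, add_zero]
      rw [pi_norm_le_iff_of_nonneg (norm_nonneg _)]
      intro i
      rw [norm_mul, norm_ex, mul_one]
      exact norm_le_pi_norm _ i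
  have hsy : Sym d := by
    intro k i
    by_cases h : k = 0
    · subst h
      rw [neg_zero, d0]
      exact ha0 i
    · rw [dk k h, dk (-k) (neg_ne_zero.2 h)]
      have := hu.sym t k i
      simp only [at'] at this
      simp only
      rw [this, ex_neg, star_mul']
  rw [← fc_tsum hsn hsy]
  congr 1
  funext x i
  have hs1 : Summable fun k => u k t i * ex k (x - t • m) := by
    refine Summable.of_norm_bounded (hdom.sn t) fun k => ?_
    rw [norm_mul, norm_ex, mul_one]
    exact norm_le_pi_norm _ i
  have hs2 : Summable fun k : K => (if k = 0 then a0 i else 0) := by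
    refine summable_of_ne_finset_zero (s := {0}) fun k hk => ?_
    rw [if_neg (by simpa using hk)]
  have e4 : ∀ k, d k i * ex k x
      = (if k = 0 then a0 i else 0) + u k t i * ex k (x - t • m) := by
    intro k
    by_cases h : k = 0
    · subst h
      have e0 := hu.z t
      rw [e0, d0]
      simp [ex]
    · rw [dk k h, if_neg h, zero_add]
      simp only
      rw [ex_sub]
      ring
  simp only [e4]
  rw [hs2.tsum_add hs1, Complex.add_re, tsum_ite_eq]
  rfl

theorem core3 {ν r : ℝ} (hν : 0 < ν) (hr : 2 < r) {a : K → C3} (hsym : Sym a)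
    (hdiv : ∀ k, dt k (a k) = 0) (hfin : crit r a ≠ ⊤) (K0 : ℕ) {ε δ : ℝ} (hε : 0 < ε) (hδ1 : 0 < δ) :
    ∃ b : K → C3, (Function.support b).Finite ∧ Sym b ∧ (∀ k, dt k (b k) = 0) ∧
      (∀ k : K, (∀ i, |k i| ≤ K0) → b k = a k) ∧ crit r (fun k => b k - a k) ≤ ENNReal.ofReal ε ∧
      ∃ u p, AdmissiblePeriodic ν (fun x i => (∑' k, b k i * ex k x).re) u p ∧
        (∀ t, fc (u t) 0 = a 0) ∧
        ∀ t, δ ≤ t → (∑' k, if k = 0 then 0 else ‖fc (u t) k‖ₑ) ≤ ENNReal.ofReal δ := by
  classical
  have hc : 0 < 4 * Real.pi ^ 2 * ν := by positivity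
  obtain ⟨ε', hε', hlate⟩ := late hc (half_pos hδ1) hδ1
  -- choose the cut-off
  have hδ : 0 < ε / 2 ^ r := by positivity
  obtain ⟨J, hJ⟩ := crit_tail (by linarith : 0 < r) hfin (ENNReal.ofReal_pos.2 hδ)
  obtain ⟨M, hM, hMJ⟩ : ∃ M : ℕ, K0 ≤ M ∧ 2 ^ J ≤ M := ⟨max K0 (2 ^ J), le_max_left _ _, le_max_right _ _⟩
  have hMJ' : ((2 : ℝ) ^ J) ≤ M := by exact_mod_cast hMJ
  have hsmall : ∀ k : K, Pool.Agent.H356R3.NS.sq k < 4 ^ J → k ∈ bx M := by
    intro k hk
    rw [mem_bx]
    intro i
    by_contra h
    push Not at h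
    have h1 : (M : ℝ) < |(k i : ℝ)| := by exact_mod_cast h
    have h2 : (k i : ℝ) ^ 2 ≤ Pool.Agent.H356R3.NS.sq k := Finset.single_le_sum (f := fun i => (k i : ℝ) ^ 2)
      (fun i _ => sq_nonneg _) (Finset.mem_univ i)
    have h3 : (4 : ℝ) ^ J ≤ (k i : ℝ) ^ 2 := by
      rw [← sq_abs (k i : ℝ)]
      calc (4 : ℝ) ^ J = (2 ^ J) ^ 2 := by rw [← pow_mul, mul_comm, pow_mul]; norm_num
        _ ≤ _ := pow_le_pow_left₀ (by positivity) (hMJ'.trans h1.le) 2
    linarith
  -- the low modes
  set V0 : K → C3 := fun k => if k ≠ 0 ∧ k ∈ bx M then a k else 0 with hV0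
  have hV0fin : (Function.support V0).Finite := by
    refine (bx M).finite_toSet.subset fun k hk => ?_
    by_contra h
    apply hk
    have : k ∉ bx M := h
    simp only [hV0]
    rw [if_neg (fun h' => this h'.2)]
  have hV00 : V0 0 = 0 := by simp [hV0]
  have hV0div : ∀ k, dt k (V0 k) = 0 := by
    intro k
    simp only [hV0]
    split_ifs
    · exact hdiv k
    · simp [dt]
  have hbneg : ∀ k : K, -k ∈ bx M ↔ k ∈ bx M := by
    intro k; simp only [mem_bx, Pi.neg_apply, abs_neg]
  have hV0sym : Sym V0 := by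
    intro k i
    simp only [hV0]
    by_cases h : k ≠ 0 ∧ k ∈ bx M
    · rw [if_pos h, if_pos ⟨neg_ne_zero.2 h.1, (hbneg k).2 h.2⟩]
      exact hsym k i
    · rw [if_neg h, if_neg (fun h' => h ⟨neg_ne_zero.1 h'.1, (hbneg k).1 h'.2⟩)]
      simp
  obtain ⟨W, hW⟩ := near_target hc hr (half_pos hδ1) M hV0fin hV00 hV0div hV0sym (min (ε / 2 ^ r) ε')
    (lt_min hδ hε')
  have hWsmall : crit r W ≤ ENNReal.ofReal (ε / 2 ^ r) :=
    hW.small.trans (ENNReal.ofReal_le_ofReal (min_le_left _ _))
  obtain ⟨ρ, hρ, u, hu, hLd⟩ := hW.good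
  have hAn := hlate ρ hρ _ u hu (hLd.trans (ENNReal.ofReal_le_ofReal (min_le_right _ _)))
  set b : K → C3 := fun k => if k = 0 then a 0 else V0 k + W k with hb
  have hW0 : ∀ k ∈ bx M, W k = 0 := fun k hk => hW.cut k (mem_bx.1 hk)
  have h0M : (0 : K) ∈ bx M := by rw [mem_bx]; intro i; simp
  have hbM : ∀ k ∈ bx M, b k = a k := by
    intro k hk
    simp only [hb]
    split_ifs with h
    · rw [h]
    · rw [hW0 k hk, add_zero]
      simp only [hV0]
      rw [if_pos ⟨h, hk⟩]
  have hbM' : ∀ k, k ∉ bx M → b k = W k := by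
    intro k hk
    simp only [hb]
    rw [if_neg (fun h => hk (by rw [h]; exact h0M))]
    simp only [hV0]
    rw [if_neg (fun h => hk h.2), zero_add]
  have hreal : ∀ i, (((a 0 i).re : ℝ) : ℂ) = a 0 i := by
    intro i
    have := hsym 0 i
    rw [neg_zero, Complex.star_def] at this
    exact Complex.conj_eq_iff_re.1 this.symm
  refine ⟨b, ?_, ?_, ?_, ?_, ?_, ?_⟩
  · refine ((bx M).finite_toSet.union hW.fin).subset fun k hk => ?_
    by_cases h : k ∈ bx M
    · exact Or.inl h
    · refine Or.inr ?_
      rw [Function.mem_support, hbM' k h] at hk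
      exact hk
  · intro k i
    by_cases h : k ∈ bx M
    · rw [hbM k h, hbM _ ((hbneg k).2 h)]
      exact hsym k i
    · rw [hbM' k h, hbM' _ (fun h' => h ((hbneg k).1 h'))]
      exact hW.sym k i
  · intro k
    by_cases h : k ∈ bx M
    · rw [hbM k h]; exact hdiv k
    · rw [hbM' k h]; exact hW.div k
  · intro k hk
    exact hbM k (mem_bx.2 fun i => (hk i).trans (by exact_mod_cast hM))
  · -- the distance
    set T : K → C3 := fun k => if k ∈ bx M then 0 else a k with hT
    have hT1 : crit r T < ENNReal.ofReal (ε / 2 ^ r) := by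
      apply hJ T
      · intro k
        simp only [hT]
        split_ifs
        · exact Or.inr rfl
        · exact Or.inl rfl
      · intro k hk
        simp only [hT]
        rw [if_pos (hsmall k hk)]
    have e : (fun k => b k - a k) = fun k => W k - T k := by
      funext k
      by_cases h : k ∈ bx M
      · rw [hbM k h, hW0 k h]; simp only [hT]; rw [if_pos h]; simp
      · rw [hbM' k h]; simp only [hT]; rw [if_neg h]
    rw [e]
    refine (crit_sub_le (by linarith : (1 : ℝ) ≤ r) W T).trans ?_
    calc (2 : ℝ≥0∞) ^ (r - 1) * (crit r W + crit r T)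
        ≤ 2 ^ (r - 1) * (ENNReal.ofReal (ε / 2 ^ r) + ENNReal.ofReal (ε / 2 ^ r)) :=
          mul_le_mul' le_rfl (add_le_add hWsmall hT1.le)
      _ = ENNReal.ofReal (2 ^ (r - 1) * (ε / 2 ^ r + ε / 2 ^ r)) := by
          rw [ENNReal.ofReal_mul (by positivity), ENNReal.ofReal_add hδ.le hδ.le,
            ← ENNReal.ofReal_rpow_of_nonneg (by norm_num) (by linarith)]
          simp
      _ ≤ _ := by
          apply ENNReal.ofReal_le_ofReal
          have : (2 : ℝ) ^ r = 2 ^ (r - 1) * 2 := by
            rw [← Real.rpow_add_one (by norm_num)]; congr 1; ring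
          rw [this]
          have h2 : (0 : ℝ) < 2 ^ (r - 1) := by positivity
          apply le_of_eq
          field_simp
          norm_num
  · have hVdiv : ∀ k, dt k ((V0 + W) k) = 0 := by
      intro k; rw [Pi.add_apply, dt_add, hV0div, hW.div, add_zero]
    have hphys := sol_physical hρ hVdiv hu (fun i => (a 0 i).re)
    suffices hv : (fun (x : E3) i => (∑' k, b k i * ex k x).re)
        = fun x i => (a 0 i).re + (∑' k, (V0 + W) k i * ex k x).re by
      rw [hv]
      have hdom := hu.dom' hρ
      have hfc := fc_phys hρ hu (a0 := a 0) (fun i => by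
        have := hsym 0 i
        rw [neg_zero] at this
        exact this)
      refine ⟨_, _, hphys, fun t => ?_, fun t ht => ?_⟩
      · rw [hfc t]
        simp
      · rw [hfc t]
        have h2 := hAn t (by linarith)
        refine le_trans ?_ (ENNReal.ofReal_le_ofReal h2)
        rw [← An_eq hdom t]
        refine ENNReal.tsum_le_tsum fun k => ?_
        by_cases h : k = 0
        · simp [h]
        · simp only [if_neg h]
          refine enorm_pi_le fun i => ?_
          rw [enorm_mul]
          have : ‖ex k (-(t • fun i => (a 0 i).re))‖ₑ = 1 := by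
            rw [← ofReal_norm, norm_ex, ENNReal.ofReal_one]
          rw [this, mul_one]
          exact enorm_apply_le _ i
    funext x i
    have hVfin : (Function.support (V0 + W)).Finite :=
      (hV0fin.union hW.fin).subset (Function.support_add V0 W)
    have hs1 : Summable fun k => (V0 + W) k i * ex k x := by
      refine summable_of_ne_finset_zero (s := hVfin.toFinset) fun k hk => ?_
      have : (V0 + W) k = 0 := by
        by_contra h
        exact hk (by rw [Set.Finite.mem_toFinset]; exact h)
      rw [this]; simp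
    have hs2 : Summable fun k : K => (if k = 0 then a 0 i else 0) := by
      refine summable_of_ne_finset_zero (s := {0}) fun k hk => ?_
      rw [if_neg (by simpa using hk)]
    have e3 : ∀ k, b k i * ex k x = (if k = 0 then a 0 i else 0) + (V0 + W) k i * ex k x := by
      intro k
      by_cases h : k = 0
      · subst h
        have e0 : (V0 + W) 0 = 0 := by rw [Pi.add_apply, hV00, hW0 0 h0M, add_zero]
        rw [e0]
        simp [hb, ex]
      · simp [hb, h]
    simp only [e3]
    rw [hs2.tsum_add hs1, Complex.add_re]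
    congr 1
    rw [tsum_ite_eq]



end Pool.Agent.H3NS
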