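import Pool.Agent.H3NS.Near2
import Pool.Agent.H3NS.Core3

set_option autoImplicit false
set_option maxHeartbeats 4000000
set_option synthInstance.maxHeartbeats 400000

open MeasureTheory Set Filter Topology
open scoped ENNReal NNReal ContDiff

namespace Pool.Agent.H3NS

open Pool.Agent.H356R3.NS Pool.Agent.H356R3.NS.H3

lemma NW_zero_eq (x : K → C3) : NW (Wa 0) x = ∑' k, ‖x k‖ₑ := by
  unfold NW Wa om
  refine tsum_congr fun k => ?_
  simp

lemma rpow_interp {p R A : ℝ} (hp1 : 1 ≤ p) (hp2 : p < 2) (hR : 0 < R) (hA : 0 ≤ A) :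
    A ^ p ≤ R ^ (p - 1) * A + R ^ (p - 2) * A ^ 2 := by
  rcases hA.eq_or_lt with rfl | hA
  · rw [Real.zero_rpow (by linarith)]
    simp
  · rcases le_total A R with h | h
    · have h1 : A ^ p = A ^ (p - 1) * A := by
        rw [← Real.rpow_add_one hA.ne']
        congr 1
        ring
      have h2 : A ^ (p - 1) ≤ R ^ (p - 1) := Real.rpow_le_rpow hA.le h (by linarith)
      have h3 : 0 ≤ R ^ (p - 2) * A ^ 2 := by positivity
      rw [h1]
      nlinarith [mul_le_mul_of_nonneg_right h2 hA.le]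
    · have h1 : A ^ p = A ^ (p - 2) * A ^ 2 := by
        rw [← Real.rpow_natCast A 2, ← Real.rpow_add hA]
        congr 1
        push_cast
        ring
      have h2 : A ^ (p - 2) ≤ R ^ (p - 2) := Real.rpow_le_rpow_of_nonpos hR h (by linarith)
      have h3 : 0 ≤ R ^ (p - 1) * A := by positivity
      rw [h1]
      nlinarith [mul_le_mul_of_nonneg_right h2 (sq_nonneg A)]

lemma interp_int {φ : ℝ → ℝ≥0∞} {A : ℝ → ℝ} (hφ : φ = fun t => ENNReal.ofReal (A t)) (hA : ∀ t, 0 ≤ A t)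
    (hm : Measurable φ) {p R : ℝ} (hp1 : 1 ≤ p) (hp2 : p < 2) (hR : 0 < R) {ε M : ℝ}
    (h1 : ∫⁻ t in Ioc 0 1, φ t ≤ ENNReal.ofReal ε) (h2 : ∫⁻ t in Ioi 0, φ t ^ (2 : ℝ) ≤ ENNReal.ofReal M)
    (hε : 0 ≤ ε) (hM : 0 ≤ M) :
    ∫⁻ t in Ioc 0 1, (φ t + φ t ^ p) ≤ ENNReal.ofReal ((1 + R ^ (p - 1)) * ε + R ^ (p - 2) * M) := by
  have hp : ∀ t, φ t + φ t ^ p ≤ ENNReal.ofReal (1 + R ^ (p - 1)) * φ t
      + ENNReal.ofReal (R ^ (p - 2)) * φ t ^ (2 : ℝ) := by
    intro t
    simp only [hφ]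
    have h0 := hA t
    rw [ENNReal.ofReal_rpow_of_nonneg h0 (by linarith), ENNReal.ofReal_rpow_of_nonneg h0 (by norm_num),
      ← ENNReal.ofReal_mul (by positivity), ← ENNReal.ofReal_mul (by positivity),
      ← ENNReal.ofReal_add h0 (by positivity), ← ENNReal.ofReal_add (by positivity) (by positivity)]
    apply ENNReal.ofReal_le_ofReal
    have := rpow_interp hp1 hp2 hR h0
    rw [Real.rpow_two]
    linarith
  refine (lintegral_mono hp).trans ?_
  have e5 : ENNReal.ofReal ((1 + R ^ (p - 1)) * ε + R ^ (p - 2) * M)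
      = ENNReal.ofReal (1 + R ^ (p - 1)) * ENNReal.ofReal ε + ENNReal.ofReal (R ^ (p - 2)) * ENNReal.ofReal M := by
    rw [ENNReal.ofReal_add (by positivity) (by positivity), ENNReal.ofReal_mul (by positivity),
      ENNReal.ofReal_mul (p := R ^ (p - 2)) (by positivity)]
  rw [lintegral_add_left (hm.const_mul _), lintegral_const_mul _ hm, lintegral_const_mul _ (hm.pow_const _), e5]
  exact add_le_add (mul_le_mul' le_rfl h1)
    (mul_le_mul' le_rfl ((lintegral_mono_set Ioc_subset_Ioi_self).trans h2))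

lemma critNorm_mono {r : ℝ} (hr : 0 ≤ r) {a b : K → C3} (h : ∀ k, k ≠ 0 → ‖a k‖ₑ ≤ ‖b k‖ₑ) :
    critNorm r a ≤ critNorm r b := by
  unfold critNorm shellSum
  refine ENNReal.rpow_le_rpow (ENNReal.tsum_le_tsum fun j => ENNReal.rpow_le_rpow
    (ENNReal.div_le_div_right (ENNReal.tsum_le_tsum fun k => ?_) _) hr) (by positivity)
  split_ifs with hk
  · refine h k ?_
    rintro rfl
    have h1 := hk.1
    simp only [Pi.zero_apply, ne_eq, OfNat.ofNat_ne_zero, not_false_eq_true, zero_pow,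
      Finset.sum_const_zero] at h1
    have : (0 : ℤ) < 4 ^ j := by positivity
    linarith
  · exact le_rfl

lemma critNorm_le_NW {r : ℝ} (hr : 1 ≤ r) (a : K → C3) : critNorm r a ≤ 2 * NW (Wm 0) a := by
  rw [critNorm_eq]
  calc crit r a ^ (1 / r) ≤ ((2 * ∑' k, ENNReal.ofReal (1 / nk k) * ‖a k‖ₑ) ^ r) ^ (1 / r) :=
        ENNReal.rpow_le_rpow (crit_le hr _) (by positivity)
    _ = 2 * ∑' k, ENNReal.ofReal (1 / nk k) * ‖a k‖ₑ := by
        rw [← ENNReal.rpow_mul, mul_one_div_cancel (by linarith), ENNReal.rpow_one]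
    _ = 2 * NW (Wm 0) a := by
        unfold NW Wm om
        simp

/-- the critical norm of a solution is bounded at all times -/
lemma sol_crit {c a r : ℝ} (hc : 0 < c) (ha : 0 < a) (hr : 1 ≤ r) {V : K → C3} {u : Fam} (h : Sol c a V u)
    {t : ℝ} (ht : 0 ≤ t) : critNorm r (at' u t) ≤ critNorm r V + 2 * (ENNReal.ofReal C0 * L2 u) := by
  have hdom := h.dom' ha
  have hBc : CF (Bt u) := Bt_cont h.cf hdom
  have e : at' u t = (fun k => Real.exp (-(c * sq k * max t 0)) • V k) + at' (Duh c (Bt u)) t := by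
    funext k
    exact h.eq k t
  rw [e]
  refine (critNorm_add hr _ _).trans (add_le_add (critNorm_mono (by linarith) fun k _ => ?_) ?_)
  · rw [enorm_smul]
    calc _ ≤ 1 * ‖V k‖ₑ := by
          refine mul_le_mul' ?_ le_rfl
          rw [← ofReal_norm, ENNReal.ofReal_le_one, Real.norm_of_nonneg (Real.exp_pos _).le,
            Real.exp_le_one_iff]
          have h1 := sq_nonneg' k
          have h2 : 0 ≤ max t 0 := le_max_right _ _
          have h3 := mul_nonneg (mul_nonneg hc.le h1) h2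
          linarith
      _ = _ := one_mul _
  · refine (critNorm_le_NW hr _).trans (mul_le_mul' le_rfl ?_)
    refine (NW_Duh_le hc.le (Wm 0) hBc ht).trans ?_
    unfold L2
    rw [← lintegral_const_mul _ ((NW_meas _ h.cf).pow_const _)]
    refine (lintegral_mono_set (t := Ioi 0) fun s hs => hs.1).trans (lintegral_mono fun s => ?_)
    refine (NW_Bf_le le_rfl _ _).trans (le_of_eq ?_)
    rw [ENNReal.rpow_two, _root_.sq]

theorem core4 {ν r p : ℝ} (hν : 0 < ν) (hr : 2 < r) (hp1 : 1 ≤ p) (hp2 : p < 2) {V0 : K → C3}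
    (hfin : (Function.support V0).Finite) (h0 : V0 0 = 0) (hdiv : ∀ k, dt k (V0 k) = 0) (hsym : Sym V0)
    {ε δ : ℝ} (hε : 0 < ε) (hδ : 0 < δ) :
    ∃ W : K → C3, (Function.support W).Finite ∧ Sym W ∧ (∀ k, dt k (W k) = 0) ∧ W 0 = 0 ∧
      crit r W ≤ ENNReal.ofReal ε ∧
      ∃ (u : ℝ → R3 → R3) (P : ℝ → R3 → ℝ) (φ : ℝ → ℝ≥0∞),
        AdmissiblePeriodic ν (fun x i => (∑' k, (V0 + W) k i * ex k x).re) u P ∧ Measurable φ ∧
        (∀ t, (∑' k, ‖fc (u t) k‖ₑ) ≤ φ t) ∧ (∀ t x, ‖u t x‖ₑ ≤ φ t) ∧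
        (∀ t, δ ≤ t → φ t ≤ ENNReal.ofReal δ) ∧
        ∫⁻ t in Ioc 0 1, (φ t + φ t ^ p) ≤ ENNReal.ofReal ε ∧
        (∀ t, fc (u t) 0 = 0) ∧
        ∀ t, 0 ≤ t → critNorm r (fc (u t)) ≤ critNorm r V0
          + ENNReal.ofReal (9216 * (∑ k ∈ hfin.toFinset, 1 / nk k * ‖V0 k‖) + ε) := by
  have hc : 0 < 4 * Real.pi ^ 2 * ν := by positivity
  have hpi := Real.pi_pos
  obtain ⟨ε', hε', hlate⟩ := late hc (half_pos hδ) hδ
  have hnear := near2_target hc hr 0 hfin h0 hdiv hsym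
  obtain ⟨l, hld⟩ : ∃ l, l = ∑ k ∈ hfin.toFinset, 1 / nk k * ‖V0 k‖ := ⟨_, rfl⟩
  have hl0 : 0 ≤ l := by
    rw [hld]
    exact Finset.sum_nonneg fun k _ => by
      have := nk_nonneg k
      positivity
  have hMl : (∑ q ∈ hfin.toFinset, 128 / Real.pi * (1 / nk q * ‖V0 q‖)) = 128 / Real.pi * l := by
    rw [hld, Finset.mul_sum]
  obtain ⟨M, hMd⟩ : ∃ M, M = 128 / Real.pi * l + 1 := ⟨_, rfl⟩
  have hM : 0 ≤ M := by rw [hMd]; positivity
  obtain ⟨R, hR, hRM⟩ : ∃ R : ℝ, 0 < R ∧ R ^ (p - 2) * M ≤ ε / 2 := by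
    have h1 : Tendsto (fun R : ℝ => R ^ (-(2 - p)) * M) atTop (𝓝 (0 * M)) :=
      (tendsto_rpow_neg_atTop (by linarith : 0 < 2 - p)).mul_const M
    rw [zero_mul] at h1
    obtain ⟨R, h2, h3⟩ := ((h1.eventually (gt_mem_nhds (half_pos hε))).and (eventually_gt_atTop 0)).exists
    refine ⟨R, h3, ?_⟩
    rw [show p - 2 = -(2 - p) by ring]
    exact h2.le
  obtain ⟨ε1, hε1, h1a, h1b, h1c, h1d, h1e, h1f⟩ : ∃ ε1 : ℝ, 0 < ε1 ∧ ε1 ≤ ε ∧ ε1 ≤ ε' ∧
      ε1 ≤ ε / 2 / (1 + R ^ (p - 1)) ∧ ε1 ≤ 1 ∧ ε1 ≤ (ε / 2) ^ r ∧ ε1 ≤ ε / (144 * Real.pi) :=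
    ⟨min (min ε (min ε' (ε / 2 / (1 + R ^ (p - 1))))) (min 1 (min ((ε / 2) ^ r) (ε / (144 * Real.pi)))),
      lt_min (lt_min hε (lt_min hε' (by positivity))) (lt_min one_pos (lt_min (by positivity) (by positivity))),
      (min_le_left _ _).trans (min_le_left _ _),
      (min_le_left _ _).trans ((min_le_right _ _).trans (min_le_left _ _)),
      (min_le_left _ _).trans ((min_le_right _ _).trans (min_le_right _ _)),
      (min_le_right _ _).trans (min_le_left _ _),
      (min_le_right _ _).trans ((min_le_right _ _).trans (min_le_left _ _)),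
      (min_le_right _ _).trans ((min_le_right _ _).trans (min_le_right _ _))⟩
  obtain ⟨W, hW⟩ := hnear (δ / 2) (half_pos hδ) ε1 hε1
  rw [hMl] at hW
  obtain ⟨ρ, hρ, u, hu, hLd, hLi, hL2'⟩ := hW.good
  have hL2 : L2 u ≤ ENNReal.ofReal M :=
    hL2'.trans (ENNReal.ofReal_le_ofReal (by rw [hMd]; linarith))
  have hAn := hlate ρ hρ _ u hu (hLd.trans (ENNReal.ofReal_le_ofReal h1b))
  have hVdiv : ∀ k, dt k ((V0 + W) k) = 0 := by
    intro k; rw [Pi.add_apply, dt_add, hdiv, hW.div, add_zero]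
  have hphys := sol_physical hρ hVdiv hu (fun i => ((0 : C3) i).re)
  have hdom := hu.dom' hρ
  have hfc := fc_phys hρ hu (a0 := 0) (fun i => by simp)
  have hz : ∀ i, ((0 : C3) i).re = 0 := fun i => by simp
  have hv : (fun (x : E3) i => (∑' k, (V0 + W) k i * ex k x).re)
      = fun x i => ((0 : C3) i).re + (∑' k, (V0 + W) k i * ex k x).re := by
    funext x i
    rw [hz, zero_add]
  have hNWA : ∀ t, NW (Wa 0) (at' u t) = ENNReal.ofReal (An u t) := fun t => by
    rw [NW_zero_eq]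
    exact An_eq hdom t
  have hfcle : ∀ t k, ‖(if k = 0 then (0 : C3) else fun i => u k t i * ex k (-(t • fun i => ((0 : C3) i).re)))‖ₑ
      ≤ ‖at' u t k‖ₑ := by
    intro t k
    by_cases h : k = 0
    · rw [if_pos h]
      simp
    · rw [if_neg h]
      refine enorm_pi_le fun i => ?_
      rw [enorm_mul]
      have : ‖ex k (-(t • fun i => ((0 : C3) i).re))‖ₑ = 1 := by
        rw [← ofReal_norm, norm_ex, ENNReal.ofReal_one]
      rw [this, mul_one]
      exact enorm_apply_le _ i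
  refine ⟨W, hW.fin, hW.sym, hW.div, hW.cut 0 (by simp), hW.small.trans (ENNReal.ofReal_le_ofReal h1a),
    _, _, fun t => ENNReal.ofReal (An u t), by rw [hv]; exact hphys, ?_, fun t => ?_, fun t x => ?_,
    fun t ht => ?_, ?_, fun t => ?_, fun t ht => ?_⟩
  · exact (ENNReal.continuous_ofReal.comp (An_cont hu.cf hdom)).measurable
  · show _ ≤ ENNReal.ofReal (An u t)
    rw [hfc t, ← An_eq hdom t]
    exact ENNReal.tsum_le_tsum fun k => hfcle t k
  · rw [← ofReal_norm]
    apply ENNReal.ofReal_le_ofReal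
    rw [pi_norm_le_iff_of_nonneg (An_nonneg u t)]
    intro i
    rw [hz, zero_add, Real.norm_eq_abs]
    exact GS_le hdom _ i t x
  · exact ENNReal.ofReal_le_ofReal (hAn t (by linarith))
  · have h2 := interp_int (φ := fun t => ENNReal.ofReal (An u t)) (A := An u) rfl (An_nonneg u)
      (ENNReal.continuous_ofReal.comp (An_cont hu.cf hdom)).measurable hp1 hp2 hR
      (by simpa only [LI, hNWA] using hLi) (by simpa only [L2, hNWA] using hL2) hε1.le hM
    refine h2.trans (ENNReal.ofReal_le_ofReal ?_)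
    rw [le_div_iff₀ (by positivity)] at h1c
    linarith
  · rw [hfc t]
    simp
  · rw [hfc t]
    have hr1 : 1 ≤ r := by linarith
    refine (critNorm_mono (by linarith) fun k _ => hfcle t k).trans ((sol_crit hc hρ hr1 hu ht).trans ?_)
    have h2 : critNorm r (V0 + W) ≤ critNorm r V0 + ENNReal.ofReal (ε / 2) := by
      refine (critNorm_add hr1 _ _).trans (add_le_add le_rfl ?_)
      rw [critNorm_eq]
      calc crit r W ^ (1 / r) ≤ (ENNReal.ofReal ((ε / 2) ^ r)) ^ (1 / r) :=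
            ENNReal.rpow_le_rpow (hW.small.trans (ENNReal.ofReal_le_ofReal h1e)) (by positivity)
        _ = ENNReal.ofReal (ε / 2) := by
            rw [ENNReal.ofReal_rpow_of_nonneg (by positivity) (by positivity), ← Real.rpow_mul (half_pos hε).le,
              mul_one_div_cancel (by linarith), Real.rpow_one]
    have h3 : 2 * (ENNReal.ofReal C0 * L2 u) ≤ ENNReal.ofReal (9216 * l + ε / 2) := by
      calc 2 * (ENNReal.ofReal C0 * L2 u)
          ≤ 2 * (ENNReal.ofReal C0 * ENNReal.ofReal (128 / Real.pi * l + ε1)) := by gcongr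
        _ = ENNReal.ofReal (2 * (C0 * (128 / Real.pi * l + ε1))) := by
            rw [ENNReal.ofReal_mul (p := 2) (by norm_num), ENNReal.ofReal_mul C0_pos.le, ENNReal.ofReal_ofNat]
        _ ≤ _ := by
            apply ENNReal.ofReal_le_ofReal
            unfold C0
            have e1 : 2 * (36 * Real.pi * (128 / Real.pi * l + ε1)) = 9216 * l + 72 * Real.pi * ε1 := by
              field_simp
              ring
            rw [e1]
            rw [le_div_iff₀ (by positivity)] at h1f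
            linarith
    rw [← hld]
    refine (add_le_add h2 h3).trans (le_of_eq ?_)
    rw [add_assoc, ← ENNReal.ofReal_add (by positivity) (by positivity)]
    congr 2
    ring

end Pool.Agent.H3NS
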