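import Pool.Agent.H356R3.NS.Final2

set_option autoImplicit false

open MeasureTheory Set Filter Topology
open scoped ENNReal NNReal ContDiff ComplexConjugate

namespace Pool.Agent.H3NS

open Pool.Agent.H356R3.NS

/-- `|g^(0)|` plus the critical norm. -/
noncomputable def cost (r : ℝ) (g : R3 → R3) : ℝ≥0∞ := ‖fc g 0‖ₑ + critNorm r (fc g)

/-- Bounds for a field and its first derivatives. -/
structure C1le (g : R3 → R3) (M : ℝ) : Prop where
  v : ∀ x i, |g x i| ≤ M
  d : ∀ x i j, |pd j (fun y => g y i) x| ≤ M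

lemma bessel' {g : E3 → ℂ} (hg : MemLp g 2 (volume.restrict Q3)) {M : ℝ} (hM0 : 0 ≤ M)
    (hM : ∀ x, ‖g x‖ ≤ M) (S : Finset K) : ∑ l ∈ S, ‖∫ x in Q3, g x * ex (-l) x‖ ^ 2 ≤ M ^ 2 := by
  have h := ex_orthonormal.sum_inner_products_le (s := S) (x := hg.toLp g)
  have h2 : ∑ l ∈ S, ‖∫ x in Q3, g x * ex (-l) x‖ ^ 2 ≤ ‖hg.toLp g‖ ^ 2 := by
    refine le_trans (le_of_eq (Finset.sum_congr rfl fun l _ => ?_)) h
    rw [inner_toLp]
    congr 3
    funext x
    rw [ex_neg, Complex.star_def]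
  refine h2.trans (pow_le_pow_left₀ (norm_nonneg _) ?_ 2)
  have h3 : IsFiniteMeasure (volume.restrict Q3 : Measure E3) :=
    ⟨by rw [Measure.restrict_apply_univ, Q3_vol]; exact ENNReal.one_lt_top⟩
  have h4 := Lp.norm_le_of_ae_bound (μ := (volume.restrict Q3 : Measure E3)) (p := 2)
    (f := hg.toLp g) hM0 (by
      filter_upwards [hg.coeFn_toLp] with x hx
      rw [hx]; exact hM x)
  refine h4.trans (le_of_eq ?_)
  have : (volume.restrict Q3 : Measure E3).real univ = 1 := by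
    rw [Measure.real, Measure.restrict_apply_univ, Q3_vol]; rfl
  have h5 : measureUnivNNReal (volume.restrict Q3 : Measure E3) = 1 := by
    have : (measureUnivNNReal (volume.restrict Q3 : Measure E3) : ℝ≥0∞) = 1 := by
      rw [coe_measureUnivNNReal, Measure.restrict_apply_univ, Q3_vol]
    exact_mod_cast this
  rw [h5]
  simp

/-- the sum of the `|k|^(-4)` -/
noncomputable def S4 : ℝ := ∑' k : K, (1 / nk k) ^ 4

lemma S4_nonneg : 0 ≤ S4 := tsum_nonneg fun k => by
  have := nk_nonneg k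
  positivity

lemma leiLin_le {v : R3 → R3} (hv : ContDiff ℝ 1 v) (hp : ∀ x j, v (x + Pi.single j 1) = v x)
    {M : ℝ} (hM : 0 < M) (h : C1le v M) :
    ∑' k, ENNReal.ofReal (1 / nk k) * ‖fc v k‖ₑ ≤ ENNReal.ofReal ((S4 + 9) * M) := by
  have hbes : ∀ i j (S : Finset K), ∑ k ∈ S, ‖fj k j * fc v k i‖ ^ 2 ≤ M ^ 2 := by
    intro i j S
    have hc : Continuous fun x => ((pd j (fun y => v y i) x : ℝ) : ℂ) :=
      Complex.continuous_ofReal.comp (pd_cont hv i j)
    have hb : ∀ x, ‖((pd j (fun y => v y i) x : ℝ) : ℂ)‖ ≤ M := by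
      intro x
      rw [Complex.norm_real]
      exact h.d x i j
    have h3 : IsFiniteMeasure (volume.restrict Q3 : Measure E3) :=
      ⟨by rw [Measure.restrict_apply_univ, Q3_vol]; exact ENNReal.one_lt_top⟩
    have hm : MemLp (fun x => ((pd j (fun y => v y i) x : ℝ) : ℂ)) 2 (volume.restrict Q3) :=
      MemLp.of_bound hc.aestronglyMeasurable M (Filter.Eventually.of_forall hb)
    refine le_trans (le_of_eq (Finset.sum_congr rfl fun k _ => ?_)) (bessel' hm hM.le hb S)
    rw [fc_deriv hv hp]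
  have hle : ∀ k, 1 / nk k * ‖fc v k‖ ≤ M * (1 / nk k) ^ 4 + M⁻¹ * ∑ i, ∑ j, ‖fj k j * fc v k i‖ ^ 2 := by
    intro k
    by_cases hk : k = 0
    · subst hk
      rw [nk_zero]
      simp only [div_zero, zero_mul]
      positivity
    · have hn := one_le_nk hk
      have hn0 : 0 < nk k := by linarith
      have h1 : nk k ^ 2 * ‖fc v k‖ ^ 2 ≤ ∑ i, ∑ j, ‖fj k j * fc v k i‖ ^ 2 := by
        have h2 : ∀ i, nk k ^ 2 * ‖fc v k i‖ ^ 2 ≤ ∑ j, ‖fj k j * fc v k i‖ ^ 2 := by
          intro i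
          rw [nk_sq]
          unfold Pool.Agent.H356R3.NS.sq
          rw [Finset.sum_mul]
          refine Finset.sum_le_sum fun j _ => ?_
          rw [norm_mul, mul_pow]
          apply mul_le_mul_of_nonneg_right _ (by positivity)
          unfold fj
          rw [norm_mul, norm_mul, norm_mul, Complex.norm_I, Complex.norm_intCast, Complex.norm_real]
          simp only [Complex.norm_ofNat, Real.norm_eq_abs, abs_of_pos Real.pi_pos, mul_one]
          rw [mul_pow, sq_abs]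
          have h3 := Real.pi_gt_three
          exact le_mul_of_one_le_left (by positivity) (one_le_pow₀ (by linarith))
        have h9 : ‖fc v k‖ ^ 2 ≤ ∑ i, ‖fc v k i‖ ^ 2 := by
          have h10 : ‖fc v k‖ ≤ Real.sqrt (∑ i, ‖fc v k i‖ ^ 2) := by
            rw [pi_norm_le_iff_of_nonneg (Real.sqrt_nonneg _)]
            intro i
            apply Real.le_sqrt_of_sq_le
            exact Finset.single_le_sum (f := fun i => ‖fc v k i‖ ^ 2) (fun i _ => by positivity)
              (Finset.mem_univ i)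
          calc ‖fc v k‖ ^ 2 ≤ (Real.sqrt (∑ i, ‖fc v k i‖ ^ 2)) ^ 2 := by gcongr
            _ = _ := Real.sq_sqrt (by positivity)
        calc nk k ^ 2 * ‖fc v k‖ ^ 2 ≤ nk k ^ 2 * ∑ i, ‖fc v k i‖ ^ 2 := by gcongr
          _ = ∑ i, nk k ^ 2 * ‖fc v k i‖ ^ 2 := by rw [Finset.mul_sum]
          _ ≤ _ := Finset.sum_le_sum fun i _ => h2 i
      have h5 : 1 / nk k * ‖fc v k‖ = (1 / nk k) ^ 2 * (nk k * ‖fc v k‖) := by field_simp
      have h8 : M⁻¹ * (nk k ^ 2 * ‖fc v k‖ ^ 2) ≤ M⁻¹ * ∑ i, ∑ j, ‖fj k j * fc v k i‖ ^ 2 :=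
        mul_le_mul_of_nonneg_left h1 (by positivity)
      refine le_trans ?_ (add_le_add le_rfl h8)
      rw [h5]
      have h10 : M * (1 / nk k) ^ 4 + M⁻¹ * (nk k ^ 2 * ‖fc v k‖ ^ 2)
          - (1 / nk k) ^ 2 * (nk k * ‖fc v k‖)
          = M⁻¹ * ((M * (1 / nk k) ^ 2 - nk k * ‖fc v k‖ / 2) ^ 2 + 3 / 4 * (nk k * ‖fc v k‖) ^ 2) := by
        field_simp
        ring
      have h11 : 0 ≤ M⁻¹ * ((M * (1 / nk k) ^ 2 - nk k * ‖fc v k‖ / 2) ^ 2
          + 3 / 4 * (nk k * ‖fc v k‖) ^ 2) := by positivity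
      linarith
  have hsum : ∀ S : Finset K, ∑ k ∈ S, 1 / nk k * ‖fc v k‖ ≤ (S4 + 9) * M := by
    intro S
    have h0 : ∑ k ∈ S, (1 / nk k) ^ 4 ≤ S4 := summ_nk4.sum_le_tsum S fun k _ => by
      have := nk_nonneg k
      positivity
    have h9 : ∑ k ∈ S, ∑ i, ∑ j, ‖fj k j * fc v k i‖ ^ 2 ≤ 9 * M ^ 2 := by
      rw [Finset.sum_comm]
      have : ∀ i ∈ (Finset.univ : Finset (Fin 3)), ∑ k ∈ S, ∑ j, ‖fj k j * fc v k i‖ ^ 2 ≤ 3 * M ^ 2 := by
        intro i _
        rw [Finset.sum_comm]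
        refine (Finset.sum_le_sum fun j _ => hbes i j S).trans (le_of_eq ?_)
        simp
      refine (Finset.sum_le_sum this).trans (le_of_eq ?_)
      simp
      ring
    calc ∑ k ∈ S, 1 / nk k * ‖fc v k‖
        ≤ ∑ k ∈ S, (M * (1 / nk k) ^ 4 + M⁻¹ * ∑ i, ∑ j, ‖fj k j * fc v k i‖ ^ 2) :=
          Finset.sum_le_sum fun k _ => hle k
      _ = M * ∑ k ∈ S, (1 / nk k) ^ 4 + M⁻¹ * ∑ k ∈ S, ∑ i, ∑ j, ‖fj k j * fc v k i‖ ^ 2 := by
          rw [Finset.sum_add_distrib, ← Finset.mul_sum, ← Finset.mul_sum]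
      _ ≤ M * S4 + M⁻¹ * (9 * M ^ 2) := by gcongr
      _ = _ := by field_simp
  have e : ∀ k, ENNReal.ofReal (1 / nk k) * ‖fc v k‖ₑ = ENNReal.ofReal (1 / nk k * ‖fc v k‖) := by
    intro k
    rw [ENNReal.ofReal_mul (one_div_nonneg.2 (nk_nonneg k)), ofReal_norm]
  simp only [e]
  have h0 : ∀ k, 0 ≤ 1 / nk k * ‖fc v k‖ := fun k =>
    mul_nonneg (one_div_nonneg.2 (nk_nonneg k)) (norm_nonneg _)
  have hS2 : Summable fun k => 1 / nk k * ‖fc v k‖ := summable_of_sum_le h0 hsum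
  rw [← ENNReal.ofReal_tsum_of_nonneg h0 hS2]
  exact ENNReal.ofReal_le_ofReal (hS2.tsum_le_of_sum_le hsum)

end Pool.Agent.H3NS

namespace Pool.Agent.H3NS

open Pool.Agent.H356R3.NS

lemma fc_int {g : R3 → R3} (hg : Continuous g) (k : K) (i : Fin 3) :
    Integrable (fun x => (g x i : ℂ) * ex (-k) x) (volume.restrict Q3) := by
  have : Continuous fun x => (g x i : ℂ) * ex (-k) x :=
    (Complex.continuous_ofReal.comp ((continuous_apply i).comp hg)).mul (ex_cont _)
  exact this.continuousOn.integrableOn_compact isCompact_Icc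

lemma fc_add {g h : R3 → R3} (hg : Continuous g) (hh : Continuous h) (k : K) :
    fc (fun x => g x + h x) k = fc g k + fc h k := by
  funext i
  rw [Pi.add_apply, fc_eq, fc_eq, fc_eq, ← integral_add (fc_int hg k i) (fc_int hh k i)]
  refine integral_congr_ae (Filter.Eventually.of_forall fun x => ?_)
  simp only [Pi.add_apply]
  push_cast
  ring

lemma fc_smul {g : R3 → R3} (c : ℝ) (k : K) :
    fc (fun x => c • g x) k = (c : ℂ) • fc g k := by
  funext i
  rw [Pi.smul_apply, fc_eq, fc_eq, smul_eq_mul, ← integral_const_mul]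
  refine integral_congr_ae (Filter.Eventually.of_forall fun x => ?_)
  simp only [Pi.smul_apply, smul_eq_mul]
  push_cast
  ring

lemma fc_sub {g h : R3 → R3} (hg : Continuous g) (hh : Continuous h) (k : K) :
    fc (fun x => g x - h x) k = fc g k - fc h k := by
  have h1 := fc_add hg (h := fun x => (-1 : ℝ) • h x) (hh.const_smul (-1 : ℝ)) k
  have h2 := fc_smul (g := h) (-1) k
  have e : (fun x => g x - h x) = fun x => g x + (-1 : ℝ) • h x := by
    funext x; rw [neg_one_smul, sub_eq_add_neg]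
  rw [e, h1, h2]
  simp [sub_eq_add_neg]

lemma shellSum_add_le (a b : K → C3) (j : ℕ) :
    shellSum (fun k => a k + b k) j ≤ shellSum a j + shellSum b j := by
  rw [shellSum_eq, shellSum_eq, shellSum_eq, ← shell_add]
  exact shell_mono j fun k _ _ => enorm_add_le _ _

lemma critNorm_add {r : ℝ} (hr : 1 ≤ r) (a b : K → C3) :
    critNorm r (fun k => a k + b k) ≤ critNorm r a + critNorm r b := by
  unfold critNorm
  have h1 : ∀ j, (shellSum (fun k => a k + b k) j / 2 ^ j) ^ r ≤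
      (((fun j => shellSum a j / 2 ^ j) + (fun j => shellSum b j / 2 ^ j)) j) ^ r := by
    intro j
    refine ENNReal.rpow_le_rpow ?_ (by linarith)
    rw [Pi.add_apply, ← ENNReal.add_div]
    exact ENNReal.div_le_div_right (shellSum_add_le a b j) _
  refine (ENNReal.rpow_le_rpow (ENNReal.tsum_le_tsum h1) (by positivity)).trans ?_
  have h2 := ENNReal.lintegral_Lp_add_le (μ := (Measure.count : Measure ℕ)) (p := r)
    (f := fun j => shellSum a j / 2 ^ j) (g := fun j => shellSum b j / 2 ^ j)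
    (measurable_of_countable _).aemeasurable (measurable_of_countable _).aemeasurable hr
  simpa only [lintegral_count] using h2

lemma shellSum_smul (c : ℝ) (a : K → C3) (j : ℕ) :
    shellSum (fun k => (c : ℂ) • a k) j = ENNReal.ofReal |c| * shellSum a j := by
  unfold shellSum
  rw [← ENNReal.tsum_mul_left]
  refine tsum_congr fun k => ?_
  have e : ‖(c : ℂ) • a k‖ₑ = ENNReal.ofReal |c| * ‖a k‖ₑ := by
    rw [enorm_smul, ← ofReal_norm (c : ℂ), Complex.norm_real, Real.norm_eq_abs]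
  rw [e]
  split_ifs <;> simp

lemma critNorm_smul {r : ℝ} (hr : 1 ≤ r) (c : ℝ) (a : K → C3) :
    critNorm r (fun k => (c : ℂ) • a k) = ENNReal.ofReal |c| * critNorm r a := by
  unfold critNorm
  have e : ∀ j, (shellSum (fun k => (c : ℂ) • a k) j / 2 ^ j) ^ r
      = ENNReal.ofReal |c| ^ r * (shellSum a j / 2 ^ j) ^ r := by
    intro j
    rw [shellSum_smul, mul_div_assoc, ENNReal.mul_rpow_of_nonneg _ _ (by linarith)]
  simp only [e]
  rw [ENNReal.tsum_mul_left, ENNReal.mul_rpow_of_nonneg _ _ (by positivity), ← ENNReal.rpow_mul,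
    mul_one_div_cancel (by linarith), ENNReal.rpow_one]

lemma cost_add {r : ℝ} (hr : 1 ≤ r) {g h : R3 → R3} (hg : Continuous g) (hh : Continuous h) :
    cost r (fun x => g x + h x) ≤ cost r g + cost r h := by
  unfold cost
  have e : fc (fun x => g x + h x) = fun k => fc g k + fc h k := funext fun k => fc_add hg hh k
  rw [e]
  calc ‖fc g 0 + fc h 0‖ₑ + critNorm r (fun k => fc g k + fc h k)
      ≤ (‖fc g 0‖ₑ + ‖fc h 0‖ₑ) + (critNorm r (fc g) + critNorm r (fc h)) :=
        add_le_add (enorm_add_le _ _) (critNorm_add hr _ _)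
    _ = _ := by ring

lemma cost_smul {r : ℝ} (hr : 1 ≤ r) (c : ℝ) (g : R3 → R3) :
    cost r (fun x => c • g x) = ENNReal.ofReal |c| * cost r g := by
  unfold cost
  have e : fc (fun x => c • g x) = fun k => (c : ℂ) • fc g k := funext fun k => fc_smul c k
  rw [e, critNorm_smul hr, mul_add]
  congr 1
  rw [enorm_smul, ← ofReal_norm (c : ℂ), Complex.norm_real, Real.norm_eq_abs]

lemma norm_fc_le {g : R3 → R3} {M : ℝ} (hM0 : 0 ≤ M) (hM : ∀ x i, |g x i| ≤ M) (k : K) :
    ‖fc g k‖ ≤ M := by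
  rw [pi_norm_le_iff_of_nonneg hM0]
  intro i
  rw [fc_eq]
  have h3 : IsFiniteMeasure (volume.restrict Q3 : Measure E3) :=
    ⟨by rw [Measure.restrict_apply_univ, Q3_vol]; exact ENNReal.one_lt_top⟩
  refine (norm_integral_le_of_norm_le_const (C := M) (Filter.Eventually.of_forall fun x => ?_)).trans
    (le_of_eq ?_)
  · rw [norm_mul, norm_ex, mul_one, Complex.norm_real]
    exact hM x i
  · have : (volume.restrict Q3 : Measure E3).real univ = 1 := by
      rw [Measure.real, Measure.restrict_apply_univ, Q3_vol]; rfl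
    rw [this, mul_one]

/-- the constant in the comparison of the norms -/
noncomputable def Cc : ℝ := 1 + 2 * (S4 + 9)

lemma Cc_pos : 0 < Cc := by
  have := S4_nonneg
  unfold Cc
  positivity

lemma cost_C1 {r : ℝ} (hr : 1 ≤ r) {v : R3 → R3} (hv : ContDiff ℝ 1 v)
    (hp : ∀ x j, v (x + Pi.single j 1) = v x) {M : ℝ} (hM : 0 < M) (h : C1le v M) :
    cost r v ≤ ENNReal.ofReal (Cc * M) := by
  have h1 := leiLin_le hv hp hM h
  have h2 : critNorm r (fc v) ≤ ENNReal.ofReal (2 * ((S4 + 9) * M)) := by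
    rw [critNorm_eq]
    calc crit r (fc v) ^ (1 / r) ≤ ((2 * ∑' k, ENNReal.ofReal (1 / nk k) * ‖fc v k‖ₑ) ^ r) ^ (1 / r) :=
          ENNReal.rpow_le_rpow (crit_le hr _) (by positivity)
      _ = 2 * ∑' k, ENNReal.ofReal (1 / nk k) * ‖fc v k‖ₑ := by
          rw [← ENNReal.rpow_mul, mul_one_div_cancel (by linarith), ENNReal.rpow_one]
      _ ≤ 2 * ENNReal.ofReal ((S4 + 9) * M) := by gcongr
      _ = _ := by rw [ENNReal.ofReal_mul (p := 2) (by norm_num), ENNReal.ofReal_ofNat]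
  have h3 : ‖fc v 0‖ₑ ≤ ENNReal.ofReal M := by
    rw [← ofReal_norm]
    exact ENNReal.ofReal_le_ofReal (norm_fc_le hM.le h.v 0)
  have hS := S4_nonneg
  calc cost r v ≤ ENNReal.ofReal M + ENNReal.ofReal (2 * ((S4 + 9) * M)) := add_le_add h3 h2
    _ = _ := by
      rw [← ENNReal.ofReal_add hM.le (by positivity)]
      congr 1
      unfold Cc
      ring

end Pool.Agent.H3NS
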