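import Pool.Agent.H3NS.Follow

set_option autoImplicit false
set_option maxHeartbeats 4000000
set_option synthInstance.maxHeartbeats 400000

open MeasureTheory Set Filter Topology
open scoped ENNReal NNReal ContDiff

namespace Pool.Agent.H3NS

open Pool.Agent.H356R3.NS

/-- a field which is smooth up to a time after `b` agrees up to the time `b` with one which is smooth
for all times -/
lemma SV.extend {D : Set ℝ} {b c : ℝ} (hbc : b < c) (hDc : Ico 0 c ⊆ D)
    {V : ℝ → R3 → R3} (h : SV D V) : ∃ χ : ℝ → ℝ, (∀ s ≤ b, χ s = 1) ∧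
      SV (Ici 0) (fun s x i => χ s * V s x i) ∧ ∀ s, s ∉ Iio c → χ s = 0 := by
  obtain ⟨c', hc', hb'⟩ : ∃ c', c' < c ∧ b < c' := ⟨(b + c) / 2, by linarith, by linarith⟩
  obtain ⟨χ, hχd⟩ : ∃ χ : ℝ → ℝ, χ = fun s => Real.smoothTransition ((c' - s) / (c' - b)) := ⟨_, rfl⟩
  have hpos : 0 < c' - b := by linarith
  have hχ : ContDiff ℝ ∞ χ := by
    rw [hχd]
    exact Real.smoothTransition.contDiff.comp ((contDiff_const.sub contDiff_id).div_const _)
  have h1 : ∀ s ≤ b, χ s = 1 := by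
    intro s hs
    rw [hχd]
    apply Real.smoothTransition.one_of_one_le
    rw [le_div_iff₀ hpos]
    linarith
  have h0 : ∀ s, c' ≤ s → χ s = 0 := by
    intro s hs
    rw [hχd]
    apply Real.smoothTransition.zero_of_nonpos
    exact div_nonpos_of_nonpos_of_nonneg (by linarith) hpos.le
  refine ⟨χ, h1, ⟨fun i => ?_, fun s hs x j => ?_⟩, fun s hs => h0 s ?_⟩
  · intro z hz
    have hz0 : 0 ≤ z.1 := hz.1
    rcases lt_or_ge z.1 c with hlt | hge
    · have hmem : D ×ˢ (univ : Set R3) ∈ 𝓝[Ici 0 ×ˢ univ] z := by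
        rw [mem_nhdsWithin]
        refine ⟨Prod.fst ⁻¹' Iio c, isOpen_Iio.preimage continuous_fst, hlt, ?_⟩
        rintro y ⟨hy1, hy2, -⟩
        exact ⟨hDc ⟨hy2, hy1⟩, mem_univ _⟩
      have h2 : ContDiffWithinAt ℝ ∞ (fun z : ℝ × R3 => V z.1 z.2 i) (D ×ˢ univ) z :=
        h.sm i z ⟨hDc ⟨hz0, hlt⟩, mem_univ _⟩
      exact ((hχ.comp contDiff_fst).contDiffAt.contDiffWithinAt).mul (h2.mono_of_mem_nhdsWithin hmem)
    · have h3 : (fun z : ℝ × R3 => χ z.1 * V z.1 z.2 i) =ᶠ[𝓝 z] fun _ => 0 := by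
        have h4 : ∀ᶠ y : ℝ × R3 in 𝓝 z, c' < y.1 :=
          (isOpen_Ioi.preimage continuous_fst).mem_nhds (by exact lt_of_lt_of_le hc' hge)
        filter_upwards [h4] with y hy
        rw [h0 _ hy.le, zero_mul]
      exact (contDiffAt_const.congr_of_eventuallyEq h3).contDiffWithinAt
  · rcases lt_or_ge s c with hlt | hge
    · have := h.per s (hDc ⟨hs, hlt⟩) x j
      funext i
      simp only [this]
    · funext i
      simp only [h0 s (hc'.le.trans hge), zero_mul]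
  · exact hc'.le.trans (not_lt.1 hs)

lemma SV.shift {V : ℝ → R3 → R3} (h : SV (Ici 0) V) {a : ℝ} (ha : 0 ≤ a) :
    SV (Ici 0) (fun s => V (a + s)) := by
  have hsh : ContDiff ℝ ∞ fun z : ℝ × R3 => ((a + z.1, z.2) : ℝ × R3) :=
    (contDiff_const.add contDiff_fst).prodMk contDiff_snd
  refine ⟨fun i => ?_, fun s hs => h.per _ ?_⟩
  · exact ContDiffOn.comp (s := Ici 0 ×ˢ univ) (h.sm i) hsh.contDiffOn fun z hz =>
      ⟨add_nonneg ha hz.1, mem_univ _⟩
  · exact add_nonneg ha hs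

theorem step_dom {ν r p : ℝ} (hν : 0 < ν) (hr : 2 < r) (hp1 : 1 ≤ p) (hp2 : p < 2) {a b c : ℝ}
    (ha : 0 ≤ a) (hab : a < b) (hbc : b < c) {D : Set ℝ} (hDc : Ico 0 c ⊆ D)
    {f w : ℝ → R3 → R3} (hf : SV D f) (hw : SV D w)
    (hwd : ∀ s ∈ D, ∀ x, ∑ i, pd i (fun y => w s y i) x = 0)
    (hm : ∀ s ∈ D, ∀ i, mean (w s) i = mean (w 0) i + ∫ τ in (0:ℝ)..s, mean (f τ) i) {E : ℝ} (hE : 0 < E) :
    GoC ν r p f w a b (w a) (w b) (ENNReal.ofReal E) (ENNReal.ofReal E) := by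
  obtain ⟨χ, hχ1, hχf, hχ0⟩ := hf.extend hbc hDc
  obtain ⟨χ', hχ1', hχw, hχ0'⟩ := hw.extend hbc hDc
  obtain ⟨μ, hμ, hfol⟩ := follow (p := p) hν hr hp1 hp2 (T := b - a) (by linarith) hE
  have ef : ∀ s ≤ b, (fun x i => χ s * f s x i) = f s := fun s hs => by
    funext x i
    rw [hχ1 s hs, one_mul]
  have ew : ∀ s ≤ b, (fun x i => χ' s * w s x i) = w s := fun s hs => by
    funext x i
    rw [hχ1' s hs, one_mul]
  have hint : ∀ i, ∀ s ∈ Icc 0 b, ∀ t ∈ Icc 0 b, IntervalIntegrable (fun τ => mean (f τ) i) volume s t := by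
    intro i s hs t ht
    have h1 := mean_contOn hχf b i
    apply ContinuousOn.intervalIntegrable
    refine (h1.mono (uIcc_subset_Icc hs ht)).congr fun τ hτ => ?_
    have hτ' : τ ∈ Icc 0 b := uIcc_subset_Icc hs ht hτ
    simp only
    rw [ef τ hτ'.2]
  have hdv : ∀ t, 0 ≤ t → ∀ x, ∑ i, pd i (fun y => χ' (a + t) * w (a + t) y i) x = 0 := by
    intro t ht x
    have e1 : ∀ i, pd i (fun y => χ' (a + t) * w (a + t) y i) x = χ' (a + t) * pd i (fun y => w (a + t) y i) x := by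
      intro i
      rcases lt_or_ge (a + t) c with hlt | hge
      · have hsm : ContDiff ℝ ∞ (fun y => w (a + t) y i) := (hw.sm i).slice (hDc ⟨by linarith, hlt⟩)
        exact pd_mul hsm _ _ _
      · rw [hχ0' _ (not_lt.2 hge)]
        simp only [zero_mul]
        exact pd_const _ _ _
    simp only [e1]
    rw [← Finset.mul_sum]
    rcases lt_or_ge (a + t) c with hlt | hge
    · rw [hwd _ (hDc ⟨by linarith, hlt⟩), mul_zero]
    · rw [hχ0' _ (not_lt.2 hge), zero_mul]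
  have hmn : ∀ s ∈ Icc 0 (b - a), ∀ t ∈ Icc 0 (b - a), s ≤ t → ∀ i,
      |mean (fun x i => χ' (a + t) * w (a + t) x i) i - mean (fun x i => χ' (a + s) * w (a + s) x i) i
        - ∫ τ in s..t, mean (fun x i => χ (a + τ) * f (a + τ) x i) i| ≤ (t - s) * μ := by
    intro s hs t ht hst i
    have hs1 : a + s ∈ Icc 0 b := ⟨by linarith [hs.1], by linarith [hs.2]⟩
    have ht1 : a + t ∈ Icc 0 b := ⟨by linarith [ht.1], by linarith [ht.2]⟩
    have h0 : (0 : ℝ) ∈ Icc 0 b := ⟨le_rfl, by linarith⟩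
    have hsc : ∀ σ ∈ Icc 0 b, σ ∈ D := fun σ hσ => hDc ⟨hσ.1, lt_of_le_of_lt hσ.2 hbc⟩
    rw [ew _ hs1.2, ew _ ht1.2, hm _ (hsc _ hs1), hm _ (hsc _ ht1)]
    have e2 : ∫ τ in s..t, mean (fun x i => χ (a + τ) * f (a + τ) x i) i
        = ∫ τ in (a + s)..(a + t), mean (f τ) i := by
      rw [← intervalIntegral.integral_comp_add_left (fun τ => mean (f τ) i) a]
      refine intervalIntegral.integral_congr fun τ hτ => ?_
      rw [uIcc_of_le hst] at hτ
      rw [ef (a + τ) (by linarith [hτ.2, ht1.2])]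
    have e3 : (∫ τ in (0:ℝ)..(a + t), mean (f τ) i) - (∫ τ in (0:ℝ)..(a + s), mean (f τ) i)
        = ∫ τ in (a + s)..(a + t), mean (f τ) i :=
      intervalIntegral.integral_interval_sub_left (hint i _ h0 _ ht1) (hint i _ h0 _ hs1)
    rw [e2, ← e3]
    have e4 : ∀ A B C : ℝ, A + B - (A + C) - (B - C) = 0 := fun A B C => by ring
    rw [e4, abs_zero]
    have : 0 ≤ t - s := by linarith
    positivity
  obtain ⟨U, P, hUP, hcl, -⟩ := hfol (fun s x i => χ (a + s) * f (a + s) x i)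
    (fun s x i => χ' (a + s) * w (a + s) x i) (hχf.shift ha) (hχw.shift ha) hdv hmn 1 le_rfl
  simp only [add_zero] at hUP
  rw [ew a hab.le, show a + (b - a) = b by ring, ew b le_rfl] at hUP
  have h1 := GoP.shift (f := fun s x i => χ s * f s x i) (w := fun s x i => χ' s * w s x i) a hUP
  rw [show a + (b - a) = b by ring] at h1
  refine ⟨_, _, h1.congr (fun τ hτ => ef τ hτ.2) (fun τ hτ => ew τ hτ.2), fun τ hτ => ?_⟩
  have h2 := hcl (τ - a) ⟨by linarith [hτ.1], by linarith [hτ.2]⟩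
  rw [show a + (τ - a) = τ by ring] at h2
  have h3 : (fun x i => U (τ - a) x i - χ' τ * w τ x i) = fun x i => U (τ - a) x i - w τ x i := by
    funext x i
    rw [hχ1' τ hτ.2, one_mul]
  rwa [h3] at h2

end Pool.Agent.H3NS
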