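import Pool.Agent.H3NS.Steer

set_option autoImplicit false
set_option maxHeartbeats 4000000
set_option synthInstance.maxHeartbeats 400000

open MeasureTheory Set Filter Topology
open scoped ENNReal NNReal ContDiff

namespace Pool.Agent.H3NS

open Pool.Agent.H356R3.NS

theorem steer {ν r p : ℝ} (hν : 0 < ν) (hr : 2 < r) (hp1 : 1 ≤ p) (hp2 : p < 2) :
    ∃ C : ℝ, 1 ≤ C ∧ ∀ w0 w1 : R3 → R3, Smo w0 → Pe w0 → (∀ x, ∑ i, pd i (fun y => w0 y i) x = 0) →
      Smo w1 → Pe w1 → (∀ x, ∑ i, pd i (fun y => w1 y i) x = 0) → ∀ K : ℝ, 1 ≤ K →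
      cost r (stat ν w0) ≤ ENNReal.ofReal K → cost r (stat ν w1) ≤ ENNReal.ofReal K →
      (∀ x, ‖w0 x‖ₑ ≤ ENNReal.ofReal K) → (∀ x, ‖w1 x‖ₑ ≤ ENNReal.ofReal K) →
      ∀ E0 : ℝ, 0 < E0 → ∀ s t : ℝ, s < t → ∀ ζ : ℝ, 0 < ζ → C1le (fun x i => w1 x i - w0 x i) ζ →
      ∃ (U : ℝ → R3 → R3) (P : ℝ → R3 → ℝ), GoP ν r p (fun _ _ _ => 0) (fun _ _ _ => 0) s t w0 w1
        (ENNReal.ofReal (C * ‖mean w1 - mean w0‖ + E0 + 2 * K ^ 2 * (t - s))) U P ∧
        ∀ τ, cost r (fun x i => U τ x i - w0 x i) ≤ ENNReal.ofReal (Cd * ζ + E0) := by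
  obtain ⟨C, hC, h⟩ := steer0 (p := p) hν hr hp1 hp2
  refine ⟨C, hC, fun w0 w1 hw0 hq0 hd0 hw1 hq1 hd1 K hK hs0 hs1 hb0 hb1 E0 hE0 s t hst ζ hζ hζ' => ?_⟩
  obtain ⟨U, P, h1, h2⟩ := h w0 w1 hw0 hq0 hd0 hw1 hq1 hd1 K hK hs0 hs1 hb0 hb1 E0 hE0 (t - s) (by linarith)
    ζ hζ hζ'
  have h3 := GoP.shift (f := fun _ _ _ => 0) (w := fun _ _ _ => 0) s h1
  rw [add_sub_cancel] at h3
  exact ⟨_, _, h3, fun τ => h2 _⟩

/-- the residual of `v + Θ g` -/
lemma res_affine' {ν : ℝ} {v g : R3 → R3} {q : R3 → ℝ} (hv : Smo v) (hg : Smo g) (hq : ContDiff ℝ ∞ q)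
    {θ Θ : ℝ → ℝ} (hd : ∀ τ, HasDerivAt Θ (θ τ) τ) (τ : ℝ) (x : R3) (i : Fin 3) :
    res ν (fun τ x i => v x i + Θ τ * g x i) (fun τ x => θ τ * q x) τ x i
      = θ τ * (g x i + pd i q x) + stat ν v x i
        + Θ τ * (adv v g x i + adv g v x i - ν * lap g x i) + Θ τ ^ 2 * adv g g x i := by
  unfold res stat
  have e1 : deriv (fun s => v x i + Θ s * g x i) τ = θ τ * g x i :=
    (((hd τ).mul_const (g x i)).const_add (v x i)).deriv
  have e2 : ∀ j y, pd j (fun y => v y i + Θ τ * g y i) y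
      = pd j (fun y => v y i) y + Θ τ * pd j (fun y => g y i) y := by
    intro j y
    rw [pd_add (hv.comp i) (contDiff_const.mul (hg.comp i)), pd_mul (hg.comp i)]
  have e3 : pd i (fun x => θ τ * q x) x = θ τ * pd i q x := pd_mul hq (θ τ) i x
  have e4 : adv (fun x i => v x i + Θ τ * g x i) (fun x i => v x i + Θ τ * g x i) x i
      = adv v v x i + Θ τ * (adv v g x i + adv g v x i) + Θ τ ^ 2 * adv g g x i := by
    unfold adv
    simp only [e2]
    rw [← Finset.sum_add_distrib, Finset.mul_sum, Finset.mul_sum, ← Finset.sum_add_distrib,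
      ← Finset.sum_add_distrib]
    refine Finset.sum_congr rfl fun j _ => ?_
    ring
  have e5 : lap (fun x i => v x i + Θ τ * g x i) x i = lap v x i + Θ τ * lap g x i := by
    unfold lap
    have e6 : ∀ j, (pd j fun y => v y i + Θ τ * g y i)
        = fun y => pd j (fun y => v y i) y + Θ τ * pd j (fun y => g y i) y :=
      fun j => funext fun y => e2 j y
    simp only [e6]
    rw [Finset.mul_sum, ← Finset.sum_add_distrib]
    refine Finset.sum_congr rfl fun j _ => ?_
    rw [pd_add (pd_smooth (hv.comp i) j) (contDiff_const.mul (pd_smooth (hg.comp i) j)),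
      pd_mul (pd_smooth (hg.comp i) j)]
  rw [e1, e3, e4, e5]
  ring

/-- the linearization -/
noncomputable def lin (ν : ℝ) (v g : R3 → R3) : R3 → R3 :=
  fun x i => adv v g x i + adv g v x i - ν * lap g x i

lemma lin_smo (ν : ℝ) {v g : R3 → R3} (hv : Smo v) (hg : Smo g) : Smo (lin ν v g) :=
  contDiff_pi.2 fun i => (((hv.adv hg).comp i).add ((hg.adv hv).comp i)).sub
    (contDiff_const.mul (hg.lap.comp i))

lemma lin_per (ν : ℝ) {v g : R3 → R3} (hv : Pe v) (hg : Pe g) : Pe (lin ν v g) := fun x j => by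
  funext i
  unfold lin
  rw [(Pe.adv hv hg) x j, (Pe.adv hg hv) x j, (Pe.lap hg) x j]

lemma stat_add (ν : ℝ) {v g : R3 → R3} (hv : Smo v) (hg : Smo g) (l : ℝ) :
    stat ν (fun x i => v x i + l * g x i)
      = fun x i => 1 * stat ν v x i + l * lin ν v g x i - (-(l ^ 2)) * adv g g x i := by
  funext x i
  have e2 : ∀ j y, pd j (fun y => v y i + l * g y i) y
      = pd j (fun y => v y i) y + l * pd j (fun y => g y i) y := by
    intro j y
    rw [pd_add (hv.comp i) (contDiff_const.mul (hg.comp i)), pd_mul (hg.comp i)]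
  unfold stat lin
  have e4 : adv (fun x i => v x i + l * g x i) (fun x i => v x i + l * g x i) x i
      = adv v v x i + l * (adv v g x i + adv g v x i) + l ^ 2 * adv g g x i := by
    unfold adv
    simp only [e2]
    rw [← Finset.sum_add_distrib, Finset.mul_sum, Finset.mul_sum, ← Finset.sum_add_distrib,
      ← Finset.sum_add_distrib]
    refine Finset.sum_congr rfl fun j _ => ?_
    ring
  have e5 : lap (fun x i => v x i + l * g x i) x i = lap v x i + l * lap g x i := by
    unfold lap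
    have e6 : ∀ j, (pd j fun y => v y i + l * g y i)
        = fun y => pd j (fun y => v y i) y + l * pd j (fun y => g y i) y :=
      fun j => funext fun y => e2 j y
    simp only [e6]
    rw [Finset.mul_sum, ← Finset.sum_add_distrib]
    refine Finset.sum_congr rfl fun j _ => ?_
    rw [pd_add (pd_smooth (hv.comp i) j) (contDiff_const.mul (pd_smooth (hg.comp i) j)),
      pd_mul (pd_smooth (hg.comp i) j)]
  rw [e4, e5]
  ring

theorem drift {ν r p : ℝ} (hr : 1 ≤ r) (hp1 : 1 ≤ p) {v g : R3 → R3} {q : R3 → ℝ}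
    (hv : Smo v) (hvp : Pe v) (hvd : ∀ x, ∑ i, pd i (fun y => v y i) x = 0)
    (hg : Smo g) (hgp : Pe g) (hq : ContDiff ℝ ∞ q) (hqp : Pe q)
    (hdiv : ∀ x, ∑ i, pd i (fun y => g y i) x = 0) {F : R3 → R3} (hF : Continuous F) {G A B e S : ℝ}
    (hG0 : 0 ≤ G) (hA0 : 0 ≤ A) (hB0 : 0 ≤ B) (he0 : 0 ≤ e) (hS0 : 0 ≤ S)
    (hG : cost r (fun x i => g x i + pd i q x) ≤ ENNReal.ofReal G)
    (hA : cost r (lin ν v g) ≤ ENNReal.ofReal A)
    (hB : cost r (adv g g) ≤ ENNReal.ofReal B)
    (he : cost r (fun x i => (F x i - stat ν v x i) - (g x i + pd i q x)) ≤ ENNReal.ofReal e)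
    (hS : ∀ x, ‖g x‖ₑ ≤ ENNReal.ofReal S) {s t : ℝ} (hst : s < t) {σ : ℝ} (hσ : 0 < σ) :
    ∃ l, 0 ≤ l ∧ l ≤ t - s ∧ t - s - σ ≤ l ∧ ∃ (U : ℝ → R3 → R3) (P : ℝ → R3 → ℝ),
      GoP ν r p (fun _ => F) (fun _ => v) s t v (fun x i => v x i + l * g x i)
      (ENNReal.ofReal (σ * G + (t - s) * ((t - s) * A + (t - s) ^ 2 * B + e + ((t - s) * S) ^ p))) U P ∧
      ∀ τ ∈ Icc s t, cost r (fun x i => U τ x i - v x i) ≤ ENNReal.ofReal (t - s) * cost r g := by
  obtain ⟨θ, Θ, l, η, hη, hθs, hΘs, hd, h0, h1, hl0, hl1, hl2, hb, hi⟩ := exists_theta hst hσ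
  have hts : 0 < t - s := by linarith
  refine ⟨l, hl0, hl1, hl2, fun τ x i => v x i + Θ τ * g x i, fun τ x => θ τ * q x,
    ⟨⟨fun i => ?_, ?_, fun τ x j => ?_, fun τ x j => ?_, fun τ x => ?_⟩,
    ⟨η, hη, fun τ hτ => ⟨?_, ?_⟩, fun τ hτ => ⟨?_, ?_⟩⟩, ?_⟩, fun τ hτ => ?_⟩
  · exact (Sm.space (hv.comp i)).add ((Sm.time hΘs).mul (Sm.space (hg.comp i)))
  · exact (Sm.time hθs).mul (Sm.space hq)
  · funext i
    show v (x + Pi.single j 1) i + Θ τ * g (x + Pi.single j 1) i = _
    rw [hgp x j, hvp x j]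
  · simp only [hqp x j]
  · have e2 : ∀ i, pd i (fun y => v y i + Θ τ * g y i) x
        = pd i (fun y => v y i) x + Θ τ * pd i (fun y => g y i) x := by
      intro i
      rw [pd_add (hv.comp i) (contDiff_const.mul (hg.comp i)), pd_mul (hg.comp i)]
    simp only [e2]
    rw [Finset.sum_add_distrib, ← Finset.mul_sum, hdiv x, hvd x, mul_zero, add_zero]
  · funext x i
    simp only [(h0 τ hτ).2]
    ring
  · funext x
    simp only [(h0 τ hτ).1]
    simp
  · funext x i
    simp only [(h1 τ hτ).2]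
  · funext x
    simp only [(h1 τ hτ).1]
    simp
  · have hc1 : Continuous (fun (x : R3) (i : Fin 3) => g x i + pd i q x) :=
      continuous_pi fun i => ((hg.comp i).add (pd_smooth hq i)).continuous
    have hc2 : Continuous (lin ν v g) := (lin_smo ν hv hg).continuous
    have hc3 : Continuous (adv g g) := (hg.adv hg).continuous
    have hc4 : Continuous (fun (x : R3) (i : Fin 3) => (F x i - stat ν v x i) - (g x i + pd i q x)) :=
      (hF.sub (stat_smo ν hv).continuous).sub hc1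
    have key : ∀ τ ∈ Ioc s t, cost r (fun x i => res ν (fun τ x i => v x i + Θ τ * g x i)
        (fun τ x => θ τ * q x) τ x i - F x i) + dev (fun x i => v x i + Θ τ * g x i) v ^ p
        ≤ ENNReal.ofReal |θ τ - 1| * ENNReal.ofReal G
          + ENNReal.ofReal ((t - s) * A + (t - s) ^ 2 * B + e + ((t - s) * S) ^ p) := by
      intro τ hτ
      have eq1 : (fun x i => res ν (fun τ x i => v x i + Θ τ * g x i)
        (fun τ x => θ τ * q x) τ x i - F x i : R3 → R3)
          = fun x i => (θ τ - 1) * (g x i + pd i q x) + Θ τ * lin ν v g x i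
            + (-1) * ((F x i - stat ν v x i) - (g x i + pd i q x)) - (-(Θ τ ^ 2)) * adv g g x i := by
        funext x i
        rw [res_affine' hv hg hq hd]
        unfold lin
        ring
      rw [eq1]
      obtain ⟨b0, b1⟩ := hb τ ⟨hτ.1.le, hτ.2⟩
      have hcost := cost_lin4 hr hc1 hc2 hc4 hc3 (θ τ - 1) (Θ τ) (-1) (-(Θ τ ^ 2))
      have hdev : dev (fun x i => v x i + Θ τ * g x i) v ^ p ≤ ENNReal.ofReal (((t - s) * S) ^ p) := by
        rw [← ENNReal.ofReal_rpow_of_nonneg (by positivity) (by linarith)]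
        refine ENNReal.rpow_le_rpow (dev_le fun x => ?_) (by linarith)
        have e5 : (fun (x : R3) (i : Fin 3) => v x i + Θ τ * g x i) x - v x = Θ τ • g x := by
          funext i
          simp
        rw [e5, enorm_smul, ENNReal.ofReal_mul hts.le]
        refine mul_le_mul' ?_ (hS x)
        rw [← ofReal_norm, Real.norm_eq_abs, abs_of_nonneg b0]
        exact ENNReal.ofReal_le_ofReal b1
      have hp0 : 0 ≤ ((t - s) * S) ^ p := by positivity
      have e6 : ENNReal.ofReal ((t - s) * A + (t - s) ^ 2 * B + e + ((t - s) * S) ^ p)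
          = ENNReal.ofReal (t - s) * ENNReal.ofReal A + ENNReal.ofReal ((t - s) ^ 2) * ENNReal.ofReal B
            + ENNReal.ofReal e + ENNReal.ofReal (((t - s) * S) ^ p) := by
        rw [ENNReal.ofReal_add (by positivity) hp0, ENNReal.ofReal_add (by positivity) he0,
          ENNReal.ofReal_add (by positivity) (by positivity), ENNReal.ofReal_mul hts.le,
          ENNReal.ofReal_mul (p := (t - s) ^ 2) (by positivity)]
      rw [e6]
      have c1 : ENNReal.ofReal |Θ τ| ≤ ENNReal.ofReal (t - s) := by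
        rw [abs_of_nonneg b0]
        exact ENNReal.ofReal_le_ofReal b1
      have c2 : ENNReal.ofReal |(-1 : ℝ)| = 1 := by simp
      have c3 : ENNReal.ofReal |-(Θ τ ^ 2)| ≤ ENNReal.ofReal ((t - s) ^ 2) := by
        rw [abs_neg, abs_of_nonneg (by positivity)]
        exact ENNReal.ofReal_le_ofReal (pow_le_pow_left₀ b0 b1 2)
      rw [c2, one_mul] at hcost
      calc _ ≤ (ENNReal.ofReal |θ τ - 1| * ENNReal.ofReal G + ENNReal.ofReal (t - s) * ENNReal.ofReal A
              + ENNReal.ofReal e + ENNReal.ofReal ((t - s) ^ 2) * ENNReal.ofReal B)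
              + ENNReal.ofReal (((t - s) * S) ^ p) :=
            add_le_add (hcost.trans (add_le_add (add_le_add (add_le_add (mul_le_mul' le_rfl hG)
              (mul_le_mul' c1 hA)) he) (mul_le_mul' c3 hB))) hdev
        _ = _ := by ring
    refine (setLIntegral_mono' measurableSet_Ioc key).trans ?_
    rw [lintegral_add_right _ measurable_const, setLIntegral_const, Real.volume_Ioc,
      lintegral_mul_const'' _ (by
        refine (Continuous.aemeasurable ?_).restrict
        exact ENNReal.continuous_ofReal.comp ((hθs.continuous.sub continuous_const).abs))]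
    have hp0 : 0 ≤ ((t - s) * S) ^ p := by positivity
    have e5 : ENNReal.ofReal (σ * G + (t - s) * ((t - s) * A + (t - s) ^ 2 * B + e + ((t - s) * S) ^ p))
        = ENNReal.ofReal σ * ENNReal.ofReal G
          + ENNReal.ofReal ((t - s) * A + (t - s) ^ 2 * B + e + ((t - s) * S) ^ p) * ENNReal.ofReal (t - s) := by
      rw [ENNReal.ofReal_add (by positivity) (by positivity), ENNReal.ofReal_mul hσ.le,
        mul_comm (t - s) ((t - s) * A + (t - s) ^ 2 * B + e + ((t - s) * S) ^ p),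
        ENNReal.ofReal_mul (p := (t - s) * A + (t - s) ^ 2 * B + e + ((t - s) * S) ^ p) (by positivity)]
    rw [e5]
    exact add_le_add (mul_le_mul' hi le_rfl) le_rfl
  · obtain ⟨b0, b1⟩ := hb τ hτ
    have e5 : (fun x i => v x i + Θ τ * g x i - v x i : R3 → R3) = fun x => Θ τ • g x := by
      funext x i
      simp
    simp only [e5]
    rw [cost_smul hr, abs_of_nonneg b0]
    exact mul_le_mul' (ENNReal.ofReal_le_ofReal b1) le_rfl

end Pool.Agent.H3NS
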