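import Pool.Agent.H3NS.Core3

set_option autoImplicit false
set_option maxHeartbeats 4000000
set_option synthInstance.maxHeartbeats 400000

open MeasureTheory Set Filter Topology
open scoped ENNReal NNReal ContDiff

namespace Pool.Agent.H3NS

open Pool.Agent.H356R3.NS

/-! ### Periodic functions -/

/-- `ℤ³`-periodic functions. -/
def Pe {α : Type*} (g : R3 → α) : Prop := ∀ x j, g (x + Pi.single j 1) = g x

lemma Pe.int {α : Type*} {g : R3 → α} (h : Pe g) (x : R3) (j : Fin 3) (n : ℤ) :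
    g (x + Pi.single j (n : ℝ)) = g x := by
  induction n using Int.induction_on with
  | zero => simp
  | succ n ih =>
    have : x + Pi.single j (((n : ℤ) + 1 : ℤ) : ℝ) = (x + Pi.single j ((n : ℤ) : ℝ)) + Pi.single j 1 := by
      rw [add_assoc, ← Pi.single_add]; push_cast; rfl
    rw [this, h, ih]
  | pred n ih =>
    have : (x + Pi.single j ((-(n : ℤ) : ℤ) : ℝ)) = (x + Pi.single j (((-(n : ℤ)) - 1 : ℤ) : ℝ)) + Pi.single j 1 := by
      rw [add_assoc, ← Pi.single_add]; push_cast; ring_nf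
    rw [this, h] at ih
    exact ih

/-- the point of the unit cube -/
noncomputable def fr3 (x : R3) : R3 := fun i => Int.fract (x i)

lemma fr3_mem (x : R3) : fr3 x ∈ Icc (0 : R3) 1 :=
  ⟨fun _ => Int.fract_nonneg _, fun _ => (Int.fract_lt_one _).le⟩

lemma Pe.fr3 {α : Type*} {g : R3 → α} (h : Pe g) (x : R3) : g (fr3 x) = g x := by
  have e : x = ((H3NS.fr3 x + Pi.single 0 ((⌊x 0⌋ : ℤ) : ℝ)) + Pi.single 1 ((⌊x 1⌋ : ℤ) : ℝ))
      + Pi.single 2 ((⌊x 2⌋ : ℤ) : ℝ) := by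
    funext i
    fin_cases i
    · simp
      exact (Int.fract_add_floor (x 0)).symm
    · simp
      exact (Int.fract_add_floor (x 1)).symm
    · simp
      exact (Int.fract_add_floor (x 2)).symm
  conv_rhs => rw [e]
  rw [h.int, h.int, h.int]

/-! ### Smooth functions of time and space -/

/-- `F` is smooth on `T × ℝ³`. -/
def Sm (T : Set ℝ) (F : ℝ → R3 → ℝ) : Prop :=
  ContDiffOn ℝ ∞ (fun z : ℝ × R3 => F z.1 z.2) (T ×ˢ univ)

variable {T : Set ℝ} {F G : ℝ → R3 → ℝ}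

lemma Sm.slice (hF : Sm T F) {t : ℝ} (ht : t ∈ T) : ContDiff ℝ ∞ (F t) := by
  have h1 : ContDiff ℝ ∞ fun y : R3 => ((t, y) : ℝ × R3) := contDiff_const.prodMk contDiff_id
  have h2 := ContDiffOn.comp (s := univ) hF h1.contDiffOn fun y _ => ⟨ht, mem_univ _⟩
  exact contDiffOn_univ.1 h2

lemma Sm.hasFDerivAt (hF : Sm T F) {t : ℝ} (ht : t ∈ T) (x : R3) :
    HasFDerivAt (F t) ((fderivWithin ℝ (fun z : ℝ × R3 => F z.1 z.2) (T ×ˢ univ) (t, x)).comp
      (ContinuousLinearMap.inr ℝ ℝ R3)) x := by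
  have h1 : HasFDerivWithinAt (fun z : ℝ × R3 => F z.1 z.2)
      (fderivWithin ℝ (fun z : ℝ × R3 => F z.1 z.2) (T ×ˢ univ) (t, x)) (T ×ˢ univ) (t, x) :=
    ((hF (t, x) ⟨ht, mem_univ _⟩).differentiableWithinAt (by simp)).hasFDerivWithinAt
  have hg : HasFDerivWithinAt (fun y : R3 => ((t, y) : ℝ × R3)) (ContinuousLinearMap.inr ℝ ℝ R3) univ x :=
    ((hasFDerivAt_const t x).prodMk (hasFDerivAt_id x)).hasFDerivWithinAt
  have h3 := h1.comp x hg fun y _ => ⟨ht, mem_univ _⟩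
  rw [hasFDerivWithinAt_univ] at h3
  exact h3

lemma Sm.pd_eq (hF : Sm T F) {t : ℝ} (ht : t ∈ T) (x : R3) (j : Fin 3) :
    pd j (F t) x = fderivWithin ℝ (fun z : ℝ × R3 => F z.1 z.2) (T ×ˢ univ) (t, x) (0, Pi.single j 1) := by
  unfold pd
  rw [(hF.hasFDerivAt ht x).fderiv, ContinuousLinearMap.comp_apply, ContinuousLinearMap.inr_apply]

lemma Sm.pd (hT : UniqueDiffOn ℝ T) (hF : Sm T F) (j : Fin 3) : Sm T (fun t x => pd j (F t) x) := by
  have hS : UniqueDiffOn ℝ (T ×ˢ (univ : Set R3)) := hT.prod uniqueDiffOn_univ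
  have h1 : ContDiffOn ℝ ∞ (fderivWithin ℝ (fun z : ℝ × R3 => F z.1 z.2) (T ×ˢ univ)) (T ×ˢ univ) :=
    ContDiffOn.fderivWithin hF hS (by simp)
  refine (h1.clm_apply (contDiffOn_const (c := ((0 : ℝ), (Pi.single j 1 : R3))))).congr fun z hz => ?_
  exact hF.pd_eq hz.1 z.2 j

lemma Sm.dtw_eq (hF : Sm T F) {t : ℝ} (ht : t ∈ T) (x : R3) :
    HasDerivWithinAt (fun s => F s x)
      (fderivWithin ℝ (fun z : ℝ × R3 => F z.1 z.2) (T ×ˢ univ) (t, x) (1, 0)) T t := by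
  have h1 : HasFDerivWithinAt (fun z : ℝ × R3 => F z.1 z.2)
      (fderivWithin ℝ (fun z : ℝ × R3 => F z.1 z.2) (T ×ˢ univ) (t, x)) (T ×ˢ univ) (t, x) :=
    ((hF (t, x) ⟨ht, mem_univ _⟩).differentiableWithinAt (by simp)).hasFDerivWithinAt
  have hg : HasDerivWithinAt (fun s : ℝ => ((s, x) : ℝ × R3)) (1, 0) T t :=
    ((hasDerivAt_id' t).prodMk (hasDerivAt_const t x)).hasDerivWithinAt
  have hm : MapsTo (fun s : ℝ => ((s, x) : ℝ × R3)) T (T ×ˢ univ) := fun s hs => ⟨hs, mem_univ _⟩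
  exact h1.comp_hasDerivWithinAt t hg hm

/-- the time derivative within `T` -/
lemma Sm.dtw (hT : UniqueDiffOn ℝ T) (hF : Sm T F) :
    Sm T (fun t x => derivWithin (fun s => F s x) T t) := by
  have hS : UniqueDiffOn ℝ (T ×ˢ (univ : Set R3)) := hT.prod uniqueDiffOn_univ
  have h1 : ContDiffOn ℝ ∞ (fderivWithin ℝ (fun z : ℝ × R3 => F z.1 z.2) (T ×ˢ univ)) (T ×ˢ univ) :=
    ContDiffOn.fderivWithin hF hS (by simp)
  refine (h1.clm_apply (contDiffOn_const (c := ((1 : ℝ), (0 : R3))))).congr fun z hz => ?_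
  exact (hF.dtw_eq hz.1 z.2).derivWithin (hT z.1 hz.1)

lemma Sm.dt (hF : Sm univ F) : Sm univ (fun t x => deriv (fun s => F s x) t) := by
  have := hF.dtw uniqueDiffOn_univ
  simpa only [derivWithin_univ] using this

lemma Sm.mono {T' : Set ℝ} (h : T' ⊆ T) (hF : Sm T F) : Sm T' F :=
  ContDiffOn.mono hF (prod_mono h Subset.rfl)

lemma Sm.add (hF : Sm T F) (hG : Sm T G) : Sm T (fun t x => F t x + G t x) := ContDiffOn.add hF hG

lemma Sm.sub (hF : Sm T F) (hG : Sm T G) : Sm T (fun t x => F t x - G t x) := ContDiffOn.sub hF hG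

lemma Sm.mul (hF : Sm T F) (hG : Sm T G) : Sm T (fun t x => F t x * G t x) := ContDiffOn.mul hF hG

lemma Sm.sum {ι : Type*} {s : Finset ι} {F : ι → ℝ → R3 → ℝ} (hF : ∀ i ∈ s, Sm T (F i)) :
    Sm T (fun t x => ∑ i ∈ s, F i t x) := ContDiffOn.sum hF

lemma Sm.const (c : ℝ) : Sm T (fun _ _ => c) := contDiffOn_const

lemma Sm.time {χ : ℝ → ℝ} (h : ContDiff ℝ ∞ χ) : Sm T (fun t _ => χ t) :=
  (h.comp contDiff_fst).contDiffOn

lemma Sm.space {g : R3 → ℝ} (h : ContDiff ℝ ∞ g) : Sm T (fun _ x => g x) :=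
  (h.comp contDiff_snd).contDiffOn

lemma Sm.cont (hF : Sm T F) : ContinuousOn (fun z : ℝ × R3 => F z.1 z.2) (T ×ˢ univ) :=
  ContDiffOn.continuousOn hF

lemma Pe.pd {g : R3 → ℝ} (h : Pe g) (j : Fin 3) : Pe (fun x => pd j g x) := by
  intro x l
  show fderiv ℝ g (x + Pi.single l 1) (Pi.single j 1) = fderiv ℝ g x (Pi.single j 1)
  have : (fun y => g (y + Pi.single l 1)) = g := funext fun y => h y l
  have h2 := fderiv_comp_add_right (𝕜 := ℝ) (f := g) (x := x) (Pi.single l 1)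
  rw [this] at h2
  rw [h2]

/-- a smooth periodic function is bounded on compact time intervals -/
lemma Sm.bdd (hF : Sm T F) (hP : ∀ t ∈ T, Pe (F t)) {K : Set ℝ} (hK : IsCompact K) (hKT : K ⊆ T) :
    ∃ M : ℝ, 0 < M ∧ ∀ t ∈ K, ∀ x, |F t x| ≤ M := by
  have hc : IsCompact (K ×ˢ Icc (0 : R3) 1) := hK.prod isCompact_Icc
  obtain ⟨C, hC⟩ := hc.exists_bound_of_continuousOn
    (f := fun z : ℝ × R3 => F z.1 z.2) (hF.cont.mono (prod_mono hKT (subset_univ _)))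
  refine ⟨max C 1, by positivity, fun t ht x => ?_⟩
  rw [← (hP t (hKT ht)).fr3 x, ← Real.norm_eq_abs]
  exact (hC (t, fr3 x) ⟨ht, fr3_mem x⟩).trans (le_max_left _ _)

/-- uniform continuity in time of a smooth periodic function -/
lemma Sm.unif (hF : Sm T F) (hP : ∀ t ∈ T, Pe (F t)) {K : Set ℝ} (hK : IsCompact K) (hKT : K ⊆ T)
    {η : ℝ} (hη : 0 < η) : ∃ δ : ℝ, 0 < δ ∧ ∀ t ∈ K, ∀ s ∈ K, |t - s| < δ → ∀ x, |F t x - F s x| ≤ η := by
  have hc : IsCompact (K ×ˢ Icc (0 : R3) 1) := hK.prod isCompact_Icc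
  have hu := hc.uniformContinuousOn_of_continuous
    (f := fun z : ℝ × R3 => F z.1 z.2) (hF.cont.mono (prod_mono hKT (subset_univ _)))
  obtain ⟨δ, hδ, h⟩ := Metric.uniformContinuousOn_iff.1 hu η hη
  refine ⟨δ, hδ, fun t ht s hs hts x => ?_⟩
  rw [← (hP t (hKT ht)).fr3 x, ← (hP s (hKT hs)).fr3 x]
  have h1 := h (t, fr3 x) ⟨ht, fr3_mem x⟩ (s, fr3 x) ⟨hs, fr3_mem x⟩ (by
    rw [Prod.dist_eq, dist_self, max_eq_left dist_nonneg, Real.dist_eq]
    exact hts)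
  rw [Real.dist_eq] at h1
  exact h1.le

/-! ### Vector fields -/

/-- `V` is a vector field which is smooth on `T × ℝ³` and periodic. -/
structure SV (T : Set ℝ) (V : ℝ → R3 → R3) : Prop where
  sm : ∀ i, Sm T (fun t x => V t x i)
  per : ∀ t ∈ T, Pe (V t)

lemma SV.peri {V : ℝ → R3 → R3} (h : SV T V) {t : ℝ} (ht : t ∈ T) (i : Fin 3) :
    Pe (fun x => V t x i) := fun x j => congrFun (h.per t ht x j) i

lemma SV.slice {V : ℝ → R3 → R3} (h : SV T V) {t : ℝ} (ht : t ∈ T) : ContDiff ℝ ∞ (V t) :=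
  contDiff_pi.2 fun i => (h.sm i).slice ht

lemma SV.c1 (hT : UniqueDiffOn ℝ T) {V : ℝ → R3 → R3} (h : SV T V) {K : Set ℝ} (hK : IsCompact K)
    (hKT : K ⊆ T) : ∃ M : ℝ, 0 < M ∧ ∀ t ∈ K, C1le (V t) M := by
  choose M0 hM0 h0 using fun i => (h.sm i).bdd (fun t ht => h.peri ht i) hK hKT
  choose M1 hM1 h1 using fun (p : Fin 3 × Fin 3) => ((h.sm p.1).pd hT p.2).bdd
    (fun t ht => (h.peri ht p.1).pd p.2) hK hKT
  have hp0 : 0 < ∑ i, M0 i := Finset.sum_pos (fun i _ => hM0 i) Finset.univ_nonempty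
  have hp1 : 0 < ∑ p, M1 p := Finset.sum_pos (fun i _ => hM1 i) Finset.univ_nonempty
  refine ⟨∑ i, M0 i + ∑ p, M1 p, by positivity, fun t ht => ⟨fun x i => ?_, fun x i j => ?_⟩⟩
  · refine (h0 i t ht x).trans ?_
    have := Finset.single_le_sum (f := M0) (fun i _ => (hM0 i).le) (Finset.mem_univ i)
    linarith
  · refine (h1 (i, j) t ht x).trans ?_
    have := Finset.single_le_sum (f := M1) (fun i _ => (hM1 i).le) (Finset.mem_univ (i, j))
    linarith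

lemma pd_sub' {g h : R3 → ℝ} (hg : ContDiff ℝ 1 g) (hh : ContDiff ℝ 1 h) (j : Fin 3) (x : R3) :
    pd j (fun y => g y - h y) x = pd j g x - pd j h x := by
  unfold pd
  rw [fderiv_fun_sub (hg.differentiable (by norm_num) x) (hh.differentiable (by norm_num) x)]
  rfl

lemma SV.c1_unif (hT : UniqueDiffOn ℝ T) {V : ℝ → R3 → R3} (h : SV T V) {K : Set ℝ}
    (hK : IsCompact K) (hKT : K ⊆ T) {η : ℝ} (hη : 0 < η) : ∃ δ : ℝ, 0 < δ ∧
      ∀ t ∈ K, ∀ s ∈ K, |t - s| < δ → C1le (fun x => V t x - V s x) η := by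
  choose δ0 hδ0 h0 using fun i => (h.sm i).unif (fun t ht => h.peri ht i) hK hKT hη
  choose δ1 hδ1 h1 using fun (p : Fin 3 × Fin 3) => ((h.sm p.1).pd hT p.2).unif
    (fun t ht => (h.peri ht p.1).pd p.2) hK hKT hη
  obtain ⟨δ, hδ, hδa, hδb⟩ : ∃ δ : ℝ, 0 < δ ∧ (∀ i, δ ≤ δ0 i) ∧ ∀ p, δ ≤ δ1 p := by
    refine ⟨min (Finset.univ.inf' Finset.univ_nonempty δ0) (Finset.univ.inf' Finset.univ_nonempty δ1),
      lt_min ?_ ?_, fun i => (min_le_left _ _).trans (Finset.inf'_le _ (Finset.mem_univ i)),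
      fun i => (min_le_right _ _).trans (Finset.inf'_le _ (Finset.mem_univ i))⟩
    · rw [Finset.lt_inf'_iff]; exact fun i _ => hδ0 i
    · rw [Finset.lt_inf'_iff]; exact fun i _ => hδ1 i
  refine ⟨δ, hδ, fun t ht s hs hts => ⟨fun x i => ?_, fun x i j => ?_⟩⟩
  · exact h0 i t ht s hs (hts.trans_le (hδa i)) x
  · have h2 := h1 (i, j) t ht s hs (hts.trans_le (hδb _)) x
    have h3 := pd_sub' (((h.sm i).slice (hKT ht)).of_le (by simp)) (((h.sm i).slice (hKT hs)).of_le (by simp)) j x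
    simp only [Pi.sub_apply]
    rw [h3]
    exact h2

end Pool.Agent.H3NS
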