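import Pool.Agent.H3NS.Glue

set_option autoImplicit false
set_option maxHeartbeats 4000000
set_option synthInstance.maxHeartbeats 400000

open MeasureTheory Set Filter Topology
open scoped ENNReal NNReal ContDiff

namespace Pool.Agent.H3NS

open Pool.Agent.H356R3.NS

lemma Sm.at_of_eventually {D : Set ℝ} {F G : ℝ → R3 → ℝ} (hG : Sm univ G) {s : ℝ} {x : R3}
    (h : ∀ᶠ σ in 𝓝 s, F σ = G σ) :
    ContDiffWithinAt ℝ ∞ (fun z : ℝ × R3 => F z.1 z.2) (D ×ˢ univ) (s, x) := by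
  have h1 : ContDiffAt ℝ ∞ (fun z : ℝ × R3 => G z.1 z.2) (s, x) :=
    ContDiffOn.contDiffAt hG (by simp)
  have h2 : (fun z : ℝ × R3 => F z.1 z.2) =ᶠ[𝓝 (s, x)] fun z => G z.1 z.2 := by
    have h3 : ∀ᶠ z : ℝ × R3 in 𝓝 (s, x), F z.1 = G z.1 := (continuous_fst.tendsto (s, x)).eventually h
    filter_upwards [h3] with z hz
    rw [hz]
  exact (h1.congr_of_eventuallyEq h2).contDiffWithinAt

theorem flex {ν : ℝ} (hν : 0 < ν) {t : ℕ → ℝ} (ht : StrictMono t) (ht0 : t 0 = 0) {r p E : ℕ → ℝ}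
    (hr : ∀ j, 2 < r j) (hp : ∀ j, 1 ≤ p j ∧ p j < 2) (hE : ∀ j, 0 < E j) {f w : ℝ → R3 → R3}
    (hf : SV (Dom t) f) (hw : SV (Dom t) w)
    (hwd : ∀ s ∈ Dom t, ∀ x, ∑ i, pd i (fun y => w s y i) x = 0)
    (hm : ∀ s ∈ Dom t, ∀ i, mean (w s) i = mean (w 0) i + ∫ τ in (0:ℝ)..s, mean (f τ) i) :
    ∃ (U : ℝ → R3 → R3) (P : ℝ → R3 → ℝ) (g : ℝ → R3 → R3),
      SV (Dom t) U ∧ Sm (Dom t) P ∧ (∀ s ∈ Dom t, Pe (P s)) ∧ SV (Dom t) g ∧
      (∀ s ∈ Dom t, ∀ x i,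
        derivWithin (fun σ => U σ x i) (Dom t) s + ∑ j, U s x j * pd j (fun y => U s y i) x
          = ν * ∑ j, pd j (pd j fun y => U s y i) x - pd i (P s) x + g s x i) ∧
      (∀ s ∈ Dom t, ∀ x, ∑ i, pd i (fun y => U s y i) x = 0) ∧
      (∀ j, U (t j) = w (t j)) ∧
      (∀ j, ∀ s ∈ Icc (t j) (t (j + 1)), cost (r j) (fun x i => U s x i - w s x i) ≤ ENNReal.ofReal (E j)) ∧
      (∀ j, ∫⁻ s in Ioc (t j) (t (j + 1)),
        (cost (r j) (fun x i => g s x i - f s x i) + dev (U s) (w s) ^ p j) ≤ ENNReal.ofReal (E j)) ∧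
      ∀ j, (∀ s ∈ Icc (t j) (t (j + 1)), f s = 0 ∧ w s = w (t j) ∧ ∀ x, w s x = w s 0) →
        ∀ s ∈ Icc (t j) (t (j + 1)), g s = 0 ∧ U s = w s := by
  classical
  have hmono : Monotone t := ht.monotone
  have htj : ∀ j, 0 ≤ t j := fun j => by rw [← ht0]; exact hmono (Nat.zero_le j)
  have hlt : ∀ j, t j < t (j + 1) := fun j => ht (by omega)
  have hDom : ∀ j, t j ∈ Dom t := fun j => ⟨htj j, j + 1, hlt j⟩
  have hIco : ∀ j, Ico 0 (t j) ⊆ Dom t := fun j s hs => ⟨hs.1, j, hs.2⟩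
  have hpre : ∀ j, ∃ (U : ℝ → R3 → R3) (P : ℝ → R3 → ℝ),
      GoP ν (r j) (p j) f w (t j) (t (j + 1)) (w (t j)) (w (t (j + 1))) (ENNReal.ofReal (E j)) U P ∧
      (∀ s ∈ Icc (t j) (t (j + 1)), cost (r j) (fun x i => U s x i - w s x i) ≤ ENNReal.ofReal (E j)) ∧
      ((∀ s ∈ Icc (t j) (t (j + 1)), f s = 0 ∧ w s = w (t j) ∧ ∀ x, w s x = w s 0) →
        U = (fun _ => w (t j)) ∧ P = fun _ _ => 0) := by
    intro j
    by_cases hc : ∀ s ∈ Icc (t j) (t (j + 1)), f s = 0 ∧ w s = w (t j) ∧ ∀ x, w s x = w s 0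
    · have h1 := GoP.rest (ν := ν) (r := r j) (p := p j) (s := t j) (t := t (j + 1)) (f := f) (w := w)
        (w0 := w (t j)) (m := w (t j) 0) (by linarith [hr j]) (by linarith [(hp j).1])
        (funext fun x => (hc (t j) ⟨le_rfl, (hlt j).le⟩).2.2 x)
        (fun τ hτ => (hc τ ⟨hτ.1.le, hτ.2⟩).1) (fun τ hτ => (hc τ ⟨hτ.1.le, hτ.2⟩).2.1)
      refine ⟨fun _ => w (t j), fun _ _ => 0, ?_, fun s hs => ?_, fun _ => ⟨rfl, rfl⟩⟩
      · rw [(hc (t (j + 1)) ⟨(hlt j).le, le_rfl⟩).2.1]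
        exact h1.mono zero_le
      · have e1 : (fun x i => w (t j) x i - w s x i) = fun (_ : R3) (_ : Fin 3) => (0 : ℝ) := by
          funext x i
          rw [(hc s hs).2.1, sub_self]
        rw [e1, cost_zero _ (by linarith [hr j])]
        exact zero_le
    · obtain ⟨U, P, h, hcl⟩ := step_dom (p := p j) hν (hr j) (hp j).1 (hp j).2 (htj j) (hlt j) (hlt (j + 1))
        (hIco (j + 1 + 1)) hf hw hwd hm (hE j)
      exact ⟨U, P, h, hcl, fun h' => absurd h' hc⟩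
  choose Us Ps hG hcls hrest using hpre
  choose η hη ha hb using fun j => (hG j).ends
  obtain ⟨U, hUd⟩ : ∃ U : ℝ → R3 → R3, U = gl t Us 0 := ⟨_, rfl⟩
  obtain ⟨P, hPd⟩ : ∃ P : ℝ → R3 → ℝ, P = gl t Ps 0 := ⟨_, rfl⟩
  have near0 : ∀ s, s < t 1 → ∀ᶠ σ in 𝓝 s, U σ = Us 0 σ ∧ P σ = Ps 0 σ := by
    intro s hs
    rw [hUd, hPd]
    exact (gl_near0 hs).and (gl_near0 hs)
  have nearj : ∀ s j, t j < s → s ≤ t (j + 1) → ∀ᶠ σ in 𝓝 s, U σ = Us j σ ∧ P σ = Ps j σ := by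
    intro s j h1 h2
    rw [hUd, hPd]
    exact (gl_near ht (v := fun j => w (t j)) hη (fun j σ h => (ha j σ h).1) (fun j σ h => (hb j σ h).1) h1 h2).and
      (gl_near ht (v := fun _ => 0) hη (fun j σ h => (ha j σ h).2) (fun j σ h => (hb j σ h).2) h1 h2)
  have near : ∀ s ∈ Dom t, ∃ j, ∀ᶠ σ in 𝓝 s, U σ = Us j σ ∧ P σ = Ps j σ := by
    intro s hs
    rcases dom_idx ht hs with h | ⟨j, h1, h2⟩
    · exact ⟨0, near0 s h⟩
    · exact ⟨j, nearj s j h1 h2⟩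
  -- the values at the nodes
  have node : ∀ j, ∀ᶠ σ in 𝓝 (t j), U σ = w (t j) ∧ P σ = 0 := by
    intro j
    rcases Nat.eq_zero_or_pos j with h0 | h0
    · subst h0
      have h1 : ∀ᶠ σ in 𝓝 (t 0), σ < t 0 + η 0 := gt_mem_nhds (by linarith [hη 0])
      filter_upwards [near0 (t 0) (hlt 0), h1] with σ h2 h3
      obtain ⟨h4, h5⟩ := ha 0 σ h3.le
      rw [h2.1, h2.2]
      exact ⟨h4, h5⟩
    · obtain ⟨i, rfl⟩ : ∃ i, j = i + 1 := ⟨j - 1, by omega⟩
      have h1 : ∀ᶠ σ in 𝓝 (t (i + 1)), t (i + 1) - η i < σ := lt_mem_nhds (by linarith [hη i])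
      filter_upwards [nearj (t (i + 1)) i (hlt i) le_rfl, h1] with σ h2 h3
      obtain ⟨h4, h5⟩ := hb i σ h3.le
      rw [h2.1, h2.2]
      exact ⟨h4, h5⟩
  have hres : ∀ s j, (∀ᶠ σ in 𝓝 s, U σ = Us j σ ∧ P σ = Ps j σ) →
      ∀ᶠ σ in 𝓝 s, res ν U P σ = res ν (Us j) (Ps j) σ := by
    intro s j h
    filter_upwards [h.eventually_nhds] with σ hσ
    exact res_congr (hσ.mono fun _ h => h.1) hσ.self_of_nhds.2
  have hgsv : ∀ j, SV univ (res ν (Us j) (Ps j)) := fun j => (hG j).path.res_sv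
  have hDu : UniqueDiffOn ℝ (Dom t) := by
    intro s hs
    obtain ⟨hs0, j, hj⟩ := hs
    have h1 : UniqueDiffWithinAt ℝ (Ici (0 : ℝ)) s := uniqueDiffOn_Ici 0 s hs0
    refine h1.mono_nhds ?_
    rw [nhdsWithin_le_iff]
    have h2 : Iio (t j) ∈ 𝓝 s := Iio_mem_nhds hj
    filter_upwards [self_mem_nhdsWithin, mem_nhdsWithin_of_mem_nhds h2] with σ h3 h4
    exact ⟨h3, j, h4⟩
  refine ⟨U, P, res ν U P, ⟨fun i => ?_, fun s hs => ?_⟩, ?_, fun s hs => ?_, ⟨fun i => ?_, fun s hs => ?_⟩,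
    fun s hs x i => ?_, fun s hs x => ?_, fun j => ?_, fun j s hs => ?_, fun j => ?_, fun j hj s hs => ?_⟩
  · rintro ⟨s, x⟩ ⟨hs, -⟩
    obtain ⟨j, hj⟩ := near s hs
    exact Sm.at_of_eventually (F := fun t x => U t x i) ((hG j).path.smU i)
      (hj.mono fun σ h => funext fun x => by simp only [h.1])
  · obtain ⟨j, hj⟩ := near s hs
    rw [hj.self_of_nhds.1]
    exact (hG j).path.perU s
  · rintro ⟨s, x⟩ ⟨hs, -⟩
    obtain ⟨j, hj⟩ := near s hs
    exact Sm.at_of_eventually (hG j).path.smP (hj.mono fun σ h => h.2)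
  · obtain ⟨j, hj⟩ := near s hs
    rw [hj.self_of_nhds.2]
    exact (hG j).path.perP s
  · rintro ⟨s, x⟩ ⟨hs, -⟩
    obtain ⟨j, hj⟩ := near s hs
    exact Sm.at_of_eventually (F := fun t x => res ν U P t x i) ((hgsv j).sm i)
      ((hres s j hj).mono fun σ h => funext fun x => by simp only [h])
  · obtain ⟨j, hj⟩ := near s hs
    rw [(hres s j hj).self_of_nhds]
    exact (hgsv j).per s (mem_univ _)
  · obtain ⟨j, hj⟩ := near s hs
    have h1 : DifferentiableAt ℝ (fun σ => U σ x i) s := by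
      have h2 : DifferentiableAt ℝ (fun σ => Us j σ x i) s := by
        have := ((hG j).path.smU i).dtw_eq (mem_univ s) x
        exact (hasDerivWithinAt_univ.1 this).differentiableAt
      refine h2.congr_of_eventuallyEq (hj.mono fun σ h => ?_)
      simp only [h.1]
    rw [h1.derivWithin (hDu s hs)]
    unfold res adv lap
    ring
  · obtain ⟨j, hj⟩ := near s hs
    rw [hj.self_of_nhds.1]
    exact (hG j).path.div s x
  · exact (node j).self_of_nhds.1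
  · rcases eq_or_lt_of_le hs.1 with h | h
    · have e1 : (fun x i => U s x i - w s x i) = fun (_ : R3) (_ : Fin 3) => (0 : ℝ) := by
        funext x i
        rw [← h, (node j).self_of_nhds.1, sub_self]
      rw [e1, cost_zero _ (by linarith [hr j])]
      exact zero_le
    · rw [(nearj s j h hs.2).self_of_nhds.1]
      exact hcls j s hs
  · refine le_trans (le_of_eq ?_) (hG j).int
    refine setLIntegral_congr_fun measurableSet_Ioc fun s hs => ?_
    have h1 := nearj s j hs.1 hs.2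
    simp only [(hres s j h1).self_of_nhds, h1.self_of_nhds.1]
  · obtain ⟨hU', hP'⟩ := hrest j hj
    have hc : w (t j) = fun _ => w (t j) 0 := funext fun x => (hj (t j) ⟨le_rfl, (hlt j).le⟩).2.2 x
    have key : ∀ᶠ σ in 𝓝 s, U σ = w (t j) ∧ P σ = 0 := by
      rcases eq_or_lt_of_le hs.1 with h | h
      · rw [← h]
        exact node j
      · filter_upwards [nearj s j h hs.2] with σ hσ
        rw [hσ.1, hσ.2, hU', hP']
        exact ⟨rfl, rfl⟩
    refine ⟨?_, ?_⟩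
    · have h1 : res ν U P s = res ν (fun _ _ => w (t j) 0) (fun _ _ => 0) s := by
        refine res_congr ?_ key.self_of_nhds.2
        filter_upwards [key] with σ hσ
        rw [hσ.1]
        exact hc
      rw [h1]
      funext x i
      exact res_rest _ _ _ _ _
    · rw [key.self_of_nhds.1, (hj s hs).2.1]

end Pool.Agent.H3NS
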