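import Pool.Agent.H3NS.Hop

set_option autoImplicit false
set_option maxHeartbeats 4000000
set_option synthInstance.maxHeartbeats 400000

open MeasureTheory Set Filter Topology
open scoped ENNReal NNReal ContDiff

namespace Pool.Agent.H3NS

open Pool.Agent.H356R3.NS

lemma mean_eq_zero_of_sc {w : R3 → R3} (h : ∀ i, sc (fun x => w x i) 0 = 0) : mean w = 0 := by
  funext i
  have h1 := fc_zero_eq w i
  rw [fc_sc, h i] at h1
  exact_mod_cast h1.symm

lemma fj_zero (j : Fin 3) : fj 0 j = 0 := by simp [fj]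

lemma mean_grad {q : R3 → ℝ} (hq : ContDiff ℝ ∞ q) (hqp : Pe q) : mean (fun x i => pd i q x) = 0 :=
  mean_eq_zero_of_sc fun i => by rw [sc_pd hq hqp, fj_zero, zero_mul]

lemma mean_stat (ν : ℝ) {v : R3 → R3} (hv : Smo v) (hp : Pe v) (hd : ∀ x, ∑ i, pd i (fun y => v y i) x = 0) :
    mean (stat ν v) = 0 := by
  refine mean_eq_zero_of_sc fun i => ?_
  have e : (fun x => stat ν v x i) = fun x => ∑ j, (pd j (fun y => v y j * v y i) x
      + pd j (fun y => -ν * pd j (fun y => v y i) y) x) := by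
    funext x
    have e1 : ∀ j, pd j (fun y => v y j * v y i) x = pd j (fun y => v y j) x * v x i + v x j * pd j (fun y => v y i) x :=
      fun j => pd_mul' (hv.comp j) (hv.comp i) j x
    have e2 : ∀ j, pd j (fun y => -ν * pd j (fun y => v y i) y) x = -ν * pd j (pd j fun y => v y i) x :=
      fun j => pd_mul (pd_smooth (hv.comp i) j) (-ν) j x
    simp only [e1, e2]
    rw [Finset.sum_add_distrib, Finset.sum_add_distrib, ← Finset.sum_mul, hd x, ← Finset.mul_sum]
    unfold stat adv lap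
    ring
  have hper : ∀ j, Pe (fun x => pd j (fun y => v y i) x) := fun j =>
    Pe.pd (fun x l => congrFun (hp x l) i) j
  rw [e, sc_sum Finset.univ (h := fun j x => pd j (fun y => v y j * v y i) x
      + pd j (fun y => -ν * pd j (fun y => v y i) y) x) (fun j _ =>
      ((pd_smooth ((hv.comp j).mul (hv.comp i)) j).add
        (pd_smooth (contDiff_const.mul (pd_smooth (hv.comp i) j)) j)).continuous)]
  refine Finset.sum_eq_zero fun j _ => ?_
  rw [sc_add (pd_smooth ((hv.comp j).mul (hv.comp i)) j).continuous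
    (pd_smooth (contDiff_const.mul (pd_smooth (hv.comp i) j)) j).continuous,
    sc_pd ((hv.comp j).mul (hv.comp i)) (fun x l => by rw [hp x l]),
    sc_pd (contDiff_const.mul (pd_smooth (hv.comp i) j)) (fun x l => by
      have := hper j x l
      simp only at this
      rw [this]), fj_zero]
  ring

lemma mean_sub {g h : R3 → R3} (hg : Continuous g) (hh : Continuous h) :
    mean (fun x i => g x i - h x i) = mean g - mean h := by
  have := mean_add_smul hg hh (-1)
  have e : (fun x i => g x i + (-1) * h x i : R3 → R3) = fun x i => g x i - h x i := by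
    funext x i
    ring
  rw [e] at this
  rw [this]
  simp [sub_eq_add_neg]

lemma mean_add {g h : R3 → R3} (hg : Continuous g) (hh : Continuous h) :
    mean (fun x i => g x i + h x i) = mean g + mean h := by
  have := mean_add_smul hg hh 1
  simpa using this

lemma mean_le_cost {r : ℝ} (w : R3 → R3) {e : ℝ} (he : 0 ≤ e) (h : cost r w ≤ ENNReal.ofReal e) :
    ‖mean w‖ ≤ e := by
  have h1 : ‖fc w 0‖ₑ ≤ ENNReal.ofReal e := le_trans le_self_add h
  rw [← ofReal_norm, ENNReal.ofReal_le_ofReal_iff he] at h1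
  rw [pi_norm_le_iff_of_nonneg he]
  intro i
  have h2 := norm_le_pi_norm (fc w 0) i
  rw [fc_zero_eq, Complex.norm_real] at h2
  exact h2.trans h1

lemma mean_close {g h : R3 → R3} (hg : Continuous g) (hh : Continuous h) {η : ℝ} (hη : 0 ≤ η)
    (hb : ∀ x i, |g x i - h x i| ≤ η) : ‖mean g - mean h‖ ≤ η := by
  rw [← mean_sub hg hh, pi_norm_le_iff_of_nonneg hη]
  intro i
  have h2 := norm_fc_le (g := fun x i => g x i - h x i) hη hb 0
  have h3 := norm_le_pi_norm (fc (fun x i => g x i - h x i) 0) i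
  rw [fc_zero_eq, Complex.norm_real] at h3
  exact h3.trans h2

lemma SV.stat {T : Set ℝ} (hT : UniqueDiffOn ℝ T) (ν : ℝ) {w : ℝ → R3 → R3} (hw : SV T w) :
    SV T (fun t => stat ν (w t)) := by
  have h1 := SV.adv hT hw hw
  have h2 := SV.lap hT hw
  refine ⟨fun i => (h1.sm i).sub ((Sm.const ν).mul (h2.sm i)), fun t ht => stat_per ν (hw.per t ht)⟩

lemma SV.lin {T : Set ℝ} (hT : UniqueDiffOn ℝ T) (ν : ℝ) {w g : ℝ → R3 → R3} (hw : SV T w) (hg : SV T g) :
    SV T (fun t => lin ν (w t) (g t)) := by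
  have h1 := SV.adv hT hw hg
  have h2 := SV.adv hT hg hw
  have h3 := SV.lap hT hg
  refine ⟨fun i => ((h1.sm i).add (h2.sm i)).sub ((Sm.const ν).mul (h3.sm i)),
    fun t ht => lin_per ν (hw.per t ht) (hg.per t ht)⟩

theorem coarse2 {ν r p : ℝ} (hν : 0 < ν) (hr : 2 < r) (hp1 : 1 ≤ p) (hp2 : p < 2) :
    ∃ C' : ℝ, 1 ≤ C' ∧ ∀ f w : ℝ → R3 → R3, SV (Ici 0) f → SV (Ici 0) w →
      (∀ t, 0 ≤ t → ∀ x, ∑ i, pd i (fun y => w t y i) x = 0) → ∀ a b : ℝ, 0 ≤ a → a < b → b ≤ a + 1 →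
      ∀ e1 : ℝ, 0 < e1 → e1 ≤ 1 →
      (∀ τ ∈ Icc a b, cost r (fun x i => f a x i - f τ x i) ≤ ENNReal.ofReal e1) →
      (∀ s ∈ Icc a b, ∀ τ ∈ Icc a b, dev (w s) (w τ) ≤ ENNReal.ofReal e1) →
      (∀ s ∈ Icc a b, cost r (fun x i => stat ν (w a) x i - stat ν (w s) x i) ≤ ENNReal.ofReal e1) →
      (∀ s ∈ Icc a b, ∀ t ∈ Icc a b, s ≤ t → ‖mean (w t) - mean (w s) - (t - s) • mean (f a)‖ ≤ (t - s) * e1) →
      ∀ E : ℝ, 0 < E → GoC ν r p f w a b (w a) (w b) (ENNReal.ofReal ((b - a) * (C' * e1) + E))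
        (ENNReal.ofReal E) := by
  obtain ⟨C, hC, hhop⟩ := hop (p := p) hν hr hp1 hp2
  have hr1 : 1 ≤ r := by linarith
  have hCc := Cc_pos
  refine ⟨7 + 4 * C, by linarith, ?_⟩
  intro f w hf hw hwd a b ha hab hb1 e1 he1 he1' h1 h2 h3 h4 E hE
  have hU : UniqueDiffOn ℝ (Ici (0 : ℝ)) := uniqueDiffOn_Ici 0
  have ham : a ∈ Ici (0 : ℝ) := mem_Ici.2 ha
  have hK : Icc a b ⊆ Ici 0 := fun t ht => mem_Ici.2 (ha.trans ht.1)
  have haa : a ∈ Icc a b := ⟨le_rfl, hab.le⟩
  obtain ⟨H, hHd⟩ : ∃ H, H = b - a := ⟨_, rfl⟩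
  have hH : 0 < H := by rw [hHd]; linarith
  have hH1 : H ≤ 1 := by rw [hHd]; linarith
  have hfa : Smo (f a) := hf.slice ham
  have hwa : Smo (w a) := hw.slice ham
  obtain ⟨g, q, hg, hgp, hq, hqp, hgd, hgq⟩ := helm hr1 (F := fun x i => f a x i - stat ν (w a) x i)
    (contDiff_pi.2 fun i => (hfa.comp i).sub ((stat_smo ν hwa).comp i)) (fun x j => by
      funext i
      show f a (x + Pi.single j 1) i - stat ν (w a) (x + Pi.single j 1) i = f a x i - stat ν (w a) x i
      rw [hf.per a ham x j, (stat_per ν (hw.per a ham)) x j]) he1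
  have hc1 : Continuous (fun (x : R3) (i : Fin 3) => g x i + pd i q x) :=
    continuous_pi fun i => ((hg.comp i).add (pd_smooth hq i)).continuous
  -- the mean of `g`
  have hmg : ‖mean g - mean (f a)‖ ≤ e1 := by
    have h5 := mean_le_cost _ he1.le hgq
    have h6 : mean (fun x i => f a x i - stat ν (w a) x i - (g x i + pd i q x)) = mean (f a) - mean g := by
      have a1 := mean_sub (g := fun x i => f a x i - stat ν (w a) x i) (h := fun x i => g x i + pd i q x)
        (hfa.continuous.sub (stat_smo ν hwa).continuous) hc1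
      have a2 := mean_sub hfa.continuous (stat_smo ν hwa).continuous
      have a3 := mean_add (g := g) (h := fun x i => pd i q x) hg.continuous
        (continuous_pi fun i => (pd_smooth hq i).continuous)
      rw [a1, a2, a3, mean_grad hq hqp, mean_stat ν hwa (hw.per a ham) (hwd a ha)]
      simp
    rw [h6] at h5
    rwa [norm_sub_rev]
  -- the constants
  have hgsv : SV (Ici (0 : ℝ)) (fun _ => g) := SV.const hg hgp
  obtain ⟨A', hA', hA''⟩ := (SV.lin hU ν hw hgsv).c1 hU (isCompact_Icc (a := a) (b := b)) hK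
  obtain ⟨A, hAd⟩ : ∃ A, A = Cc * A' := ⟨_, rfl⟩
  have hA : 0 < A := by rw [hAd]; positivity
  have hAb : ∀ s ∈ Icc a b, cost r (lin ν (w s) g) ≤ ENNReal.ofReal A := fun s hs => by
    rw [hAd]
    exact (SV.lin hU ν hw hgsv).cost_le hr1 (hK hs) hA' (hA'' s hs)
  obtain ⟨B, hB, hB'⟩ := cost_fin hr1 (hg.adv hg) (Pe.adv hgp hgp)
  obtain ⟨S, hS, hS'⟩ := sup_fin hg hgp
  obtain ⟨F', hF', hF''⟩ := hf.c1 hU (isCompact_Icc (a := a) (b := b)) hK
  have hKf : ∀ τ ∈ Icc a b, cost r (f τ) ≤ ENNReal.ofReal (Cc * F') := fun τ hτ =>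
    hf.cost_le hr1 (hK hτ) hF' (hF'' τ hτ)
  obtain ⟨W', hW', hW''⟩ := hw.c1 hU (isCompact_Icc (a := a) (b := b)) hK
  have hKw : ∀ τ ∈ Icc a b, dev (fun _ _ => 0) (w τ) ≤ ENNReal.ofReal W' := fun τ hτ => dev_le fun x => by
    have e5 : (fun (_ : R3) (_ : Fin 3) => (0 : ℝ)) x - w τ x = -(w τ x) := by
      funext i
      simp
    rw [e5, enorm_neg, ← ofReal_norm]
    apply ENNReal.ofReal_le_ofReal
    rw [pi_norm_le_iff_of_nonneg hW'.le]
    intro i
    exact (hW'' τ hτ).v x i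
  -- the moduli of continuity
  have hCd := Cd_pos
  obtain ⟨ζ1, hζ1d⟩ : ∃ ζ1, ζ1 = E / (4 * (Cc + Cd)) := ⟨_, rfl⟩
  have hζ1 : 0 < ζ1 := by rw [hζ1d]; positivity
  obtain ⟨δ, hδ, hwδ⟩ := hw.c1_unif hU (isCompact_Icc (a := a) (b := b)) hK (η := ζ1) hζ1
  obtain ⟨G1, hG1, hG1'⟩ := hgsv.c1 hU (isCompact_singleton (x := (0 : ℝ))) (fun t ht => by
    rw [mem_singleton_iff.1 ht]; exact mem_Ici.2 le_rfl)
  -- the steps
  obtain ⟨n, hn⟩ := exists_nat_ge (4 * H ^ 2 * (A + B + S) / E + H * S + 1 + 2 * H / δ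
    + 4 * H * ((Cc + Cd) * G1) / E)
  have hnp1 : 0 < 4 * H ^ 2 * (A + B + S) / E + H * S := by positivity
  have hnp2 : 0 < 2 * H / δ := by positivity
  have hnp3 : 0 < 4 * H * ((Cc + Cd) * G1) / E := by positivity
  have hn1 : (1 : ℝ) ≤ n := by linarith
  have hn0 : (0 : ℝ) < n := by linarith
  have hn1' : 1 ≤ n := by exact_mod_cast hn1
  obtain ⟨h, hh⟩ : ∃ h, h = H / n := ⟨_, rfl⟩
  have hh0 : 0 < h := by rw [hh]; positivity
  have hnh : n * h = H := by rw [hh]; field_simp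
  have hhH : h ≤ H := by rw [hh]; exact div_le_self hH.le hn1
  have hh1 : h ≤ 1 := hhH.trans hH1
  obtain ⟨σ, hσd⟩ : ∃ σ, σ = E / (2 * n) := ⟨_, rfl⟩
  have hσ : 0 < σ := by rw [hσd]; positivity
  have hhδ : h < δ := by
    rw [hh, div_lt_iff₀ hn0]
    have h5 : 2 * H / δ ≤ n := by linarith
    rw [div_le_iff₀ hδ] at h5
    linarith
  have hAcl : h * (Cc * G1) + Cc * ζ1 + Cd * (ζ1 + h * G1) + σ ≤ E := by
    have h5 : h * ((Cc + Cd) * G1) ≤ E / 4 := by
      rw [hh, div_mul_eq_mul_div, div_le_div_iff₀ hn0 (by norm_num)]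
      have h6 : 4 * H * ((Cc + Cd) * G1) / E ≤ n := by linarith
      rw [div_le_iff₀ hE] at h6
      linarith
    have h6 : (Cc + Cd) * ζ1 = E / 4 := by rw [hζ1d]; field_simp
    have h7 : σ ≤ E / 2 := by
      rw [hσd]
      apply div_le_div_of_nonneg_left hE.le (by norm_num)
      linarith
    linarith
  obtain ⟨X, hXd⟩ : ∃ X, X = h * (2 * (h * A + h ^ 2 * B + 2 * e1 + (h * S) ^ p) + e1 + 2 * e1 ^ p
    + 2 * C * (2 * e1)) + σ := ⟨_, rfl⟩
  have hX : 0 ≤ X := by rw [hXd]; positivity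
  have step : ∀ (i : ℕ), i + 1 ≤ n →
      GoC ν r p f w (a + i * h) (a + (i + 1 : ℕ) * h) (w (a + i * h)) (w (a + (i + 1 : ℕ) * h))
        (ENNReal.ofReal X) (ENNReal.ofReal E) := by
    intro i hi
    have hi' : ((i + 1 : ℕ) : ℝ) ≤ n := by exact_mod_cast hi
    have h5 : ((i + 1 : ℕ) : ℝ) * h ≤ H := by
      rw [← hnh]
      exact mul_le_mul_of_nonneg_right hi' hh0.le
    have h6 : 0 ≤ (i : ℝ) * h := by positivity
    have hlt : a + i * h < a + (i + 1 : ℕ) * h := by push_cast; linarith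
    have hd : a + ((i + 1 : ℕ) : ℝ) * h - (a + i * h) = h := by push_cast; ring
    have hsm : a + i * h ∈ Icc a b := ⟨by linarith, by linarith⟩
    have htm : a + (i + 1 : ℕ) * h ∈ Icc a b := ⟨by linarith, by linarith⟩
    have hsub : Ioc (a + i * h) (a + (i + 1 : ℕ) * h) ⊆ Icc a b := fun τ hτ =>
      ⟨by linarith [hτ.1], by linarith [hτ.2]⟩
    have hws : Smo (w (a + i * h)) := hw.slice (hK hsm)
    have hwt : Smo (w (a + (i + 1 : ℕ) * h)) := hw.slice (hK htm)
    have hdist : ∀ τ ∈ Icc (a + i * h) (a + (i + 1 : ℕ) * h), |a + i * h - τ| < δ := by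
      intro τ hτ
      rw [abs_lt]
      constructor <;> linarith [hτ.1, hτ.2]
    have hC3 : ∀ τ ∈ Icc (a + i * h) (a + (i + 1 : ℕ) * h),
        cost r (fun x j => w (a + i * h) x j - w τ x j) ≤ ENNReal.ofReal (Cc * ζ1) := by
      intro τ hτ
      have hτm : τ ∈ Icc a b := ⟨by linarith [hτ.1], by linarith [hτ.2]⟩
      have hwτ : Smo (w τ) := hw.slice (hK hτm)
      refine cost_C1 hr1 (contDiff_pi.2 fun j => ((hws.comp j).sub (hwτ.comp j)).of_le (by simp)) ?_ hζ1
        (hwδ _ hsm τ hτm (hdist τ hτ))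
      intro x j
      funext l
      show w (a + i * h) (x + Pi.single j 1) l - w τ (x + Pi.single j 1) l = _
      rw [hw.per _ (hK hsm) x j, hw.per _ (hK hτm) x j]
    have hζ1' : C1le (fun x j => w (a + (i + 1 : ℕ) * h) x j - w (a + i * h) x j) ζ1 :=
      hwδ _ htm _ hsm (by rw [hd, abs_of_pos hh0]; exact hhδ)
    have hres := hhop (w (a + i * h)) (w (a + (i + 1 : ℕ) * h)) g q hws (hw.per _ (hK hsm)) (hwd _ (hK hsm))
      hwt (hw.per _ (hK htm)) (hwd _ (hK htm)) hg hgp hgd hq hqp (f a) hfa.continuous f w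
      (a + i * h) (a + (i + 1 : ℕ) * h) hlt (by rw [hd]; exact hh1) (fun τ hτ => hf.cont (hK (hsub hτ)))
      (fun τ hτ => hw.cont (hK ⟨by linarith [hτ.1], by linarith [hτ.2]⟩))
      A B (2 * e1) S e1 e1 (Cc * F') W' (2 * e1) G1 ζ1 (Cc * ζ1) hA.le hB.le (by positivity) hS.le he1.le
      he1.le (by positivity) hW'.le (by positivity) hG1 hζ1 (by positivity) (hG1' 0 rfl) hζ1' hC3
      (hAb _ hsm) hB' ?_ hS' (fun τ hτ => h1 τ (hsub hτ))
      (fun τ hτ => h2 _ hsm τ (hsub hτ)) (fun τ hτ => hKf τ (hsub hτ)) (fun τ hτ => hKw τ (hsub hτ)) ?_ σ hσ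
    · rw [hd] at hres
      rw [hXd]
      exact hres.mono le_rfl (ENNReal.ofReal_le_ofReal hAcl)
    · have e5 : (fun x j => f a x j - stat ν (w (a + i * h)) x j - (g x j + pd j q x) : R3 → R3)
          = fun x => (fun x j => f a x j - stat ν (w a) x j - (g x j + pd j q x) : R3 → R3) x
            + (fun x j => stat ν (w a) x j - stat ν (w (a + i * h)) x j : R3 → R3) x := by
        funext x j
        simp only [Pi.add_apply]
        ring
      rw [e5]
      refine (cost_add hr1 ((hfa.continuous.sub (stat_smo ν hwa).continuous).sub hc1)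
        ((stat_smo ν hwa).continuous.sub (stat_smo ν hws).continuous)).trans
        ((add_le_add hgq (h3 _ hsm)).trans (le_of_eq ?_))
      rw [← ENNReal.ofReal_add he1.le he1.le]
      congr 1
      ring
    · have h7 := h4 _ hsm _ htm hlt.le
      rw [hd] at h7 ⊢
      have e5 : mean (w (a + (i + 1 : ℕ) * h)) - mean (w (a + i * h)) - h • mean g
          = (mean (w (a + (i + 1 : ℕ) * h)) - mean (w (a + i * h)) - h • mean (f a))
            - h • (mean g - mean (f a)) := by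
        rw [smul_sub]
        abel
      rw [e5]
      refine (norm_sub_le _ _).trans ((add_le_add h7 (?_ : _ ≤ h * e1)).trans (le_of_eq (by ring)))
      rw [norm_smul, Real.norm_eq_abs, abs_of_pos hh0]
      exact mul_le_mul_of_nonneg_left hmg hh0.le
  have main : ∀ i : ℕ, 1 ≤ i → i ≤ n →
      GoC ν r p f w a (a + i * h) (w a) (w (a + i * h)) (ENNReal.ofReal (i * X)) (ENNReal.ofReal E) := by
    intro i hi
    induction i, hi using Nat.le_induction with
    | base =>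
      intro _
      have := step 0 hn1'
      simpa using this
    | succ i hi ih =>
      intro hin
      have hR := ih (by omega)
      have hR2 := step i hin
      have hi0 : (0 : ℝ) < i := by exact_mod_cast (by omega : 0 < i)
      have p1 : 0 < (i : ℝ) * h := by positivity
      have hR3 := hR.trans (by linarith) (by push_cast; linarith) hR2
      refine hR3.mono (le_of_eq ?_) le_rfl
      rw [← ENNReal.ofReal_add (by positivity) hX]
      congr 1
      push_cast
      ring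
  have hR := main n hn1' le_rfl
  have hb' : a + n * h = b := by rw [hnh, hHd]; ring
  rw [hb'] at hR
  refine hR.mono (ENNReal.ofReal_le_ofReal ?_) le_rfl
  have hep : e1 ^ p ≤ e1 := by
    calc e1 ^ p ≤ e1 ^ (1 : ℝ) := Real.rpow_le_rpow_of_exponent_ge he1 he1' hp1
      _ = e1 := Real.rpow_one _
  have hhS : h * S ≤ 1 := by
    rw [hh, div_mul_eq_mul_div, div_le_one hn0]
    have : 0 < 4 * H ^ 2 * (A + B + S) / E := by positivity
    linarith
  have hhSp : (h * S) ^ p ≤ h * S := by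
    calc (h * S) ^ p ≤ (h * S) ^ (1 : ℝ) := Real.rpow_le_rpow_of_exponent_ge (by positivity) hhS hp1
      _ = h * S := Real.rpow_one _
  have hh2 : h ^ 2 * B ≤ h * B := by
    apply mul_le_mul_of_nonneg_right _ hB.le
    nlinarith
  have hsm : 2 * H * (h * (A + B + S)) ≤ E / 2 := by
    rw [hh]
    have h5 : 4 * H ^ 2 * (A + B + S) / E ≤ n := by
      have : 0 < H * S := by positivity
      linarith
    rw [div_le_iff₀ hE] at h5
    have h6 : 2 * H * (H / n * (A + B + S)) = 2 * H ^ 2 * (A + B + S) / n := by ring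
    rw [h6, div_le_div_iff₀ hn0 (by norm_num)]
    linarith
  have c1 : (n : ℝ) * σ = E / 2 := by rw [hσd]; field_simp
  have c2 : (n : ℝ) * X = H * (2 * (h * A + h ^ 2 * B + 2 * e1 + (h * S) ^ p) + e1 + 2 * e1 ^ p
    + 2 * C * (2 * e1)) + E / 2 := by
    rw [hXd, mul_add, c1, ← mul_assoc, hnh]
  rw [c2, ← hHd]
  have c3 : 2 * (h * A + h ^ 2 * B + 2 * e1 + (h * S) ^ p) + e1 + 2 * e1 ^ p + 2 * C * (2 * e1)
      ≤ (7 + 4 * C) * e1 + 2 * (h * (A + B + S)) := by linarith
  calc _ ≤ H * ((7 + 4 * C) * e1 + 2 * (h * (A + B + S))) + E / 2 :=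
        add_le_add (mul_le_mul_of_nonneg_left c3 hH.le) le_rfl
    _ = H * ((7 + 4 * C) * e1) + 2 * H * (h * (A + B + S)) + E / 2 := by ring
    _ ≤ _ := by linarith

lemma mean_contOn {f : ℝ → R3 → R3} (hf : SV (Ici 0) f) (T : ℝ) (i : Fin 3) :
    ContinuousOn (fun s => mean (f s) i) (Icc 0 T) := by
  have hU : UniqueDiffOn ℝ (Ici (0 : ℝ)) := uniqueDiffOn_Ici 0
  have hKs : Icc (0 : ℝ) T ⊆ Ici 0 := fun t ht => ht.1
  rw [Metric.continuousOn_iff]
  intro s hs ε hε
  obtain ⟨δ, hδ, h⟩ := hf.c1_unif hU isCompact_Icc hKs (η := ε / 2) (by positivity)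
  refine ⟨δ, hδ, fun t ht hts => ?_⟩
  have h5 := mean_close (hf.cont (hKs ht)) (hf.cont (hKs hs)) (by positivity) fun x i =>
    (h t ht s hs hts).v x i
  have h6 := norm_le_pi_norm (mean (f t) - mean (f s)) i
  rw [Pi.sub_apply] at h6
  rw [Real.dist_eq]
  have h7 : |mean (f t) i - mean (f s) i| ≤ ε / 2 := h6.trans h5
  linarith

theorem follow {ν r p : ℝ} (hν : 0 < ν) (hr : 2 < r) (hp1 : 1 ≤ p) (hp2 : p < 2) {T : ℝ} (hT : 0 < T)
    {E : ℝ} (hE : 0 < E) :
    ∃ μ : ℝ, 0 < μ ∧ ∀ f w : ℝ → R3 → R3, SV (Ici 0) f → SV (Ici 0) w →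
      (∀ t, 0 ≤ t → ∀ x, ∑ i, pd i (fun y => w t y i) x = 0) →
      (∀ s ∈ Icc 0 T, ∀ t ∈ Icc 0 T, s ≤ t → ∀ i,
        |mean (w t) i - mean (w s) i - ∫ τ in s..t, mean (f τ) i| ≤ (t - s) * μ) →
      ∀ n : ℕ, 1 ≤ n → ∃ (U : ℝ → R3 → R3) (P : ℝ → R3 → ℝ),
        GoP ν r p f w 0 T (w 0) (w T) (ENNReal.ofReal E) U P ∧
        (∀ τ ∈ Icc 0 T, cost r (fun x i => U τ x i - w τ x i) ≤ ENNReal.ofReal E) ∧
        ∀ j : ℕ, j ≤ n → U (j * (T / n)) = w (j * (T / n)) := by
  obtain ⟨C, hC, hco⟩ := coarse2 (p := p) hν hr hp1 hp2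
  have hC0 : 0 < C := by linarith
  have hr1 : 1 ≤ r := by linarith
  have hCc := Cc_pos
  have hU : UniqueDiffOn ℝ (Ici (0 : ℝ)) := uniqueDiffOn_Ici 0
  have hKc : IsCompact (Icc (0 : ℝ) T) := isCompact_Icc
  have hKs : Icc (0 : ℝ) T ⊆ Ici 0 := fun t ht => ht.1
  obtain ⟨e1, he1, he1a, he1b⟩ : ∃ e1 : ℝ, 0 < e1 ∧ e1 ≤ 1 ∧ e1 ≤ E / (2 * T * C) :=
    ⟨min 1 (E / (2 * T * C)), lt_min one_pos (by positivity), min_le_left _ _, min_le_right _ _⟩
  refine ⟨e1 / 2, by positivity, fun f w hf hw hwd hmean n hn => ?_⟩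
  obtain ⟨δf, hδf, hf'⟩ := hf.c1_unif hU hKc hKs (η := min (e1 / 2) (e1 / Cc)) (lt_min (by positivity) (by positivity))
  obtain ⟨δw, hδw, hw'⟩ := hw.c1_unif hU hKc hKs (η := e1) he1
  have hst := SV.stat hU ν hw
  obtain ⟨δs, hδs, hs'⟩ := hst.c1_unif hU hKc hKs (η := e1 / Cc) (by positivity)
  have hηf : 0 < min (e1 / 2) (e1 / Cc) := lt_min (by positivity) (by positivity)
  -- closeness
  have cf : ∀ t ∈ Icc 0 T, ∀ s ∈ Icc 0 T, |t - s| < δf →
      cost r (fun x i => f t x i - f s x i) ≤ ENNReal.ofReal e1 := by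
    intro t ht s hs hts
    have hd1 : SV (Ici (0 : ℝ)) (fun t x i => f t x i - f s x i) :=
      hf.sub (SV.const (hf.slice (hKs hs)) (hf.per s (hKs hs)))
    have := hd1.cost_le hr1 (hKs ht) hηf (hf' t ht s hs hts)
    refine this.trans (ENNReal.ofReal_le_ofReal ?_)
    calc Cc * min (e1 / 2) (e1 / Cc) ≤ Cc * (e1 / Cc) := mul_le_mul_of_nonneg_left (min_le_right _ _) hCc.le
      _ = e1 := by field_simp
  have cm : ∀ t ∈ Icc 0 T, ∀ s ∈ Icc 0 T, |t - s| < δf → ‖mean (f t) - mean (f s)‖ ≤ e1 / 2 := by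
    intro t ht s hs hts
    refine mean_close (hf.cont (hKs ht)) (hf.cont (hKs hs)) (by positivity) fun x i => ?_
    exact ((hf' t ht s hs hts).v x i).trans (min_le_left _ _)
  have cw : ∀ t ∈ Icc 0 T, ∀ s ∈ Icc 0 T, |t - s| < δw → dev (w t) (w s) ≤ ENNReal.ofReal e1 := by
    intro t ht s hs hts
    refine dev_le fun x => ?_
    rw [← ofReal_norm]
    apply ENNReal.ofReal_le_ofReal
    rw [pi_norm_le_iff_of_nonneg he1.le]
    intro i
    exact (hw' t ht s hs hts).v x i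
  have cs : ∀ t ∈ Icc 0 T, ∀ s ∈ Icc 0 T, |t - s| < δs →
      cost r (fun x i => stat ν (w t) x i - stat ν (w s) x i) ≤ ENNReal.ofReal e1 := by
    intro t ht s hs hts
    have hd1 : SV (Ici (0 : ℝ)) (fun t x i => stat ν (w t) x i - stat ν (w s) x i) :=
      hst.sub (SV.const (hst.slice (hKs hs)) (hst.per s (hKs hs)))
    have := hd1.cost_le hr1 (hKs ht) (M := e1 / Cc) (by positivity) (hs' t ht s hs hts)
    refine this.trans (le_of_eq ?_)
    congr 1
    field_simp
  -- continuity of the mean of the force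
  have hmc := mean_contOn hf T
  have hii : ∀ i, ∀ s ∈ Icc 0 T, ∀ t ∈ Icc 0 T, IntervalIntegrable (fun s => mean (f s) i) volume s t := by
    intro i s hs t ht
    apply ContinuousOn.intervalIntegrable
    refine (hmc i).mono ?_
    exact uIcc_subset_Icc hs ht
  -- the mesh
  obtain ⟨δ, hδ, hδ1, hδ2, hδ3, hδ4⟩ : ∃ δ : ℝ, 0 < δ ∧ δ ≤ δf ∧ δ ≤ δw ∧ δ ≤ δs ∧ δ ≤ 1 :=
    ⟨min (min δf δw) (min δs 1), lt_min (lt_min hδf hδw) (lt_min hδs one_pos),
      (min_le_left _ _).trans (min_le_left _ _), (min_le_left _ _).trans (min_le_right _ _),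
      (min_le_right _ _).trans (min_le_left _ _), (min_le_right _ _).trans (min_le_right _ _)⟩
  obtain ⟨k, hk⟩ := exists_nat_ge (T / (δ / 2) + 1)
  have hk1 : (1 : ℝ) ≤ k := by
    have : 0 < T / (δ / 2) := by positivity
    linarith
  have hk0 : (0 : ℝ) < k := by linarith
  have hnr : (1 : ℝ) ≤ n := by exact_mod_cast hn
  have hn0 : (0 : ℝ) < n := by linarith
  obtain ⟨N, hNd⟩ : ∃ N : ℕ, N = n * k := ⟨_, rfl⟩
  have hNr : (N : ℝ) = n * k := by rw [hNd]; push_cast; ring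
  have hkN : (k : ℝ) ≤ N := by rw [hNr]; nlinarith
  have hN : T / (δ / 2) + 1 ≤ N := hk.trans hkN
  have hN1 : (1 : ℝ) ≤ N := hk1.trans hkN
  have hN0 : (0 : ℝ) < N := by linarith
  have hN1' : 1 ≤ N := by exact_mod_cast hN1
  obtain ⟨H, hHd⟩ : ∃ H, H = T / N := ⟨_, rfl⟩
  have hH : 0 < H := by rw [hHd]; positivity
  have hNH : N * H = T := by rw [hHd]; field_simp
  have hHδ : H < δ := by
    rw [hHd, div_lt_iff₀ hN0]
    have : T / (δ / 2) ≤ N := by linarith
    rw [div_le_iff₀ (by positivity)] at this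
    nlinarith
  obtain ⟨X, hXd⟩ : ∃ X, X = H * (C * e1) + E / (2 * N) := ⟨_, rfl⟩
  have hX : 0 ≤ X := by rw [hXd]; positivity
  have hEN : E / (2 * N) ≤ E := by
    apply div_le_self hE.le
    linarith
  have step : ∀ j : ℕ, j + 1 ≤ N →
      GoC ν r p f w (j * H) ((j + 1 : ℕ) * H) (w (j * H)) (w ((j + 1 : ℕ) * H)) (ENNReal.ofReal X)
        (ENNReal.ofReal E) := by
    intro j hj
    have hj' : ((j + 1 : ℕ) : ℝ) ≤ N := by exact_mod_cast hj
    have h5 : ((j + 1 : ℕ) : ℝ) * H ≤ T := by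
      rw [← hNH]
      exact mul_le_mul_of_nonneg_right hj' hH.le
    have h6 : 0 ≤ (j : ℝ) * H := by positivity
    have hlt : (j : ℝ) * H < (j + 1 : ℕ) * H := by push_cast; linarith
    have hd : ((j + 1 : ℕ) : ℝ) * H - j * H = H := by push_cast; ring
    have hsub : Icc ((j : ℝ) * H) ((j + 1 : ℕ) * H) ⊆ Icc 0 T := fun τ hτ =>
      ⟨h6.trans hτ.1, hτ.2.trans h5⟩
    have haa : (j : ℝ) * H ∈ Icc ((j : ℝ) * H) ((j + 1 : ℕ) * H) := ⟨le_rfl, hlt.le⟩
    have hdist : ∀ s ∈ Icc ((j : ℝ) * H) ((j + 1 : ℕ) * H), ∀ t ∈ Icc ((j : ℝ) * H) ((j + 1 : ℕ) * H),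
        |s - t| < δ := by
      intro s hs t ht
      rw [abs_lt]
      constructor <;> linarith [hs.1, hs.2, ht.1, ht.2]
    have hres := hco f w hf hw hwd (j * H) ((j + 1 : ℕ) * H) h6 hlt (by push_cast; linarith) e1 he1 he1a
      (fun τ hτ => cf _ (hsub haa) τ (hsub hτ) ((hdist _ haa τ hτ).trans_le hδ1))
      (fun s hs τ hτ => cw s (hsub hs) τ (hsub hτ) ((hdist s hs τ hτ).trans_le hδ2))
      (fun s hs => cs _ (hsub haa) s (hsub hs) ((hdist _ haa s hs).trans_le hδ3)) ?_ (E / (2 * N)) (by positivity)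
    · rw [hd] at hres
      rw [hXd]
      exact hres.mono le_rfl (ENNReal.ofReal_le_ofReal hEN)
    · intro s hs t ht hst
      have hts0 : 0 ≤ t - s := by linarith
      rw [pi_norm_le_iff_of_nonneg (by positivity)]
      intro i
      have e6 : (mean (w t) - mean (w s) - (t - s) • mean (f (j * H))) i
          = (mean (w t) i - mean (w s) i - ∫ τ in s..t, mean (f τ) i)
            + ∫ τ in s..t, (mean (f τ) i - mean (f (j * H)) i) := by
        rw [intervalIntegral.integral_sub (hii i s (hsub hs) t (hsub ht)) (by simp),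
          intervalIntegral.integral_const]
        simp only [Pi.sub_apply, Pi.smul_apply]
        ring
      rw [e6]
      have e7 : ‖∫ τ in s..t, (mean (f τ) i - mean (f (j * H)) i)‖ ≤ (t - s) * (e1 / 2) := by
        refine (intervalIntegral.norm_integral_le_of_norm_le_const (C := e1 / 2) fun τ hτ => ?_).trans ?_
        · rw [uIoc_of_le hst] at hτ
          have hτm : τ ∈ Icc ((j : ℝ) * H) ((j + 1 : ℕ) * H) := ⟨hs.1.trans hτ.1.le, hτ.2.trans ht.2⟩
          have h7 := cm τ (hsub hτm) _ (hsub haa) ((hdist τ hτm _ haa).trans_le hδ1)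
          have h8 := norm_le_pi_norm (mean (f τ) - mean (f (j * H))) i
          rw [Pi.sub_apply] at h8
          exact h8.trans h7
        · rw [abs_of_nonneg hts0, mul_comm]
      have e8 := hmean s (hsub hs) t (hsub ht) hst i
      rw [← Real.norm_eq_abs] at e8
      calc _ ≤ (t - s) * (e1 / 2) + (t - s) * (e1 / 2) := (norm_add_le _ _).trans (add_le_add e8 e7)
        _ = _ := by ring
  have main : ∀ i : ℕ, 1 ≤ i → i ≤ N → ∃ (U : ℝ → R3 → R3) (P : ℝ → R3 → ℝ),
      GoP ν r p f w 0 (i * H) (w 0) (w (i * H)) (ENNReal.ofReal (i * X)) U P ∧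
      (∀ τ ∈ Icc 0 (i * H), cost r (fun x i => U τ x i - w τ x i) ≤ ENNReal.ofReal E) ∧
      ∀ j : ℕ, j ≤ i → U (j * H) = w (j * H) := by
    intro i hi
    induction i, hi using Nat.le_induction with
    | base =>
      intro _
      obtain ⟨U, P, hUP, hcl⟩ := step 0 hN1'
      simp only [zero_add, Nat.cast_zero, zero_mul, Nat.cast_one, one_mul] at hUP hcl
      refine ⟨U, P, ?_, ?_, fun j hj => ?_⟩
      · simpa only [Nat.cast_one, one_mul] using hUP
      · simpa only [Nat.cast_one, one_mul] using hcl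
      · obtain ⟨η, hη, ha, hb⟩ := hUP.ends
        rcases (by omega : j = 0 ∨ j = 1) with rfl | rfl
        · simp only [Nat.cast_zero, zero_mul]
          exact (ha 0 (by linarith)).1
        · simp only [Nat.cast_one, one_mul]
          exact (hb H (by linarith)).1
    | succ i hi ih =>
      intro hin
      obtain ⟨U, P, hUP, hcl, hnod⟩ := ih (by omega)
      obtain ⟨U', P', hUP', hcl'⟩ := step i hin
      have hi0 : (0 : ℝ) < i := by exact_mod_cast (by omega : 0 < i)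
      have p1 : 0 < (i : ℝ) * H := by positivity
      have p2 : (i : ℝ) * H < (i + 1 : ℕ) * H := by push_cast; linarith
      obtain ⟨U'', P'', h'', hle, hgt⟩ := hUP.trans p1 p2 hUP'
      refine ⟨U'', P'', h''.mono (le_of_eq ?_), close_trans hcl hcl' hle hgt, fun j hj => ?_⟩
      · rw [← ENNReal.ofReal_add (by positivity) hX]
        congr 1
        push_cast
        ring
      · rcases Nat.lt_or_ge j (i + 1) with h | h
        · have hj' : (j : ℝ) ≤ i := by exact_mod_cast (by omega : j ≤ i)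
          rw [hle _ (mul_le_mul_of_nonneg_right hj' hH.le)]
          exact hnod j (by omega)
        · have : j = i + 1 := by omega
          subst this
          obtain ⟨η, hη, ha, hb⟩ := h''.ends
          exact (hb _ (by linarith)).1
  obtain ⟨U, P, hUP, hcl, hnod⟩ := main N hN1' le_rfl
  rw [hNH] at hUP hcl
  refine ⟨U, P, hUP.mono (ENNReal.ofReal_le_ofReal ?_), hcl, fun j hj => ?_⟩
  · have c1 : (N : ℝ) * X = T * (C * e1) + E / 2 := by
      rw [hXd, mul_add, ← mul_assoc, hNH]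
      congr 1
      field_simp
    have c2 : T * (C * e1) ≤ E / 2 := by
      calc T * (C * e1) ≤ T * (C * (E / (2 * T * C))) := by gcongr
        _ = E / 2 := by field_simp
    rw [c1]
    linarith
  · have h5 := hnod (j * k) (by rw [hNd]; exact Nat.mul_le_mul_right k hj)
    have e5 : ((j * k : ℕ) : ℝ) * H = j * (T / n) := by
      rw [hHd, hNr]
      push_cast
      field_simp
    rwa [e5] at h5

end Pool.Agent.H3NS
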