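import Pool.Agent.H3NS.Helm

set_option autoImplicit false
set_option maxHeartbeats 4000000
set_option synthInstance.maxHeartbeats 400000

open MeasureTheory Set Filter Topology
open scoped ENNReal NNReal ContDiff

namespace Pool.Agent.H3NS

open Pool.Agent.H356R3.NS

lemma cost_sub_le {r : ℝ} (hr : 1 ≤ r) {a b : R3 → R3} (ha : Continuous a) (hb : Continuous b) :
    cost r (fun x i => a x i - b x i) ≤ cost r a + cost r b := by
  have h := cost_lin3 hr ha hb hb 1 0 1
  simpa using h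

lemma cost_tri {r : ℝ} (hr : 1 ≤ r) {a b c : R3 → R3} (ha : Continuous a) (hb : Continuous b)
    (hc : Continuous c) : cost r (fun x i => a x i - c x i)
      ≤ cost r (fun x i => a x i - b x i) + cost r (fun x i => b x i - c x i) := by
  have e : (fun x i => a x i - c x i : R3 → R3)
      = fun x => (fun x i => a x i - b x i : R3 → R3) x + (fun x i => b x i - c x i : R3 → R3) x := by
    funext x i
    simp only [Pi.add_apply]
    ring
  rw [e]
  exact cost_add hr (ha.sub hb) (hb.sub hc)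

lemma Path.sv {U : ℝ → R3 → R3} {P : ℝ → R3 → ℝ} (h : Path U P) : SV univ U :=
  ⟨h.smU, fun t _ => h.perU t⟩

lemma Path.res_sv {ν : ℝ} {U : ℝ → R3 → R3} {P : ℝ → R3 → ℝ} (h : Path U P) : SV univ (res ν U P) := by
  refine ⟨fun i => ?_, fun t _ x j => funext fun i => ?_⟩
  · unfold res
    exact (((h.smU i).dt.add (Sm.adv uniqueDiffOn_univ h.smU h.smU i)).sub
      ((Sm.const ν).mul (Sm.lap uniqueDiffOn_univ h.smU i))).add (h.smP.pd uniqueDiffOn_univ i)
  · unfold res
    have h1 : (fun s => U s (x + Pi.single j 1) i) = fun s => U s x i := by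
      funext s
      rw [h.perU s x j]
    have h3 := (h.perP t).pd i x j
    simp only at h3
    rw [h1, (Pe.adv (h.perU t) (h.perU t)) x j, (Pe.lap (h.perU t)) x j, h3]

lemma Reach.force {ν r : ℝ} (hr : 1 ≤ r) {F f : ℝ → R3 → R3} {s t : ℝ} {w0 w1 : R3 → R3} {E C : ℝ≥0∞}
    (hF : ∀ τ ∈ Ioc s t, Continuous (F τ)) (hf : ∀ τ ∈ Ioc s t, Continuous (f τ))
    (hC : ∀ τ ∈ Ioc s t, cost r (fun x i => F τ x i - f τ x i) ≤ C) (h : Reach ν r F s t w0 w1 E) :
    Reach ν r f s t w0 w1 (E + C * ENNReal.ofReal (t - s)) := by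
  obtain ⟨U, P, hUP, hη, hE⟩ := h
  refine ⟨U, P, hUP, hη, ?_⟩
  calc ∫⁻ τ in Ioc s t, cost r (fun x i => res ν U P τ x i - f τ x i)
      ≤ ∫⁻ τ in Ioc s t, (cost r (fun x i => res ν U P τ x i - F τ x i) + C) := by
        refine setLIntegral_mono' measurableSet_Ioc fun τ hτ => ?_
        exact (cost_tri hr (hUP.res_sv.cont (mem_univ τ)) (hF τ hτ) (hf τ hτ)).trans
          (add_le_add le_rfl (hC τ hτ))
    _ = (∫⁻ τ in Ioc s t, cost r (fun x i => res ν U P τ x i - F τ x i)) + ∫⁻ _ in Ioc s t, C :=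
        lintegral_add_right _ measurable_const
    _ ≤ E + C * ENNReal.ofReal (t - s) := by
        rw [setLIntegral_const, Real.volume_Ioc]
        exact add_le_add hE le_rfl

lemma Reach.rest (ν r : ℝ) (hr : 1 ≤ r) (s t : ℝ) (m : R3) :
    Reach ν r (fun _ _ _ => 0) s t (fun _ => m) (fun _ => m) 0 := by
  refine ⟨fun _ _ => m, fun _ _ => 0, ⟨fun i => Sm.const _, Sm.const _, fun _ _ _ => rfl,
    fun _ _ _ => rfl, fun _ x => ?_⟩, ⟨1, one_pos, fun _ _ => ⟨rfl, rfl⟩, fun _ _ => ⟨rfl, rfl⟩⟩, ?_⟩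
  · exact Finset.sum_eq_zero fun i _ => pd_const _ i x
  · have e : ∀ τ, cost r (fun x i => res ν (fun _ _ => m) (fun _ _ => 0) τ x i - 0) = 0 := by
      intro τ
      rw [← cost_zero r hr]
      congr 1
      funext x i
      rw [res_rest, sub_zero]
    simp only [e]
    simp

theorem reach_kill' {ν r : ℝ} (hν : 0 < ν) (hr : 2 < r) {w0 : R3 → R3} (hw : Smo w0) (hp : Pe w0)
    (hd : ∀ x, ∑ i, pd i (fun y => w0 y i) x = 0) {E : ℝ} (hE : 0 < E) {s t : ℝ} (hst : s < t) :
    Reach ν r (fun _ _ _ => 0) s t w0 (fun _ => mean w0) (ENNReal.ofReal E) := by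
  obtain ⟨d, hd0, hdm, h⟩ := reach_kill hν hr hw hp hd hE (dm := (t - s) / 2) (by linarith)
  have h2 := (h s).trans (by linarith) (show s + d < t by linarith)
    (Reach.rest ν r (by linarith) (s + d) t (mean w0))
  rwa [add_zero] at h2

lemma exists_theta {s t : ℝ} (hst : s < t) {σ : ℝ} (hσ : 0 < σ) :
    ∃ (θ Θ : ℝ → ℝ) (l η : ℝ), 0 < η ∧ ContDiff ℝ ∞ θ ∧ ContDiff ℝ ∞ Θ ∧
      (∀ τ, HasDerivAt Θ (θ τ) τ) ∧ (∀ τ, τ ≤ s + η → θ τ = 0 ∧ Θ τ = 0) ∧
      (∀ τ, t - η ≤ τ → θ τ = 0 ∧ Θ τ = l) ∧ 0 ≤ l ∧ l ≤ t - s ∧ t - s - σ ≤ l ∧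
      (∀ τ ∈ Icc s t, 0 ≤ Θ τ ∧ Θ τ ≤ t - s) ∧
      ∫⁻ τ in Ioc s t, ENNReal.ofReal |θ τ - 1| ≤ ENNReal.ofReal σ := by
  obtain ⟨η, hη, hη1, hη2⟩ : ∃ η : ℝ, 0 < η ∧ η ≤ σ / 4 ∧ η ≤ (t - s) / 8 :=
    ⟨min (σ / 4) ((t - s) / 8), lt_min (by positivity) (by linarith), min_le_left _ _, min_le_right _ _⟩
  set θ : ℝ → ℝ := fun τ => cut (s + η) η τ * (1 - cut (t - 2 * η) η τ) with hθ
  have hθs : ContDiff ℝ ∞ θ := (cut_smooth _ _).mul (contDiff_const.sub (cut_smooth _ _))
  have hθc : Continuous θ := hθs.continuous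
  have hθ0 : ∀ τ, 0 ≤ θ τ := fun τ =>
    mul_nonneg (cut_nonneg _ _ _) (sub_nonneg.2 (cut_le_one _ _ _))
  have hθ1 : ∀ τ, θ τ ≤ 1 := fun τ => by
    have h1 := cut_nonneg (t - 2 * η) η τ
    have h2 := cut_le_one (t - 2 * η) η τ
    have h3 := cut_nonneg (s + η) η τ
    have h4 := cut_le_one (s + η) η τ
    simp only [hθ]
    nlinarith
  have z1 : ∀ τ, τ ≤ s + η → θ τ = 0 := fun τ h => by
    simp only [hθ]
    rw [cut_zero hη h, zero_mul]
  have z2 : ∀ τ, t - η ≤ τ → θ τ = 0 := fun τ h => by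
    simp only [hθ]
    rw [cut_one (a := t - 2 * η) hη (by linarith), sub_self, mul_zero]
  have o1 : ∀ τ, s + 2 * η ≤ τ → τ ≤ t - 2 * η → θ τ = 1 := fun τ h h' => by
    simp only [hθ]
    rw [cut_one (a := s + η) hη (by linarith), cut_zero (a := t - 2 * η) hη h', sub_zero, mul_one]
  set Θ : ℝ → ℝ := fun τ => ∫ y in s..τ, θ y with hΘ
  have hd : ∀ τ, HasDerivAt Θ (θ τ) τ := fun τ => (hθc.integral_hasStrictDerivAt s τ).hasDerivAt
  have hΘs : ContDiff ℝ ∞ Θ := by
    rw [contDiff_infty_iff_deriv]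
    refine ⟨fun τ => (hd τ).differentiableAt, ?_⟩
    have : deriv Θ = θ := funext fun τ => (hd τ).deriv
    rw [this]
    exact hθs
  have hii : ∀ a b, IntervalIntegrable θ volume a b := fun a b => hθc.intervalIntegrable a b
  have hz0 : ∀ τ, τ ≤ s + η → Θ τ = 0 := by
    intro τ hτ
    have : Θ τ = ∫ y in s..τ, (0 : ℝ) := by
      refine intervalIntegral.integral_congr fun y hy => ?_
      apply z1
      have := hy.2
      rcases le_total s τ with h | h
      · rw [max_eq_right h] at this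
        linarith
      · rw [max_eq_left h] at this
        linarith
    rw [this, intervalIntegral.integral_zero]
  have hz1 : ∀ τ, t - η ≤ τ → Θ τ = Θ (t - η) := by
    intro τ hτ
    have h1 : Θ τ - Θ (t - η) = ∫ y in (t - η)..τ, θ y :=
      intervalIntegral.integral_interval_sub_left (hii _ _) (hii _ _)
    have h2 : ∫ y in (t - η)..τ, θ y = ∫ y in (t - η)..τ, (0 : ℝ) := by
      refine intervalIntegral.integral_congr fun y hy => ?_
      apply z2
      have := hy.1
      rwa [min_eq_left hτ] at this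
    rw [h2, intervalIntegral.integral_zero] at h1
    linarith
  have hb0 : ∀ τ ∈ Icc s t, 0 ≤ Θ τ := fun τ hτ =>
    intervalIntegral.integral_nonneg hτ.1 fun y _ => hθ0 y
  have hb1 : ∀ τ ∈ Icc s t, Θ τ ≤ t - s := by
    intro τ hτ
    have h1 : Θ τ ≤ ∫ y in s..τ, (1 : ℝ) :=
      intervalIntegral.integral_mono_on hτ.1 (hii _ _) (by simp) fun y _ => hθ1 y
    rw [intervalIntegral.integral_const, smul_eq_mul, mul_one] at h1
    linarith [hτ.2]
  have htη : t - η ∈ Icc s t := ⟨by linarith, by linarith⟩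
  have hlow : t - s - σ ≤ Θ (t - η) := by
    have h1 : Θ (t - η) = (∫ y in s..(s + 2 * η), θ y) + ((∫ y in (s + 2 * η)..(t - 2 * η), θ y)
        + ∫ y in (t - 2 * η)..(t - η), θ y) := by
      rw [intervalIntegral.integral_add_adjacent_intervals (hii _ _) (hii _ _),
        intervalIntegral.integral_add_adjacent_intervals (hii _ _) (hii _ _)]
    have h2 : 0 ≤ ∫ y in s..(s + 2 * η), θ y :=
      intervalIntegral.integral_nonneg (by linarith) fun y _ => hθ0 y
    have h3 : 0 ≤ ∫ y in (t - 2 * η)..(t - η), θ y :=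
      intervalIntegral.integral_nonneg (by linarith) fun y _ => hθ0 y
    have h4 : ∫ y in (s + 2 * η)..(t - 2 * η), θ y = ∫ y in (s + 2 * η)..(t - 2 * η), (1 : ℝ) := by
      refine intervalIntegral.integral_congr fun y hy => ?_
      rw [uIcc_of_le (by linarith)] at hy
      exact o1 y hy.1 hy.2
    rw [intervalIntegral.integral_const, smul_eq_mul, mul_one] at h4
    rw [h1, h4]
    linarith
  refine ⟨θ, Θ, Θ (t - η), η, hη, hθs, hΘs, hd, fun τ h => ⟨z1 τ h, hz0 τ h⟩,
    fun τ h => ⟨z2 τ h, hz1 τ h⟩, hb0 _ htη, hb1 _ htη, hlow, fun τ hτ => ⟨hb0 τ hτ, hb1 τ hτ⟩, ?_⟩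
  have hle1 : ∀ τ, ENNReal.ofReal |θ τ - 1| ≤ 1 := by
    intro τ
    rw [ENNReal.ofReal_le_one, abs_le]
    constructor <;> linarith [hθ0 τ, hθ1 τ]
  have hsub : Ioc s t ⊆ Ioc s (s + 2 * η) ∪ (Ioc (s + 2 * η) (t - 2 * η) ∪ Ioc (t - 2 * η) t) := by
    intro τ hτ
    by_cases q1 : τ ≤ s + 2 * η
    · exact Or.inl ⟨hτ.1, q1⟩
    · push Not at q1
      by_cases q2 : τ ≤ t - 2 * η
      · exact Or.inr (Or.inl ⟨q1, q2⟩)
      · push Not at q2
        exact Or.inr (Or.inr ⟨q2, hτ.2⟩)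
  have i1 : ∫⁻ τ in Ioc s (s + 2 * η), ENNReal.ofReal |θ τ - 1| ≤ ENNReal.ofReal (2 * η) := by
    refine (setLIntegral_mono' measurableSet_Ioc fun τ _ => hle1 τ).trans (le_of_eq ?_)
    rw [setLIntegral_const, Real.volume_Ioc, one_mul]
    congr 1
    ring
  have i2 : ∫⁻ τ in Ioc (s + 2 * η) (t - 2 * η), ENNReal.ofReal |θ τ - 1| ≤ 0 := by
    refine (setLIntegral_mono' (g := fun _ => 0) measurableSet_Ioc fun τ hτ => ?_).trans (le_of_eq ?_)
    · rw [o1 τ hτ.1.le hτ.2]
      simp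
    · simp
  have i3 : ∫⁻ τ in Ioc (t - 2 * η) t, ENNReal.ofReal |θ τ - 1| ≤ ENNReal.ofReal (2 * η) := by
    refine (setLIntegral_mono' measurableSet_Ioc fun τ _ => hle1 τ).trans (le_of_eq ?_)
    rw [setLIntegral_const, Real.volume_Ioc, one_mul]
    congr 1
    ring
  refine (lintegral_mono_set hsub).trans ((lintegral_union_le _ _ _).trans ?_)
  refine (add_le_add i1 ((lintegral_union_le _ _ _).trans (add_le_add i2 i3))).trans ?_
  rw [zero_add, ← ENNReal.ofReal_add (by positivity) (by positivity)]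
  apply ENNReal.ofReal_le_ofReal
  linarith

/-- the residual of `m + Θ g` -/
lemma res_affine {ν : ℝ} {g : R3 → R3} {q : R3 → ℝ} (hg : Smo g) (hq : ContDiff ℝ ∞ q) (m : R3)
    {θ Θ : ℝ → ℝ} (hd : ∀ τ, HasDerivAt Θ (θ τ) τ) (τ : ℝ) (x : R3) (i : Fin 3) :
    res ν (fun τ x i => m i + Θ τ * g x i) (fun τ x => θ τ * q x) τ x i
      = θ τ * (g x i + pd i q x) + Θ τ * (adv (fun _ => m) g x i - ν * lap g x i)
        + Θ τ ^ 2 * adv g g x i := by
  unfold res
  have e1 : deriv (fun s => m i + Θ s * g x i) τ = θ τ * g x i :=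
    (((hd τ).mul_const (g x i)).const_add (m i)).deriv
  have e2 : ∀ j y, pd j (fun y => m i + Θ τ * g y i) y = Θ τ * pd j (fun y => g y i) y := by
    intro j y
    rw [pd_add contDiff_const (contDiff_const.mul (hg.comp i)), pd_const, pd_mul (hg.comp i), zero_add]
  have e3 : pd i (fun x => θ τ * q x) x = θ τ * pd i q x := pd_mul hq (θ τ) i x
  have e4 : adv (fun x i => m i + Θ τ * g x i) (fun x i => m i + Θ τ * g x i) x i
      = Θ τ * adv (fun _ => m) g x i + Θ τ ^ 2 * adv g g x i := by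
    unfold adv
    simp only [e2]
    rw [Finset.mul_sum, Finset.mul_sum, ← Finset.sum_add_distrib]
    refine Finset.sum_congr rfl fun j _ => ?_
    ring
  have e5 : lap (fun x i => m i + Θ τ * g x i) x i = Θ τ * lap g x i := by
    unfold lap
    have e6 : ∀ j, (pd j fun y => m i + Θ τ * g y i) = fun y => Θ τ * pd j (fun y => g y i) y :=
      fun j => funext fun y => e2 j y
    simp only [e6]
    rw [Finset.mul_sum]
    refine Finset.sum_congr rfl fun j _ => ?_
    rw [pd_mul (pd_smooth (hg.comp i) j)]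
  rw [e1, e3, e4, e5]
  ring

theorem force_move {ν r : ℝ} (hr : 1 ≤ r) {g : R3 → R3} {q : R3 → ℝ} (hg : Smo g) (hgp : Pe g)
    (hq : ContDiff ℝ ∞ q) (hqp : Pe q) (hdiv : ∀ x, ∑ i, pd i (fun y => g y i) x = 0) {G A B : ℝ}
    (hG0 : 0 ≤ G) (hA0 : 0 ≤ A) (hB0 : 0 ≤ B)
    (hG : cost r (fun x i => g x i + pd i q x) ≤ ENNReal.ofReal G) (m : R3)
    (hA : cost r (fun x i => adv (fun _ => m) g x i - ν * lap g x i) ≤ ENNReal.ofReal A)
    (hB : cost r (adv g g) ≤ ENNReal.ofReal B) {s t : ℝ} (hst : s < t) {σ : ℝ} (hσ : 0 < σ) :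
    ∃ l, 0 ≤ l ∧ l ≤ t - s ∧ Reach ν r (fun _ x i => g x i + pd i q x) s t (fun _ => m)
      (fun x i => m i + l * g x i)
      (ENNReal.ofReal (σ * G + (t - s) * ((t - s) * A + (t - s) ^ 2 * B))) := by
  obtain ⟨θ, Θ, l, η, hη, hθs, hΘs, hd, h0, h1, hl0, hl1, -, hb, hi⟩ := exists_theta hst hσ
  have hts : 0 < t - s := by linarith
  refine ⟨l, hl0, hl1, fun τ x i => m i + Θ τ * g x i, fun τ x => θ τ * q x,
    ⟨fun i => ?_, ?_, fun τ x j => ?_, fun τ x j => ?_, fun τ x => ?_⟩,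
    ⟨η, hη, fun τ hτ => ⟨?_, ?_⟩, fun τ hτ => ⟨?_, ?_⟩⟩, ?_⟩
  · exact (Sm.const _).add ((Sm.time hΘs).mul (Sm.space (hg.comp i)))
  · exact (Sm.time hθs).mul (Sm.space hq)
  · funext i
    rw [hgp x j]
  · simp only [hqp x j]
  · have e2 : ∀ i, pd i (fun y => m i + Θ τ * g y i) x = Θ τ * pd i (fun y => g y i) x := by
      intro i
      rw [pd_add contDiff_const (contDiff_const.mul (hg.comp i)), pd_const, pd_mul (hg.comp i), zero_add]
    simp only [e2]
    rw [← Finset.mul_sum, hdiv x, mul_zero]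
  · funext x i
    simp only [(h0 τ hτ).2]
    ring
  · funext x
    simp only [(h0 τ hτ).1]
    simp
  · funext x i
    simp only [(h1 τ hτ).2]
  · funext x
    simp only [(h1 τ hτ).1]
    simp
  · have hc1 : Continuous (fun (x : R3) (i : Fin 3) => g x i + pd i q x) :=
      continuous_pi fun i => ((hg.comp i).add (pd_smooth hq i)).continuous
    have hgsv : SV univ (fun _ => g) := SV.const hg hgp
    have hmsv : SV univ (fun (_ : ℝ) (_ : R3) => m) := SV.const contDiff_const fun _ _ => rfl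
    have hc2 : Continuous (fun (x : R3) (i : Fin 3) => adv (fun _ => m) g x i - ν * lap g x i) := by
      have a1 := (SV.adv uniqueDiffOn_univ hmsv hgsv).cont (mem_univ (0 : ℝ))
      have a2 := (SV.lap uniqueDiffOn_univ hgsv).cont (mem_univ (0 : ℝ))
      exact continuous_pi fun i => ((continuous_apply i).comp a1).sub
        (continuous_const.mul ((continuous_apply i).comp a2))
    have hc3 : Continuous (adv g g) := (SV.adv uniqueDiffOn_univ hgsv hgsv).cont (mem_univ (0 : ℝ))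
    have key : ∀ τ ∈ Ioc s t, cost r (fun x i => res ν (fun τ x i => m i + Θ τ * g x i)
        (fun τ x => θ τ * q x) τ x i - (g x i + pd i q x))
        ≤ ENNReal.ofReal |θ τ - 1| * ENNReal.ofReal G
          + ENNReal.ofReal ((t - s) * A + (t - s) ^ 2 * B) := by
      intro τ hτ
      have e : (fun x i => res ν (fun τ x i => m i + Θ τ * g x i)
        (fun τ x => θ τ * q x) τ x i - (g x i + pd i q x) : R3 → R3)
          = fun x i => (θ τ - 1) * (g x i + pd i q x)
            + Θ τ * (adv (fun _ => m) g x i - ν * lap g x i) - (-(Θ τ ^ 2)) * adv g g x i := by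
        funext x i
        rw [res_affine hg hq m hd]
        ring
      rw [e]
      refine (cost_lin3 hr hc1 hc2 hc3 _ _ _).trans ?_
      obtain ⟨b0, b1⟩ := hb τ ⟨hτ.1.le, hτ.2⟩
      rw [add_assoc]
      refine add_le_add (mul_le_mul' le_rfl hG) ?_
      rw [ENNReal.ofReal_add (by positivity) (by positivity), ENNReal.ofReal_mul hts.le,
        ENNReal.ofReal_mul (p := (t - s) ^ 2) (by positivity)]
      refine add_le_add (mul_le_mul' (ENNReal.ofReal_le_ofReal ?_) hA)
        (mul_le_mul' (ENNReal.ofReal_le_ofReal ?_) hB)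
      · rw [abs_of_nonneg b0]
        exact b1
      · rw [abs_neg, abs_of_nonneg (by positivity)]
        exact pow_le_pow_left₀ b0 b1 2
    refine (setLIntegral_mono' measurableSet_Ioc key).trans ?_
    rw [lintegral_add_right _ measurable_const, setLIntegral_const, Real.volume_Ioc,
      lintegral_mul_const'' _ (by
        refine (Continuous.aemeasurable ?_).restrict
        exact ENNReal.continuous_ofReal.comp ((hθs.continuous.sub continuous_const).abs))]
    have e5 : ENNReal.ofReal (σ * G + (t - s) * ((t - s) * A + (t - s) ^ 2 * B))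
        = ENNReal.ofReal σ * ENNReal.ofReal G
          + ENNReal.ofReal ((t - s) * A + (t - s) ^ 2 * B) * ENNReal.ofReal (t - s) := by
      rw [ENNReal.ofReal_add (by positivity) (by positivity), ENNReal.ofReal_mul hσ.le,
        mul_comm (t - s) ((t - s) * A + (t - s) ^ 2 * B),
        ENNReal.ofReal_mul (p := (t - s) * A + (t - s) ^ 2 * B) (by positivity)]
    rw [e5]
    exact add_le_add (mul_le_mul' hi le_rfl) le_rfl

end Pool.Agent.H3NS
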