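import Pool.Agent.H3NS.Dom

set_option autoImplicit false
set_option maxHeartbeats 4000000
set_option synthInstance.maxHeartbeats 400000

open MeasureTheory Set Filter Topology
open scoped ENNReal NNReal ContDiff

namespace Pool.Agent.H3NS

open Pool.Agent.H356R3.NS

/-- The interval `[0, sup_j t_j)`. -/
def Dom (t : ℕ → ℝ) : Set ℝ := {s | 0 ≤ s ∧ ∃ j, s < t j}

open Classical in
/-- gluing of `Us j` on `(t j, t (j+1)]` -/
noncomputable def gl {α : Type*} (t : ℕ → ℝ) (Us : ℕ → ℝ → α) (d : α) (s : ℝ) : α :=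
  if h : ∃ j, s ≤ t (j + 1) then Us (Nat.find h) s else d

section
variable {α : Type*} {t : ℕ → ℝ} {Us : ℕ → ℝ → α} {d : α}

lemma gl_zero {s : ℝ} (hs : s ≤ t 1) : gl t Us d s = Us 0 s := by
  classical
  have h : ∃ j, s ≤ t (j + 1) := ⟨0, hs⟩
  have h0 : Nat.find h = 0 := by
    rw [Nat.find_eq_zero]
    exact hs
  unfold gl
  rw [dif_pos h]
  convert congrArg (fun j => Us j s) h0

lemma gl_eq (ht : StrictMono t) {s : ℝ} {j : ℕ} (h1 : t j < s) (h2 : s ≤ t (j + 1)) :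
    gl t Us d s = Us j s := by
  classical
  have h : ∃ j, s ≤ t (j + 1) := ⟨j, h2⟩
  have h0 : Nat.find h = j := by
    rw [Nat.find_eq_iff]
    refine ⟨h2, fun n hn => not_le.2 ?_⟩
    exact lt_of_le_of_lt (ht.monotone (by omega)) h1
  unfold gl
  rw [dif_pos h]
  convert congrArg (fun j => Us j s) h0

lemma gl_near0 {s : ℝ} (hs : s < t 1) : ∀ᶠ σ in 𝓝 s, gl t Us d σ = Us 0 σ := by
  filter_upwards [gt_mem_nhds hs] with σ hσ
  exact gl_zero (le_of_lt hσ)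

lemma gl_near (ht : StrictMono t) {v : ℕ → α} {η : ℕ → ℝ} (hη : ∀ j, 0 < η j)
    (ha : ∀ j, ∀ σ, σ ≤ t j + η j → Us j σ = v j) (hb : ∀ j, ∀ σ, t (j + 1) - η j ≤ σ → Us j σ = v (j + 1))
    {s : ℝ} {j : ℕ} (h1 : t j < s) (h2 : s ≤ t (j + 1)) : ∀ᶠ σ in 𝓝 s, gl t Us d σ = Us j σ := by
  have h3 : t (j + 1) < t (j + 1 + 1) := ht (by omega)
  have h4 : ∀ᶠ σ in 𝓝 s, σ < min (t (j + 1) + η (j + 1)) (t (j + 1 + 1)) :=
    gt_mem_nhds (lt_min (by linarith [hη (j + 1)]) (by linarith))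
  filter_upwards [lt_mem_nhds h1, h4] with σ hσ1 hσ2
  rcases le_or_gt σ (t (j + 1)) with h | h
  · exact gl_eq ht hσ1 h
  · rw [gl_eq ht h (hσ2.le.trans (min_le_right _ _)), ha _ _ (hσ2.le.trans (min_le_left _ _)),
      hb _ _ (by linarith [hη j])]

end

lemma dom_idx {t : ℕ → ℝ} (ht : StrictMono t) {s : ℝ} (hs : s ∈ Dom t) :
    s < t 1 ∨ ∃ j, t j < s ∧ s ≤ t (j + 1) := by
  classical
  obtain ⟨hs0, j, hj⟩ := hs
  have h : ∃ j, s ≤ t (j + 1) := ⟨j, hj.le.trans (ht (by omega)).le⟩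
  rcases Nat.eq_zero_or_pos (Nat.find h) with h0 | h0
  · rcases lt_or_ge s (t 1) with h1 | h1
    · exact Or.inl h1
    · refine Or.inr ⟨0, ?_, ?_⟩
      · have : t 0 < t 1 := ht (by omega)
        linarith
      · have := Nat.find_spec h
        rw [h0] at this
        exact this
  · refine Or.inr ⟨Nat.find h, ?_, Nat.find_spec h⟩
    have h1 := Nat.find_min h (m := Nat.find h - 1) (by omega)
    rw [Nat.sub_add_cancel h0] at h1
    exact not_le.1 h1

lemma GoP.rest {ν r p : ℝ} (hr : 1 ≤ r) (hp : 0 < p) {s t : ℝ} {f w : ℝ → R3 → R3} {w0 : R3 → R3} {m : R3}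
    (hw0 : w0 = fun _ => m) (hf : ∀ τ ∈ Ioc s t, f τ = 0) (hw : ∀ τ ∈ Ioc s t, w τ = w0) :
    GoP ν r p f w s t w0 w0 0 (fun _ => w0) (fun _ _ => 0) := by
  subst hw0
  refine ⟨⟨fun i => Sm.const _, Sm.const _, fun _ _ _ => rfl,
    fun _ _ _ => rfl, fun _ x => ?_⟩, ⟨1, one_pos, fun _ _ => ⟨rfl, rfl⟩, fun _ _ => ⟨rfl, rfl⟩⟩, ?_⟩
  · exact Finset.sum_eq_zero fun i _ => pd_const _ i x
  · have e : ∀ τ ∈ Ioc s t, (cost r (fun x i => res ν (fun _ _ => m) (fun _ _ => 0) τ x i - f τ x i)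
        + dev (fun _ => m) (w τ) ^ p) = 0 := by
      intro τ hτ
      have e1 : (fun x i => res ν (fun _ _ => m) (fun _ _ => 0) τ x i - f τ x i) = (0 : R3 → R3) := by
        funext x i
        rw [res_rest, hf τ hτ]
        simp
      have e2 : dev (fun _ => m) (w τ) = 0 := by
        rw [hw τ hτ]
        unfold dev
        simp
      rw [e1, e2, ENNReal.zero_rpow_of_pos hp, add_zero]
      exact cost_zero r hr
    rw [setLIntegral_congr_fun measurableSet_Ioc e]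
    simp

end Pool.Agent.H3NS
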