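import Pool.Agent.H3NS.Force

set_option autoImplicit false
set_option maxHeartbeats 4000000
set_option synthInstance.maxHeartbeats 400000

open MeasureTheory Set Filter Topology
open scoped ENNReal NNReal ContDiff

namespace Pool.Agent.H3NS

open Pool.Agent.H356R3.NS

lemma mean_affine {g : R3 → R3} (hg : Continuous g) (m : R3) (l : ℝ) :
    mean (fun x i => m i + l * g x i) = fun i => m i + l * mean g i := by
  funext i
  have h1 : IntegrableOn (fun _ : R3 => m i) (Icc (0 : R3) 1) :=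
    continuous_const.continuousOn.integrableOn_compact isCompact_Icc
  have h2 : IntegrableOn (fun x : R3 => l * g x i) (Icc (0 : R3) 1) :=
    (continuous_const.mul ((continuous_apply i).comp hg)).continuousOn.integrableOn_compact isCompact_Icc
  have h3 := congrFun (mean_const m) i
  unfold mean at h3 ⊢
  rw [integral_add h1 h2, h3, integral_const_mul]

lemma cost_zero_sub {r : ℝ} (hr : 1 ≤ r) (f : R3 → R3) :
    cost r (fun x i => 0 - f x i) = cost r f := by
  have h := cost_neg hr (fun _ _ => 0) f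
  rw [h]
  congr 1
  funext x i
  exact sub_zero _

lemma cost_fin {r : ℝ} (hr : 1 ≤ r) {v : R3 → R3} (hv : Smo v) (hp : Pe v) :
    ∃ M : ℝ, 0 < M ∧ cost r v ≤ ENNReal.ofReal M := by
  have h := SV.const (T := univ) hv hp
  obtain ⟨M, hM, h1⟩ := h.c1 uniqueDiffOn_univ (isCompact_singleton (x := (0 : ℝ))) (subset_univ _)
  have hC := Cc_pos
  exact ⟨Cc * M, by positivity, h.cost_le hr (mem_univ (0 : ℝ)) hM (h1 0 rfl)⟩

lemma Smo.adv {a b : R3 → R3} (ha : Smo a) (hb : Smo b) : Smo (adv a b) :=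
  contDiff_pi.2 fun i => by
    unfold H3NS.adv
    exact ContDiff.sum fun j _ => (ha.comp j).mul (pd_smooth (hb.comp i) j)

lemma Smo.lap {a : R3 → R3} (ha : Smo a) : Smo (lap a) :=
  contDiff_pi.2 fun i => by
    unfold H3NS.lap
    exact ContDiff.sum fun j _ => pd_smooth (pd_smooth (ha.comp i) j) j

theorem substep {ν r : ℝ} (hν : 0 < ν) (hr : 2 < r) {g : R3 → R3} {q : R3 → ℝ} (hg : Smo g) (hgp : Pe g)
    (hq : ContDiff ℝ ∞ q) (hqp : Pe q) (hdiv : ∀ x, ∑ i, pd i (fun y => g y i) x = 0) {G A B : ℝ}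
    (hG0 : 0 ≤ G) (hA0 : 0 ≤ A) (hB0 : 0 ≤ B)
    (hG : cost r (fun x i => g x i + pd i q x) ≤ ENNReal.ofReal G) (m : R3)
    (hA : cost r (fun x i => adv (fun _ => m) g x i - ν * lap g x i) ≤ ENNReal.ofReal A)
    (hB : cost r (adv g g) ≤ ENNReal.ofReal B) {f : ℝ → R3 → R3} {s t : ℝ} (hst : s < t)
    (hf : ∀ τ ∈ Ioc s t, Continuous (f τ)) {e1 C : ℝ} (he0 : 0 ≤ e1) (hC0 : 0 ≤ C)
    (he : ∀ τ ∈ Ioc s t, cost r (fun x i => (g x i + pd i q x) - f τ x i) ≤ ENNReal.ofReal e1)
    (hC : ∀ τ ∈ Ioc s t, cost r (f τ) ≤ ENNReal.ofReal C) {σ : ℝ} (hσ : 0 < σ) :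
    ∃ l, 0 ≤ l ∧ l ≤ t - s ∧ Reach ν r f s t (fun _ => m) (fun _ i => m i + l * mean g i)
      (ENNReal.ofReal (σ + (t - s) * (e1 + (t - s) * A + (t - s) ^ 2 * B))) := by
  have hr1 : 1 ≤ r := by linarith
  have hts : 0 < t - s := by linarith
  obtain ⟨κ, hκ, hκ1, hκ2⟩ : ∃ κ : ℝ, 0 < κ ∧ κ ≤ (t - s) / 2 ∧ κ ≤ σ / (4 * (C + 1)) :=
    ⟨min ((t - s) / 2) (σ / (4 * (C + 1))), lt_min (by positivity) (by positivity), min_le_left _ _,
      min_le_right _ _⟩
  have hst' : s < t - κ := by linarith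
  have ht't : t - κ < t := by linarith
  obtain ⟨l, hl0, hl1, hR⟩ := force_move hr1 hg hgp hq hqp hdiv hG0 hA0 hB0 hG m hA hB hst'
    (σ := σ / (4 * (G + 1))) (by positivity)
  have hc1 : Continuous (fun (x : R3) (i : Fin 3) => g x i + pd i q x) :=
    continuous_pi fun i => ((hg.comp i).add (pd_smooth hq i)).continuous
  have hR1 := hR.force hr1 (f := f) (fun _ _ => hc1) (fun τ hτ => hf τ ⟨hτ.1, by linarith [hτ.2]⟩)
    (C := ENNReal.ofReal e1) (fun τ hτ => he τ ⟨hτ.1, by linarith [hτ.2]⟩)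
  have hw0 : Smo (fun x i => m i + l * g x i) :=
    contDiff_pi.2 fun i => contDiff_const.add (contDiff_const.mul (hg.comp i))
  have hw0p : Pe (fun x i => m i + l * g x i : R3 → R3) := fun x j => by
    funext i
    show m i + l * g (x + Pi.single j 1) i = m i + l * g x i
    rw [hgp x j]
  have hw0d : ∀ x, ∑ i, pd i (fun y => m i + l * g y i) x = 0 := by
    intro x
    have e2 : ∀ i, pd i (fun y => m i + l * g y i) x = l * pd i (fun y => g y i) x := by
      intro i
      rw [pd_add contDiff_const (contDiff_const.mul (hg.comp i)), pd_const, pd_mul (hg.comp i), zero_add]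
    simp only [e2]
    rw [← Finset.mul_sum, hdiv x, mul_zero]
  have hK := reach_kill' hν hr hw0 hw0p hw0d (E := σ / 4) (by positivity) ht't
  have hK1 := hK.force hr1 (f := f) (fun _ _ => continuous_const)
    (fun τ hτ => hf τ ⟨by linarith [hτ.1], hτ.2⟩) (C := ENNReal.ofReal C) (fun τ hτ => by
      rw [cost_zero_sub hr1]
      exact hC τ ⟨by linarith [hτ.1], hτ.2⟩)
  rw [mean_affine hg.continuous] at hK1
  refine ⟨l, hl0, by linarith, (hR1.trans hst' ht't hK1).mono ?_⟩
  have p1 : 0 ≤ t - κ - s := by linarith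
  have p2 : 0 ≤ t - (t - κ) := by linarith
  rw [← ENNReal.ofReal_mul he0, ← ENNReal.ofReal_mul hC0, ← ENNReal.ofReal_add (by positivity) (by positivity),
    ← ENNReal.ofReal_add (by positivity) (by positivity),
    ← ENNReal.ofReal_add (by positivity) (by positivity)]
  apply ENNReal.ofReal_le_ofReal
  have q1 : σ / (4 * (G + 1)) * G ≤ σ / 4 := by
    rw [div_mul_eq_mul_div, div_le_div_iff₀ (by positivity) (by positivity)]
    nlinarith
  have q2 : C * (t - (t - κ)) ≤ σ / 4 := by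
    have : C * κ ≤ C * (σ / (4 * (C + 1))) := mul_le_mul_of_nonneg_left hκ2 hC0
    have h3 : C * (σ / (4 * (C + 1))) ≤ σ / 4 := by
      rw [mul_div_assoc', div_le_div_iff₀ (by positivity) (by positivity)]
      nlinarith
    calc C * (t - (t - κ)) = C * κ := by ring
      _ ≤ _ := this.trans h3
  have q3 : t - κ - s ≤ t - s := by linarith
  have q4 : e1 * (t - κ - s) ≤ (t - s) * e1 := by nlinarith
  have q5 : (t - κ - s) * ((t - κ - s) * A + (t - κ - s) ^ 2 * B) ≤ (t - s) * ((t - s) * A + (t - s) ^ 2 * B) := by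
    gcongr
  nlinarith

theorem coarse {ν r : ℝ} (hν : 0 < ν) (hr : 2 < r) {g : R3 → R3} {q : R3 → ℝ} (hg : Smo g) (hgp : Pe g)
    (hq : ContDiff ℝ ∞ q) (hqp : Pe q) (hdiv : ∀ x, ∑ i, pd i (fun y => g y i) x = 0)
    {f : ℝ → R3 → R3} {a b : ℝ} (hab : a < b)
    (hf : ∀ τ ∈ Ioc a b, Continuous (f τ)) {e1 C : ℝ} (he0 : 0 ≤ e1) (hC0 : 0 ≤ C)
    (he : ∀ τ ∈ Ioc a b, cost r (fun x i => (g x i + pd i q x) - f τ x i) ≤ ENNReal.ofReal e1)
    (hC : ∀ τ ∈ Ioc a b, cost r (f τ) ≤ ENNReal.ofReal C) {E : ℝ} (hE : 0 < E) (m : R3) :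
    ∃ m' : R3, Reach ν r f a b (fun _ => m) (fun _ => m') (ENNReal.ofReal ((b - a) * e1 + E)) := by
  have hr1 : 1 ≤ r := by linarith
  obtain ⟨H, hHd⟩ : ∃ H, H = b - a := ⟨_, rfl⟩
  have hH : 0 < H := by rw [hHd]; linarith
  have hcst : ∀ v : R3, Smo (fun _ : R3 => v) := fun v => contDiff_const
  have hcstp : ∀ v : R3, Pe (fun _ : R3 => v) := fun v _ _ => rfl
  obtain ⟨G, hG, hG'⟩ := cost_fin hr1 (v := fun x i => g x i + pd i q x)
    (contDiff_pi.2 fun i => (hg.comp i).add (pd_smooth hq i)) (fun x j => by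
      funext i
      have h3 := hqp.pd i x j
      simp only at h3
      show g (x + Pi.single j 1) i + pd i q (x + Pi.single j 1) = g x i + pd i q x
      rw [hgp x j, h3])
  have hsX : ∀ v : R3, Smo (fun x i => adv (fun _ => v) g x i - ν * lap g x i) := fun v =>
    contDiff_pi.2 fun i => (((hcst v).adv hg).comp i).sub (contDiff_const.mul (hg.lap.comp i))
  obtain ⟨A0, hA0, hA0'⟩ := cost_fin hr1 (hsX m) (fun x j => by
    funext i
    rw [(Pe.adv (hcstp m) hgp) x j, (Pe.lap hgp) x j])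
  obtain ⟨A1, hA1, hA1'⟩ := cost_fin hr1 ((hcst (mean g)).adv hg) (Pe.adv (hcstp _) hgp)
  obtain ⟨B, hB, hB'⟩ := cost_fin hr1 (hg.adv hg) (Pe.adv hgp hgp)
  obtain ⟨A, hAd⟩ : ∃ A, A = A0 + H * A1 := ⟨_, rfl⟩
  have hA : 0 < A := by rw [hAd]; positivity
  have hAμ : ∀ μ, 0 ≤ μ → μ ≤ H →
      cost r (fun x i => adv (fun _ i => m i + μ * mean g i) g x i - ν * lap g x i) ≤ ENNReal.ofReal A := by
    intro μ hμ0 hμ1
    have e : (fun x i => adv (fun _ i => m i + μ * mean g i) g x i - ν * lap g x i : R3 → R3)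
        = fun x i => 1 * (adv (fun _ => m) g x i - ν * lap g x i) + μ * adv (fun _ => mean g) g x i
          - 0 * adv (fun _ => mean g) g x i := by
      funext x i
      have : adv (fun _ i => m i + μ * mean g i) g x i
          = adv (fun _ => m) g x i + μ * adv (fun _ => mean g) g x i := by
        unfold adv
        rw [Finset.mul_sum, ← Finset.sum_add_distrib]
        refine Finset.sum_congr rfl fun j _ => ?_
        ring
      rw [this]
      ring
    rw [e]
    refine (cost_lin3 hr1 (hsX m).continuous ((hcst (mean g)).adv hg).continuous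
      ((hcst (mean g)).adv hg).continuous _ _ _).trans ?_
    rw [abs_one, ENNReal.ofReal_one, one_mul, abs_zero, ENNReal.ofReal_zero, zero_mul, add_zero,
      abs_of_nonneg hμ0, hAd, ENNReal.ofReal_add hA0.le (by positivity), ENNReal.ofReal_mul hH.le]
    exact add_le_add hA0' (mul_le_mul' (ENNReal.ofReal_le_ofReal hμ1) hA1')
  obtain ⟨n, hn⟩ := exists_nat_ge ((H ^ 2 * A + H ^ 3 * B) * 2 / E + 1)
  have hn1 : (1 : ℝ) ≤ n := by
    have : 0 < (H ^ 2 * A + H ^ 3 * B) * 2 / E := by positivity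
    linarith
  have hn0 : (0 : ℝ) < n := by linarith
  have hn1' : 1 ≤ n := by exact_mod_cast hn1
  obtain ⟨h, hh⟩ : ∃ h, h = H / n := ⟨_, rfl⟩
  have hh0 : 0 < h := by rw [hh]; positivity
  have hnh : n * h = H := by rw [hh]; field_simp
  obtain ⟨σ, hσd⟩ : ∃ σ, σ = E / (2 * n) := ⟨_, rfl⟩
  have hσ : 0 < σ := by rw [hσd]; positivity
  have step : ∀ (i : ℕ), i + 1 ≤ n → ∀ μ, 0 ≤ μ → μ ≤ H →
      ∃ l, 0 ≤ l ∧ l ≤ h ∧ Reach ν r f (a + i * h) (a + (i + 1 : ℕ) * h) (fun _ i => m i + μ * mean g i)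
        (fun _ i => (m i + μ * mean g i) + l * mean g i)
        (ENNReal.ofReal (σ + h * (e1 + h * A + h ^ 2 * B))) := by
    intro i hi μ hμ0 hμ1
    have hi' : ((i + 1 : ℕ) : ℝ) ≤ n := by exact_mod_cast hi
    have h1 : ((i + 1 : ℕ) : ℝ) * h ≤ H := by
      rw [← hnh]
      exact mul_le_mul_of_nonneg_right hi' hh0.le
    have h2 : 0 ≤ (i : ℝ) * h := by positivity
    have hsub : Ioc (a + i * h) (a + (i + 1 : ℕ) * h) ⊆ Ioc a b := fun τ hτ =>
      ⟨by linarith [hτ.1], by linarith [hτ.2]⟩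
    have hlt : a + i * h < a + (i + 1 : ℕ) * h := by push_cast; linarith
    have hd : a + ((i + 1 : ℕ) : ℝ) * h - (a + i * h) = h := by push_cast; ring
    have := substep hν hr hg hgp hq hqp hdiv hG.le hA.le hB.le hG' (fun i => m i + μ * mean g i)
      (hAμ μ hμ0 hμ1) hB' hlt (fun τ hτ => hf τ (hsub hτ)) he0 hC0 (fun τ hτ => he τ (hsub hτ))
      (fun τ hτ => hC τ (hsub hτ)) hσ
    rw [hd] at this
    exact this
  have main : ∀ i : ℕ, 1 ≤ i → i ≤ n → ∃ μ, 0 ≤ μ ∧ μ ≤ i * h ∧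
      Reach ν r f a (a + i * h) (fun _ => m) (fun _ i => m i + μ * mean g i)
        (ENNReal.ofReal (i * (σ + h * (e1 + h * A + h ^ 2 * B)))) := by
    intro i hi
    induction i, hi using Nat.le_induction with
    | base =>
      intro _
      obtain ⟨l, hl0, hl1, hR⟩ := step 0 hn1' 0 le_rfl hH.le
      refine ⟨l, hl0, by simpa using hl1, ?_⟩
      have e1' : (fun (_ : R3) (i : Fin 3) => m i + 0 * mean g i) = fun _ => m := by
        funext x i
        ring
      have e2' : (fun (_ : R3) (i : Fin 3) => m i + 0 * mean g i + l * mean g i)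
          = fun _ i => m i + l * mean g i := by
        funext x i
        ring
      rw [e1', e2'] at hR
      simpa using hR
    | succ i hi ih =>
      intro hin
      obtain ⟨μ, hμ0, hμ1, hR⟩ := ih (by omega)
      have hi' : ((i : ℕ) : ℝ) ≤ n := by exact_mod_cast (by omega : i ≤ n)
      have hμH : μ ≤ H := hμ1.trans (by
        rw [← hnh]
        exact mul_le_mul_of_nonneg_right hi' hh0.le)
      obtain ⟨l, hl0, hl1, hR2⟩ := step i hin μ hμ0 hμH
      have hi0 : (0 : ℝ) < i := by exact_mod_cast (by omega : 0 < i)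
      have p1 : 0 < (i : ℝ) * h := by positivity
      refine ⟨μ + l, by positivity, by push_cast; linarith, ?_⟩
      have hR3 := hR.trans (by linarith) (by push_cast; linarith) hR2
      have e2' : (fun (_ : R3) (i : Fin 3) => m i + μ * mean g i + l * mean g i)
          = fun _ i => m i + (μ + l) * mean g i := by
        funext x i
        ring
      rw [e2'] at hR3
      refine hR3.mono (le_of_eq ?_)
      rw [← ENNReal.ofReal_add (by positivity) (by positivity)]
      congr 1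
      push_cast
      ring
  obtain ⟨μ, hμ0, hμ1, hR⟩ := main n hn1' le_rfl
  refine ⟨fun i => m i + μ * mean g i, ?_⟩
  rw [hnh, hHd, add_sub_cancel] at hR
  refine hR.mono (ENNReal.ofReal_le_ofReal ?_)
  have c1 : (n : ℝ) * σ = E / 2 := by rw [hσd]; field_simp
  have c2 : (n : ℝ) * (h * (e1 + h * A + h ^ 2 * B)) = H * e1 + H * (h * A + h ^ 2 * B) := by
    rw [← hnh]; ring
  have c3 : H * (h * A + h ^ 2 * B) ≤ (H ^ 2 * A + H ^ 3 * B) / n := by
    rw [hh, le_div_iff₀ hn0]
    have : H * (H / n * A + (H / n) ^ 2 * B) * n = H ^ 2 * A + H ^ 3 * B / n := by field_simp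
    rw [this]
    have : H ^ 3 * B / n ≤ H ^ 3 * B := div_le_self (by positivity) hn1
    linarith
  have c4 : (H ^ 2 * A + H ^ 3 * B) / n ≤ E / 2 := by
    rw [div_le_div_iff₀ hn0 (by norm_num)]
    have : (H ^ 2 * A + H ^ 3 * B) * 2 / E ≤ n := by linarith
    rw [div_le_iff₀ hE] at this
    linarith
  rw [← hHd]
  calc (n : ℝ) * (σ + h * (e1 + h * A + h ^ 2 * B))
      = n * σ + n * (h * (e1 + h * A + h ^ 2 * B)) := by ring
    _ ≤ _ := by rw [c1, c2]; linarith

theorem mesh {ν r : ℝ} (hν : 0 < ν) (hr : 2 < r) {u0 : R3 → R3} (hw : Smo u0) (hp : Pe u0)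
    (hd : ∀ x, ∑ i, pd i (fun y => u0 y i) x = 0) {f : ℝ → R3 → R3} (hf : SV (Ici 0) f) {T : ℝ}
    (hT : 0 < T) {E : ℝ} (hE : 0 < E) :
    ∃ m : R3, Reach ν r f 0 T u0 (fun _ => m) (ENNReal.ofReal E) := by
  have hr1 : 1 ≤ r := by linarith
  have hCc := Cc_pos
  have hU : UniqueDiffOn ℝ (Ici (0 : ℝ)) := uniqueDiffOn_Ici 0
  have hKs : Icc (0 : ℝ) T ⊆ Ici 0 := fun t ht => ht.1
  obtain ⟨M, hM, hM'⟩ := hf.c1 hU (isCompact_Icc (a := (0 : ℝ)) (b := T)) hKs
  obtain ⟨C, hCd⟩ : ∃ C, C = Cc * M := ⟨_, rfl⟩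
  have hC : 0 < C := by rw [hCd]; positivity
  have hCf : ∀ τ ∈ Icc (0 : ℝ) T, cost r (f τ) ≤ ENNReal.ofReal C := fun τ hτ => by
    rw [hCd]
    exact hf.cost_le hr1 (hKs hτ) hM (hM' τ hτ)
  obtain ⟨T1, hT1, hT1a, hT1b⟩ : ∃ T1 : ℝ, 0 < T1 ∧ T1 ≤ T / 2 ∧ T1 ≤ E / (4 * C) :=
    ⟨min (T / 2) (E / (4 * C)), lt_min (by positivity) (by positivity), min_le_left _ _, min_le_right _ _⟩
  have hT1T : T1 < T := by linarith
  obtain ⟨e1, he1d⟩ : ∃ e1, e1 = E / (4 * T) := ⟨_, rfl⟩
  have he1 : 0 < e1 := by rw [he1d]; positivity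
  obtain ⟨δ, hδ, hδ'⟩ := hf.c1_unif hU (isCompact_Icc (a := (0 : ℝ)) (b := T)) hKs
    (η := e1 / (2 * Cc)) (by positivity)
  obtain ⟨N, hN⟩ := exists_nat_ge ((T - T1) / (δ / 2) + 1)
  have hTT : 0 < T - T1 := by linarith
  have hN1 : (1 : ℝ) ≤ N := by
    have : 0 < (T - T1) / (δ / 2) := by positivity
    linarith
  have hN0 : (0 : ℝ) < N := by linarith
  obtain ⟨H, hHd⟩ : ∃ H, H = (T - T1) / N := ⟨_, rfl⟩
  have hH : 0 < H := by rw [hHd]; positivity
  have hNH : N * H = T - T1 := by rw [hHd]; field_simp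
  have hHδ : H < δ := by
    rw [hHd, div_lt_iff₀ hN0]
    have : (T - T1) / (δ / 2) ≤ N := by linarith
    rw [div_le_iff₀ (by positivity)] at this
    nlinarith
  have main : ∀ j : ℕ, j ≤ N → ∃ m : R3, Reach ν r f 0 (T1 + j * H) u0 (fun _ => m)
      (ENNReal.ofReal (E / 2 + j * (H * e1 + E / (4 * N)))) := by
    intro j
    induction j with
    | zero =>
      intro _
      refine ⟨mean u0, ?_⟩
      have hK := reach_kill' hν hr hw hp hd (E := E / 4) (by positivity) hT1
      have hK1 := hK.force hr1 (f := f) (fun _ _ => continuous_const)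
        (fun τ hτ => hf.cont (mem_Ici.2 hτ.1.le)) (C := ENNReal.ofReal C) (fun τ hτ => by
          rw [cost_zero_sub hr1]
          exact hCf τ ⟨hτ.1.le, by linarith [hτ.2]⟩)
      simp only [Nat.cast_zero, zero_mul, add_zero]
      refine hK1.mono ?_
      rw [sub_zero, ← ENNReal.ofReal_mul hC.le, ← ENNReal.ofReal_add (by positivity) (by positivity)]
      apply ENNReal.ofReal_le_ofReal
      have : C * T1 ≤ E / 4 := by
        calc C * T1 ≤ C * (E / (4 * C)) := mul_le_mul_of_nonneg_left hT1b hC.le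
          _ = E / 4 := by field_simp
      linarith
    | succ j ih =>
      intro hj
      obtain ⟨m, hR⟩ := ih (by omega)
      have hj' : ((j : ℝ) + 1) ≤ N := by exact_mod_cast hj
      have hjH : 0 ≤ (j : ℝ) * H := by positivity
      have hj1 : ((j : ℝ) + 1) * H ≤ T - T1 := by
        rw [← hNH]
        exact mul_le_mul_of_nonneg_right hj' hH.le
      obtain ⟨a, had⟩ : ∃ a, a = T1 + (j : ℝ) * H := ⟨_, rfl⟩
      have ha0 : 0 < a := by rw [had]; positivity
      have hamem : a ∈ Icc (0 : ℝ) T := ⟨ha0.le, by rw [had]; nlinarith⟩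
      have hbT : a + H ≤ T := by rw [had]; nlinarith
      obtain ⟨g, q, hg, hgp, hq, hqp, hdiv, hgq⟩ := helm hr1 (hf.slice (hKs hamem)) (hf.per a (hKs hamem))
        (E := e1 / 2) (by positivity)
      have hc1 : Continuous (fun (x : R3) (i : Fin 3) => g x i + pd i q x) :=
        continuous_pi fun i => ((hg.comp i).add (pd_smooth hq i)).continuous
      have hmem : ∀ τ ∈ Ioc a (a + H), τ ∈ Icc (0 : ℝ) T := fun τ hτ =>
        ⟨by linarith [hτ.1], by linarith [hτ.2]⟩
      have he : ∀ τ ∈ Ioc a (a + H), cost r (fun x i => (g x i + pd i q x) - f τ x i)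
          ≤ ENNReal.ofReal e1 := by
        intro τ hτ
        have hτm := hmem τ hτ
        refine (cost_tri hr1 hc1 (hf.cont (hKs hamem)) (hf.cont (hKs hτm))).trans ?_
        have h1 : cost r (fun x i => (g x i + pd i q x) - f a x i) ≤ ENNReal.ofReal (e1 / 2) := by
          have := cost_neg hr1 (fun x i => g x i + pd i q x) (f a)
          rw [this]
          exact hgq
        have h2 : cost r (fun x i => f a x i - f τ x i) ≤ ENNReal.ofReal (e1 / 2) := by
          have hd1 : SV (Ici (0 : ℝ)) (fun t x i => f t x i - f τ x i) :=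
            hf.sub (SV.const (hf.slice (hKs hτm)) (hf.per τ (hKs hτm)))
          have h3 := hδ' a hamem τ hτm (by
            rw [abs_sub_comm, abs_of_pos (by linarith [hτ.1])]
            linarith [hτ.2])
          have := hd1.cost_le hr1 (hKs hamem) (M := e1 / (2 * Cc)) (by positivity) h3
          refine this.trans (le_of_eq ?_)
          congr 1
          field_simp
        refine (add_le_add h1 h2).trans (le_of_eq ?_)
        rw [← ENNReal.ofReal_add (by positivity) (by positivity)]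
        congr 1
        ring
      obtain ⟨m', hR2⟩ := coarse hν hr hg hgp hq hqp hdiv (f := f) (show a < a + H by linarith)
        (fun τ hτ => hf.cont (hKs (hmem τ hτ))) he1.le hC.le he (fun τ hτ => hCf τ (hmem τ hτ))
        (E := E / (4 * N)) (by positivity) m
      refine ⟨m', ?_⟩
      rw [← had] at hR
      have hR3 := hR.trans ha0 (by linarith) hR2
      have e : T1 + ((j + 1 : ℕ) : ℝ) * H = a + H := by rw [had]; push_cast; ring
      rw [e]
      refine hR3.mono (le_of_eq ?_)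
      rw [← ENNReal.ofReal_add (by positivity) (by
        have : 0 < a + H - a := by linarith
        positivity)]
      congr 1
      push_cast
      ring
  obtain ⟨m, hR⟩ := main N le_rfl
  refine ⟨m, ?_⟩
  rw [hNH, add_sub_cancel] at hR
  refine hR.mono (ENNReal.ofReal_le_ofReal ?_)
  have c1 : (N : ℝ) * (H * e1 + E / (4 * N)) = (T - T1) * e1 + E / 4 := by
    rw [← hNH]; field_simp
  have c2 : (T - T1) * e1 ≤ E / 4 := by
    calc (T - T1) * e1 ≤ T * e1 := mul_le_mul_of_nonneg_right (by linarith) he1.le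
      _ = E / 4 := by rw [he1d]; field_simp
  rw [c1]
  linarith

end Pool.Agent.H3NS
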