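import Pool.Agent.H3NS.Prod
import Pool.Agent.H3NS.Core4
import Pool.Agent.H3NS.Mesh

set_option autoImplicit false
set_option maxHeartbeats 4000000
set_option synthInstance.maxHeartbeats 400000

open MeasureTheory Set Filter Topology
open scoped ENNReal NNReal ContDiff

namespace Pool.Agent.H3NS

open Pool.Agent.H356R3.NS

/-- the distance in the supremum norm -/
noncomputable def dev (v w : R3 → R3) : ℝ≥0∞ := ⨆ x, ‖v x - w x‖ₑ

lemma dev_le {v w : R3 → R3} {A : ℝ≥0∞} (h : ∀ x, ‖v x - w x‖ₑ ≤ A) : dev v w ≤ A := iSup_le h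

lemma le_dev (v w : R3 → R3) (x : R3) : ‖v x - w x‖ₑ ≤ dev v w := le_iSup (fun x => ‖v x - w x‖ₑ) x

lemma dev_tri (u v w : R3 → R3) : dev u w ≤ dev u v + dev v w := by
  refine dev_le fun x => ?_
  have e : u x - w x = (u x - v x) + (v x - w x) := by abel
  rw [e]
  exact (enorm_add_le _ _).trans (add_le_add (le_dev u v x) (le_dev v w x))

lemma rpow_add_le2 {p : ℝ} (hp1 : 1 ≤ p) (hp2 : p < 2) (a b : ℝ≥0∞) :
    (a + b) ^ p ≤ 2 * (a ^ p + b ^ p) := by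
  refine (ENNReal.rpow_add_le_mul_rpow_add_rpow a b hp1).trans (mul_le_mul' ?_ le_rfl)
  calc (2 : ℝ≥0∞) ^ (p - 1) ≤ 2 ^ (1 : ℝ) :=
        ENNReal.rpow_le_rpow_of_exponent_le (by norm_num) (by linarith)
    _ = 2 := ENNReal.rpow_one _

/-- `(U, P)` is a path which is at rest at `w0` up to a time after `s` and at `w1` from a time before
`t` on, whose force is near `f` and which is near `w`. -/
structure GoP (ν r p : ℝ) (f w : ℝ → R3 → R3) (s t : ℝ) (w0 w1 : R3 → R3) (E : ℝ≥0∞)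
    (U : ℝ → R3 → R3) (P : ℝ → R3 → ℝ) : Prop where
  path : Path U P
  ends : ∃ η : ℝ, 0 < η ∧ (∀ τ, τ ≤ s + η → U τ = w0 ∧ P τ = 0) ∧ ∀ τ, t - η ≤ τ → U τ = w1 ∧ P τ = 0
  int : ∫⁻ τ in Ioc s t, (cost r (fun x i => res ν U P τ x i - f τ x i) + dev (U τ) (w τ) ^ p) ≤ E

/-- There is a path as in `GoP`. -/
def Go (ν r p : ℝ) (f w : ℝ → R3 → R3) (s t : ℝ) (w0 w1 : R3 → R3) (E : ℝ≥0∞) : Prop :=
  ∃ (U : ℝ → R3 → R3) (P : ℝ → R3 → ℝ), GoP ν r p f w s t w0 w1 E U P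

lemma GoP.trans {ν r p : ℝ} {f w : ℝ → R3 → R3} {s t t' : ℝ} {w0 w1 w2 : R3 → R3} {E E' : ℝ≥0∞}
    {U U' : ℝ → R3 → R3} {P P' : ℝ → R3 → ℝ}
    (hst : s < t) (htt : t < t') (h : GoP ν r p f w s t w0 w1 E U P) (h' : GoP ν r p f w t t' w1 w2 E' U' P') :
    ∃ U'' P'', GoP ν r p f w s t' w0 w2 (E + E') U'' P'' ∧ (∀ τ ≤ t, U'' τ = U τ) ∧
      ∀ τ, t < τ → U'' τ = U' τ := by
  obtain ⟨hUP, ⟨η, hη, ha, hb⟩, hE⟩ := h
  obtain ⟨hUP', ⟨η', hη', ha', hb'⟩, hE'⟩ := h'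
  obtain ⟨θ, hθ, hθ1, hθ2, hθ3, hθ4⟩ : ∃ θ : ℝ, 0 < θ ∧ θ ≤ η ∧ θ ≤ η' ∧ θ ≤ t - s ∧ θ < t' - t :=
    ⟨min (min η η') (min (t - s) ((t' - t) / 2)), by
      refine lt_min (lt_min hη hη') (lt_min (by linarith) (by linarith)),
      (min_le_left _ _).trans (min_le_left _ _), (min_le_left _ _).trans (min_le_right _ _),
      (min_le_right _ _).trans (min_le_left _ _), by
      have := (min_le_right (min η η') (min (t - s) ((t' - t) / 2))).trans (min_le_right _ _)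
      linarith⟩
  have hU : ∀ τ, t - θ ≤ τ → τ ≤ t + θ → U τ = U' τ := fun τ h1 h2 => by
    rw [(hb τ (by linarith)).1, (ha' τ (by linarith)).1]
  have hP : ∀ τ, t - θ ≤ τ → τ ≤ t + θ → P τ = P' τ := fun τ h1 h2 => by
    rw [(hb τ (by linarith)).2, (ha' τ (by linarith)).2]
  refine ⟨fun τ => if τ ≤ t then U τ else U' τ, fun τ => if τ ≤ t then P τ else P' τ, ⟨?_, ?_, ?_⟩,
    fun τ hτ => if_pos hτ, fun τ hτ => if_neg (not_le.2 hτ)⟩
  · refine ⟨fun i => ?_, ?_, fun τ => ?_, fun τ => ?_, fun τ x => ?_⟩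
    · have h1 := Sm.glue (hUP.smU i) (hUP'.smU i) (t := t) hθ fun τ h1 h2 => by
        rw [hU τ h1 h2]
      have e : (fun (τ : ℝ) (x : R3) => (if τ ≤ t then U τ else U' τ) x i)
          = fun τ => if τ ≤ t then fun x => U τ x i else fun x => U' τ x i := by
        funext τ x
        split_ifs <;> rfl
      rw [e]
      exact h1
    · exact Sm.glue hUP.smP hUP'.smP (t := t) hθ hP
    · show Pe (if τ ≤ t then U τ else U' τ)
      split_ifs
      · exact hUP.perU τ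
      · exact hUP'.perU τ
    · show Pe (if τ ≤ t then P τ else P' τ)
      split_ifs
      · exact hUP.perP τ
      · exact hUP'.perP τ
    · by_cases h : τ ≤ t
      · have := hUP.div τ x
        simpa only [if_pos h] using this
      · have := hUP'.div τ x
        simpa only [if_neg h] using this
  · refine ⟨θ, hθ, fun τ hτ => ?_, fun τ hτ => ?_⟩
    · simp only [if_pos (show τ ≤ t by linarith)]
      exact ha τ (by linarith)
    · simp only [if_neg (show ¬ τ ≤ t by linarith)]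
      exact hb' τ (by linarith)
  · rw [← Ioc_union_Ioc_eq_Ioc hst.le htt.le]
    refine (lintegral_union_le _ _ _).trans (add_le_add ?_ ?_)
    · refine le_trans (le_of_eq ?_) hE
      refine setLIntegral_congr_fun measurableSet_Ioc fun τ hτ => ?_
      have e : res ν (fun τ => if τ ≤ t then U τ else U' τ) (fun τ => if τ ≤ t then P τ else P' τ) τ
          = res ν U P τ := by
        apply res_congr
        · have h1 : ∀ᶠ σ in 𝓝 τ, σ < t + θ := gt_mem_nhds (by linarith [hτ.2])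
          filter_upwards [h1] with σ hσ
          split_ifs with h2
          · rfl
          · exact (hU σ (by linarith) hσ.le).symm
        · simp only [if_pos hτ.2]
      simp only [e, if_pos hτ.2]
    · refine le_trans (le_of_eq ?_) hE'
      refine setLIntegral_congr_fun measurableSet_Ioc fun τ hτ => ?_
      have e : res ν (fun τ => if τ ≤ t then U τ else U' τ) (fun τ => if τ ≤ t then P τ else P' τ) τ
          = res ν U' P' τ := by
        apply res_congr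
        · have h1 : ∀ᶠ σ in 𝓝 τ, t < σ := lt_mem_nhds hτ.1
          filter_upwards [h1] with σ hσ
          rw [if_neg (not_le.2 hσ)]
        · simp only [if_neg (not_le.2 hτ.1)]
      simp only [e, if_neg (not_le.2 hτ.1)]

lemma Go.trans {ν r p : ℝ} {f w : ℝ → R3 → R3} {s t t' : ℝ} {w0 w1 w2 : R3 → R3} {E E' : ℝ≥0∞}
    (hst : s < t) (htt : t < t') (h : Go ν r p f w s t w0 w1 E) (h' : Go ν r p f w t t' w1 w2 E') :
    Go ν r p f w s t' w0 w2 (E + E') := by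
  obtain ⟨U, P, h⟩ := h
  obtain ⟨U', P', h'⟩ := h'
  obtain ⟨U'', P'', h'', -, -⟩ := h.trans hst htt h'
  exact ⟨U'', P'', h''⟩

lemma GoP.mono {ν r p : ℝ} {f w : ℝ → R3 → R3} {s t : ℝ} {w0 w1 : R3 → R3} {E E' : ℝ≥0∞}
    {U : ℝ → R3 → R3} {P : ℝ → R3 → ℝ} (hE : E ≤ E') (h : GoP ν r p f w s t w0 w1 E U P) :
    GoP ν r p f w s t w0 w1 E' U P := ⟨h.path, h.ends, h.int.trans hE⟩

lemma Go.mono {ν r p : ℝ} {f w : ℝ → R3 → R3} {s t : ℝ} {w0 w1 : R3 → R3} {E E' : ℝ≥0∞}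
    (hE : E ≤ E') (h : Go ν r p f w s t w0 w1 E) : Go ν r p f w s t w0 w1 E' := by
  obtain ⟨U, P, hUP, hη, h1⟩ := h
  exact ⟨U, P, hUP, hη, h1.trans hE⟩

lemma GoP.change {ν r p : ℝ} (hr : 1 ≤ r) (hp1 : 1 ≤ p) (hp2 : p < 2) {F f W w : ℝ → R3 → R3} {s t : ℝ}
    {w0 w1 : R3 → R3} {E C1 C2 : ℝ≥0∞} {U : ℝ → R3 → R3} {P : ℝ → R3 → ℝ}
    (hF : ∀ τ ∈ Ioc s t, Continuous (F τ)) (hf : ∀ τ ∈ Ioc s t, Continuous (f τ))
    (hC : ∀ τ ∈ Ioc s t, cost r (fun x i => F τ x i - f τ x i) ≤ C1)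
    (hW : ∀ τ ∈ Ioc s t, dev (W τ) (w τ) ≤ C2) (h : GoP ν r p F W s t w0 w1 E U P) :
    GoP ν r p f w s t w0 w1 (2 * E + (C1 + 2 * C2 ^ p) * ENNReal.ofReal (t - s)) U P := by
  obtain ⟨hUP, hη, hE⟩ := h
  refine ⟨hUP, hη, ?_⟩
  calc ∫⁻ τ in Ioc s t, (cost r (fun x i => res ν U P τ x i - f τ x i) + dev (U τ) (w τ) ^ p)
      ≤ ∫⁻ τ in Ioc s t, (2 * (cost r (fun x i => res ν U P τ x i - F τ x i) + dev (U τ) (W τ) ^ p)
          + (C1 + 2 * C2 ^ p)) := by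
        refine setLIntegral_mono' measurableSet_Ioc fun τ hτ => ?_
        have h1 := (cost_tri hr ((hUP.res_sv (ν := ν)).cont (mem_univ τ)) (hF τ hτ) (hf τ hτ)).trans
          (add_le_add le_rfl (hC τ hτ))
        have h2 : dev (U τ) (w τ) ^ p ≤ 2 * (dev (U τ) (W τ) ^ p + C2 ^ p) := by
          refine (ENNReal.rpow_le_rpow ((dev_tri (U τ) (W τ) (w τ)).trans (add_le_add le_rfl (hW τ hτ)))
            (by linarith)).trans (rpow_add_le2 hp1 hp2 _ _)
        refine (add_le_add h1 h2).trans ?_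
        have h3 : cost r (fun x i => res ν U P τ x i - F τ x i)
            ≤ 2 * cost r (fun x i => res ν U P τ x i - F τ x i) := by
          rw [two_mul]
          exact le_self_add
        calc _ ≤ 2 * cost r (fun x i => res ν U P τ x i - F τ x i) + C1
              + 2 * (dev (U τ) (W τ) ^ p + C2 ^ p) := by gcongr
          _ = _ := by ring
    _ = 2 * (∫⁻ τ in Ioc s t, (cost r (fun x i => res ν U P τ x i - F τ x i) + dev (U τ) (W τ) ^ p))
          + ∫⁻ _ in Ioc s t, (C1 + 2 * C2 ^ p) := by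
        rw [lintegral_add_right _ measurable_const, lintegral_const_mul' _ _ (by norm_num)]
    _ ≤ 2 * E + (C1 + 2 * C2 ^ p) * ENNReal.ofReal (t - s) := by
        rw [setLIntegral_const, Real.volume_Ioc]
        exact add_le_add (mul_le_mul' le_rfl hE) le_rfl

/-- translation in time -/
lemma GoP.shift {ν r p : ℝ} {t : ℝ} {f w : ℝ → R3 → R3} {w0 w1 : R3 → R3} {E : ℝ≥0∞}
    {U : ℝ → R3 → R3} {P : ℝ → R3 → ℝ} (s : ℝ)
    (h : GoP ν r p (fun τ => f (s + τ)) (fun τ => w (s + τ)) 0 t w0 w1 E U P) :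
    GoP ν r p f w s (s + t) w0 w1 E (fun τ => U (τ - s)) (fun τ => P (τ - s)) := by
  obtain ⟨hUP, ⟨η, hη, ha, hb⟩, hE⟩ := h
  have hsh : ContDiff ℝ ∞ fun z : ℝ × R3 => ((z.1 - s, z.2) : ℝ × R3) :=
    (contDiff_fst.sub contDiff_const).prodMk contDiff_snd
  have hSm : ∀ {F : ℝ → R3 → ℝ}, Sm univ F → Sm univ (fun τ => F (τ - s)) := by
    intro F hF
    exact ContDiffOn.comp (s := univ ×ˢ univ) hF hsh.contDiffOn fun z _ => ⟨mem_univ _, mem_univ _⟩
  refine ⟨⟨fun i => hSm (hUP.smU i), hSm hUP.smP,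
    fun τ => hUP.perU _, fun τ => hUP.perP _, fun τ x => hUP.div _ x⟩, ⟨η, hη, fun τ hτ => ?_,
    fun τ hτ => ?_⟩, ?_⟩
  · exact ha _ (by linarith)
  · exact hb _ (by linarith)
  · have e : ∀ τ, res ν (fun τ => U (τ - s)) (fun τ => P (τ - s)) τ = res ν U P (τ - s) := by
      intro τ
      funext x i
      unfold res
      rw [deriv_comp_sub_const (f := fun σ => U σ x i)]
    simp only [e]
    have h1 : ∫⁻ τ in Ioc s (s + t), (cost r (fun x i => res ν U P (τ - s) x i - f τ x i)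
          + dev (U (τ - s)) (w τ) ^ p)
        = ∫⁻ τ in Ioc 0 t, (cost r (fun x i => res ν U P τ x i - f (s + τ) x i) + dev (U τ) (w (s + τ)) ^ p) := by
      rw [← lintegral_indicator measurableSet_Ioc, ← lintegral_indicator measurableSet_Ioc,
        ← lintegral_sub_right_eq_self (fun τ => (Ioc 0 t).indicator
          (fun τ => cost r (fun x i => res ν U P τ x i - f (s + τ) x i) + dev (U τ) (w (s + τ)) ^ p) τ) s]
      refine lintegral_congr fun τ => ?_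
      by_cases h : τ ∈ Ioc s (s + t)
      · rw [indicator_of_mem h, indicator_of_mem]
        · simp only [add_sub_cancel]
        · exact ⟨by linarith [h.1], by linarith [h.2]⟩
      · rw [indicator_of_notMem h, indicator_of_notMem]
        intro h2
        exact h ⟨by linarith [h2.1], by linarith [h2.2]⟩
    rw [h1]
    exact hE

lemma GoP.congr {ν r p : ℝ} {s t : ℝ} {F W f w : ℝ → R3 → R3} {w0 w1 : R3 → R3} {E : ℝ≥0∞}
    {U : ℝ → R3 → R3} {P : ℝ → R3 → ℝ}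
    (hF : ∀ τ ∈ Ioc s t, F τ = f τ) (hW : ∀ τ ∈ Ioc s t, W τ = w τ)
    (h : GoP ν r p F W s t w0 w1 E U P) : GoP ν r p f w s t w0 w1 E U P := by
  obtain ⟨hUP, hη, hE⟩ := h
  refine ⟨hUP, hη, ?_⟩
  rw [← setLIntegral_congr_fun measurableSet_Ioc (f := fun τ =>
    cost r (fun x i => res ν U P τ x i - F τ x i) + dev (U τ) (W τ) ^ p)]
  · exact hE
  · intro τ hτ
    simp only [hF τ hτ, hW τ hτ]

/-- There is a path as in `GoP`, which stays near `w` in the norm of the forces. -/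
def GoC (ν r p : ℝ) (f w : ℝ → R3 → R3) (s t : ℝ) (w0 w1 : R3 → R3) (E A : ℝ≥0∞) : Prop :=
  ∃ (U : ℝ → R3 → R3) (P : ℝ → R3 → ℝ), GoP ν r p f w s t w0 w1 E U P ∧
    ∀ τ ∈ Icc s t, cost r (fun x i => U τ x i - w τ x i) ≤ A

lemma close_trans {r : ℝ} {w U U' U'' : ℝ → R3 → R3} {s t t' : ℝ} {A : ℝ≥0∞}
    (h : ∀ τ ∈ Icc s t, cost r (fun x i => U τ x i - w τ x i) ≤ A)
    (h' : ∀ τ ∈ Icc t t', cost r (fun x i => U' τ x i - w τ x i) ≤ A)
    (h1 : ∀ τ ≤ t, U'' τ = U τ) (h2 : ∀ τ, t < τ → U'' τ = U' τ) :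
    ∀ τ ∈ Icc s t', cost r (fun x i => U'' τ x i - w τ x i) ≤ A := by
  intro τ hτ
  rcases le_or_gt τ t with h3 | h3
  · rw [h1 τ h3]
    exact h τ ⟨hτ.1, h3⟩
  · rw [h2 τ h3]
    exact h' τ ⟨h3.le, hτ.2⟩

lemma GoC.trans {ν r p : ℝ} {f w : ℝ → R3 → R3} {s t t' : ℝ} {w0 w1 w2 : R3 → R3} {E E' A : ℝ≥0∞}
    (hst : s < t) (htt : t < t') (h : GoC ν r p f w s t w0 w1 E A) (h' : GoC ν r p f w t t' w1 w2 E' A) :
    GoC ν r p f w s t' w0 w2 (E + E') A := by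
  obtain ⟨U, P, h, hA⟩ := h
  obtain ⟨U', P', h', hA'⟩ := h'
  obtain ⟨U'', P'', h'', h1, h2⟩ := h.trans hst htt h'
  exact ⟨U'', P'', h'', close_trans hA hA' h1 h2⟩

lemma GoC.mono {ν r p : ℝ} {f w : ℝ → R3 → R3} {s t : ℝ} {w0 w1 : R3 → R3} {E E' A A' : ℝ≥0∞}
    (hE : E ≤ E') (hA : A ≤ A') (h : GoC ν r p f w s t w0 w1 E A) : GoC ν r p f w s t w0 w1 E' A' := by
  obtain ⟨U, P, h, h1⟩ := h
  exact ⟨U, P, h.mono hE, fun τ hτ => (h1 τ hτ).trans hA⟩

end Pool.Agent.H3NS
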