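import Pool.Agent.H3NS.Kill3

set_option autoImplicit false
set_option maxHeartbeats 4000000
set_option synthInstance.maxHeartbeats 400000

open MeasureTheory Set Filter Topology
open scoped ENNReal NNReal ContDiff

namespace Pool.Agent.H3NS

open Pool.Agent.H356R3.NS

/-- the real part of a trigonometric polynomial -/
noncomputable def tp (S : Finset K) (b : K → ℂ) (x : R3) : ℝ := (∑ k ∈ S, b k * ex k x).re

lemma tp_eq (S : Finset K) (b : K → ℂ) (x : R3) :
    tp S b x = Complex.reCLM (∑ k ∈ S, b k * ex k x) := rfl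

lemma ex_smooth (k : K) : ContDiff ℝ ∞ (ex k) := contDiff_infty.2 fun n => ex_contDiff k n

lemma tp_smooth (S : Finset K) (b : K → ℂ) : ContDiff ℝ ∞ (tp S b) := by
  have h : ContDiff ℝ ∞ fun x : R3 => ∑ k ∈ S, b k * ex k x :=
    ContDiff.sum fun k _ => contDiff_const.mul (ex_smooth k)
  exact Complex.reCLM.contDiff.comp h

lemma tp_per (S : Finset K) (b : K → ℂ) : Pe (tp S b) := by
  intro x j
  unfold tp
  simp only [ex_periodic']

lemma ex_fderiv_single (k : K) (x : R3) (j : Fin 3) :
    fderiv ℝ (ex k) x (Pi.single j 1) = fj k j * ex k x := by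
  rw [(ex_hasFDerivAt' k x).fderiv, ContinuousLinearMap.comp_apply, Ph_apply]
  rw [Finset.sum_eq_single j]
  · simp
  · intro b _ hb
    simp [hb]
  · simp

lemma tp_pd (S : Finset K) (b : K → ℂ) (j : Fin 3) (x : R3) :
    pd j (tp S b) x = tp S (fun k => fj k j * b k) x := by
  have h1 : ∀ k ∈ S, HasFDerivAt (fun x => b k * ex k x) (b k • fderiv ℝ (ex k) x) x := fun k _ =>
    (((ex_smooth k).differentiable (by simp) x).hasFDerivAt).const_mul (b k)
  have h2 : HasFDerivAt (fun x => ∑ k ∈ S, b k * ex k x) (∑ k ∈ S, b k • fderiv ℝ (ex k) x) x :=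
    HasFDerivAt.fun_sum h1
  have h3 := Complex.reCLM.hasFDerivAt.comp x h2
  have h4 : HasFDerivAt (tp S b) (Complex.reCLM.comp (∑ k ∈ S, b k • fderiv ℝ (ex k) x)) x := h3
  unfold pd
  rw [h4.fderiv, ContinuousLinearMap.comp_apply]
  unfold tp
  rw [sum_apply, Complex.reCLM_apply]
  congr 1
  refine Finset.sum_congr rfl fun k _ => ?_
  rw [smul_apply, ex_fderiv_single, smul_eq_mul]
  ring

lemma tp_add (S : Finset K) (b c : K → ℂ) (x : R3) : tp S b x + tp S c x = tp S (fun k => b k + c k) x := by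
  unfold tp
  rw [← Complex.add_re, ← Finset.sum_add_distrib]
  congr 1
  refine Finset.sum_congr rfl fun k _ => ?_
  ring

lemma tp_sum {ι : Type*} (S : Finset K) (s : Finset ι) (b : ι → K → ℂ) (x : R3) :
    ∑ i ∈ s, tp S (b i) x = tp S (fun k => ∑ i ∈ s, b i k) x := by
  unfold tp
  rw [← Complex.re_sum, Finset.sum_comm]
  congr 1
  refine Finset.sum_congr rfl fun k _ => ?_
  rw [Finset.sum_mul]

lemma helm {r : ℝ} (hr : 1 ≤ r) {F : R3 → R3} (hF : Smo F) (hp : Pe F) {E : ℝ} (hE : 0 < E) :
    ∃ (g : R3 → R3) (q : R3 → ℝ), Smo g ∧ Pe g ∧ ContDiff ℝ ∞ q ∧ Pe q ∧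
      (∀ x, ∑ i, pd i (fun y => g y i) x = 0) ∧
      cost r (fun x i => F x i - (g x i + pd i q x)) ≤ ENNReal.ofReal E := by
  classical
  have hr0 : 0 < r := by linarith
  have hδ : 0 < ENNReal.ofReal (E ^ r) := ENNReal.ofReal_pos.2 (by positivity)
  obtain ⟨J, hJ⟩ := crit_tail hr0 (fc_crit (hF.of_le (by simp)) hp hr) hδ
  obtain ⟨M, hMJ⟩ : ∃ M : ℕ, 2 ^ J ≤ M := ⟨2 ^ J, le_rfl⟩
  have hMJ' : ((2 : ℝ) ^ J) ≤ M := by exact_mod_cast hMJ
  have hsmall : ∀ k : K, Pool.Agent.H356R3.NS.sq k < 4 ^ J → k ∈ bx M := by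
    intro k hk
    rw [mem_bx]
    intro i
    by_contra h
    push Not at h
    have h1 : (M : ℝ) < |(k i : ℝ)| := by exact_mod_cast h
    have h2 : (k i : ℝ) ^ 2 ≤ Pool.Agent.H356R3.NS.sq k := Finset.single_le_sum (f := fun i => (k i : ℝ) ^ 2)
      (fun i _ => sq_nonneg _) (Finset.mem_univ i)
    have h3 : (4 : ℝ) ^ J ≤ (k i : ℝ) ^ 2 := by
      rw [← sq_abs (k i : ℝ)]
      calc (4 : ℝ) ^ J = (2 ^ J) ^ 2 := by rw [← pow_mul, mul_comm, pow_mul]; norm_num
        _ ≤ _ := pow_le_pow_left₀ (by positivity) (hMJ'.trans h1.le) 2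
    linarith
  set c := fc F with hc
  set S := bx M with hS
  set c' : K → C3 := fun k => if k ∈ S then c k else 0 with hc'
  have hfin : (Function.support c').Finite := by
    refine S.finite_toSet.subset fun k hk => ?_
    by_contra h
    apply hk
    have : k ∉ S := h
    simp only [hc']
    rw [if_neg this]
  have hSN : SN c' := summable_of_ne_finset_zero (s := S) fun k hk => by
    simp only [hc']
    rw [if_neg hk, norm_zero]
  have hneg : ∀ k, -k ∈ S ↔ k ∈ S := by
    intro k
    rw [hS, mem_bx, mem_bx]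
    simp
  have hsym : Sym c' := by
    intro k i
    simp only [hc']
    by_cases h : k ∈ S
    · rw [if_pos h, if_pos ((hneg k).2 h)]
      exact fc_sym F k i
    · rw [if_neg h, if_neg (fun h' => h ((hneg k).1 h'))]
      simp
  have htp : (fun (x : R3) (i : Fin 3) => (∑' k, c' k i * ex k x).re) = fun x i => tp S (fun k => c k i) x := by
    funext x i
    unfold tp
    rw [tsum_eq_sum (s := S)]
    · congr 1
      refine Finset.sum_congr rfl fun k hk => ?_
      simp only [hc']
      rw [if_pos hk]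
    · intro k hk
      simp only [hc']
      rw [if_neg hk]
      simp
  have hfc : fc (fun x i => tp S (fun k => c k i) x) = c' := by
    rw [← htp]
    exact fc_tsum hSN hsym
  set gk : K → C3 := fun k i => c k i - (k i : ℂ) * (dt k (c k) / (Pool.Agent.H356R3.NS.sq k : ℂ)) with hgk
  set qk : K → ℂ := fun k => dt k (c k) / (2 * Real.pi * Complex.I * (Pool.Agent.H356R3.NS.sq k : ℂ)) with hqk
  have h2pi : (2 * Real.pi * Complex.I : ℂ) ≠ 0 := by
    simp [Real.pi_ne_zero]
  have hsum : ∀ k i, gk k i + fj k i * qk k = c k i := by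
    intro k i
    simp only [hgk, hqk]
    unfold fj
    by_cases hk : k = 0
    · subst hk
      simp
    · have hs : (Pool.Agent.H356R3.NS.sq k : ℂ) ≠ 0 := by
        exact_mod_cast (Pool.Agent.H356R3.NS.sq_pos hk).ne'
      field_simp
      ring
  have hdiv : ∀ k, ∑ i, fj k i * gk k i = 0 := by
    intro k
    simp only [hgk]
    unfold fj
    by_cases hk : k = 0
    · subst hk
      simp
    · have hs : (Pool.Agent.H356R3.NS.sq k : ℂ) ≠ 0 := by
        exact_mod_cast (Pool.Agent.H356R3.NS.sq_pos hk).ne'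
      have e1 : ∑ i, 2 * Real.pi * Complex.I * (k i : ℂ) * (c k i - (k i : ℂ) * (dt k (c k) / (Pool.Agent.H356R3.NS.sq k : ℂ)))
          = 2 * Real.pi * Complex.I * (dt k (c k) - (∑ i, (k i : ℂ) ^ 2) * (dt k (c k) / (Pool.Agent.H356R3.NS.sq k : ℂ))) := by
        unfold dt
        rw [Finset.sum_mul, ← Finset.sum_sub_distrib, Finset.mul_sum]
        refine Finset.sum_congr rfl fun i _ => ?_
        ring
      have e2 : ∑ i, (k i : ℂ) ^ 2 = (Pool.Agent.H356R3.NS.sq k : ℂ) := by
        unfold Pool.Agent.H356R3.NS.sq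
        push_cast
        rfl
      rw [e1, e2, mul_div_cancel₀ _ hs, sub_self, mul_zero]
  refine ⟨fun x i => tp S (fun k => gk k i) x, tp S qk, contDiff_pi.2 fun i => tp_smooth S _,
    fun x j => funext fun i => tp_per S _ x j, tp_smooth S qk, tp_per S qk, fun x => ?_, ?_⟩
  · have e : ∀ i, pd i (fun y => tp S (fun k => gk k i) y) x = tp S (fun k => fj k i * gk k i) x :=
      fun i => tp_pd S _ i x
    simp only [e]
    rw [tp_sum]
    simp only [hdiv]
    simp [tp]
  · have e : (fun (x : R3) (i : Fin 3) => F x i - (tp S (fun k => gk k i) x + pd i (tp S qk) x))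
        = fun x => F x - (fun i => tp S (fun k => c k i) x) := by
      funext x i
      rw [tp_pd, tp_add]
      simp only [hsum]
      rfl
    rw [e]
    have hcontT : Continuous (fun (x : R3) (i : Fin 3) => tp S (fun k => c k i) x) :=
      continuous_pi fun i => (tp_smooth S _).continuous
    have e2 : fc (fun x => F x - (fun i => tp S (fun k => c k i) x)) = fun k => c k - c' k := by
      funext k
      rw [fc_sub hF.continuous hcontT, hfc]
    unfold cost
    rw [e2]
    have e0 : (fun k => c k - c' k) 0 = 0 := by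
      simp only [hc']
      rw [if_pos (by rw [hS, mem_bx]; simp), sub_self]
    rw [e0, enorm_zero, zero_add, critNorm_eq]
    have h5 : crit r (fun k => c k - c' k) < ENNReal.ofReal (E ^ r) := by
      apply hJ
      · intro k
        simp only [hc']
        by_cases h : k ∈ S
        · right; rw [if_pos h, sub_self]
        · left; rw [if_neg h, sub_zero]
      · intro k hk
        simp only [hc']
        rw [if_pos (hsmall k hk), sub_self]
    calc crit r (fun k => c k - c' k) ^ (1 / r) ≤ (ENNReal.ofReal (E ^ r)) ^ (1 / r) :=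
          ENNReal.rpow_le_rpow h5.le (by positivity)
      _ = ENNReal.ofReal E := by
          rw [ENNReal.ofReal_rpow_of_nonneg (by positivity) (by positivity), ← Real.rpow_mul hE.le,
            mul_one_div_cancel (by linarith), Real.rpow_one]

end Pool.Agent.H3NS
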