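import Pool.Agent.H3NS.Drift

set_option autoImplicit false
set_option maxHeartbeats 4000000
set_option synthInstance.maxHeartbeats 400000

open MeasureTheory Set Filter Topology
open scoped ENNReal NNReal ContDiff

namespace Pool.Agent.H3NS

open Pool.Agent.H356R3.NS

lemma mean_add_smul {v g : R3 → R3} (hv : Continuous v) (hg : Continuous g) (l : ℝ) :
    mean (fun x i => v x i + l * g x i) = mean v + l • mean g := by
  funext i
  have h1 : IntegrableOn (fun x : R3 => v x i) (Icc (0 : R3) 1) :=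
    ((continuous_apply i).comp hv).continuousOn.integrableOn_compact isCompact_Icc
  have h2 : IntegrableOn (fun x : R3 => l * g x i) (Icc (0 : R3) 1) :=
    (continuous_const.mul ((continuous_apply i).comp hg)).continuousOn.integrableOn_compact isCompact_Icc
  unfold mean
  rw [integral_add h1 h2, integral_const_mul]
  rfl

lemma ofReal_comb {E C1 C2 h p : ℝ} (hE : 0 ≤ E) (hC1 : 0 ≤ C1) (hC2 : 0 ≤ C2) (hh : 0 ≤ h) (hp : 0 ≤ p) :
    2 * ENNReal.ofReal E + (ENNReal.ofReal C1 + 2 * ENNReal.ofReal C2 ^ p) * ENNReal.ofReal h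
      = ENNReal.ofReal (2 * E + (C1 + 2 * C2 ^ p) * h) := by
  have h0 : 0 ≤ C2 ^ p := by positivity
  rw [ENNReal.ofReal_rpow_of_nonneg hC2 hp, ENNReal.ofReal_add (by positivity) (by positivity),
    ENNReal.ofReal_mul (p := 2) (by norm_num), ENNReal.ofReal_mul (p := C1 + 2 * C2 ^ p) (by positivity),
    ENNReal.ofReal_add hC1 (by positivity), ENNReal.ofReal_mul (p := 2) (q := C2 ^ p) (by norm_num),
    ENNReal.ofReal_ofNat]

lemma sup_fin {v : R3 → R3} (hv : Smo v) (hp : Pe v) : ∃ M : ℝ, 0 < M ∧ ∀ x, ‖v x‖ₑ ≤ ENNReal.ofReal M := by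
  have h := SV.const (T := univ) hv hp
  obtain ⟨M, hM, h1⟩ := h.c1 uniqueDiffOn_univ (isCompact_singleton (x := (0 : ℝ))) (subset_univ _)
  refine ⟨M, hM, fun x => ?_⟩
  rw [← ofReal_norm]
  apply ENNReal.ofReal_le_ofReal
  rw [pi_norm_le_iff_of_nonneg hM.le]
  intro i
  exact (h1 0 rfl).v x i

theorem hop {ν r p : ℝ} (hν : 0 < ν) (hr : 2 < r) (hp1 : 1 ≤ p) (hp2 : p < 2) :
    ∃ C : ℝ, 1 ≤ C ∧ ∀ (v v' g : R3 → R3) (q : R3 → ℝ), Smo v → Pe v →
      (∀ x, ∑ i, pd i (fun y => v y i) x = 0) → Smo v' → Pe v' → (∀ x, ∑ i, pd i (fun y => v' y i) x = 0) →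
      Smo g → Pe g → (∀ x, ∑ i, pd i (fun y => g y i) x = 0) → ContDiff ℝ ∞ q → Pe q →
      ∀ F : R3 → R3, Continuous F → ∀ (f w : ℝ → R3 → R3) (s t : ℝ), s < t → t - s ≤ 1 →
      (∀ τ ∈ Ioc s t, Continuous (f τ)) → (∀ τ ∈ Icc s t, Continuous (w τ)) →
      ∀ A B e S C1 C2 Kf Kw e2 G1 ζ1 C3 : ℝ, 0 ≤ A → 0 ≤ B → 0 ≤ e → 0 ≤ S →
      0 ≤ C1 → 0 ≤ C2 → 0 ≤ Kf → 0 ≤ Kw → 0 ≤ e2 → 0 < G1 → 0 < ζ1 → 0 ≤ C3 → C1le g G1 →
      C1le (fun x i => v' x i - v x i) ζ1 → (∀ τ ∈ Icc s t, cost r (fun x i => v x i - w τ x i) ≤ ENNReal.ofReal C3) →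
      cost r (lin ν v g) ≤ ENNReal.ofReal A → cost r (adv g g) ≤ ENNReal.ofReal B →
      cost r (fun x i => (F x i - stat ν v x i) - (g x i + pd i q x)) ≤ ENNReal.ofReal e →
      (∀ x, ‖g x‖ₑ ≤ ENNReal.ofReal S) →
      (∀ τ ∈ Ioc s t, cost r (fun x i => F x i - f τ x i) ≤ ENNReal.ofReal C1) →
      (∀ τ ∈ Ioc s t, dev v (w τ) ≤ ENNReal.ofReal C2) →
      (∀ τ ∈ Ioc s t, cost r (f τ) ≤ ENNReal.ofReal Kf) →
      (∀ τ ∈ Ioc s t, dev (fun _ _ => 0) (w τ) ≤ ENNReal.ofReal Kw) →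
      ‖mean v' - mean v - (t - s) • mean g‖ ≤ (t - s) * e2 → ∀ σ : ℝ, 0 < σ →
      GoC ν r p f w s t v v' (ENNReal.ofReal ((t - s) * (2 * ((t - s) * A + (t - s) ^ 2 * B + e
        + ((t - s) * S) ^ p) + C1 + 2 * C2 ^ p + 2 * C * e2) + σ))
        (ENNReal.ofReal ((t - s) * (Cc * G1) + C3 + Cd * (ζ1 + (t - s) * G1) + σ)) := by
  obtain ⟨C, hC, hsteer⟩ := steer (p := p) hν hr hp1 hp2
  have hr1 : 1 ≤ r := by linarith
  have hC0 : 0 < C := by linarith
  refine ⟨C, hC, ?_⟩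
  intro v v' g q hv hvp hvd hv' hvp' hvd' hg hgp hgd hq hqp F hF f w s t hst hst1 hf hwc A B e S C1 C2 Kf Kw e2
    G1 ζ1 C3 hA0 hB0 he0 hS0 hC10 hC20 hKf0 hKw0 he20 hG10 hζ10 hC30 hG1 hζ1 hC3 hA hB he hS hC1 hC2 hKf hKw
    hmean σ hσ
  have hts : 0 < t - s := by linarith
  obtain ⟨G, hG, hG'⟩ := cost_fin hr1 (v := fun x i => g x i + pd i q x)
    (contDiff_pi.2 fun i => (hg.comp i).add (pd_smooth hq i)) (fun x j => by
      funext i
      have h3 := hqp.pd i x j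
      simp only at h3
      show g (x + Pi.single j 1) i + pd i q (x + Pi.single j 1) = g x i + pd i q x
      rw [hgp x j, h3])
  obtain ⟨K1, hK1, hK1'⟩ := cost_fin hr1 (stat_smo ν hv) (stat_per ν hvp)
  obtain ⟨K2, hK2, hK2'⟩ := cost_fin hr1 (stat_smo ν hv') (stat_per ν hvp')
  obtain ⟨S1, hS1, hS1'⟩ := sup_fin hv hvp
  obtain ⟨S2, hS2, hS2'⟩ := sup_fin hv' hvp'
  obtain ⟨m, hmd⟩ : ∃ m, m = ‖mean g‖ := ⟨_, rfl⟩
  have hm0 : 0 ≤ m := by rw [hmd]; exact norm_nonneg _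
  obtain ⟨K, hKd⟩ : ∃ K, K = 1 + K1 + K2 + A + B + S + S1 + S2 := ⟨_, rfl⟩
  have hK : 1 ≤ K := by rw [hKd]; linarith
  have hK0 : 0 < K := by linarith
  obtain ⟨σ1, hσ1, hσ1a, hσ1b⟩ : ∃ σ1 : ℝ, 0 < σ1 ∧ σ1 ≤ σ / (16 * G) ∧ σ1 ≤ σ / (16 * C * (m + 1)) :=
    ⟨min (σ / (16 * G)) (σ / (16 * C * (m + 1))), lt_min (by positivity) (by positivity),
      min_le_left _ _, min_le_right _ _⟩
  obtain ⟨Z, hZd⟩ : ∃ Z, Z = Kf + 2 * Kw ^ p + 1 := ⟨_, rfl⟩
  have hZ : 0 < Z := by rw [hZd]; positivity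
  obtain ⟨κ, hκ, hκ1, hκ2, hκ3, hκ4⟩ : ∃ κ : ℝ, 0 < κ ∧ κ ≤ (t - s) / 2 ∧ κ ≤ σ / (16 * C * (m + 1)) ∧
      κ ≤ σ / (32 * K ^ 2) ∧ κ ≤ σ / (8 * Z) :=
    ⟨min (min ((t - s) / 2) (σ / (16 * C * (m + 1)))) (min (σ / (32 * K ^ 2)) (σ / (8 * Z))),
      lt_min (lt_min (by positivity) (by positivity)) (lt_min (by positivity) (by positivity)),
      (min_le_left _ _).trans (min_le_left _ _), (min_le_left _ _).trans (min_le_right _ _),
      (min_le_right _ _).trans (min_le_left _ _), (min_le_right _ _).trans (min_le_right _ _)⟩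
  have hst' : s < t - κ := by linarith
  have ht't : t - κ < t := by linarith
  obtain ⟨l, hl0, hl1, hl2, U1, P1, hR, hcl1⟩ := drift hr1 hp1 hv hvp hvd hg hgp hq hqp hgd hF hG.le hA0 hB0 he0 hS0 hG' hA
    hB he hS hst' hσ1
  have hl1' : l ≤ 1 := by linarith
  have hR1 := hR.change hr1 hp1 hp2 (f := f) (w := w) (fun _ _ => hF)
    (fun τ hτ => hf τ ⟨hτ.1, by linarith [hτ.2]⟩) (C1 := ENNReal.ofReal C1) (C2 := ENNReal.ofReal C2)
    (fun τ hτ => hC1 τ ⟨hτ.1, by linarith [hτ.2]⟩) (fun τ hτ => hC2 τ ⟨hτ.1, by linarith [hτ.2]⟩)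
  -- the intermediate field
  have hw0 : Smo (fun x i => v x i + l * g x i) :=
    contDiff_pi.2 fun i => (hv.comp i).add (contDiff_const.mul (hg.comp i))
  have hw0p : Pe (fun x i => v x i + l * g x i : R3 → R3) := fun x j => by
    funext i
    show v (x + Pi.single j 1) i + l * g (x + Pi.single j 1) i = v x i + l * g x i
    rw [hgp x j, hvp x j]
  have hw0d : ∀ x, ∑ i, pd i (fun y => v y i + l * g y i) x = 0 := by
    intro x
    have e2 : ∀ i, pd i (fun y => v y i + l * g y i) x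
        = pd i (fun y => v y i) x + l * pd i (fun y => g y i) x := by
      intro i
      rw [pd_add (hv.comp i) (contDiff_const.mul (hg.comp i)), pd_mul (hg.comp i)]
    simp only [e2]
    rw [Finset.sum_add_distrib, ← Finset.mul_sum, hgd x, hvd x, mul_zero, add_zero]
  have hs0 : cost r (stat ν (fun x i => v x i + l * g x i)) ≤ ENNReal.ofReal K := by
    rw [stat_add ν hv hg]
    refine (cost_lin3 hr1 (stat_smo ν hv).continuous (lin_smo ν hv hg).continuous (hg.adv hg).continuous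
      _ _ _).trans ?_
    have a1 : ENNReal.ofReal |(1 : ℝ)| ≤ 1 := by simp
    have a2 : ENNReal.ofReal |l| ≤ 1 := by
      rw [ENNReal.ofReal_le_one, abs_of_nonneg hl0]
      exact hl1'
    have a3 : ENNReal.ofReal |-(l ^ 2)| ≤ 1 := by
      rw [ENNReal.ofReal_le_one, abs_neg, abs_of_nonneg (by positivity)]
      exact pow_le_one₀ hl0 hl1'
    refine (add_le_add (add_le_add (mul_le_mul' a1 hK1') (mul_le_mul' a2 hA)) (mul_le_mul' a3 hB)).trans ?_
    rw [one_mul, one_mul, one_mul, ← ENNReal.ofReal_add hK1.le hA0, ← ENNReal.ofReal_add (by positivity) hB0]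
    apply ENNReal.ofReal_le_ofReal
    rw [hKd]
    linarith
  have hs1 : cost r (stat ν v') ≤ ENNReal.ofReal K :=
    hK2'.trans (ENNReal.ofReal_le_ofReal (by rw [hKd]; linarith))
  have hb0 : ∀ x, ‖(fun x i => v x i + l * g x i : R3 → R3) x‖ₑ ≤ ENNReal.ofReal K := by
    intro x
    have e5 : (fun x i => v x i + l * g x i : R3 → R3) x = v x + l • g x := rfl
    rw [e5]
    refine (enorm_add_le _ _).trans ?_
    have a2 : ‖l • g x‖ₑ ≤ ENNReal.ofReal S := by
      rw [enorm_smul]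
      have : ‖l‖ₑ ≤ 1 := by
        rw [← ofReal_norm, ENNReal.ofReal_le_one, Real.norm_eq_abs, abs_of_nonneg hl0]
        exact hl1'
      calc _ ≤ 1 * ENNReal.ofReal S := mul_le_mul' this (hS x)
        _ = _ := one_mul _
    refine (add_le_add (hS1' x) a2).trans ?_
    rw [← ENNReal.ofReal_add hS1.le hS0]
    apply ENNReal.ofReal_le_ofReal
    rw [hKd]
    linarith
  have hb1 : ∀ x, ‖v' x‖ₑ ≤ ENNReal.ofReal K := fun x =>
    (hS2' x).trans (ENNReal.ofReal_le_ofReal (by rw [hKd]; linarith))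
  have hCc := Cc_pos
  have hCd := Cd_pos
  -- the distances in the norm of `C^1`
  have hζ : C1le (fun x i => v' x i - (v x i + l * g x i)) (ζ1 + (t - s) * G1) := by
    have hls : |l| ≤ t - s := by rw [abs_of_nonneg hl0]; linarith
    refine ⟨fun x i => ?_, fun x i j => ?_⟩
    · have e5 : v' x i - (v x i + l * g x i) = (v' x i - v x i) - l * g x i := by ring
      rw [e5]
      refine (abs_sub _ _).trans (add_le_add (hζ1.v x i) ?_)
      rw [abs_mul]
      exact mul_le_mul hls (hG1.v x i) (abs_nonneg _) hts.le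
    · have a1 : ContDiff ℝ ∞ fun y => v' y i - v y i := (hv'.comp i).sub (hv.comp i)
      have a2 : ContDiff ℝ ∞ fun y => l * g y i := contDiff_const.mul (hg.comp i)
      have e5 : (fun y => v' y i - (v y i + l * g y i)) = fun y => (v' y i - v y i) - l * g y i := by
        funext y
        ring
      rw [e5, pd_sub a1 a2, pd_mul (hg.comp i)]
      refine (abs_sub _ _).trans (add_le_add (hζ1.d x i j) ?_)
      rw [abs_mul]
      exact mul_le_mul hls (hG1.d x i j) (abs_nonneg _) hts.le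
  have hcg : cost r g ≤ ENNReal.ofReal (Cc * G1) := cost_C1 hr1 (hg.of_le (by simp)) hgp hG10 hG1
  obtain ⟨U2, P2, hK3, hcl2⟩ := hsteer _ v' hw0 hw0p hw0d hv' hvp' hvd' K hK hs0 hs1 hb0 hb1 (σ / 16)
    (by positivity) (t - κ) t ht't (ζ1 + (t - s) * G1) (by positivity) hζ
  have hK4 := hK3.change hr1 hp1 hp2 (f := f) (w := w) (fun _ _ => continuous_const)
    (fun τ hτ => hf τ ⟨by linarith [hτ.1], hτ.2⟩) (C1 := ENNReal.ofReal Kf) (C2 := ENNReal.ofReal Kw)
    (fun τ hτ => by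
      rw [cost_zero_sub hr1]
      exact hKf τ ⟨by linarith [hτ.1], hτ.2⟩) (fun τ hτ => hKw τ ⟨by linarith [hτ.1], hτ.2⟩)
  rw [mean_add_smul hv.continuous hg.continuous] at hK4
  obtain ⟨U, P, hUP, hUa, hUb⟩ := hR1.trans hst' ht't hK4
  -- the deviation
  have hclose : ∀ τ ∈ Icc s t, cost r (fun x i => U τ x i - w τ x i)
      ≤ ENNReal.ofReal ((t - s) * (Cc * G1) + C3 + Cd * (ζ1 + (t - s) * G1) + σ) := by
    intro τ hτ
    have hUc : Continuous (U τ) := by
      have : SV univ U := ⟨hUP.path.smU, fun t _ => hUP.path.perU t⟩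
      exact this.cont (mem_univ τ)
    refine (cost_tri hr1 (b := v) hUc hv.continuous (hwc τ hτ)).trans ?_
    have k1 : cost r (fun x i => U τ x i - v x i)
        ≤ ENNReal.ofReal ((t - s) * (Cc * G1) + Cd * (ζ1 + (t - s) * G1) + σ) := by
      rcases le_or_gt τ (t - κ) with h5 | h5
      · rw [hUa τ h5]
        refine (hcl1 τ ⟨hτ.1, h5⟩).trans ((mul_le_mul' le_rfl hcg).trans ?_)
        rw [← ENNReal.ofReal_mul (by linarith)]
        apply ENNReal.ofReal_le_ofReal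
        have h6 : (t - κ - s) * (Cc * G1) ≤ (t - s) * (Cc * G1) := by
          have : t - κ - s ≤ t - s := by linarith
          gcongr
        have h7 : 0 ≤ Cd * (ζ1 + (t - s) * G1) := by positivity
        linarith
      · rw [hUb τ h5]
        have hU2c : Continuous (U2 τ) := by
          have : SV univ U2 := ⟨hK3.path.smU, fun t _ => hK3.path.perU t⟩
          exact this.cont (mem_univ τ)
        refine (cost_tri hr1 (b := fun x i => v x i + l * g x i) hU2c hw0.continuous hv.continuous).trans ?_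
        have e5 : (fun x i => v x i + l * g x i - v x i : R3 → R3) = fun x => l • g x := by
          funext x i
          simp
        rw [e5, cost_smul hr1, abs_of_nonneg hl0]
        refine (add_le_add (hcl2 τ) (mul_le_mul' le_rfl hcg)).trans ?_
        rw [← ENNReal.ofReal_mul hl0, ← ENNReal.ofReal_add (by positivity) (by positivity)]
        apply ENNReal.ofReal_le_ofReal
        have h6 : l * (Cc * G1) ≤ (t - s) * (Cc * G1) := by
          have : l ≤ t - s := by linarith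
          gcongr
        linarith
    refine (add_le_add k1 (hC3 τ hτ)).trans (le_of_eq ?_)
    rw [← ENNReal.ofReal_add (by positivity) hC30]
    congr 1
    ring
  refine ⟨U, P, hUP.mono ?_, hclose⟩
  have p1 : 0 ≤ t - κ - s := by linarith
  have p2 : 0 ≤ t - (t - κ) := by linarith
  have p3 : 0 ≤ ((t - κ - s) * S) ^ p := by positivity
  have p4 : 0 ≤ C2 ^ p := by positivity
  have p5 : 0 ≤ Kw ^ p := by positivity
  obtain ⟨N, hN⟩ : ∃ N, N = ‖mean v' - (mean v + l • mean g)‖ := ⟨_, rfl⟩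
  have hN0 : 0 ≤ N := by rw [hN]; exact norm_nonneg _
  rw [← hN]
  rw [ofReal_comb (by positivity) hC10 hC20 p1 (by linarith), ofReal_comb (by positivity) hKf0 hKw0 p2 (by linarith),
    ← ENNReal.ofReal_add (by positivity) (by positivity)]
  apply ENNReal.ofReal_le_ofReal
  -- the means
  have hNle : N ≤ (t - s) * e2 + (κ + σ1) * m := by
    have e5 : mean v' - (mean v + l • mean g)
        = (mean v' - mean v - (t - s) • mean g) + (t - s - l) • mean g := by
      rw [sub_smul (t - s) l]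
      abel
    rw [hN, e5, hmd]
    refine (norm_add_le _ _).trans (add_le_add hmean ?_)
    rw [norm_smul, Real.norm_eq_abs, abs_of_nonneg (by linarith)]
    apply mul_le_mul_of_nonneg_right _ (norm_nonneg _)
    linarith
  have q1 : σ1 * G ≤ σ / 16 := by
    calc σ1 * G ≤ σ / (16 * G) * G := mul_le_mul_of_nonneg_right hσ1a hG.le
      _ = σ / 16 := by field_simp
  have q2 : C * (κ * m) ≤ σ / 16 := by
    have h5 : κ * m ≤ σ / (16 * C * (m + 1)) * (m + 1) :=
      mul_le_mul hκ2 (by linarith) hm0 (by positivity)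
    calc C * (κ * m) ≤ C * (σ / (16 * C * (m + 1)) * (m + 1)) := mul_le_mul_of_nonneg_left h5 hC0.le
      _ = σ / 16 := by field_simp
  have q3 : C * (σ1 * m) ≤ σ / 16 := by
    have h5 : σ1 * m ≤ σ / (16 * C * (m + 1)) * (m + 1) :=
      mul_le_mul hσ1b (by linarith) hm0 (by positivity)
    calc C * (σ1 * m) ≤ C * (σ / (16 * C * (m + 1)) * (m + 1)) := mul_le_mul_of_nonneg_left h5 hC0.le
      _ = σ / 16 := by field_simp
  have q4 : 4 * K ^ 2 * κ ≤ σ / 8 := by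
    calc 4 * K ^ 2 * κ ≤ 4 * K ^ 2 * (σ / (32 * K ^ 2)) := by gcongr
      _ = σ / 8 := by field_simp; ring
  have q5 : (Kf + 2 * Kw ^ p) * κ ≤ σ / 8 := by
    have h5 : (Kf + 2 * Kw ^ p) * κ ≤ Z * (σ / (8 * Z)) :=
      mul_le_mul (by rw [hZd]; linarith) hκ4 hκ.le hZ.le
    refine h5.trans (le_of_eq ?_)
    field_simp
  have q6 : (t - κ - s) * ((t - κ - s) * A + (t - κ - s) ^ 2 * B + e + ((t - κ - s) * S) ^ p)
      ≤ (t - s) * ((t - s) * A + (t - s) ^ 2 * B + e + ((t - s) * S) ^ p) := by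
    have h6 : t - κ - s ≤ t - s := by linarith
    gcongr
  have q7 : (C1 + 2 * C2 ^ p) * (t - κ - s) ≤ (t - s) * (C1 + 2 * C2 ^ p) := by
    have : t - κ - s ≤ t - s := by linarith
    rw [mul_comm]
    gcongr
  have q8 : C * N ≤ C * ((t - s) * e2) + C * (κ * m) + C * (σ1 * m) := by
    calc C * N ≤ C * ((t - s) * e2 + (κ + σ1) * m) := mul_le_mul_of_nonneg_left hNle hC0.le
      _ = _ := by ring
  have e7 : t - (t - κ) = κ := by ring
  rw [e7]
  calc 2 * (σ1 * G + (t - κ - s) * ((t - κ - s) * A + (t - κ - s) ^ 2 * B + e + ((t - κ - s) * S) ^ p))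
        + (C1 + 2 * C2 ^ p) * (t - κ - s) + (2 * (C * N + σ / 16 + 2 * K ^ 2 * κ) + (Kf + 2 * Kw ^ p) * κ)
      = 2 * (σ1 * G) + 2 * ((t - κ - s) * ((t - κ - s) * A + (t - κ - s) ^ 2 * B + e + ((t - κ - s) * S) ^ p))
        + (C1 + 2 * C2 ^ p) * (t - κ - s) + 2 * (C * N) + σ / 8 + 4 * K ^ 2 * κ + (Kf + 2 * Kw ^ p) * κ := by ring
    _ ≤ 2 * (σ / 16) + 2 * ((t - s) * ((t - s) * A + (t - s) ^ 2 * B + e + ((t - s) * S) ^ p))
        + (t - s) * (C1 + 2 * C2 ^ p) + 2 * (C * ((t - s) * e2) + σ / 16 + σ / 16) + σ / 8 + σ / 8 + σ / 8 := by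
        linarith
    _ ≤ _ := by linarith

end Pool.Agent.H3NS
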