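import Pool.Agent.H3NS.Reach

set_option autoImplicit false
set_option maxHeartbeats 4000000
set_option synthInstance.maxHeartbeats 400000

open MeasureTheory Set Filter Topology
open scoped ENNReal NNReal ContDiff

namespace Pool.Agent.H3NS

open Pool.Agent.H356R3.NS

lemma cost_lin3 {r : ℝ} (hr : 1 ≤ r) {X Y Z : R3 → R3} (hX : Continuous X) (hY : Continuous Y)
    (hZ : Continuous Z) (a b c : ℝ) :
    cost r (fun x i => a * X x i + b * Y x i - c * Z x i)
      ≤ ENNReal.ofReal |a| * cost r X + ENNReal.ofReal |b| * cost r Y + ENNReal.ofReal |c| * cost r Z := by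
  have e : (fun x i => a * X x i + b * Y x i - c * Z x i : R3 → R3)
      = fun x => (a • X x + b • Y x) + (-c) • Z x := by
    funext x i
    simp only [Pi.add_apply, Pi.smul_apply, smul_eq_mul]
    ring
  rw [e]
  have h1 := cost_add hr (g := fun x => a • X x + b • Y x) (h := fun x => (-c) • Z x)
    ((hX.const_smul a).add (hY.const_smul b)) (hZ.const_smul (-c))
  have h2 := cost_add hr (g := fun x => a • X x) (h := fun x => b • Y x) (hX.const_smul a) (hY.const_smul b)
  rw [cost_smul hr, cost_smul hr] at h2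
  rw [cost_smul hr (-c), abs_neg] at h1
  exact h1.trans (add_le_add h2 le_rfl)

lemma cost_zero (r : ℝ) (hr : 1 ≤ r) : cost r (fun _ _ => 0) = 0 := by
  have h := cost_smul hr 0 (fun _ _ => 0)
  have e : (fun x => (0 : ℝ) • (fun (_ : R3) (_ : Fin 3) => (0 : ℝ)) x) = fun _ _ => 0 := by
    funext x i
    simp
  rw [e] at h
  rw [h]
  simp

/-- the mean value -/
noncomputable def mean (w : R3 → R3) : R3 := fun i => ∫ y in Icc (0 : R3) 1, w y i

lemma fc_zero_re (w : R3 → R3) (i : Fin 3) : (fc w 0 i).re = mean w i := by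
  unfold fc mean
  have e : ∀ x : R3, ((w x i : ℝ) : ℂ) * Complex.exp (-(2 * Real.pi * Complex.I *
      ∑ j, (((0 : Fin 3 → ℤ) j : ℤ) : ℂ) * (x j : ℂ))) = ((w x i : ℝ) : ℂ) := by
    intro x; simp
  simp only [e]
  rw [integral_complex_ofReal, Complex.ofReal_re]

lemma fc_zero_eq (w : R3 → R3) (i : Fin 3) : fc w 0 i = ((mean w i : ℝ) : ℂ) := by
  rw [← fc_zero_re]
  have := fc_sym w 0 i
  rw [neg_zero, Complex.star_def] at this
  exact (Complex.conj_eq_iff_re.1 this.symm).symm

lemma fc_const (m : R3) (k : K) (hk : k ≠ 0) : fc (fun _ => m) k = 0 := by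
  funext i
  rw [fc_eq, integral_const_mul, ex_int, if_neg (by simpa using hk), mul_zero]
  rfl

lemma mean_const (m : R3) : mean (fun _ => m) = m := by
  funext i
  unfold mean
  rw [integral_const]
  have : (volume.restrict (Icc (0 : R3) 1)).real univ = 1 := by
    have h := Q3_vol
    rw [Measure.real, Measure.restrict_apply_univ]
    show (volume Q3).toReal = 1
    rw [h]; rfl
  rw [this, one_smul]

/-- the cost of the distance to the mean, in terms of the `ℓ¹` norm -/
lemma cost_sub_mean {r : ℝ} (hr : 1 ≤ r) {w : R3 → R3} (hw : Continuous w) {m : R3} {δ : ℝ}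
    (h0 : ∀ i, fc w 0 i = ((m i : ℝ) : ℂ))
    (h : (∑' k, if k = 0 then 0 else ‖fc w k‖ₑ) ≤ ENNReal.ofReal δ) :
    cost r (fun x i => w x i - m i) ≤ 2 * ENNReal.ofReal δ := by
  have hcm : Continuous fun _ : R3 => m := continuous_const
  have hsub : ∀ k, fc (fun x => w x - m) k = fc w k - fc (fun _ => m) k := fun k =>
    fc_sub hw hcm k
  have e0 : fc (fun x => w x - m) 0 = 0 := by
    rw [hsub]
    funext i
    rw [Pi.sub_apply, h0, fc_zero_eq, mean_const, sub_self]
    rfl
  have ek : ∀ k, k ≠ 0 → fc (fun x => w x - m) k = fc w k := fun k hk => by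
    rw [hsub, fc_const m k hk, sub_zero]
  show cost r (fun x => w x - m) ≤ _
  unfold cost
  rw [e0, enorm_zero, zero_add, critNorm_eq]
  calc crit r (fc fun x => w x - m) ^ (1 / r)
      ≤ ((2 * ∑' k, ENNReal.ofReal (1 / nk k) * ‖fc (fun x => w x - m) k‖ₑ) ^ r) ^ (1 / r) :=
        ENNReal.rpow_le_rpow (crit_le hr _) (by positivity)
    _ = 2 * ∑' k, ENNReal.ofReal (1 / nk k) * ‖fc (fun x => w x - m) k‖ₑ := by
        rw [← ENNReal.rpow_mul, mul_one_div_cancel (by linarith), ENNReal.rpow_one]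
    _ ≤ 2 * ∑' k, (if k = 0 then 0 else ‖fc w k‖ₑ) := by
        gcongr with k
        by_cases hk : k = 0
        · rw [hk, e0]; simp
        · rw [if_neg hk, ek k hk]
          have h1 : ENNReal.ofReal (1 / nk k) ≤ 1 := by
            rw [ENNReal.ofReal_le_one, div_le_one (nk_pos hk)]
            exact one_le_nk hk
          calc _ ≤ 1 * ‖fc w k‖ₑ := by gcongr
            _ = _ := one_mul _
    _ ≤ _ := by gcongr

/-- Near every field there is one from which a global solution without force starts that is almost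
constant after a short time. -/
theorem kill0 {ν r : ℝ} (hν : 0 < ν) (hr : 2 < r) {w0 : R3 → R3} (hw : Smo w0) (hp : Pe w0)
    (hd : ∀ x, ∑ i, pd i (fun y => w0 y i) x = 0) {ε : ℝ} (hε : 0 < ε) {δ : ℝ} (hδ : 0 < δ) :
    ∃ (w : R3 → R3) (B : ℝ → R3 → R3) (p : ℝ → R3 → ℝ), AdmissiblePeriodic ν w B p ∧
      cost r (fun x i => w x i - w0 x i) ≤ ENNReal.ofReal ε ∧
      ∀ t, δ ≤ t → cost r (fun x i => B t x i - mean w0 i) ≤ 2 * ENNReal.ofReal δ := by
  have h1 : ContDiff ℝ 1 w0 := ContDiff.of_le hw (by simp)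
  obtain ⟨b, hb, hs, -, hK, hcrit, u, p, hup, h0, hlt⟩ := core3 hν hr (fc_sym w0) (fc_div h1 hp hd)
    (fc_crit h1 hp (by linarith)) 0 (ε := ε ^ r) (by positivity) hδ
  have hb0 : b 0 = fc w0 0 := hK 0 (by simp)
  have hsn : SN b := summable_of_ne_finset_zero (s := hb.toFinset) fun k hk => by
    have : b k = 0 := by
      by_contra h
      exact hk (by rw [Set.Finite.mem_toFinset]; exact h)
    rw [this, norm_zero]
  have hslice : ∀ t, 0 ≤ t → Continuous (u t) := by
    intro t ht
    have h2 : ContinuousOn (fun z : ℝ × R3 => u z.1 z.2) (Ici 0 ×ˢ univ) := hup.smooth_u.continuousOn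
    have h3 : ContinuousOn (fun y => (fun z : ℝ × R3 => u z.1 z.2) (t, y)) univ :=
      h2.comp (by fun_prop : Continuous fun y : R3 => (t, y)).continuousOn fun y _ => ⟨ht, mem_univ _⟩
    exact continuousOn_univ.1 h3
  refine ⟨_, u, p, hup, ?_, fun t ht => ?_⟩
  · have hfw : fc (fun x i => (∑' k, b k i * ex k x).re) = b := fc_tsum hsn hs
    have hcw : Continuous (fun (x : R3) i => (∑' k, b k i * ex k x).re) := by
      rw [← hup.initial]
      exact hslice 0 le_rfl
    have hsub : fc (fun x => (fun (x : R3) i => (∑' k, b k i * ex k x).re) x - w0 x)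
        = fun k => b k - fc w0 k := by
      funext k
      rw [fc_sub hcw (ContDiff.continuous hw) k, hfw]
    show cost r (fun x => (fun (x : R3) i => (∑' k, b k i * ex k x).re) x - w0 x) ≤ _
    unfold cost
    rw [hsub]
    show ‖b 0 - fc w0 0‖ₑ + _ ≤ _
    rw [hb0, sub_self, enorm_zero, zero_add, critNorm_eq]
    calc _ ≤ (ENNReal.ofReal (ε ^ r)) ^ (1 / r) := ENNReal.rpow_le_rpow hcrit (by positivity)
      _ = ENNReal.ofReal ε := by
          rw [ENNReal.ofReal_rpow_of_nonneg (by positivity) (by positivity), ← Real.rpow_mul hε.le,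
            mul_one_div_cancel (by linarith), Real.rpow_one]
  · refine cost_sub_mean (by linarith) (hslice t (by linarith)) (fun i => ?_) (hlt t ht)
    rw [h0 t, fc_zero_eq]

end Pool.Agent.H3NS
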