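import Pool.Agent.H3NS.Kill

set_option autoImplicit false
set_option maxHeartbeats 4000000
set_option synthInstance.maxHeartbeats 400000

open MeasureTheory Set Filter Topology
open scoped ENNReal NNReal ContDiff

namespace Pool.Agent.H3NS

open Pool.Agent.H356R3.NS

lemma smoothTransition_deriv_bound : ∃ C : ℝ, 1 ≤ C ∧ ∀ x, |deriv Real.smoothTransition x| ≤ C := by
  have hc : Continuous (deriv Real.smoothTransition) :=
    (Real.smoothTransition.contDiff (n := 1)).continuous_deriv (by norm_num)
  obtain ⟨C, hC⟩ := (isCompact_Icc (a := (0 : ℝ)) (b := 1)).exists_bound_of_continuousOn hc.continuousOn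
  refine ⟨max C 1, le_max_right _ _, fun x => ?_⟩
  by_cases h : x ∈ Icc (0 : ℝ) 1
  · exact (hC x h).trans (le_max_left _ _)
  · rw [mem_Icc, not_and_or, not_le, not_le] at h
    have : deriv Real.smoothTransition x = 0 := by
      rcases h with h | h
      · have h1 : Real.smoothTransition =ᶠ[𝓝 x] fun _ => 0 := by
          filter_upwards [gt_mem_nhds h] with y hy
          exact Real.smoothTransition.zero_of_nonpos (le_of_lt hy)
        rw [h1.deriv_eq, deriv_const]
      · have h1 : Real.smoothTransition =ᶠ[𝓝 x] fun _ => 1 := by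
          filter_upwards [lt_mem_nhds h] with y hy
          exact Real.smoothTransition.one_of_one_le (le_of_lt hy)
        rw [h1.deriv_eq, deriv_const]
    rw [this, abs_zero]
    positivity

/-- the cut-off which is `0` up to the time `a` and `1` from the time `a + b` on -/
noncomputable def cut (a b : ℝ) (t : ℝ) : ℝ := Real.smoothTransition ((t - a) / b)

lemma cut_smooth (a b : ℝ) : ContDiff ℝ ∞ (cut a b) :=
  Real.smoothTransition.contDiff.comp ((contDiff_id.sub contDiff_const).div_const b)

lemma cut_zero {a b t : ℝ} (hb : 0 < b) (h : t ≤ a) : cut a b t = 0 :=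
  Real.smoothTransition.zero_of_nonpos (div_nonpos_of_nonpos_of_nonneg (by linarith) hb.le)

lemma cut_one {a b t : ℝ} (hb : 0 < b) (h : a + b ≤ t) : cut a b t = 1 :=
  Real.smoothTransition.one_of_one_le (by rw [le_div_iff₀ hb]; linarith)

lemma cut_nonneg (a b t : ℝ) : 0 ≤ cut a b t := Real.smoothTransition.nonneg _

lemma cut_le_one (a b t : ℝ) : cut a b t ≤ 1 := Real.smoothTransition.le_one _

lemma cut_deriv (a b t : ℝ) :
    HasDerivAt (cut a b) (deriv Real.smoothTransition ((t - a) / b) / b) t := by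
  have h1 : HasDerivAt (fun t : ℝ => (t - a) / b) (1 / b) t := ((hasDerivAt_id' t).sub_const a).div_const b
  have h2 : HasDerivAt Real.smoothTransition (deriv Real.smoothTransition ((t - a) / b)) ((t - a) / b) :=
    ((Real.smoothTransition.contDiff (n := 1)).differentiable (by norm_num) _).hasDerivAt
  have h3 := h2.comp t h1
  rw [mul_one_div] at h3
  exact h3

lemma abs_cut_deriv {C : ℝ} (hC : ∀ x, |deriv Real.smoothTransition x| ≤ C) {b : ℝ} (hb : 0 < b) (x : ℝ) :
    |deriv Real.smoothTransition x / b| ≤ C / b := by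
  rw [abs_div, abs_of_pos hb]
  exact div_le_div_of_nonneg_right (hC x) hb.le

section
variable {ν : ℝ} {w : R3 → R3} {B : ℝ → R3 → R3} {p : ℝ → R3 → ℝ}

lemma adm_sv (h : AdmissiblePeriodic ν w B p) : SV (Ici 0) B :=
  ⟨fun i => (contDiffOn_pi.1 h.smooth_u) i, fun t ht x j => h.periodic_u t ht x j⟩

lemma adm_smp (h : AdmissiblePeriodic ν w B p) : Sm (Ici 0) p := h.smooth_p

lemma adm_res (h : AdmissiblePeriodic ν w B p) {t : ℝ} (ht : 0 < t) (x : R3) (i : Fin 3) :
    res ν B p t x i = 0 := by
  have h1 := h.momentum t ht.le x i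
  rw [derivWithin_of_mem_nhds (Ici_mem_nhds ht)] at h1
  unfold res adv lap
  linarith

lemma Sm.diffAt {F : ℝ → R3 → ℝ} (hF : Sm (Ici 0) F) {t : ℝ} (ht : 0 < t) (x : R3) :
    DifferentiableAt ℝ (fun s => F s x) t :=
  ((hF.dtw_eq (show t ∈ Ici 0 from ht.le) x).hasDerivAt (Ici_mem_nhds ht)).differentiableAt

end

/-- a field at rest -/
lemma res_const (ν : ℝ) (v : R3 → R3) (t : ℝ) (x : R3) (i : Fin 3) :
    res ν (fun _ => v) (fun _ _ => 0) t x i = adv v v x i - ν * lap v x i := by
  unfold res
  rw [deriv_const, pd_const]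
  ring

lemma lap_const (m : R3) (x : R3) (i : Fin 3) : lap (fun _ => m) x i = 0 := by
  unfold lap
  refine Finset.sum_eq_zero fun j _ => ?_
  have : (pd j fun _ : R3 => m i) = fun _ => 0 := funext fun y => pd_const (m i) j y
  rw [this, pd_const]

lemma adv_const (a : R3 → R3) (m : R3) (x : R3) (i : Fin 3) : adv a (fun _ => m) x i = 0 := by
  unfold adv
  refine Finset.sum_eq_zero fun j _ => ?_
  rw [pd_const, mul_zero]

lemma res_rest (ν : ℝ) (m : R3) (t : ℝ) (x : R3) (i : Fin 3) :
    res ν (fun _ _ => m) (fun _ _ => 0) t x i = 0 := by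
  rw [res_const, lap_const, adv_const]
  ring

end Pool.Agent.H3NS
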