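import Pool.Agent.H3NS.Kill2

set_option autoImplicit false
set_option maxHeartbeats 4000000
set_option synthInstance.maxHeartbeats 400000

open MeasureTheory Set Filter Topology
open scoped ENNReal NNReal ContDiff

namespace Pool.Agent.H3NS

open Pool.Agent.H356R3.NS

lemma cost_neg {r : ℝ} (hr : 1 ≤ r) (a b : R3 → R3) :
    cost r (fun x i => a x i - b x i) = cost r (fun x i => b x i - a x i) := by
  have h := cost_smul hr (-1) (fun x i => b x i - a x i)
  have e : (fun x => (-1 : ℝ) • (fun (x : R3) (i : Fin 3) => b x i - a x i) x) = fun x i => a x i - b x i := by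
    funext x i
    simp
  rw [e] at h
  rw [h]
  simp

lemma SV.cont {T : Set ℝ} {V : ℝ → R3 → R3} (h : SV T V) {t : ℝ} (ht : t ∈ T) : Continuous (V t) :=
  (h.slice ht).continuous

lemma SV.const {T : Set ℝ} {v : R3 → R3} (h : Smo v) (hp : Pe v) : SV T (fun _ => v) :=
  ⟨fun i => Sm.space (h.comp i), fun _ _ => hp⟩

lemma SV.cost_le {r : ℝ} (hr : 1 ≤ r) {T : Set ℝ} {V : ℝ → R3 → R3} (h : SV T V) {t : ℝ} (ht : t ∈ T)
    {M : ℝ} (hM : 0 < M) (h1 : C1le (V t) M) : cost r (V t) ≤ ENNReal.ofReal (Cc * M) :=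
  cost_C1 hr ((h.slice ht).of_le (by simp)) (h.per t ht) hM h1

theorem reach_kill {ν r : ℝ} (hν : 0 < ν) (hr : 2 < r) {w0 : R3 → R3} (hw : Smo w0) (hp : Pe w0)
    (hd : ∀ x, ∑ i, pd i (fun y => w0 y i) x = 0) {E : ℝ} (hE : 0 < E) {dm : ℝ} (hdm : 0 < dm) :
    ∃ d : ℝ, 0 < d ∧ d ≤ dm ∧
      ∀ s, Reach ν r (fun _ _ _ => 0) s (s + d) w0 (fun _ => mean w0) (ENNReal.ofReal E) := by
  have hr1 : 1 ≤ r := by linarith
  have hCc := Cc_pos
  obtain ⟨C, hC1, hC⟩ := smoothTransition_deriv_bound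
  have hC0 : 0 < C := by linarith
  obtain ⟨ε, hεd⟩ : ∃ ε, ε = E / (32 * C) := ⟨_, rfl⟩
  have hε : 0 < ε := by rw [hεd]; positivity
  obtain ⟨δ1, hδ1, hδ1a, hδ1b⟩ : ∃ δ1 : ℝ, 0 < δ1 ∧ δ1 ≤ dm / 2 ∧ δ1 ≤ E / (16 * C) :=
    ⟨min (dm / 2) (E / (16 * C)), lt_min (by positivity) (by positivity), min_le_left _ _, min_le_right _ _⟩
  obtain ⟨w, B, p, hB, hw0, hlate⟩ := kill0 hν hr hw hp hd hε hδ1
  set m := mean w0 with hm
  have hsv : SV (Ici 0) B := adm_sv hB
  have hU : UniqueDiffOn ℝ (Ici (0 : ℝ)) := uniqueDiffOn_Ici 0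
  have h00 : (0 : ℝ) ∈ Ici (0 : ℝ) := mem_Ici.2 le_rfl
  have hwsv : SV (Ici (0 : ℝ)) (fun _ => w0) := SV.const hw hp
  have hmsv : SV (Ici (0 : ℝ)) (fun _ _ => m) := SV.const (contDiff_const) (fun _ _ => rfl)
  have hD1 : SV (Ici (0 : ℝ)) (fun t x i => B t x i - w0 x i) := hsv.sub hwsv
  have hD2 : SV (Ici (0 : ℝ)) (fun t x i => m i - B t x i) := hmsv.sub hsv
  have hX1 : SV (Ici (0 : ℝ)) (fun _ x i => adv w0 w0 x i - ν * lap w0 x i) := by
    have h1 := SV.adv hU hwsv hwsv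
    have h2 := SV.lap hU hwsv
    refine ⟨fun i => (h1.sm i).sub ((Sm.const ν).mul (h2.sm i)), fun t ht x j => ?_⟩
    have h3 := h1.per t ht x j
    have h4 := h2.per t ht x j
    funext i
    rw [congrFun h3 i, congrFun h4 i]
  have hX2 := SV.adv hU hD1 hD1
  have hX3 := SV.adv hU hD2 hD2
  have hKc : IsCompact (Icc (0 : ℝ) dm) := isCompact_Icc
  have hKs : Icc (0 : ℝ) dm ⊆ Ici 0 := fun t ht => ht.1
  obtain ⟨M1, hM1, h1⟩ := hX1.c1 hU hKc hKs
  obtain ⟨M2, hM2, h2⟩ := hX2.c1 hU hKc hKs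
  obtain ⟨M3, hM3, h3⟩ := hX3.c1 hU hKc hKs
  obtain ⟨σ, hσ, hσ'⟩ := hsv.c1_unif hU hKc hKs (η := ε / Cc) (by positivity)
  obtain ⟨δ0, hδ0, hδ0a, hδ0b, hδ0c⟩ : ∃ δ0 : ℝ, 0 < δ0 ∧ δ0 ≤ δ1 / 4 ∧ δ0 ≤ σ / 4 ∧
      δ0 ≤ E / (8 * (Cc * (M1 + M2))) :=
    ⟨min (δ1 / 4) (min (σ / 4) (E / (8 * (Cc * (M1 + M2))))),
      lt_min (by positivity) (lt_min (by positivity) (by positivity)), min_le_left _ _,
      (min_le_right _ _).trans (min_le_left _ _), (min_le_right _ _).trans (min_le_right _ _)⟩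
  obtain ⟨δ2, hδ2, hδ2a, hδ2b⟩ : ∃ δ2 : ℝ, 0 < δ2 ∧ δ2 ≤ dm / 4 ∧ δ2 ≤ E / (4 * (Cc * M3)) :=
    ⟨min (dm / 4) (E / (4 * (Cc * M3))), lt_min (by positivity) (by positivity), min_le_left _ _,
      min_le_right _ _⟩
  -- the distance of `B τ` to `w0` for small times
  have he1 : ∀ τ, 0 ≤ τ → τ ≤ 2 * δ0 → cost r (fun x i => B τ x i - w0 x i) ≤ ENNReal.ofReal (2 * ε) := by
    intro τ h0 hτ
    have hτm : τ ∈ Icc (0 : ℝ) dm := ⟨h0, by linarith⟩
    have h0m : (0 : ℝ) ∈ Icc (0 : ℝ) dm := ⟨le_rfl, hdm.le⟩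
    have hc := hσ' τ hτm 0 h0m (by rw [sub_zero, abs_of_nonneg h0]; linarith)
    have hd1 : SV (Ici (0 : ℝ)) (fun t x i => B t x i - B 0 x i) :=
      hsv.sub (SV.const (hsv.slice h00) (hsv.per 0 h00))
    have h4 : cost r (fun x i => B τ x i - B 0 x i) ≤ ENNReal.ofReal ε := by
      have := hd1.cost_le hr1 (show τ ∈ Ici (0 : ℝ) from h0) (M := ε / Cc) (by positivity) hc
      refine this.trans (le_of_eq ?_)
      congr 1
      field_simp
    have hB0 : B 0 = w := hB.initial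
    have e : (fun x i => B τ x i - w0 x i : R3 → R3)
        = fun x => (fun x i => B τ x i - B 0 x i : R3 → R3) x + (fun x i => w x i - w0 x i : R3 → R3) x := by
      funext x i
      simp only [Pi.add_apply, hB0]
      ring
    rw [e]
    have hcw : Continuous (fun x i => w x i - w0 x i : R3 → R3) := by
      rw [← hB0]
      exact hD1.cont h00
    refine (cost_add hr1 (hd1.cont (show τ ∈ Ici (0 : ℝ) from h0)) hcw).trans ?_
    rw [two_mul, ENNReal.ofReal_add hε.le hε.le]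
    exact add_le_add h4 hw0
  have he2 : ∀ τ, δ1 ≤ τ → cost r (fun x i => m i - B τ x i) ≤ ENNReal.ofReal (2 * δ1) := by
    intro τ hτ
    rw [ENNReal.ofReal_mul (by norm_num), ENNReal.ofReal_ofNat]
    have h4 := hlate τ hτ
    rw [cost_neg hr1] at h4
    exact h4
  -- the path
  set χ1 := cut δ0 δ0 with hχ1
  set χ2 := cut δ1 δ2 with hχ2
  have hχ1s : ContDiff ℝ ∞ χ1 := cut_smooth _ _
  have hχ2s : ContDiff ℝ ∞ χ2 := cut_smooth _ _
  have z1 : ∀ τ, τ ≤ δ0 → χ1 τ = 0 := fun τ h => cut_zero hδ0 h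
  have o1 : ∀ τ, 2 * δ0 ≤ τ → χ1 τ = 1 := fun τ h => cut_one hδ0 (by linarith)
  have z2 : ∀ τ, τ ≤ δ1 → χ2 τ = 0 := fun τ h => cut_zero hδ2 h
  have o2 : ∀ τ, δ1 + δ2 ≤ τ → χ2 τ = 1 := fun τ h => cut_one hδ2 h
  set U : ℝ → R3 → R3 := fun τ x i => (1 - χ1 τ) * w0 x i + (χ1 τ - χ2 τ) * B τ x i + χ2 τ * m i with hUd
  set P : ℝ → R3 → ℝ := fun τ x => (χ1 τ - χ2 τ) * p τ x with hPd
  have hz : ∀ τ < δ0, χ1 τ - χ2 τ = 0 := fun τ h => by rw [z1 τ h.le, z2 τ (by linarith), sub_zero]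
  have hpath : Path U P := by
    refine ⟨fun i => ?_, ?_, fun τ x j => ?_, fun τ x j => ?_, fun τ x => ?_⟩
    · refine Sm.add (Sm.add ?_ ?_) ?_
      · exact (Sm.time (contDiff_const.sub hχ1s)).mul (Sm.space (hw.comp i))
      · exact Sm.cut (hsv.sm i) (hχ1s.sub hχ2s) hδ0 hz
      · exact (Sm.time hχ2s).mul (Sm.const _)
    · exact Sm.cut (adm_smp hB) (hχ1s.sub hχ2s) hδ0 hz
    · funext i
      simp only [hUd]
      rw [hp x j]
      rcases lt_or_ge τ δ0 with h | h
      · rw [hz τ h]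
        ring
      · rw [hsv.per τ (show τ ∈ Ici (0 : ℝ) by simp only [mem_Ici]; linarith) x j]
    · simp only [hPd]
      rcases lt_or_ge τ δ0 with h | h
      · rw [hz τ h]
        ring
      · rw [hB.periodic_p τ (by linarith) x j]
    · rcases lt_or_ge τ δ0 with h | h
      · have e : ∀ i, (fun y => U τ y i) = fun y => w0 y i := by
          intro i
          funext y
          simp only [hUd]
          rw [hz τ h, z1 τ h.le, z2 τ (by linarith)]
          ring
        simp only [e]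
        exact hd x
      · have hτ : τ ∈ Ici (0 : ℝ) := by simp only [mem_Ici]; linarith
        have e : ∀ i, pd i (fun y => U τ y i) x = (1 - χ1 τ) * pd i (fun y => w0 y i) x
            + (χ1 τ - χ2 τ) * pd i (fun y => B τ y i) x := by
          intro i
          have a1 : ContDiff ℝ ∞ fun y => w0 y i := hw.comp i
          have a2 : ContDiff ℝ ∞ fun y => B τ y i := (hsv.sm i).slice hτ
          have e1 : (fun y => U τ y i) = fun y => (fun y => (1 - χ1 τ) * w0 y i
              + (χ1 τ - χ2 τ) * B τ y i) y + (fun _ => χ2 τ * m i) y := rfl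
          rw [e1, pd_add ((contDiff_const.mul a1).add (contDiff_const.mul a2)) contDiff_const, pd_const,
            add_zero, pd_add (contDiff_const.mul a1) (contDiff_const.mul a2), pd_mul a1, pd_mul a2]
        simp only [e]
        rw [Finset.sum_add_distrib, ← Finset.mul_sum, ← Finset.mul_sum, hd x, hB.divFree τ hτ x]
        ring
  refine ⟨δ1 + 2 * δ2, by positivity, by linarith, fun s => ?_⟩
  apply Reach.shift
  refine ⟨U, P, hpath, ⟨min δ0 δ2, lt_min hδ0 hδ2, fun τ hτ => ?_, fun τ hτ => ?_⟩, ?_⟩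
  · have h4 : τ ≤ δ0 := by
      have := min_le_left δ0 δ2
      linarith
    refine ⟨?_, ?_⟩
    · funext x i
      simp only [hUd]
      rw [z1 τ h4, z2 τ (by linarith)]
      ring
    · funext x
      simp only [hPd]
      rw [z1 τ h4, z2 τ (by linarith)]
      simp
  · have h4 : δ1 + δ2 ≤ τ := by
      have := min_le_right δ0 δ2
      linarith
    refine ⟨?_, ?_⟩
    · funext x i
      simp only [hUd]
      rw [o1 τ (by linarith), o2 τ h4]
      ring
    · funext x
      simp only [hPd]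
      rw [o1 τ (by linarith), o2 τ h4]
      simp
  · simp only [sub_zero]
    -- first stage
    have g1 : ∀ τ ∈ Ioc 0 (2 * δ0), cost r (fun x i => res ν U P τ x i)
        ≤ ENNReal.ofReal (Cc * M1 + C / δ0 * (2 * ε) + Cc * M2) := by
      intro τ hτ
      have hτ0 : τ ∈ Ici (0 : ℝ) := hτ.1.le
      have hτm : τ ∈ Icc (0 : ℝ) dm := ⟨hτ.1.le, by linarith [hτ.2]⟩
      have e : (fun x i => res ν U P τ x i) = fun x i =>
          (1 - χ1 τ) * (adv w0 w0 x i - ν * lap w0 x i)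
          + (deriv Real.smoothTransition ((τ - δ0) / δ0) / δ0) * (B τ x i - w0 x i)
          - (χ1 τ * (1 - χ1 τ)) * adv (fun y i => B τ y i - w0 y i) (fun y i => B τ y i - w0 y i) x i := by
        funext x i
        have h5 := res_mix (ν := ν) (U := U) (P := P) (v := fun _ => w0) (B := B) (pv := fun _ _ => 0)
          (pB := p) (χ := χ1) (t := τ) (χ' := deriv Real.smoothTransition ((τ - δ0) / δ0) / δ0) (by
            have h6 : ∀ᶠ σ in 𝓝 τ, σ < δ1 := gt_mem_nhds (by linarith [hτ.2])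
            filter_upwards [h6] with σ hσ
            funext y l
            simp only [hUd]
            rw [z2 σ hσ.le]
            ring) (by
            funext y
            simp only [hPd]
            rw [z2 τ (by linarith [hτ.2])]
            ring) (cut_deriv _ _ _) hw (hsv.slice hτ0) contDiff_const ((adm_smp hB).slice hτ0) x i
            (differentiableAt_const _) ((hsv.sm i).diffAt hτ.1 x)
        rw [h5, res_const, adm_res hB hτ.1]
        ring
      rw [e]
      refine (cost_lin3 hr1 (hX1.cont hτ0) (hD1.cont hτ0) (hX2.cont hτ0) _ _ _).trans ?_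
      have k1 := hX1.cost_le hr1 hτ0 hM1 (h1 τ hτm)
      have k2 := he1 τ hτ.1.le hτ.2
      have k3 := hX2.cost_le hr1 hτ0 hM2 (h2 τ hτm)
      have c0 := cut_nonneg δ0 δ0 τ
      have c1 := cut_le_one δ0 δ0 τ
      have a1 : ENNReal.ofReal |1 - χ1 τ| ≤ 1 := by
        rw [ENNReal.ofReal_le_one, abs_le]
        constructor <;> linarith
      have a2 : ENNReal.ofReal |deriv Real.smoothTransition ((τ - δ0) / δ0) / δ0| ≤ ENNReal.ofReal (C / δ0) :=
        ENNReal.ofReal_le_ofReal (abs_cut_deriv hC hδ0 _)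
      have a3 : ENNReal.ofReal |χ1 τ * (1 - χ1 τ)| ≤ 1 := by
        rw [ENNReal.ofReal_le_one, abs_le]
        constructor <;> nlinarith
      rw [ENNReal.ofReal_add (by positivity) (by positivity), ENNReal.ofReal_add (by positivity) (by positivity),
        ENNReal.ofReal_mul (p := C / δ0) (by positivity)]
      refine add_le_add (add_le_add ?_ ?_) ?_
      · calc _ ≤ 1 * ENNReal.ofReal (Cc * M1) := mul_le_mul' a1 k1
          _ = _ := one_mul _
      · exact mul_le_mul' a2 k2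
      · calc _ ≤ 1 * ENNReal.ofReal (Cc * M2) := mul_le_mul' a3 k3
          _ = _ := one_mul _
    -- the formula for the later times
    have g2 : ∀ τ, 2 * δ0 < τ → τ ≤ δ1 + 2 * δ2 → ∀ c', HasDerivAt χ2 c' τ →
        (fun x i => res ν U P τ x i) = fun x i => 0 * (0 : ℝ) + c' * (m i - B τ x i)
          - (χ2 τ * (1 - χ2 τ)) * adv (fun y i => m i - B τ y i) (fun y i => m i - B τ y i) x i := by
      intro τ hτ hτ2 c' hc'
      have hτp : 0 < τ := by linarith
      have hτ0 : τ ∈ Ici (0 : ℝ) := hτp.le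
      funext x i
      have h5 := res_mix (ν := ν) (U := U) (P := P) (v := B) (B := fun _ _ => m) (pv := p)
          (pB := fun _ _ => 0) (χ := χ2) (t := τ) (χ' := c') (by
            have h6 : ∀ᶠ σ in 𝓝 τ, 2 * δ0 < σ := lt_mem_nhds hτ
            filter_upwards [h6] with σ hσ
            funext y l
            simp only [hUd]
            rw [o1 σ hσ.le]
            ring) (by
            funext y
            simp only [hPd]
            rw [o1 τ hτ.le]
            ring) hc' (hsv.slice hτ0) contDiff_const ((adm_smp hB).slice hτ0) contDiff_const x i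
            ((hsv.sm i).diffAt hτp x) (differentiableAt_const _)
      rw [h5, res_rest, adm_res hB hτp]
      ring
    have g2a : ∀ τ ∈ Ioo (2 * δ0) δ1, cost r (fun x i => res ν U P τ x i) ≤ 0 := by
      intro τ hτ
      have h5 : HasDerivAt χ2 0 τ := by
        have h6 : χ2 =ᶠ[𝓝 τ] fun _ => 0 := by
          filter_upwards [gt_mem_nhds hτ.2] with σ hσ
          exact z2 σ hσ.le
        exact (hasDerivAt_const τ (0 : ℝ)).congr_of_eventuallyEq h6
      rw [g2 τ hτ.1 (by linarith [hτ.2]) 0 h5, z2 τ hτ.2.le]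
      simp only [zero_mul, sub_zero, add_zero]
      rw [cost_zero r hr1]
    have g2c : ∀ τ ∈ Ioc (δ1 + δ2) (δ1 + 2 * δ2), cost r (fun x i => res ν U P τ x i) ≤ 0 := by
      intro τ hτ
      have h5 : HasDerivAt χ2 0 τ := by
        have h6 : χ2 =ᶠ[𝓝 τ] fun _ => 1 := by
          filter_upwards [lt_mem_nhds hτ.1] with σ hσ
          exact o2 σ hσ.le
        exact (hasDerivAt_const τ (1 : ℝ)).congr_of_eventuallyEq h6
      rw [g2 τ (by linarith [hτ.1]) hτ.2 0 h5, o2 τ hτ.1.le]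
      simp only [zero_mul, sub_self, mul_zero, sub_zero, add_zero]
      rw [cost_zero r hr1]
    have g2b : ∀ τ ∈ Icc δ1 (δ1 + δ2), cost r (fun x i => res ν U P τ x i)
        ≤ ENNReal.ofReal (C / δ2 * (2 * δ1) + Cc * M3) := by
      intro τ hτ
      have hτ0 : τ ∈ Ici (0 : ℝ) := by simp only [mem_Ici]; linarith [hτ.1]
      have hτm : τ ∈ Icc (0 : ℝ) dm := ⟨hτ0, by linarith [hτ.2]⟩
      rw [g2 τ (by linarith [hτ.1]) (by linarith [hτ.2]) _ (cut_deriv _ _ _)]
      refine (cost_lin3 hr1 (X := fun _ _ => 0) continuous_const (hD2.cont hτ0) (hX3.cont hτ0) _ _ _).trans ?_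
      have k2 := he2 τ hτ.1
      have k3 := hX3.cost_le hr1 hτ0 hM3 (h3 τ hτm)
      have c0 := cut_nonneg δ1 δ2 τ
      have c1 := cut_le_one δ1 δ2 τ
      have a2 : ENNReal.ofReal |deriv Real.smoothTransition ((τ - δ1) / δ2) / δ2| ≤ ENNReal.ofReal (C / δ2) :=
        ENNReal.ofReal_le_ofReal (abs_cut_deriv hC hδ2 _)
      have a3 : ENNReal.ofReal |χ2 τ * (1 - χ2 τ)| ≤ 1 := by
        rw [ENNReal.ofReal_le_one, abs_le]
        constructor <;> nlinarith
      rw [ENNReal.ofReal_add (by positivity) (by positivity), ENNReal.ofReal_mul (p := C / δ2) (by positivity),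
        cost_zero r hr1, mul_zero, zero_add]
      refine add_le_add ?_ ?_
      · exact mul_le_mul' a2 k2
      · calc _ ≤ 1 * ENNReal.ofReal (Cc * M3) := mul_le_mul' a3 k3
          _ = _ := one_mul _
    have hsub : Ioc 0 (δ1 + 2 * δ2) ⊆ Ioc 0 (2 * δ0) ∪ (Ioo (2 * δ0) δ1 ∪ (Icc δ1 (δ1 + δ2) ∪
        Ioc (δ1 + δ2) (δ1 + 2 * δ2))) := by
      intro τ hτ
      by_cases q1 : τ ≤ 2 * δ0
      · exact Or.inl ⟨hτ.1, q1⟩
      · push Not at q1
        by_cases q2 : τ < δ1
        · exact Or.inr (Or.inl ⟨q1, q2⟩)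
        · push Not at q2
          by_cases q3 : τ ≤ δ1 + δ2
          · exact Or.inr (Or.inr (Or.inl ⟨q2, q3⟩))
          · push Not at q3
            exact Or.inr (Or.inr (Or.inr ⟨q3, hτ.2⟩))
    have i1 : ∫⁻ τ in Ioc 0 (2 * δ0), cost r (fun x i => res ν U P τ x i)
        ≤ ENNReal.ofReal ((Cc * M1 + C / δ0 * (2 * ε) + Cc * M2) * (2 * δ0)) := by
      refine (setLIntegral_mono' measurableSet_Ioc g1).trans (le_of_eq ?_)
      rw [setLIntegral_const, Real.volume_Ioc, sub_zero, ← ENNReal.ofReal_mul (by positivity)]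
    have i2 : ∫⁻ τ in Ioo (2 * δ0) δ1, cost r (fun x i => res ν U P τ x i) ≤ 0 := by
      refine (setLIntegral_mono' measurableSet_Ioo g2a).trans (le_of_eq ?_)
      simp
    have i3 : ∫⁻ τ in Icc δ1 (δ1 + δ2), cost r (fun x i => res ν U P τ x i)
        ≤ ENNReal.ofReal ((C / δ2 * (2 * δ1) + Cc * M3) * δ2) := by
      refine (setLIntegral_mono' measurableSet_Icc g2b).trans (le_of_eq ?_)
      rw [setLIntegral_const, Real.volume_Icc, ← ENNReal.ofReal_mul (by positivity)]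
      congr 2
      ring
    have i4 : ∫⁻ τ in Ioc (δ1 + δ2) (δ1 + 2 * δ2), cost r (fun x i => res ν U P τ x i) ≤ 0 := by
      refine (setLIntegral_mono' measurableSet_Ioc g2c).trans (le_of_eq ?_)
      simp
    refine (lintegral_mono_set hsub).trans ((lintegral_union_le _ _ _).trans ?_)
    refine (add_le_add i1 ((lintegral_union_le _ _ _).trans (add_le_add i2
      ((lintegral_union_le _ _ _).trans (add_le_add i3 i4))))).trans ?_
    rw [add_zero, zero_add, ← ENNReal.ofReal_add (by positivity) (by positivity)]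
    apply ENNReal.ofReal_le_ofReal
    have b1 : C / δ0 * (2 * ε) * (2 * δ0) = E / 8 := by
      rw [hεd]
      field_simp
      ring
    have b2 : C / δ2 * (2 * δ1) * δ2 ≤ E / 8 := by
      have : C / δ2 * (2 * δ1) * δ2 = 2 * C * δ1 := by field_simp
      rw [this]
      calc 2 * C * δ1 ≤ 2 * C * (E / (16 * C)) := by gcongr
        _ = E / 8 := by field_simp; ring
    have b3 : Cc * (M1 + M2) * (2 * δ0) ≤ E / 4 := by
      calc Cc * (M1 + M2) * (2 * δ0) ≤ Cc * (M1 + M2) * (2 * (E / (8 * (Cc * (M1 + M2))))) := by gcongr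
        _ = E / 4 := by field_simp; ring
    have b4 : Cc * M3 * δ2 ≤ E / 4 := by
      calc Cc * M3 * δ2 ≤ Cc * M3 * (E / (4 * (Cc * M3))) := by gcongr
        _ = E / 4 := by field_simp
    nlinarith

end Pool.Agent.H3NS
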