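import Pool.Agent.H3NS.Go

set_option autoImplicit false
set_option maxHeartbeats 4000000
set_option synthInstance.maxHeartbeats 400000

open MeasureTheory Set Filter Topology
open scoped ENNReal NNReal ContDiff

namespace Pool.Agent.H3NS

open Pool.Agent.H356R3.NS

/-- truncation -/
noncomputable def tr (M : ℕ) (w : R3 → R3) (x : R3) (i : Fin 3) : ℝ := tp (bx M) (fun k => fc w k i) x

lemma tr_smo (M : ℕ) (w : R3 → R3) : Smo (tr M w) := contDiff_pi.2 fun _ => tp_smooth _ _

lemma tr_per (M : ℕ) (w : R3 → R3) : Pe (tr M w) := fun x j => funext fun _ => tp_per _ _ x j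

lemma bx_neg {M : ℕ} (k : K) : -k ∈ bx M ↔ k ∈ bx M := by
  rw [mem_bx, mem_bx]
  simp

lemma zero_mem_bx (M : ℕ) : (0 : K) ∈ bx M := by rw [mem_bx]; simp

lemma tr_fc (M : ℕ) (w : R3 → R3) : fc (tr M w) = fun k => if k ∈ bx M then fc w k else 0 := by
  classical
  set c' : K → C3 := fun k => if k ∈ bx M then fc w k else 0 with hc'
  have hSN : SN c' := summable_of_ne_finset_zero (s := bx M) fun k hk => by
    simp only [hc']
    rw [if_neg hk, norm_zero]
  have hsym : Sym c' := by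
    intro k i
    simp only [hc']
    by_cases h : k ∈ bx M
    · rw [if_pos h, if_pos ((bx_neg k).2 h)]
      exact fc_sym w k i
    · rw [if_neg h, if_neg (fun h' => h ((bx_neg k).1 h'))]
      simp
  have htp : (fun (x : R3) (i : Fin 3) => (∑' k, c' k i * ex k x).re) = tr M w := by
    funext x i
    unfold tr tp
    rw [tsum_eq_sum (s := bx M)]
    · congr 1
      refine Finset.sum_congr rfl fun k hk => ?_
      simp only [hc']
      rw [if_pos hk]
    · intro k hk
      simp only [hc']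
      rw [if_neg hk]
      simp
  rw [← htp]
  exact fc_tsum hSN hsym

lemma tr_div (M : ℕ) {w : R3 → R3} (hw : Smo w) (hp : Pe w) (hd : ∀ x, ∑ i, pd i (fun y => w y i) x = 0)
    (x : R3) : ∑ i, pd i (fun y => tr M w y i) x = 0 := by
  have e : ∀ i, pd i (fun y => tr M w y i) x = tp (bx M) (fun k => fj k i * fc w k i) x :=
    fun i => tp_pd _ _ i x
  simp only [e]
  rw [tp_sum]
  have h1 : ∀ k, ∑ i, fj k i * fc w k i = 0 := by
    intro k
    have h2 : ∑ i, fj k i * fc w k i = 2 * Real.pi * Complex.I * dt k (fc w k) := by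
      unfold fj dt
      rw [Finset.mul_sum]
      exact Finset.sum_congr rfl fun i _ => by ring
    rw [h2, fc_div (hw.of_le (by simp)) hp hd k, mul_zero]
  simp only [h1]
  simp [tp]

lemma tr_cost {r : ℝ} (hr : 1 ≤ r) {w : R3 → R3} (hw : Smo w) (hp : Pe w) {E : ℝ} (hE : 0 < E) :
    ∃ M0 : ℕ, ∀ M : ℕ, M0 ≤ M → cost r (fun x i => w x i - tr M w x i) ≤ ENNReal.ofReal E := by
  classical
  have hr0 : 0 < r := by linarith
  have hδ : 0 < ENNReal.ofReal (E ^ r) := ENNReal.ofReal_pos.2 (by positivity)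
  obtain ⟨J, hJ⟩ := crit_tail hr0 (fc_crit (hw.of_le (by simp)) hp hr) hδ
  refine ⟨2 ^ J, fun M hMJ => ?_⟩
  have hMJ' : ((2 : ℝ) ^ J) ≤ M := by exact_mod_cast hMJ
  have hsmall : ∀ k : K, Pool.Agent.H356R3.NS.sq k < 4 ^ J → k ∈ bx M := by
    intro k hk
    rw [mem_bx]
    intro i
    by_contra h
    push Not at h
    have h1 : (M : ℝ) < |(k i : ℝ)| := by exact_mod_cast h
    have h2 : (k i : ℝ) ^ 2 ≤ Pool.Agent.H356R3.NS.sq k := Finset.single_le_sum (f := fun i => (k i : ℝ) ^ 2)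
      (fun i _ => sq_nonneg _) (Finset.mem_univ i)
    have h3 : (4 : ℝ) ^ J ≤ (k i : ℝ) ^ 2 := by
      rw [← sq_abs (k i : ℝ)]
      calc (4 : ℝ) ^ J = (2 ^ J) ^ 2 := by rw [← pow_mul, mul_comm, pow_mul]; norm_num
        _ ≤ _ := pow_le_pow_left₀ (by positivity) (hMJ'.trans h1.le) 2
    linarith
  have e2 : fc (fun x i => w x i - tr M w x i) = fun k => fc w k - (if k ∈ bx M then fc w k else 0) := by
    funext k
    have := fc_sub hw.continuous (tr_smo M w).continuous k
    rw [tr_fc] at this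
    exact this
  unfold cost
  rw [e2]
  have e0 : (fun k => fc w k - (if k ∈ bx M then fc w k else 0)) 0 = 0 := by
    simp only
    rw [if_pos (zero_mem_bx M), sub_self]
  rw [e0, enorm_zero, zero_add, critNorm_eq]
  have h5 : crit r (fun k => fc w k - (if k ∈ bx M then fc w k else 0)) < ENNReal.ofReal (E ^ r) := by
    apply hJ
    · intro k
      by_cases h : k ∈ bx M
      · right; rw [if_pos h, sub_self]
      · left; rw [if_neg h, sub_zero]
    · intro k hk
      rw [if_pos (hsmall k hk), sub_self]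
  calc crit r (fun k => fc w k - (if k ∈ bx M then fc w k else 0)) ^ (1 / r)
      ≤ (ENNReal.ofReal (E ^ r)) ^ (1 / r) := ENNReal.rpow_le_rpow h5.le (by positivity)
    _ = ENNReal.ofReal E := by
        rw [ENNReal.ofReal_rpow_of_nonneg (by positivity) (by positivity), ← Real.rpow_mul hE.le,
          mul_one_div_cancel (by linarith), Real.rpow_one]

lemma critNorm_congr {r : ℝ} {a b : K → C3} (h : ∀ k, k ≠ 0 → a k = b k) : critNorm r a = critNorm r b := by
  unfold critNorm shellSum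
  congr 1
  refine tsum_congr fun j => ?_
  congr 2
  refine tsum_congr fun k => ?_
  by_cases hk : k = 0
  · subst hk
    have : ¬ ((4 : ℤ) ^ j ≤ ∑ i, (0 : K) i ^ 2 ∧ ∑ i, (0 : K) i ^ 2 < (4 : ℤ) ^ (j + 1)) := by
      intro h'
      have h1 := h'.1
      simp only [Pi.zero_apply, ne_eq, OfNat.ofNat_ne_zero, not_false_eq_true, zero_pow,
        Finset.sum_const_zero] at h1
      have : (0 : ℤ) < 4 ^ j := by positivity
      linarith
    rw [if_neg this, if_neg this]
  · rw [h k hk]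

lemma cost_l1 {r : ℝ} (hr : 1 ≤ r) (g : R3 → R3) : cost r g ≤ 3 * ∑' k, ‖fc g k‖ₑ := by
  unfold cost
  have h1 : ‖fc g 0‖ₑ ≤ ∑' k, ‖fc g k‖ₑ := ENNReal.le_tsum 0
  have h2 : critNorm r (fc g) ≤ 2 * ∑' k, ‖fc g k‖ₑ := by
    refine (critNorm_le hr _).trans (mul_le_mul' le_rfl (ENNReal.tsum_le_tsum fun k => ?_))
    by_cases hk : k = 0
    · subst hk
      rw [nk_zero]
      simp
    · have : ENNReal.ofReal (1 / nk k) ≤ 1 := by
        rw [ENNReal.ofReal_le_one, div_le_one (nk_pos hk)]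
        exact one_le_nk hk
      calc _ ≤ 1 * ‖fc g k‖ₑ := mul_le_mul' this le_rfl
        _ = _ := one_mul _
  calc _ ≤ (∑' k, ‖fc g k‖ₑ) + 2 * ∑' k, ‖fc g k‖ₑ := add_le_add h1 h2
    _ = _ := by ring

lemma enorm_fc_zero_sub (w0 w1 : R3 → R3) :
    ‖fc w1 0 - fc w0 0‖ₑ ≤ ENNReal.ofReal ‖mean w1 - mean w0‖ := by
  rw [← ofReal_norm]
  apply ENNReal.ofReal_le_ofReal
  rw [pi_norm_le_iff_of_nonneg (norm_nonneg _)]
  intro i
  rw [Pi.sub_apply, fc_zero_eq, fc_zero_eq, ← Complex.ofReal_sub, Complex.norm_real]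
  exact norm_le_pi_norm (mean w1 - mean w0) i

/-- the Lei-Lin norm of the difference -/
noncomputable def lei (w0 w1 : R3 → R3) : ℝ≥0∞ := ∑' k, ENNReal.ofReal (1 / nk k) * ‖fc w0 k - fc w1 k‖ₑ

/-- Near `w1` there is a field `g` such that `g` plus a global solution without force leads from a field
near `w0` to a field near `g`. -/
theorem link0 {ν r p : ℝ} (hν : 0 < ν) (hr : 2 < r) (hp1 : 1 ≤ p) (hp2 : p < 2) {w0 w1 : R3 → R3}
    (hw0 : Smo w0) (hq0 : Pe w0) (hd0 : ∀ x, ∑ i, pd i (fun y => w0 y i) x = 0)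
    (hw1 : Smo w1) (hq1 : Pe w1) (hd1 : ∀ x, ∑ i, pd i (fun y => w1 y i) x = 0) {e : ℝ} (he : 0 < e) :
    ∃ g : R3 → R3, Smo g ∧ Pe g ∧ (∀ x, ∑ i, pd i (fun y => g y i) x = 0) ∧
      cost r (fun x i => w1 x i - g x i) ≤ ENNReal.ofReal e ∧ ∃ Cg : ℝ, 0 < Cg ∧
      ∀ e' : ℝ, 0 < e' → ∀ δ : ℝ, 0 < δ → ∃ (b : R3 → R3) (B : ℝ → R3 → R3) (pB : ℝ → R3 → ℝ) (φ : ℝ → ℝ≥0∞),
        AdmissiblePeriodic ν b B pB ∧ Measurable φ ∧
        (∀ t, 0 ≤ t → cost r (fun x i => adv g (B t) x i + adv (B t) g x i) ≤ ENNReal.ofReal Cg * φ t) ∧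
        (∀ t x, ‖B t x‖ₑ ≤ φ t) ∧ (∀ t, δ ≤ t → cost r (B t) ≤ ENNReal.ofReal (3 * δ)) ∧
        ∫⁻ t in Ioc 0 1, (φ t + φ t ^ p) ≤ ENNReal.ofReal e' ∧
        cost r (fun x i => (g x i + b x i) - w0 x i) ≤ ENNReal.ofReal (‖mean w1 - mean w0‖ + e + e') ∧
        ∀ t, 0 ≤ t → cost r (B t) ≤ ENNReal.ofReal 9218 * lei w0 w1 + ENNReal.ofReal e' := by
  classical
  have hr1 : 1 ≤ r := by linarith
  have hpi := Real.pi_pos
  obtain ⟨M0, hM0⟩ := tr_cost hr1 hw0 hq0 he
  obtain ⟨M1, hM1⟩ := tr_cost hr1 hw1 hq1 he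
  obtain ⟨M, hMa, hMb⟩ : ∃ M : ℕ, M0 ≤ M ∧ M1 ≤ M := ⟨max M0 M1, le_max_left _ _, le_max_right _ _⟩
  have hc0 := hM0 M hMa
  have hc1 := hM1 M hMb
  have hg : Smo (tr M w1) := tr_smo M w1
  set A : ℝ≥0∞ := ∑ l ∈ bx M, ‖fc w1 l‖ₑ with hA
  have hAt : A ≠ ⊤ := by
    rw [hA]
    exact ENNReal.sum_ne_top.2 fun l _ => enorm_ne_top
  refine ⟨tr M w1, hg, tr_per M w1, tr_div M hw1 hq1 hd1, hc1, 36 * Real.pi * (4 * A.toReal) + 1,
    by positivity, fun e' he' δ hδ => ?_⟩
  set V0 : K → C3 := fun k => if k ≠ 0 ∧ k ∈ bx M then fc w0 k - fc w1 k else 0 with hV0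
  have hfin : (Function.support V0).Finite := by
    refine (bx M).finite_toSet.subset fun k hk => ?_
    by_contra h
    apply hk
    have : k ∉ bx M := h
    simp only [hV0]
    rw [if_neg (fun h' => this h'.2)]
  have hV00 : V0 0 = 0 := by simp [hV0]
  have hf0 : ∀ k, dt k (fc w0 k) = 0 := fc_div (hw0.of_le (by simp)) hq0 hd0
  have hf1 : ∀ k, dt k (fc w1 k) = 0 := fc_div (hw1.of_le (by simp)) hq1 hd1
  have hdiv : ∀ k, dt k (V0 k) = 0 := by
    intro k
    simp only [hV0]
    split_ifs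
    · have h1 := hf0 k
      have h2 := hf1 k
      unfold dt at h1 h2 ⊢
      have : ∑ j, (k j : ℂ) * (fc w0 k - fc w1 k) j
          = ∑ j, (k j : ℂ) * fc w0 k j - ∑ j, (k j : ℂ) * fc w1 k j := by
        rw [← Finset.sum_sub_distrib]
        refine Finset.sum_congr rfl fun j _ => ?_
        rw [Pi.sub_apply]
        ring
      rw [this, h1, h2, sub_zero]
    · simp [dt]
  have hsym : Sym V0 := by
    intro k i
    simp only [hV0]
    by_cases h : k ≠ 0 ∧ k ∈ bx M
    · rw [if_pos h, if_pos ⟨neg_ne_zero.2 h.1, (bx_neg k).2 h.2⟩, Pi.sub_apply, Pi.sub_apply, star_sub,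
        fc_sym w0 k i, fc_sym w1 k i]
    · rw [if_neg h, if_neg (fun h' => h ⟨neg_ne_zero.1 h'.1, (bx_neg k).1 h'.2⟩)]
      simp
  obtain ⟨W, hWf, hWs, -, hW0, hWc, B, pB, φ, hB, hφ, hl1, hsup, hlate, hint, hB0, hBcrit⟩ :=
    core4 (p := p) hν hr hp1 hp2 hfin hV00 hdiv hsym (ε := min (e' ^ r) e')
      (lt_min (by positivity) he') hδ
  have hVfin : (Function.support (V0 + W)).Finite :=
    (hfin.union hWf).subset (Function.support_add V0 W)
  have hSN : SN (V0 + W) := summable_of_ne_finset_zero (s := hVfin.toFinset) fun k hk => by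
    have : (V0 + W) k = 0 := by
      by_contra h
      exact hk (by rw [Set.Finite.mem_toFinset]; exact h)
    rw [this, norm_zero]
  set b : R3 → R3 := fun x i => (∑' k, (V0 + W) k i * ex k x).re with hb
  have hfb : fc b = V0 + W := fc_tsum hSN (hsym.add hWs)
  have hsv := adm_sv hB
  have hbs : Smo b := by
    have := hsv.slice (mem_Ici.2 (le_refl (0 : ℝ)))
    rw [hB.initial] at this
    exact this
  refine ⟨b, B, pB, φ, hB, hφ, fun t ht => ?_, hsup, fun t ht => ?_,
    hint.trans (ENNReal.ofReal_le_ofReal (min_le_right _ _)), ?_, fun t ht => ?_⟩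
  · refine (cost_cross hr1 (S := bx M) (c := fc w1) (g := tr M w1) (B := B t) rfl (tr_div M hw1 hq1 hd1)
      (hsv.slice ht) (hsv.per t ht) (hB.divFree t ht)).trans ?_
    have h1 := hl1 t
    calc ENNReal.ofReal (36 * Real.pi) * (4 * (A * ∑' k, ‖fc (B t) k‖ₑ))
        ≤ ENNReal.ofReal (36 * Real.pi) * (4 * (A * φ t)) := by gcongr
      _ = (ENNReal.ofReal (36 * Real.pi) * (4 * A)) * φ t := by ring
      _ = ENNReal.ofReal (36 * Real.pi * (4 * A.toReal)) * φ t := by
          rw [ENNReal.ofReal_mul (p := 36 * Real.pi) (by positivity), ENNReal.ofReal_mul (p := 4) (by norm_num),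
            ENNReal.ofReal_toReal hAt, ENNReal.ofReal_ofNat]
      _ ≤ _ := mul_le_mul' (ENNReal.ofReal_le_ofReal (by linarith)) le_rfl
  · refine (cost_l1 hr1 _).trans ?_
    rw [ENNReal.ofReal_mul (by norm_num), ENNReal.ofReal_ofNat]
    exact mul_le_mul' le_rfl ((hl1 t).trans (hlate t ht))
  · have hg0 : Smo (tr M w0) := tr_smo M w0
    refine (cost_tri hr1 (b := tr M w0) (hg.continuous.add hbs.continuous) hg0.continuous
      hw0.continuous).trans ?_
    have h1 : cost r (fun x i => tr M w0 x i - w0 x i) ≤ ENNReal.ofReal e := by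
      rw [cost_neg hr1]
      exact hc0
    have h2 : cost r (fun x i => (tr M w1 x i + b x i) - tr M w0 x i)
        ≤ ENNReal.ofReal (‖mean w1 - mean w0‖ + e') := by
      have e1 : fc (fun x i => (tr M w1 x i + b x i) - tr M w0 x i)
          = fun k => W k + (if k = 0 then fc w1 0 - fc w0 0 else 0) := by
        funext k
        have a1 := fc_sub (hg.continuous.add hbs.continuous) hg0.continuous k
        have a2 := fc_add hg.continuous hbs.continuous k
        have a3 : fc (fun x i => (tr M w1 x i + b x i) - tr M w0 x i) k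
            = fc (tr M w1) k + fc b k - fc (tr M w0) k := by
          rw [← a2]
          exact a1
        rw [a3, tr_fc, tr_fc, hfb]
        simp only [Pi.add_apply, hV0]
        by_cases hk : k = 0
        · subst hk
          simp only [if_pos (zero_mem_bx M), ne_eq, not_true_eq_false, false_and, if_false, if_true, hW0]
          abel
        · by_cases hk2 : k ∈ bx M
          · rw [if_pos hk2, if_neg hk, if_pos ⟨hk, hk2⟩, if_pos hk2]
            abel
          · rw [if_neg hk2, if_neg hk, if_neg (fun h' => hk2 h'.2), if_neg hk2]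
            abel
      unfold cost
      rw [e1]
      have e2 : critNorm r (fun k => W k + (if k = 0 then fc w1 0 - fc w0 0 else 0)) = critNorm r W :=
        critNorm_congr fun k hk => by rw [if_neg hk, add_zero]
      rw [e2]
      simp only [if_true, hW0, zero_add]
      rw [ENNReal.ofReal_add (norm_nonneg _) he'.le, critNorm_eq]
      refine add_le_add (enorm_fc_zero_sub w0 w1) ?_
      calc crit r W ^ (1 / r) ≤ (ENNReal.ofReal (e' ^ r)) ^ (1 / r) :=
            ENNReal.rpow_le_rpow (hWc.trans (ENNReal.ofReal_le_ofReal (min_le_left _ _))) (by positivity)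
        _ = ENNReal.ofReal e' := by
            rw [ENNReal.ofReal_rpow_of_nonneg (by positivity) (by positivity), ← Real.rpow_mul he'.le,
              mul_one_div_cancel (by linarith), Real.rpow_one]
    refine (add_le_add h2 h1).trans (le_of_eq ?_)
    rw [← ENNReal.ofReal_add (by positivity) he.le]
    congr 1
    ring
  · unfold cost
    rw [hB0 t, enorm_zero, zero_add]
    have hV0le : ∀ k, ‖V0 k‖ₑ ≤ ‖fc w0 k - fc w1 k‖ₑ := by
      intro k
      simp only [hV0]
      split_ifs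
      · exact le_rfl
      · simp
    have h1 : critNorm r V0 ≤ 2 * lei w0 w1 := by
      refine (critNorm_le hr1 V0).trans (mul_le_mul' le_rfl (ENNReal.tsum_le_tsum fun k => ?_))
      exact mul_le_mul' le_rfl (hV0le k)
    have h2 : ENNReal.ofReal (∑ k ∈ hfin.toFinset, 1 / nk k * ‖V0 k‖) ≤ lei w0 w1 := by
      rw [ENNReal.ofReal_sum_of_nonneg fun k _ => by
        have := nk_nonneg k
        positivity]
      refine le_trans (Finset.sum_le_sum fun k _ => ?_) (ENNReal.sum_le_tsum hfin.toFinset)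
      rw [ENNReal.ofReal_mul (by have := nk_nonneg k; positivity), ofReal_norm]
      exact mul_le_mul' le_rfl (hV0le k)
    have hs0 : 0 ≤ ∑ k ∈ hfin.toFinset, 1 / nk k * ‖V0 k‖ := Finset.sum_nonneg fun k _ => by
      have := nk_nonneg k
      positivity
    calc critNorm r (fc (B t)) ≤ critNorm r V0
          + ENNReal.ofReal (9216 * (∑ k ∈ hfin.toFinset, 1 / nk k * ‖V0 k‖) + min (e' ^ r) e') := hBcrit t ht
      _ ≤ 2 * lei w0 w1 + (ENNReal.ofReal 9216 * lei w0 w1 + ENNReal.ofReal e') := by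
          refine add_le_add h1 ?_
          rw [ENNReal.ofReal_add (by positivity) (by positivity), ENNReal.ofReal_mul (by norm_num)]
          exact add_le_add (mul_le_mul' le_rfl h2) (ENNReal.ofReal_le_ofReal (min_le_right _ _))
      _ = _ := by
          have e1 : ENNReal.ofReal 2 = 2 := by simp
          rw [show (9218 : ℝ) = 2 + 9216 by norm_num, ENNReal.ofReal_add (by norm_num) (by norm_num), e1]
          ring

end Pool.Agent.H3NS
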