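import Pool.Agent.H3NS.Step4
import Pool.Agent.H356R3.NS.Dens4

set_option autoImplicit false
set_option maxHeartbeats 4000000
set_option synthInstance.maxHeartbeats 400000

open MeasureTheory Set Filter Topology
open scoped ENNReal NNReal

namespace Pool.Agent.H356R3.NS.H3

variable {q cc η : K}

/-- the norm in `L¹((0,1); ℓ¹)` -/
noncomputable def LI (x : Fam) : ℝ≥0∞ := ∫⁻ t in Ioc 0 1, NW (Wa 0) (at' x t)

/-- the square of the norm in `L²((0,∞); ℓ¹)` -/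
noncomputable def L2 (x : Fam) : ℝ≥0∞ := ∫⁻ t in Ioi 0, NW (Wa 0) (at' x t) ^ (2 : ℝ)

lemma LI_add {x y : Fam} (hx : CF x) : LI (x + y) ≤ LI x + LI y := by
  unfold LI
  rw [← lintegral_add_left (NW_meas _ hx)]
  exact lintegral_mono fun t => NW_add_le _ _ _

lemma LI_le_LN {x : Fam} (hx : CF x) : LI x ≤ LN (fun t => NW (Wa 0) (at' x t)) := by
  unfold LI LN
  have h := ENNReal.lintegral_mul_le_Lp_mul_Lq (volume.restrict (Ioc (0 : ℝ) 1))
    Real.HolderConjugate.two_two (NW_meas (Wa 0) hx).aemeasurable (aemeasurable_const (b := (1 : ℝ≥0∞)))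
  simp only [Pi.mul_apply, mul_one, ENNReal.one_rpow, lintegral_const, Measure.restrict_apply_univ,
    Real.volume_Ioc, sub_zero, ENNReal.ofReal_one] at h
  refine h.trans ?_
  exact ENNReal.rpow_le_rpow (lintegral_mono_set Ioc_subset_Ioi_self) (by norm_num)

lemma LI_exp {v : Fam} {C N c : ℝ} (hc : 0 < c) (hN : 0 < N) (hC : 0 ≤ C)
    (h : ∀ t, NW (Wa 0) (at' v t) ≤ ENNReal.ofReal (C * N * Real.exp (-(c * N ^ 2 * max t 0)))) :
    LI v ≤ ENNReal.ofReal (C / (c * N)) := by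
  unfold LI
  calc ∫⁻ t in Ioc 0 1, NW (Wa 0) (at' v t)
      ≤ ∫⁻ t in Ioi 0, NW (Wa 0) (at' v t) := lintegral_mono_set Ioc_subset_Ioi_self
    _ ≤ ∫⁻ t in Ioi 0, ENNReal.ofReal (C * N) * ENNReal.ofReal (Real.exp (-(c * N ^ 2 * max t 0))) := by
        refine lintegral_mono fun t => ?_
        rw [← ENNReal.ofReal_mul (by positivity)]
        exact h t
    _ = ENNReal.ofReal (C * N) * ENNReal.ofReal (1 / (c * N ^ 2)) := by
        rw [lintegral_const_mul _ (by fun_prop), lint_e (by positivity)]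
    _ = _ := by
        rw [← ENNReal.ofReal_mul (by positivity)]
        congr 1
        field_simp

lemma L2_add_exp {u v : Fam} (hu : CF u) {Mu C N c : ℝ} (hc : 0 < c) (hN : 0 < N)
    (hMu : 0 ≤ Mu) (hC : 0 ≤ C) (h1 : ∀ t, NW (Wa 0) (at' u t) ≤ ENNReal.ofReal Mu)
    (h2 : ∀ t, NW (Wa 0) (at' v t) ≤ ENNReal.ofReal (C * N * Real.exp (-(c * N ^ 2 * max t 0)))) :
    L2 (u + v) ≤ L2 u + ENNReal.ofReal (2 * Mu * C / (c * N) + C ^ 2 / (2 * c)) := by
  unfold L2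
  have hp : ∀ t, NW (Wa 0) (at' (u + v) t) ^ (2 : ℝ) ≤ NW (Wa 0) (at' u t) ^ (2 : ℝ)
      + (ENNReal.ofReal (2 * Mu * (C * N)) * ENNReal.ofReal (Real.exp (-(c * N ^ 2 * max t 0)))
        + ENNReal.ofReal ((C * N) ^ 2) * ENNReal.ofReal (Real.exp (-(2 * (c * N ^ 2) * max t 0)))) := by
    intro t
    have e0 : at' (u + v) t = at' u t + at' v t := rfl
    have e1 : Real.exp (-(2 * (c * N ^ 2) * max t 0)) = Real.exp (-(c * N ^ 2 * max t 0)) ^ 2 := by
      rw [← Real.exp_nat_mul]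
      congr 1
      push_cast
      ring
    set E := Real.exp (-(c * N ^ 2 * max t 0)) with hE
    have hE0 : 0 ≤ E := (Real.exp_pos _).le
    rw [e0, e1]
    refine (ENNReal.rpow_le_rpow (NW_add_le _ _ _) (by norm_num)).trans ?_
    rw [ENNReal.rpow_two, ENNReal.rpow_two]
    set x := NW (Wa 0) (at' u t)
    set y := NW (Wa 0) (at' v t)
    have hx : x ≤ ENNReal.ofReal Mu := h1 t
    have hy : y ≤ ENNReal.ofReal (C * N * E) := h2 t
    calc (x + y) ^ 2 = x ^ 2 + (2 * x * y + y ^ 2) := by ring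
      _ ≤ x ^ 2 + (2 * ENNReal.ofReal Mu * ENNReal.ofReal (C * N * E) + ENNReal.ofReal (C * N * E) ^ 2) := by
          gcongr
      _ = _ := by
          congr 2
          · rw [← ENNReal.ofReal_mul (by positivity), show (2 : ℝ≥0∞) = ENNReal.ofReal 2 by simp,
              ← ENNReal.ofReal_mul (by positivity), ← ENNReal.ofReal_mul (by positivity)]
            congr 1
            ring
          · rw [← ENNReal.ofReal_pow (by positivity), ← ENNReal.ofReal_mul (by positivity)]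
            congr 1
            ring
  refine (lintegral_mono hp).trans ?_
  rw [lintegral_add_left ((NW_meas _ hu).pow_const _)]
  refine add_le_add le_rfl ?_
  rw [lintegral_add_left (by fun_prop), lintegral_const_mul _ (by fun_prop), lintegral_const_mul _ (by fun_prop),
    lint_e (by positivity), lint_e (by positivity), ← ENNReal.ofReal_mul (by positivity),
    ← ENNReal.ofReal_mul (by positivity), ← ENNReal.ofReal_add (by positivity) (by positivity)]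
  apply ENNReal.ofReal_le_ofReal
  apply le_of_eq
  field_simp

lemma LN_sq (x : Fam) : LN (fun t => NW (Wa 0) (at' x t)) ^ (2 : ℝ) = L2 x := by
  unfold LN L2
  rw [← ENNReal.rpow_mul]
  norm_num

lemma L2_add_small {x r : Fam} (hx : CF x) (hr : CF r) {Y ρ : ℝ} (hY : 0 ≤ Y) (hρ : 0 ≤ ρ) (hρ1 : ρ ≤ 1)
    (h1 : L2 x ≤ ENNReal.ofReal Y) (h2 : LN (fun t => NW (Wa 0) (at' r t)) ≤ ENNReal.ofReal ρ) :
    L2 (x + r) ≤ ENNReal.ofReal (Y + ρ * (2 * Real.sqrt Y + 1)) := by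
  have h3 : LN (fun t => NW (Wa 0) (at' x t)) ≤ ENNReal.ofReal (Real.sqrt Y) := by
    have e : LN (fun t => NW (Wa 0) (at' x t)) = L2 x ^ (1 / 2 : ℝ) := rfl
    rw [e]
    refine (ENNReal.rpow_le_rpow h1 (by norm_num)).trans (le_of_eq ?_)
    rw [ENNReal.ofReal_rpow_of_nonneg hY (by norm_num), Real.sqrt_eq_rpow]
  have h4 : LN (fun t => NW (Wa 0) (at' (x + r) t)) ≤ ENNReal.ofReal (Real.sqrt Y + ρ) := by
    refine (LN_mono fun t _ => NW_add_le _ _ _).trans ((LN_add_le (NW_meas _ hx) (NW_meas _ hr)).trans ?_)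
    rw [ENNReal.ofReal_add (Real.sqrt_nonneg _) hρ]
    exact add_le_add h3 h2
  rw [← LN_sq]
  refine (ENNReal.rpow_le_rpow h4 (by norm_num)).trans ?_
  rw [ENNReal.rpow_two, ← ENNReal.ofReal_pow (by positivity)]
  apply ENNReal.ofReal_le_ofReal
  have h5 := Real.sq_sqrt hY
  have h6 : ρ ^ 2 ≤ ρ := by nlinarith
  nlinarith

lemma sol_bdd {c a : ℝ} (ha : 0 ≤ a) {V : K → C3} {u : Fam} (h : Sol c a V u) :
    ∃ Mu : ℝ, 0 ≤ Mu ∧ ∀ t, NW (Wa 0) (at' u t) ≤ ENNReal.ofReal Mu := by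
  obtain ⟨b, hb, hb'⟩ := h.dom
  have hb0 : ∀ k, 0 ≤ b k := fun k => (norm_nonneg _).trans (hb' k 0)
  refine ⟨∑' k, om a k * b k, tsum_nonneg fun k => mul_nonneg (om_pos _ _).le (hb0 k), fun t => ?_⟩
  rw [ENNReal.ofReal_tsum_of_nonneg (fun k => mul_nonneg (om_pos _ _).le (hb0 k)) hb]
  unfold NW Wa at'
  refine ENNReal.tsum_le_tsum fun k => ?_
  rw [ENNReal.ofReal_mul (om_pos _ _).le, ← ofReal_norm]
  exact mul_le_mul' (ENNReal.ofReal_le_ofReal (om_mono ha k)) (ENNReal.ofReal_le_ofReal (hb' k t))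

lemma Cv_pos {c : ℝ} (hc : 0 < c) (hG : Geo q cc η) (γ : ℂ) {lm : ℝ} (hlm : 0 < lm) :
    0 < Cv c q cc η γ lm := by
  have hQ := sq_pos hG.hq
  have hsη := sq_pos hG.hη
  have hpi := Real.pi_pos
  have hqn : 0 < ‖cK q‖ := by
    rw [norm_pos_iff]
    intro h0
    apply hG.hq
    funext i
    have := congrFun h0 i
    simpa [cK] using this
  unfold Cv
  positivity

theorem step2 {c a0 lm δ ee M : ℝ} (hc : 0 < c) (ha0 : 0 < a0) (hlm : 0 < lm) (hδ : 0 < δ) (hee : 0 < ee)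
    (hM : 0 ≤ M) (hG : Geo q cc η) (γ : ℂ) {V : K → C3} {u : Fam}
    (hS : Sol c a0 V u) (hL2 : L2 u ≤ ENNReal.ofReal M) : ∃ N0 : ℕ, ∀ N : ℕ, N0 ≤ N → ∃ a : ℝ, 0 < a ∧
      ∃ u' : Fam, Sol c a (V + (E0 q cc γ + W0 c q cc η γ lm N)) u' ∧
        LNd δ u' ≤ LNd δ u + ENNReal.ofReal ee ∧ LI u' ≤ LI u + ENNReal.ofReal ee ∧
        L2 u' ≤ ENNReal.ofReal (M + (Cv c q cc η γ lm / nk η) ^ 2 / c) := by
  obtain ⟨C, hCd⟩ : ∃ C, C = Cv c q cc η γ lm := ⟨_, rfl⟩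
  have hC : 0 < C := by rw [hCd]; exact Cv_pos hc hG γ hlm
  have hnη : 1 ≤ nk η := by
    unfold nk
    exact Real.one_le_sqrt.2 (one_le_sq hG.hη)
  have hnη0 : 0 < nk η := by linarith
  obtain ⟨C', hCd'⟩ : ∃ C', C' = C / nk η := ⟨_, rfl⟩
  have hC' : 0 < C' := by rw [hCd']; positivity
  obtain ⟨Mu, hMu, hu⟩ := sol_bdd ha0.le hS
  obtain ⟨Y, hYd⟩ : ∃ Y, Y = M + C' ^ 2 / (2 * c) + C' ^ 2 / (4 * c) := ⟨_, rfl⟩
  have hY : 0 ≤ Y := by rw [hYd]; positivity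
  have hsY := Real.sqrt_nonneg Y
  obtain ⟨ρ, hρ, hρ1, hρ2, hρ3⟩ : ∃ ρ : ℝ, 0 < ρ ∧ ρ ≤ 1 ∧ ρ ≤ ee / 2 ∧
      ρ ≤ C' ^ 2 / (4 * c) / (2 * Real.sqrt Y + 1) :=
    ⟨min 1 (min (ee / 2) (C' ^ 2 / (4 * c) / (2 * Real.sqrt Y + 1))),
      lt_min one_pos (lt_min (by positivity) (by positivity)), min_le_left _ _,
      (min_le_right _ _).trans (min_le_left _ _), (min_le_right _ _).trans (min_le_right _ _)⟩
  obtain ⟨N0, hN0⟩ := step_core hc ha0 hlm hρ hG γ hS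
  obtain ⟨N1, hN1'⟩ := exists_nat_ge (C / Real.sqrt c * (2 / (c * δ)) / (ee / 2))
  obtain ⟨N2, hN2'⟩ := exists_nat_ge (C / c / (ee / 2))
  obtain ⟨N3, hN3'⟩ := exists_nat_ge (8 * Mu / C')
  refine ⟨max (max 1 N0) (max N1 (max N2 N3)), fun N hN => ?_⟩
  have m1 : 1 ≤ N := (le_max_left _ _).trans ((le_max_left _ _).trans hN)
  have m0 : N0 ≤ N := (le_max_right _ _).trans ((le_max_left _ _).trans hN)
  have m2 : N1 ≤ N := (le_max_left _ _).trans ((le_max_right _ _).trans hN)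
  have m3 : N2 ≤ N := (le_max_left _ _).trans ((le_max_right _ _).trans ((le_max_right _ _).trans hN))
  have m4 : N3 ≤ N := (le_max_right _ _).trans ((le_max_right _ _).trans ((le_max_right _ _).trans hN))
  have hN1 : (1 : ℝ) ≤ N := by exact_mod_cast m1
  have hNp : (0 : ℝ) < N := by linarith
  obtain ⟨N', hN'd⟩ : ∃ N' : ℝ, N' = N * nk η := ⟨_, rfl⟩
  have hNN : (N : ℝ) ≤ N' := by rw [hN'd]; exact le_mul_of_one_le_right hNp.le hnη
  have hNp' : 0 < N' := by linarith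
  obtain ⟨a, ha, v, r, hsol, hvc, hrc, hv', hr⟩ := hN0 N m0
  rw [← hCd, ← hN'd] at hv'
  have hv : ∀ t, NW (Wa 0) (at' v t) ≤ ENNReal.ofReal (C * N * Real.exp (-(c * N ^ 2 * max t 0))) := by
    intro t
    refine (hv' t).trans (ENNReal.ofReal_le_ofReal ?_)
    apply mul_le_mul_of_nonneg_left _ (by positivity)
    apply Real.exp_le_exp.2
    have h1 : (N : ℝ) ^ 2 ≤ N' ^ 2 := pow_le_pow_left₀ hNp.le hNN 2
    have h2 : 0 ≤ max t 0 := le_max_right _ _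
    have h3 : c * N ^ 2 * max t 0 ≤ c * N' ^ 2 * max t 0 := by gcongr
    linarith
  have hv2 : ∀ t, NW (Wa 0) (at' v t) ≤ ENNReal.ofReal (C' * N' * Real.exp (-(c * N' ^ 2 * max t 0))) := by
    intro t
    have e1 : C' * N' = C * N := by rw [hCd', hN'd]; field_simp
    rw [e1]
    exact hv' t
  have huv : CF (u + v) := fun k => (hS.cf k).add (hvc k)
  refine ⟨a, ha, u + v + r, hsol, ?_, ?_, ?_⟩
  · refine (LNd_add huv hrc).trans ?_
    have h1 := LNd_add (δ := δ) hS.cf hvc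
    have h2 : LNd δ v ≤ ENNReal.ofReal (ee / 2) :=
      (LNd_exp (B := C * N) (σ := c * N ^ 2) (by positivity) (by positivity) hv).trans
        (ENNReal.ofReal_le_ofReal (num_small hc hδ hC.le hN1 hee (hN1'.trans (by exact_mod_cast m2))))
    have h3 : LNd δ r ≤ ENNReal.ofReal (ee / 2) :=
      (LNd_le_LN δ r).trans (hr.trans (ENNReal.ofReal_le_ofReal hρ2))
    refine (add_le_add (h1.trans (add_le_add le_rfl h2)) h3).trans ?_
    rw [add_assoc, ← ENNReal.ofReal_add (half_pos hee).le (half_pos hee).le, add_halves]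
  · refine (LI_add huv).trans ?_
    have h1 := LI_add (y := v) hS.cf
    have h2 : LI v ≤ ENNReal.ofReal (ee / 2) := by
      refine (LI_exp hc hNp hC.le hv).trans (ENNReal.ofReal_le_ofReal ?_)
      have h3 : C / c / (ee / 2) ≤ N := hN2'.trans (by exact_mod_cast m3)
      rw [div_le_iff₀ (by positivity), div_le_iff₀ hc] at h3
      rw [div_le_iff₀ (by positivity)]
      linarith
    have h3 : LI r ≤ ENNReal.ofReal (ee / 2) :=
      (LI_le_LN hrc).trans (hr.trans (ENNReal.ofReal_le_ofReal hρ2))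
    refine (add_le_add (h1.trans (add_le_add le_rfl h2)) h3).trans ?_
    rw [add_assoc, ← ENNReal.ofReal_add (half_pos hee).le (half_pos hee).le, add_halves]
  · have h1 : L2 (u + v) ≤ ENNReal.ofReal Y := by
      refine (L2_add_exp hS.cf hc hNp' hMu hC'.le hu hv2).trans ((add_le_add hL2 le_rfl).trans ?_)
      rw [← ENNReal.ofReal_add hM (by positivity)]
      apply ENNReal.ofReal_le_ofReal
      have h3 : 8 * Mu / C' ≤ N' := (hN3'.trans (by exact_mod_cast m4)).trans hNN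
      rw [div_le_iff₀ hC'] at h3
      have h4 : 2 * Mu * C' / (c * N') ≤ C' ^ 2 / (4 * c) := by
        rw [div_le_div_iff₀ (by positivity) (by positivity)]
        have : 0 ≤ C' * c := by positivity
        nlinarith
      rw [hYd]
      linarith
    refine (L2_add_small huv hrc hY hρ.le hρ1 h1 hr).trans (ENNReal.ofReal_le_ofReal ?_)
    rw [le_div_iff₀ (by positivity)] at hρ3
    rw [← hCd, ← hCd']
    have h5 : C' ^ 2 / c = C' ^ 2 / (2 * c) + C' ^ 2 / (4 * c) + C' ^ 2 / (4 * c) := by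
      field_simp
      ring
    rw [h5]
    linarith

/-- Initial data with a global solution which is small after time `dl`, small in `L¹((0,1); ℓ¹)`
and bounded in `L²(ℓ¹)`. -/
def Good2 (c dl ε M : ℝ) (V : K → C3) : Prop :=
  ∃ a : ℝ, 0 < a ∧ ∃ u : Fam, Sol c a V u ∧ LNd dl u ≤ ENNReal.ofReal ε ∧ LI u ≤ ENNReal.ofReal ε ∧
    L2 u ≤ ENNReal.ofReal M

lemma good2_zero (c dl ε : ℝ) : Good2 c dl ε 0 0 := by
  have hB : Bt 0 = 0 := by
    funext k t i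
    show Bf (at' 0 t) (at' 0 t) k i = 0
    simp [Bf, cv, at']
  have h0 : ∀ a t, NW (Wa a) (at' (0 : Fam) t) = 0 := fun a t => NW_zero _
  refine ⟨1, one_pos, 0, ⟨fun k => continuous_const, fun t => rfl, fun t k i => by simp [at'],
    ⟨fun _ => 0, by simp, fun k t => by simp⟩, ?_, ?_⟩, ?_, ?_, ?_⟩
  · simp [LN, h0]
  · intro k t
    rw [hB]
    simp [Duh]
  · have : LNd dl 0 = 0 := by
      unfold LNd LN
      simp [h0]
    rw [this]; exact zero_le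
  · unfold LI; simp [h0]
  · unfold L2; simp [h0]

structure NearW2 (c r dl : ℝ) (K0 : ℕ) (ε M : ℝ) (X W : K → C3) : Prop where
  fin : (Function.support W).Finite
  cut : ∀ k : K, (∀ i, |k i| ≤ K0) → W k = 0
  small : crit r W ≤ ENNReal.ofReal ε
  div : ∀ k, dt k (W k) = 0
  sym : Sym W
  good : Good2 c dl ε M (X + W)

lemma near2_zero {c r dl : ℝ} (hr : 0 < r) (K0 : ℕ) {ε : ℝ} : ∃ W, NearW2 c r dl K0 ε 0 0 W :=
  ⟨0, by simp, fun _ _ => rfl, by rw [crit_zero hr]; exact zero_le, fun k => by simp [dt],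
    fun k i => by simp, by rw [add_zero]; exact good2_zero c dl ε⟩

lemma NearW2.mono {c r dl ε ε' M M' : ℝ} {K0 : ℕ} {X W : K → C3} (hε : ε ≤ ε') (hM : M ≤ M')
    (h : NearW2 c r dl K0 ε M X W) : NearW2 c r dl K0 ε' M' X W := by
  refine ⟨h.fin, h.cut, h.small.trans (ENNReal.ofReal_le_ofReal hε), h.div, h.sym, ?_⟩
  obtain ⟨a, ha, u, hu, hLd, hLi, hL2⟩ := h.good
  exact ⟨a, ha, u, hu, hLd.trans (ENNReal.ofReal_le_ofReal hε), hLi.trans (ENNReal.ofReal_le_ofReal hε),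
    hL2.trans (ENNReal.ofReal_le_ofReal hM)⟩

lemma near2_add1 {c r dl δ M : ℝ} (hc : 0 < c) (hr : 1 ≤ r) (hdl : 0 < dl) (hδ : 0 ≤ δ) (hM : 0 ≤ M)
    {K0 : ℕ} {X : K → C3}
    (h : ∃ W, NearW2 c r dl K0 δ M X W) (hG : Geo q cc η) (γ : ℂ) {t : ℝ} (ht : 0 < t) :
    ∃ W, NearW2 c r dl K0 (δ + (4 * (t * ‖cK q‖ + c * ‖γ‖ / (Real.pi * sq q * t) * ‖cK cc‖)) ^ r)
      (M + (4 * (t * ‖cK q‖ + c * ‖γ‖ / (Real.pi * sq q * t) * ‖cK cc‖) + 4 * (‖γ‖ * ‖cK cc‖)) ^ 2 / c)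
      (X + E0 q cc γ) W := by
  have hQ := sq_pos hG.hq
  have hsη := sq_pos hG.hη
  have hnη : 0 < nk η := nk_pos' hG.hη
  have hnη1 : 1 ≤ nk η := by
    unfold nk
    exact Real.one_le_sqrt.2 (one_le_sq hG.hη)
  have hpi := Real.pi_pos
  have hlm : 0 < nk η * t := mul_pos hnη ht
  have hqn : 0 < ‖cK q‖ := by
    rw [norm_pos_iff]
    intro h0
    apply hG.hq
    funext i
    have := congrFun h0 i
    simpa [cK] using this
  obtain ⟨κ1, hκ1d⟩ : ∃ κ1, κ1 = 4 * (t * ‖cK q‖ + c * ‖γ‖ / (Real.pi * sq q * t) * ‖cK cc‖) := ⟨_, rfl⟩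
  have hκ1 : 0 < κ1 := by rw [hκ1d]; positivity
  obtain ⟨κ, hκd⟩ : ∃ κ, κ = κ1 ^ r := ⟨_, rfl⟩
  have hκ : 0 < κ := by rw [hκd]; positivity
  obtain ⟨W, hW⟩ := h
  obtain ⟨a, ha, u, hu, hLd, hLi, hL2⟩ := hW.good
  obtain ⟨N0, hN0⟩ := step2 hc ha hlm hdl hκ hM hG γ hu hL2
  -- the support of `W`
  obtain ⟨J, hJ⟩ : ∃ J : ℕ, ∀ k, (4 : ℝ) ^ J ≤ sq k → W k = 0 := by
    obtain ⟨B, hB⟩ := (hW.fin.image sq).bddAbove
    obtain ⟨J, hJ⟩ := pow_unbounded_of_one_lt B (by norm_num : (1 : ℝ) < 4)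
    refine ⟨J, fun k hk => ?_⟩
    by_contra hne
    have := hB (mem_image_of_mem sq (show k ∈ Function.support W from hne))
    linarith
  set N := max (max N0 (2 ^ J)) (2 * K0 + 1)
  have h0 : N0 ≤ N := (le_max_left _ _).trans (le_max_left _ _)
  have h1 : 2 ^ J ≤ N := (le_max_right _ _).trans (le_max_left _ _)
  have h2 : 2 * K0 < N := lt_of_lt_of_le (by omega) (le_max_right _ _)
  have hN1 : 1 ≤ N := by omega
  have hNJ : (4 : ℝ) ^ J ≤ (N : ℝ) ^ 2 := by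
    have h3 : ((2 : ℝ) ^ J) ≤ N := by exact_mod_cast h1
    calc (4 : ℝ) ^ J = (2 ^ J) ^ 2 := by rw [← pow_mul, mul_comm, pow_mul]; norm_num
      _ ≤ _ := pow_le_pow_left₀ (by positivity) h3 2
  obtain ⟨a', ha', u', hu', hLd', hLi', hL2'⟩ := hN0 N h0
  rw [← hκ1d, ← hκd]
  have hCv : Cv c q cc η γ (nk η * t) / nk η ≤ κ1 + 4 * (‖γ‖ * ‖cK cc‖) := by
    rw [div_le_iff₀ hnη]
    have e1 : Cv c q cc η γ (nk η * t) = κ1 * nk η + 4 * (‖γ‖ * ‖cK cc‖) := by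
      unfold Cv
      rw [hκ1d, ← nk_sq' η]
      field_simp
    rw [e1, add_mul]
    have h3 : 0 ≤ 4 * (‖γ‖ * ‖cK cc‖) := by positivity
    have := le_mul_of_one_le_right h3 hnη1
    linarith
  have hCv0 : 0 < Cv c q cc η γ (nk η * t) / nk η := div_pos (Cv_pos hc hG γ hlm) hnη
  refine ⟨W + W0 c q cc η γ (nk η * t) N, supp_add hW.fin (W0_fin c γ _ N), fun k hk => ?_, ?_,
    fun k => ?_, hW.sym.add (W0_sym c q cc η γ _ N), a', ha', u', ?_, ?_, ?_,
    hL2'.trans (ENNReal.ofReal_le_ofReal ?_)⟩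
  · rw [Pi.add_apply, hW.cut k hk, W0_cut hG c γ _ h2 hk, add_zero]
  · rw [crit_add (by linarith) hJ fun k hk => W0_cut' hG c γ _ (hk.trans_le hNJ),
      ENNReal.ofReal_add hδ hκ.le]
    have h5 := W0_critE hc ht hG γ hr hN1
    rw [← hκ1d, ← hκd] at h5
    exact add_le_add hW.small h5
  · rw [Pi.add_apply, dt_add, hW.div, W0_div hG, add_zero]
  · have : X + E0 q cc γ + (W + W0 c q cc η γ (nk η * t) N)
        = X + W + (E0 q cc γ + W0 c q cc η γ (nk η * t) N) := by abel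
    rw [this]; exact hu'
  · rw [ENNReal.ofReal_add hδ hκ.le]
    exact hLd'.trans (add_le_add hLd le_rfl)
  · rw [ENNReal.ofReal_add hδ hκ.le]
    exact hLi'.trans (add_le_add hLi le_rfl)
  · have h5 := pow_le_pow_left₀ hCv0.le hCv 2
    have := div_le_div_of_nonneg_right h5 hc.le
    linarith

lemma near2_iter {c r dl δ M : ℝ} (hc : 0 < c) (hr : 1 ≤ r) (hdl : 0 < dl) (hδ : 0 ≤ δ) (hM : 0 ≤ M)
    {K0 : ℕ} {X : K → C3}
    (h : ∃ W, NearW2 c r dl K0 δ M X W) (hG : Geo q cc η) (γ : ℂ) {t : ℝ} (ht : 0 < t) (n : ℕ) :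
    ∃ W, NearW2 c r dl K0
      (δ + n * (4 * (t * ‖cK q‖ + c * ‖γ‖ / (Real.pi * sq q * t) * ‖cK cc‖)) ^ r)
      (M + n * ((4 * (t * ‖cK q‖ + c * ‖γ‖ / (Real.pi * sq q * t) * ‖cK cc‖) + 4 * (‖γ‖ * ‖cK cc‖)) ^ 2 / c))
      (X + E0 q cc (n * γ)) W := by
  have hQ := sq_pos hG.hq
  have hsη := sq_pos hG.hη
  have hpi := Real.pi_pos
  induction n with
  | zero => simpa [E0_zero] using h
  | succ n ih =>
    have h1 := near2_add1 hc hr hdl (by positivity) (by positivity) ih hG γ ht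
    have e1 : E0 q cc ((n + 1 : ℕ) * γ) = E0 q cc (n * γ) + E0 q cc γ := by
      rw [← E0_add]; congr 1; push_cast; ring
    rw [e1, ← add_assoc X]
    push_cast
    rw [add_mul, one_mul, ← add_assoc, add_mul, one_mul, ← add_assoc]
    exact h1

lemma near2_add {c r dl M : ℝ} (hc : 0 < c) (hr : 2 < r) (hdl : 0 < dl) (hM : 0 ≤ M) {K0 : ℕ}
    {X : K → C3} (h : ∀ ε : ℝ, 0 < ε → ∃ W, NearW2 c r dl K0 ε (M + ε) X W) (hG : Geo q cc η) (γ : ℂ)
    {m : ℝ} (hm : 64 * c / (Real.pi * nk q) * (‖γ‖ * ‖cK cc‖) ≤ m) (ε : ℝ) (hε : 0 < ε) :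
    ∃ W, NearW2 c r dl K0 ε (M + m / c + ε) (X + E0 q cc γ) W := by
  have hQ := sq_pos hG.hq
  have hnq := nk_pos' hG.hq
  have hsη := sq_pos hG.hη
  have hpi := Real.pi_pos
  by_cases hγ : γ = 0
  · subst hγ
    obtain ⟨W, hW⟩ := h ε hε
    rw [E0_zero, add_zero]
    refine ⟨W, hW.mono le_rfl ?_⟩
    have h1 : (0 : ℝ) ≤ 64 * c / (Real.pi * nk q) * (‖(0 : ℂ)‖ * ‖cK cc‖) := by positivity
    have h2 : 0 ≤ m / c := div_nonneg (h1.trans hm) hc.le
    linarith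
  have hγn : 0 < ‖γ‖ := norm_pos_iff.2 hγ
  have hcn : 0 < ‖cK cc‖ := by
    rw [norm_pos_iff]
    intro h0
    apply hG.hc
    funext i
    have := congrFun h0 i
    simpa [cK] using this
  set R2 := c * ‖γ‖ * ‖cK cc‖ / (Real.pi * nk q)
  have hR2 : 0 < R2 := by positivity
  set R := Real.sqrt R2
  have hR : 0 < R := Real.sqrt_pos.2 hR2
  have hRR : R * R = R2 := Real.mul_self_sqrt hR2.le
  set t0 := R / nk q
  have ht0 : 0 < t0 := by positivity
  set C := 4 * (t0 * ‖cK q‖ + c * ‖γ‖ / (Real.pi * sq q * t0) * ‖cK cc‖)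
  have hC : 0 ≤ C := by positivity
  have hCR : C ≤ 8 * R := by
    have h1 : t0 * ‖cK q‖ ≤ R := by
      calc t0 * ‖cK q‖ ≤ t0 * nk q := mul_le_mul_of_nonneg_left (norm_cK_le q) ht0.le
        _ = R := by simp only [t0]; field_simp
    have h2 : c * ‖γ‖ / (Real.pi * sq q * t0) * ‖cK cc‖ = R := by
      have h3 : c * ‖γ‖ / (Real.pi * sq q * t0) * ‖cK cc‖ = R2 / R := by
        simp only [t0, R2]
        rw [← nk_sq' q]
        field_simp
      rw [h3, ← hRR]; field_simp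
    simp only [C]
    rw [h2]; linarith
  have hCm : C ^ 2 ≤ m := by
    calc C ^ 2 ≤ (8 * R) ^ 2 := by gcongr
      _ = 64 * R2 := by rw [← hRR]; ring
      _ = 64 * c / (Real.pi * nk q) * (‖γ‖ * ‖cK cc‖) := by simp only [R2]; ring
      _ ≤ m := hm
  obtain ⟨b, hbd⟩ : ∃ b, b = 4 * (‖γ‖ * ‖cK cc‖) := ⟨_, rfl⟩
  have hb0 : 0 ≤ b := by rw [hbd]; positivity
  have hlim : Tendsto (fun n : ℕ => C ^ r * (n : ℝ) ^ (-(r / 2 - 1))) atTop (𝓝 0) := by
    have h1 := (tendsto_rpow_neg_atTop (by linarith : 0 < r / 2 - 1)).comp tendsto_natCast_atTop_atTop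
    simpa using h1.const_mul (C ^ r)
  have hlim2 : Tendsto (fun n : ℕ => (C + b * (n : ℝ) ^ (-(1 / 2 : ℝ))) ^ 2 / c) atTop (𝓝 (C ^ 2 / c)) := by
    have h1 := (tendsto_rpow_neg_atTop (by norm_num : (0 : ℝ) < 1 / 2)).comp tendsto_natCast_atTop_atTop
    have h2 : Tendsto (fun n : ℕ => C + b * (n : ℝ) ^ (-(1 / 2 : ℝ))) atTop (𝓝 (C + b * 0)) :=
      (h1.const_mul b).const_add C
    rw [mul_zero, add_zero] at h2
    exact (h2.pow 2).div_const c
  obtain ⟨n0, hn0⟩ := (Filter.eventually_atTop.1 ((hlim.eventually (gt_mem_nhds (half_pos hε))).and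
    (hlim2.eventually (gt_mem_nhds (show C ^ 2 / c < C ^ 2 / c + ε / 2 by linarith)))))
  set n := max 1 n0
  have hn1 : 1 ≤ n := le_max_left _ _
  have hnp : (0 : ℝ) < n := by exact_mod_cast hn1
  obtain ⟨hlt', hlt2'⟩ := hn0 n (le_max_right _ _)
  have hlt := hlt'.le
  set t := t0 / Real.sqrt n
  have hsn : 0 < Real.sqrt n := Real.sqrt_pos.2 hnp
  have ht : 0 < t := by positivity
  have h1 := near2_iter hc (by linarith : (1 : ℝ) ≤ r) hdl (half_pos hε).le (by positivity)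
    (h (ε / 2) (half_pos hε)) hG (γ / n) ht n
  have e1 : (n : ℂ) * (γ / n) = γ := by
    have : (n : ℂ) ≠ 0 := by exact_mod_cast hnp.ne'
    field_simp
  rw [e1] at h1
  obtain ⟨W, hW⟩ := h1
  have e2 : 4 * (t * ‖cK q‖ + c * ‖γ / (n : ℂ)‖ / (Real.pi * sq q * t) * ‖cK cc‖)
      = C * (n : ℝ) ^ (-(1 / 2 : ℝ)) := by
    rw [Real.rpow_neg hnp.le, ← Real.sqrt_eq_rpow, norm_div, Complex.norm_natCast]
    have e4 : c * (‖γ‖ / (n : ℝ)) / (Real.pi * sq q * t) * ‖cK cc‖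
        = c * ‖γ‖ / (Real.pi * sq q * t0) * ‖cK cc‖ * (Real.sqrt n)⁻¹ := by
      simp only [t]
      field_simp
      rw [Real.sq_sqrt hnp.le]
    rw [e4]
    simp only [C, t]
    ring
  have e3 : 4 * (‖γ / (n : ℂ)‖ * ‖cK cc‖) = b * (n : ℝ) ^ (-(1 / 2 : ℝ)) * (n : ℝ) ^ (-(1 / 2 : ℝ)) := by
    rw [norm_div, Complex.norm_natCast, mul_assoc, ← Real.rpow_add hnp, hbd]
    rw [show (-(1 / 2 : ℝ) + -(1 / 2)) = -1 by norm_num, Real.rpow_neg_one]
    ring
  rw [e2, e3] at hW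
  have e5 : (n : ℝ) * (C * (n : ℝ) ^ (-(1 / 2 : ℝ))) ^ r = C ^ r * (n : ℝ) ^ (-(r / 2 - 1)) := by
    rw [Real.mul_rpow hC (Real.rpow_nonneg hnp.le _), ← Real.rpow_mul hnp.le]
    rw [show -(r / 2 - 1) = 1 + (-(1 / 2 : ℝ) * r) by ring, Real.rpow_add hnp, Real.rpow_one]
    ring
  have e6 : (n : ℝ) * ((C * (n : ℝ) ^ (-(1 / 2 : ℝ)) + b * (n : ℝ) ^ (-(1 / 2 : ℝ)) * (n : ℝ) ^ (-(1 / 2 : ℝ))) ^ 2 / c)
      = (C + b * (n : ℝ) ^ (-(1 / 2 : ℝ))) ^ 2 / c := by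
    have e7 : (n : ℝ) * ((n : ℝ) ^ (-(1 / 2 : ℝ))) ^ 2 = 1 := by
      rw [← Real.rpow_natCast ((n : ℝ) ^ (-(1 / 2 : ℝ))) 2, ← Real.rpow_mul hnp.le]
      rw [show (-(1 / 2 : ℝ) * ((2 : ℕ) : ℝ)) = -1 by norm_num, Real.rpow_neg_one]
      field_simp
    calc (n : ℝ) * ((C * (n : ℝ) ^ (-(1 / 2 : ℝ)) + b * (n : ℝ) ^ (-(1 / 2 : ℝ)) * (n : ℝ) ^ (-(1 / 2 : ℝ))) ^ 2 / c)
        = ((n : ℝ) * ((n : ℝ) ^ (-(1 / 2 : ℝ))) ^ 2) * ((C + b * (n : ℝ) ^ (-(1 / 2 : ℝ))) ^ 2 / c) := by ring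
      _ = _ := by rw [e7, one_mul]
  rw [e5, e6] at hW
  refine ⟨W, hW.mono (by linarith) ?_⟩
  have h5 : C ^ 2 / c ≤ m / c := div_le_div_of_nonneg_right hCm hc.le
  linarith

theorem near2_target {c r : ℝ} (hc : 0 < c) (hr : 2 < r) (K0 : ℕ) {V0 : K → C3}
    (hfin : (Function.support V0).Finite) (h0 : V0 0 = 0) (hdiv : ∀ k, dt k (V0 k) = 0)
    (hsym : Sym V0) : ∀ dl : ℝ, 0 < dl → ∀ ε : ℝ, 0 < ε → ∃ W, NearW2 c r dl K0 ε
      ((∑ q ∈ hfin.toFinset, 128 / Real.pi * (1 / nk q * ‖V0 q‖)) + ε) V0 W := by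
  classical
  have hpi := Real.pi_pos
  have hP : ∀ q : K, ∃ (d : K) (γ1 γ2 : ℂ), q ≠ 0 → d ≠ 0 ∧ ip q d = 0 ∧
      (1 / 2 : ℂ) • V0 q = γ1 • cK d + γ2 • cK (crs q d) := by
    intro q
    by_cases hq : q = 0
    · exact ⟨0, 0, 0, fun h => absurd hq h⟩
    · obtain ⟨d, hd, hqd⟩ := exists_perp hq
      have hv : dt q ((1 / 2 : ℂ) • V0 q) = 0 := by rw [dt_smul', hdiv, mul_zero]
      obtain ⟨γ1, γ2, h⟩ := decomp hq hd hqd hv
      exact ⟨d, γ1, γ2, fun _ => ⟨hd, hqd, h⟩⟩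
  choose d γ1 γ2 hP using hP
  set P : K → K → C3 := fun q => E0 q (d q) (γ1 q) + E0 q (crs q (d q)) (γ2 q)
  have hnear : ∀ T : Finset K, (∀ q ∈ T, q ≠ 0) → ∀ dl : ℝ, 0 < dl → ∀ ε : ℝ, 0 < ε →
      ∃ W, NearW2 c r dl K0 ε
      ((∑ q ∈ T, 128 / Real.pi * (1 / nk q * ‖V0 q‖)) + ε) (∑ q ∈ T, P q) W := by
    intro T
    induction T using Finset.induction_on with
    | empty =>
      intro _ dl _ ε hε
      rw [Finset.sum_empty, Finset.sum_empty, zero_add]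
      obtain ⟨W, hW⟩ := near2_zero (c := c) (dl := dl) (by linarith : 0 < r) K0 (ε := ε)
      exact ⟨W, hW.mono le_rfl hε.le⟩
    | insert q T hqT ih =>
      intro hT dl hdl
      have hq := hT q (Finset.mem_insert_self _ _)
      have hnq := nk_pos' hq
      have ih' := ih (fun q' h' => hT q' (Finset.mem_insert_of_mem h')) dl hdl
      obtain ⟨hd, hqd, hdec⟩ := hP q hq
      have g1 := geo_crs hq hd hqd
      have hqc : ip q (crs q (d q)) = 0 := by rw [ip_comm]; exact g1.ηq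
      have g2 := geo_crs hq g1.hη hqc
      have hM0 : 0 ≤ ∑ q ∈ T, 128 / Real.pi * (1 / nk q * ‖V0 q‖) :=
        Finset.sum_nonneg fun q _ => by
          have := nk_nonneg q
          positivity
      -- the sizes of the coefficients
      have hn : ‖(1 / 2 : ℂ) • V0 q‖ = ‖V0 q‖ / 2 := by
        rw [norm_smul]; norm_num; ring
      have c1 : ‖γ1 q‖ * ‖cK (d q)‖ ≤ 2 * (‖V0 q‖ / 2) := by
        rw [← hn]
        apply coef_le hd
        rw [hdec, dt_add, dt_smul, dt_smul, ip_comm (d q) (crs q (d q)), g1.ηc]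
        simp
      have c2 : ‖γ2 q‖ * ‖cK (crs q (d q))‖ ≤ 2 * (‖V0 q‖ / 2) := by
        rw [← hn]
        apply coef_le g1.hη
        rw [hdec, dt_add, dt_smul, dt_smul, g1.ηc]
        simp
      have b : ∀ {x : ℝ}, x ≤ 2 * (‖V0 q‖ / 2) →
          64 * c / (Real.pi * nk q) * x ≤ 64 * c / (Real.pi * nk q) * ‖V0 q‖ := by
        intro x hx
        apply mul_le_mul_of_nonneg_left _ (by positivity)
        linarith
      have h1 := near2_add hc hr hdl hM0 ih' g1 (γ1 q) (b c1)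
      have h2 := near2_add hc hr hdl (by positivity) h1 g2 (γ2 q) (b c2)
      have e : P q + ∑ x ∈ T, P x = ∑ x ∈ T, P x + E0 q (d q) (γ1 q) + E0 q (crs q (d q)) (γ2 q) := by
        simp only [P]; abel
      intro ε hε
      rw [Finset.sum_insert hqT, Finset.sum_insert hqT, e]
      obtain ⟨W, hW⟩ := h2 ε hε
      refine ⟨W, hW.mono le_rfl (le_of_eq ?_)⟩
      generalize ∑ q ∈ T, 128 / Real.pi * (1 / nk q * ‖V0 q‖) = S
      field_simp
      ring
  set S := hfin.toFinset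
  have hS0 : ∀ q ∈ S, q ≠ 0 := by
    intro q hq h
    rw [Set.Finite.mem_toFinset, Function.mem_support, h] at hq
    exact hq h0
  have hPq : ∀ q, q ≠ 0 → P q = Sg q ((1 / 2 : ℂ) • V0 q) + Sg (-q) ((1 / 2 : ℂ) • V0 (-q)) := by
    intro q hq
    obtain ⟨-, -, h⟩ := hP q hq
    have h' : (1 / 2 : ℂ) • V0 (-q) = star (γ1 q) • cK (d q) + star (γ2 q) • cK (crs q (d q)) := by
      funext i
      have h1 := congrFun h i
      simp only [Pi.smul_apply, Pi.add_apply, smul_eq_mul] at h1 ⊢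
      rw [hsym q i]
      have h2 := congrArg star h1
      simp only [star_mul', star_add] at h2
      have h3 : star (1 / 2 : ℂ) = 1 / 2 := by simp
      have h4 : ∀ l : K, star (cK l i) = cK l i := by intro l; simp [cK]
      rw [h3, h4, h4] at h2
      exact h2
    simp only [P]
    rw [h, h', Sg_add, Sg_add]
    unfold E0
    abel
  have hsum : ∑ q ∈ S, P q = V0 := by
    rw [Finset.sum_congr rfl fun q hq => hPq q (hS0 q hq), Finset.sum_add_distrib]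
    funext k
    rw [Pi.add_apply, Finset.sum_apply, Finset.sum_apply]
    have mem : ∀ k, k ∉ S → V0 k = 0 := by
      intro k hk
      by_contra h
      exact hk (by rw [Set.Finite.mem_toFinset]; exact h)
    have h1 : ∑ q ∈ S, Sg q ((1 / 2 : ℂ) • V0 q) k = (1 / 2 : ℂ) • V0 k := by
      unfold Sg
      rw [Finset.sum_ite_eq]
      split_ifs with h
      · rfl
      · rw [mem k h, smul_zero]
    have h2 : ∑ q ∈ S, Sg (-q) ((1 / 2 : ℂ) • V0 (-q)) k = (1 / 2 : ℂ) • V0 k := by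
      unfold Sg
      have e : ∀ q, (if k = -q then (1 / 2 : ℂ) • V0 (-q) else 0)
          = if -k = q then (1 / 2 : ℂ) • V0 k else 0 := by
        intro q
        by_cases h : k = -q
        · rw [if_pos h, if_pos (by rw [h, neg_neg]), h]
        · rw [if_neg h, if_neg (fun h' => h (by rw [← h', neg_neg]))]
      simp only [e]
      rw [Finset.sum_ite_eq]
      split_ifs with h
      · rfl
      · have h3 := mem _ h
        have h4 : V0 k = 0 := by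
          funext i
          have := hsym k i
          rw [h3] at this
          simp only [Pi.zero_apply] at this ⊢
          exact (star_eq_zero.1 this.symm)
        rw [h4, smul_zero]
    rw [h1, h2, ← add_smul]
    norm_num
  intro dl hdl ε hε
  have := hnear S hS0 dl hdl ε hε
  rwa [hsum] at this

end Pool.Agent.H356R3.NS.H3
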