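import Pool.Agent.H3NS.Helm

set_option autoImplicit false
set_option maxHeartbeats 4000000
set_option synthInstance.maxHeartbeats 400000

open MeasureTheory Set Filter Topology
open scoped ENNReal NNReal ContDiff

namespace Pool.Agent.H3NS

open Pool.Agent.H356R3.NS

/-- Fourier coefficients of scalar functions -/
noncomputable def sc (h : R3 → ℝ) (k : K) : ℂ := ∫ x in Q3, (h x : ℂ) * ex (-k) x

lemma fc_sc (v : R3 → R3) (k : K) (i : Fin 3) : fc v k i = sc (fun x => v x i) k := fc_eq v k i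

lemma sc_int {h : R3 → ℝ} (hh : Continuous h) (k : K) :
    Integrable (fun x => (h x : ℂ) * ex k x) (volume.restrict Q3) := by
  have : Continuous fun x => (h x : ℂ) * ex k x := (Complex.continuous_ofReal.comp hh).mul (ex_cont _)
  exact this.continuousOn.integrableOn_compact isCompact_Icc

lemma sc_pd {h : R3 → ℝ} (hh : ContDiff ℝ ∞ h) (hp : Pe h) (k : K) (j : Fin 3) :
    sc (fun x => pd j h x) k = fj k j * sc h k := by
  have h1 : ContDiff ℝ 1 (fun (x : R3) (_ : Fin 3) => h x) := contDiff_pi.2 fun _ => hh.of_le (by simp)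
  have h2 := fc_deriv h1 (fun x j => funext fun _ => hp x j) k 0 j
  rw [fc_sc] at h2
  exact h2

lemma sc_sum {ι : Type*} (s : Finset ι) {h : ι → R3 → ℝ} (hh : ∀ i ∈ s, Continuous (h i)) (k : K) :
    sc (fun x => ∑ i ∈ s, h i x) k = ∑ i ∈ s, sc (h i) k := by
  unfold sc
  rw [← integral_finsetSum _ fun i hi => sc_int (hh i hi) (-k)]
  refine integral_congr_ae (Filter.Eventually.of_forall fun x => ?_)
  simp only
  rw [← Finset.sum_mul]
  push_cast
  rfl

lemma sc_add {g h : R3 → ℝ} (hg : Continuous g) (hh : Continuous h) (k : K) :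
    sc (fun x => g x + h x) k = sc g k + sc h k := by
  unfold sc
  rw [← integral_add (sc_int hg _) (sc_int hh _)]
  refine integral_congr_ae (Filter.Eventually.of_forall fun x => ?_)
  simp only
  push_cast
  ring

lemma tp_complex (S : Finset K) (b : K → ℂ) (x : R3) :
    ((tp S b x : ℝ) : ℂ) = (1 / 2) * ∑ l ∈ S, (b l * ex l x + star (b l) * ex (-l) x) := by
  unfold tp
  have h1 : (((∑ k ∈ S, b k * ex k x).re : ℝ) : ℂ)
      = (∑ k ∈ S, b k * ex k x + star (∑ k ∈ S, b k * ex k x)) / 2 := by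
    rw [Complex.star_def, Complex.re_eq_add_conj]
  rw [h1, star_sum, ← Finset.sum_add_distrib, div_eq_mul_inv, mul_comm]
  congr 1
  · norm_num
  · refine Finset.sum_congr rfl fun l _ => ?_
    rw [star_mul', ex_neg]

lemma sc_tp_mul (S : Finset K) (b : K → ℂ) {h : R3 → ℝ} (hh : Continuous h) (k : K) :
    sc (fun x => tp S b x * h x) k
      = (1 / 2) * ∑ l ∈ S, (b l * sc h (k - l) + star (b l) * sc h (k + l)) := by
  unfold sc
  have e : ∀ x, ((tp S b x * h x : ℝ) : ℂ) * ex (-k) x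
      = (1 / 2) * ∑ l ∈ S, (b l * ((h x : ℂ) * ex (-(k - l)) x) + star (b l) * ((h x : ℂ) * ex (-(k + l)) x)) := by
    intro x
    push_cast
    rw [tp_complex, mul_assoc, mul_assoc, Finset.sum_mul]
    congr 1
    refine Finset.sum_congr rfl fun l _ => ?_
    have e1 : ex (-(k - l)) x = ex l x * ex (-k) x := by
      rw [← ex_add]
      congr 1
      abel
    have e2 : ex (-(k + l)) x = ex (-l) x * ex (-k) x := by
      rw [← ex_add]
      congr 1
      abel
    rw [e1, e2]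
    ring
  simp only [e]
  rw [integral_const_mul, integral_finsetSum]
  · congr 1
    refine Finset.sum_congr rfl fun l _ => ?_
    rw [integral_add ((sc_int hh _).const_mul _) ((sc_int hh _).const_mul _), integral_const_mul,
      integral_const_mul]
  · intro l _
    exact ((sc_int hh _).const_mul _).add ((sc_int hh _).const_mul _)

lemma sc_tp_le (S : Finset K) (b : K → ℂ) {h : R3 → ℝ} (hh : Continuous h) (k : K) :
    ‖sc (fun x => tp S b x * h x) k‖ₑ ≤ ∑ l ∈ S, ‖b l‖ₑ * (‖sc h (k - l)‖ₑ + ‖sc h (k + l)‖ₑ) := by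
  rw [sc_tp_mul S b hh, enorm_mul]
  have h1 : ‖(1 / 2 : ℂ)‖ₑ ≤ 1 := by
    rw [← ofReal_norm, ENNReal.ofReal_le_one]
    norm_num
  refine (mul_le_mul' h1 (enorm_sum_le _ _)).trans ?_
  rw [one_mul]
  refine Finset.sum_le_sum fun l _ => ?_
  refine (enorm_add_le _ _).trans ?_
  rw [enorm_mul, enorm_mul, mul_add]
  refine add_le_add le_rfl (mul_le_mul' (le_of_eq ?_) le_rfl)
  rw [← ofReal_norm, norm_star, ofReal_norm]

lemma tsum_sc_tp_le (S : Finset K) (b : K → ℂ) {h : R3 → ℝ} (hh : Continuous h) :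
    ∑' k, ‖sc (fun x => tp S b x * h x) k‖ₑ ≤ (∑ l ∈ S, ‖b l‖ₑ) * (2 * ∑' k, ‖sc h k‖ₑ) := by
  refine (ENNReal.tsum_le_tsum fun k => sc_tp_le S b hh k).trans ?_
  rw [Summable.tsum_finsetSum (fun _ _ => ENNReal.summable), Finset.sum_mul]
  refine Finset.sum_le_sum fun l _ => ?_
  rw [ENNReal.tsum_mul_left, ENNReal.tsum_add]
  have e1 : ∑' k, ‖sc h (k - l)‖ₑ = ∑' k, ‖sc h k‖ₑ :=
    (Equiv.subRight l).tsum_eq (fun k => ‖sc h k‖ₑ)
  have e2 : ∑' k, ‖sc h (k + l)‖ₑ = ∑' k, ‖sc h k‖ₑ :=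
    (Equiv.addRight l).tsum_eq (fun k => ‖sc h k‖ₑ)
  rw [e1, e2, two_mul]

lemma critNorm_le {r : ℝ} (hr : 1 ≤ r) (a : K → C3) :
    critNorm r a ≤ 2 * ∑' k, ENNReal.ofReal (1 / nk k) * ‖a k‖ₑ := by
  rw [critNorm_eq]
  calc crit r a ^ (1 / r) ≤ ((2 * ∑' k, ENNReal.ofReal (1 / nk k) * ‖a k‖ₑ) ^ r) ^ (1 / r) :=
        ENNReal.rpow_le_rpow (crit_le hr _) (by positivity)
    _ = _ := by rw [← ENNReal.rpow_mul, mul_one_div_cancel (by linarith), ENNReal.rpow_one]

lemma pd_mul' {g h : R3 → ℝ} (hg : ContDiff ℝ ∞ g) (hh : ContDiff ℝ ∞ h) (j : Fin 3) (x : R3) :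
    pd j (fun y => g y * h y) x = pd j g x * h x + g x * pd j h x := by
  unfold pd
  rw [fderiv_fun_mul (hg.differentiable (by simp) x) (hh.differentiable (by simp) x)]
  simp only [add_apply, smul_apply, smul_eq_mul]
  ring

/-- the cost of the divergence of a tensor field -/
lemma cost_div {r : ℝ} (hr : 1 ≤ r) {h : Fin 3 → Fin 3 → R3 → ℝ} (hh : ∀ i j, ContDiff ℝ ∞ (h i j))
    (hp : ∀ i j, Pe (h i j)) {A : ℝ≥0∞} (hA : ∀ i j, ∑' k, ‖sc (h i j) k‖ₑ ≤ A) :
    cost r (fun x i => ∑ j, pd j (h i j) x) ≤ ENNReal.ofReal (36 * Real.pi) * A := by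
  have hpi := Real.pi_pos
  have hfc : ∀ k i, fc (fun x i => ∑ j, pd j (h i j) x) k i = ∑ j, fj k j * sc (h i j) k := by
    intro k i
    rw [fc_sc, sc_sum Finset.univ (h := fun j x => pd j (h i j) x)
      (fun j _ => (pd_smooth (hh i j) j).continuous)]
    refine Finset.sum_congr rfl fun j _ => ?_
    rw [sc_pd (hh i j) (hp i j)]
  have h0 : fc (fun x i => ∑ j, pd j (h i j) x) 0 = 0 := by
    funext i
    rw [hfc]
    simp [fj]
  have hfj : ∀ k j, ENNReal.ofReal (1 / nk k) * ‖fj k j‖ₑ ≤ ENNReal.ofReal (2 * Real.pi) := by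
    intro k j
    rw [← ofReal_norm, ← ENNReal.ofReal_mul (one_div_nonneg.2 (nk_nonneg k))]
    apply ENNReal.ofReal_le_ofReal
    unfold fj
    rw [norm_mul, norm_mul, norm_mul, Complex.norm_I, Complex.norm_intCast, Complex.norm_real]
    simp only [Complex.norm_ofNat, Real.norm_eq_abs, abs_of_pos Real.pi_pos, mul_one]
    have h1 := abs_le_nk k j
    by_cases hk : k = 0
    · subst hk
      rw [nk_zero]
      simp
      positivity
    · have hn := nk_pos hk
      have h2 : 1 / nk k * |(k j : ℝ)| ≤ 1 := by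
        rw [one_div_mul_eq_div, div_le_one hn]
        exact h1
      calc 1 / nk k * (2 * Real.pi * |(k j : ℝ)|) = 2 * Real.pi * (1 / nk k * |(k j : ℝ)|) := by ring
        _ ≤ 2 * Real.pi * 1 := by gcongr
        _ = _ := by ring
  unfold cost
  rw [h0, enorm_zero, zero_add]
  refine (critNorm_le hr _).trans ?_
  have h1 : ∀ k, ENNReal.ofReal (1 / nk k) * ‖fc (fun x i => ∑ j, pd j (h i j) x) k‖ₑ
      ≤ ∑ i, ∑ j, ENNReal.ofReal (2 * Real.pi) * ‖sc (h i j) k‖ₑ := by
    intro k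
    have h2 : ‖fc (fun x i => ∑ j, pd j (h i j) x) k‖ₑ
        ≤ ∑ i, ‖fc (fun x i => ∑ j, pd j (h i j) x) k i‖ₑ := by
      refine enorm_pi_le fun i => ?_
      exact Finset.single_le_sum (f := fun i => ‖fc (fun x i => ∑ j, pd j (h i j) x) k i‖ₑ)
        (fun _ _ => zero_le) (Finset.mem_univ i)
    refine (mul_le_mul' le_rfl h2).trans ?_
    rw [Finset.mul_sum]
    refine Finset.sum_le_sum fun i _ => ?_
    rw [hfc]
    refine (mul_le_mul' le_rfl (enorm_sum_le _ _)).trans ?_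
    rw [Finset.mul_sum]
    refine Finset.sum_le_sum fun j _ => ?_
    rw [enorm_mul, ← mul_assoc]
    exact mul_le_mul' (hfj k j) le_rfl
  have h3 : ∑' k, ENNReal.ofReal (1 / nk k) * ‖fc (fun x i => ∑ j, pd j (h i j) x) k‖ₑ
      ≤ ∑ i : Fin 3, ∑ j : Fin 3, ENNReal.ofReal (2 * Real.pi) * A := by
    refine (ENNReal.tsum_le_tsum h1).trans ?_
    rw [Summable.tsum_finsetSum (fun _ _ => ENNReal.summable)]
    refine Finset.sum_le_sum fun i _ => ?_
    rw [Summable.tsum_finsetSum (fun _ _ => ENNReal.summable)]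
    refine Finset.sum_le_sum fun j _ => ?_
    rw [ENNReal.tsum_mul_left]
    exact mul_le_mul' le_rfl (hA i j)
  refine (mul_le_mul' le_rfl h3).trans (le_of_eq ?_)
  simp only [Finset.sum_const, Finset.card_univ, Fintype.card_fin, nsmul_eq_mul]
  have e4 : ENNReal.ofReal (36 * Real.pi) = 2 * (3 * (3 * ENNReal.ofReal (2 * Real.pi))) := by
    have e5 : (36 * Real.pi) = 2 * (3 * (3 * (2 * Real.pi))) := by ring
    rw [e5, ENNReal.ofReal_mul (by norm_num), ENNReal.ofReal_mul (p := 3) (by norm_num),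
      ENNReal.ofReal_mul (p := 3) (by norm_num), ENNReal.ofReal_ofNat, ENNReal.ofReal_ofNat]
  rw [e4]
  push_cast
  ring

/-- interaction of a trigonometric polynomial with another field -/
lemma cost_cross {r : ℝ} (hr : 1 ≤ r) {S : Finset K} {c : K → C3} {g B : R3 → R3}
    (hgc : g = fun x i => tp S (fun k => c k i) x)
    (hgd : ∀ x, ∑ i, pd i (fun y => g y i) x = 0) (hB : Smo B) (hBp : Pe B)
    (hBd : ∀ x, ∑ i, pd i (fun y => B y i) x = 0) :
    cost r (fun x i => adv g B x i + adv B g x i)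
      ≤ ENNReal.ofReal (36 * Real.pi) * (4 * ((∑ l ∈ S, ‖c l‖ₑ) * ∑' k, ‖fc B k‖ₑ)) := by
  have hg : Smo g := by
    rw [hgc]
    exact contDiff_pi.2 fun i => tp_smooth S _
  have hgp : Pe g := by
    rw [hgc]
    exact fun x j => funext fun i => tp_per S _ x j
  have e : (fun x i => adv g B x i + adv B g x i : R3 → R3)
      = fun x i => ∑ j, pd j (fun y => g y j * B y i + g y i * B y j) x := by
    funext x i
    have e1 : ∀ j, pd j (fun y => g y j * B y i + g y i * B y j) x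
        = (pd j (fun y => g y j) x * B x i + g x j * pd j (fun y => B y i) x)
          + (pd j (fun y => g y i) x * B x j + g x i * pd j (fun y => B y j) x) := by
      intro j
      rw [pd_add ((hg.comp j).mul (hB.comp i)) ((hg.comp i).mul (hB.comp j)),
        pd_mul' (hg.comp j) (hB.comp i), pd_mul' (hg.comp i) (hB.comp j)]
    simp only [e1]
    rw [Finset.sum_add_distrib, Finset.sum_add_distrib, Finset.sum_add_distrib, ← Finset.sum_mul,
      ← Finset.mul_sum, hgd x, hBd x]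
    unfold adv
    have e2 : ∑ j, pd j (fun y => g y i) x * B x j = ∑ j, B x j * pd j (fun y => g y i) x :=
      Finset.sum_congr rfl fun j _ => mul_comm _ _
    rw [e2]
    ring
  rw [e]
  have hgi : ∀ i, (fun x => g x i) = fun x => tp S (fun k => c k i) x := fun i => by
    rw [hgc]
  have hprod : ∀ i j, ∑' k, ‖sc (fun x => g x i * B x j) k‖ₑ ≤ 2 * ((∑ l ∈ S, ‖c l‖ₑ) * ∑' k, ‖fc B k‖ₑ) := by
    intro i j
    have e3 : (fun x => g x i * B x j) = fun x => tp S (fun k => c k i) x * B x j := by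
      funext x
      rw [congrFun (hgi i) x]
    rw [e3]
    refine (tsum_sc_tp_le S _ (hB.comp j).continuous).trans ?_
    have h1 : ∑ l ∈ S, ‖c l i‖ₑ ≤ ∑ l ∈ S, ‖c l‖ₑ := Finset.sum_le_sum fun l _ => enorm_apply_le _ i
    have h2 : ∑' k, ‖sc (fun x => B x j) k‖ₑ ≤ ∑' k, ‖fc B k‖ₑ := ENNReal.tsum_le_tsum fun k => by
      rw [← fc_sc]
      exact enorm_apply_le _ j
    refine (mul_le_mul' h1 (mul_le_mul' le_rfl h2)).trans (le_of_eq ?_)
    ring
  refine cost_div hr (h := fun i j y => g y j * B y i + g y i * B y j) (fun i j =>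
    ((hg.comp j).mul (hB.comp i)).add ((hg.comp i).mul (hB.comp j))) (fun i j x l => ?_) fun i j => ?_
  · show g (x + Pi.single l 1) j * B (x + Pi.single l 1) i + g (x + Pi.single l 1) i * B (x + Pi.single l 1) j = _
    rw [hgp x l, hBp x l]
  · have h1 : ∀ k, ‖sc (fun y => g y j * B y i + g y i * B y j) k‖ₑ
        ≤ ‖sc (fun y => g y j * B y i) k‖ₑ + ‖sc (fun y => g y i * B y j) k‖ₑ := by
      intro k
      rw [sc_add (((hg.comp j).mul (hB.comp i)).continuous) (((hg.comp i).mul (hB.comp j)).continuous)]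
      exact enorm_add_le _ _
    refine (ENNReal.tsum_le_tsum h1).trans ?_
    rw [ENNReal.tsum_add]
    refine (add_le_add (hprod j i) (hprod i j)).trans (le_of_eq ?_)
    ring

end Pool.Agent.H3NS
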