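import Pool.Agent.H3NS.Bridge

set_option autoImplicit false
set_option maxHeartbeats 4000000
set_option synthInstance.maxHeartbeats 400000

open MeasureTheory Set Filter Topology
open scoped ENNReal NNReal ContDiff

namespace Pool.Agent.H3NS

open Pool.Agent.H356R3.NS

/-- smooth paths of velocity fields and pressures, defined for all times -/
structure Path (U : ℝ → R3 → R3) (P : ℝ → R3 → ℝ) : Prop where
  smU : ∀ i, Sm univ (fun t x => U t x i)
  smP : Sm univ P
  perU : ∀ t, Pe (U t)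
  perP : ∀ t, Pe (P t)
  div : ∀ t x, ∑ i, pd i (fun y => U t y i) x = 0

/-- There is a path which is at rest at `w0` up to a time after `s` and at `w1` from a time before
`t` on, and whose force is near `f`. -/
def Reach (ν r : ℝ) (f : ℝ → R3 → R3) (s t : ℝ) (w0 w1 : R3 → R3) (E : ℝ≥0∞) : Prop :=
  ∃ (U : ℝ → R3 → R3) (P : ℝ → R3 → ℝ), Path U P ∧
    (∃ η : ℝ, 0 < η ∧ (∀ τ, τ ≤ s + η → U τ = w0 ∧ P τ = 0) ∧ ∀ τ, t - η ≤ τ → U τ = w1 ∧ P τ = 0) ∧
    ∫⁻ τ in Ioc s t, cost r (fun x i => res ν U P τ x i - f τ x i) ≤ E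

lemma Sm.glue {F G : ℝ → R3 → ℝ} (hF : Sm univ F) (hG : Sm univ G) {t η : ℝ} (hη : 0 < η)
    (h : ∀ τ, t - η ≤ τ → τ ≤ t + η → F τ = G τ) : Sm univ (fun τ => if τ ≤ t then F τ else G τ) := by
  intro z _
  refine ContDiffAt.contDiffWithinAt ?_
  rcases lt_or_ge z.1 (t + η) with h1 | h1
  · have h2 : ∀ᶠ w : ℝ × R3 in 𝓝 z, w.1 < t + η :=
      continuous_fst.continuousAt.eventually (gt_mem_nhds h1)
    have h3 : (fun z : ℝ × R3 => (if z.1 ≤ t then F z.1 else G z.1) z.2) =ᶠ[𝓝 z] fun z => F z.1 z.2 := by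
      filter_upwards [h2] with w hw
      split_ifs with h4
      · rfl
      · rw [h w.1 (by linarith) hw.le]
    exact ((hF z (by simp)).contDiffAt (by simp)).congr_of_eventuallyEq h3
  · have h2 : ∀ᶠ w : ℝ × R3 in 𝓝 z, t < w.1 :=
      continuous_fst.continuousAt.eventually (lt_mem_nhds (by linarith))
    have h3 : (fun z : ℝ × R3 => (if z.1 ≤ t then F z.1 else G z.1) z.2) =ᶠ[𝓝 z] fun z => G z.1 z.2 := by
      filter_upwards [h2] with w hw
      rw [if_neg (not_le.2 hw)]
    exact ((hG z (by simp)).contDiffAt (by simp)).congr_of_eventuallyEq h3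

lemma res_congr {ν : ℝ} {U V : ℝ → R3 → R3} {P Q : ℝ → R3 → ℝ} {t : ℝ} (h : ∀ᶠ s in 𝓝 t, U s = V s)
    (hP : P t = Q t) : res ν U P t = res ν V Q t := by
  funext x i
  unfold res
  have e1 : (fun s => U s x i) =ᶠ[𝓝 t] fun s => V s x i := by
    filter_upwards [h] with s hs
    rw [hs]
  rw [e1.deriv_eq, h.self_of_nhds, hP]

lemma Reach.trans {ν r : ℝ} {f : ℝ → R3 → R3} {s t t' : ℝ} {w0 w1 w2 : R3 → R3} {E E' : ℝ≥0∞}
    (hst : s < t) (htt : t < t') (h : Reach ν r f s t w0 w1 E) (h' : Reach ν r f t t' w1 w2 E') :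
    Reach ν r f s t' w0 w2 (E + E') := by
  obtain ⟨U, P, hUP, ⟨η, hη, ha, hb⟩, hE⟩ := h
  obtain ⟨U', P', hUP', ⟨η', hη', ha', hb'⟩, hE'⟩ := h'
  obtain ⟨θ, hθ, hθ1, hθ2, hθ3, hθ4⟩ : ∃ θ : ℝ, 0 < θ ∧ θ ≤ η ∧ θ ≤ η' ∧ θ ≤ t - s ∧ θ < t' - t :=
    ⟨min (min η η') (min (t - s) ((t' - t) / 2)), by
      refine lt_min (lt_min hη hη') (lt_min (by linarith) (by linarith)),
      (min_le_left _ _).trans (min_le_left _ _), (min_le_left _ _).trans (min_le_right _ _),
      (min_le_right _ _).trans (min_le_left _ _), by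
      have := (min_le_right (min η η') (min (t - s) ((t' - t) / 2))).trans (min_le_right _ _)
      linarith⟩
  have hU : ∀ τ, t - θ ≤ τ → τ ≤ t + θ → U τ = U' τ := fun τ h1 h2 => by
    rw [(hb τ (by linarith)).1, (ha' τ (by linarith)).1]
  have hP : ∀ τ, t - θ ≤ τ → τ ≤ t + θ → P τ = P' τ := fun τ h1 h2 => by
    rw [(hb τ (by linarith)).2, (ha' τ (by linarith)).2]
  refine ⟨fun τ => if τ ≤ t then U τ else U' τ, fun τ => if τ ≤ t then P τ else P' τ, ?_, ?_, ?_⟩
  · refine ⟨fun i => ?_, ?_, fun τ => ?_, fun τ => ?_, fun τ x => ?_⟩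
    · have h1 := Sm.glue (hUP.smU i) (hUP'.smU i) (t := t) hθ fun τ h1 h2 => by
        rw [hU τ h1 h2]
      have e : (fun (τ : ℝ) (x : R3) => (if τ ≤ t then U τ else U' τ) x i)
          = fun τ => if τ ≤ t then fun x => U τ x i else fun x => U' τ x i := by
        funext τ x
        split_ifs <;> rfl
      rw [e]
      exact h1
    · exact Sm.glue hUP.smP hUP'.smP (t := t) hθ hP
    · show Pe (if τ ≤ t then U τ else U' τ)
      split_ifs
      · exact hUP.perU τ
      · exact hUP'.perU τ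
    · show Pe (if τ ≤ t then P τ else P' τ)
      split_ifs
      · exact hUP.perP τ
      · exact hUP'.perP τ
    · by_cases h : τ ≤ t
      · have := hUP.div τ x
        simpa only [if_pos h] using this
      · have := hUP'.div τ x
        simpa only [if_neg h] using this
  · refine ⟨θ, hθ, fun τ hτ => ?_, fun τ hτ => ?_⟩
    · simp only [if_pos (show τ ≤ t by linarith)]
      exact ha τ (by linarith)
    · simp only [if_neg (show ¬ τ ≤ t by linarith)]
      exact hb' τ (by linarith)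
  · rw [← Ioc_union_Ioc_eq_Ioc hst.le htt.le]
    refine (lintegral_union_le _ _ _).trans (add_le_add ?_ ?_)
    · refine le_trans (le_of_eq ?_) hE
      refine setLIntegral_congr_fun measurableSet_Ioc fun τ hτ => ?_
      have e : res ν (fun τ => if τ ≤ t then U τ else U' τ) (fun τ => if τ ≤ t then P τ else P' τ) τ
          = res ν U P τ := by
        apply res_congr
        · have h1 : ∀ᶠ σ in 𝓝 τ, σ < t + θ := gt_mem_nhds (by linarith [hτ.2])
          filter_upwards [h1] with σ hσ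
          split_ifs with h2
          · rfl
          · exact (hU σ (by linarith) hσ.le).symm
        · simp only [if_pos hτ.2]
      simp only [e]
    · refine le_trans (le_of_eq ?_) hE'
      refine setLIntegral_congr_fun measurableSet_Ioc fun τ hτ => ?_
      have e : res ν (fun τ => if τ ≤ t then U τ else U' τ) (fun τ => if τ ≤ t then P τ else P' τ) τ
          = res ν U' P' τ := by
        apply res_congr
        · have h1 : ∀ᶠ σ in 𝓝 τ, t < σ := lt_mem_nhds hτ.1
          filter_upwards [h1] with σ hσ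
          rw [if_neg (not_le.2 hσ)]
        · simp only [if_neg (not_le.2 hτ.1)]
      simp only [e]

lemma Reach.mono {ν r : ℝ} {f : ℝ → R3 → R3} {s t : ℝ} {w0 w1 : R3 → R3} {E E' : ℝ≥0∞}
    (hE : E ≤ E') (h : Reach ν r f s t w0 w1 E) : Reach ν r f s t w0 w1 E' := by
  obtain ⟨U, P, hUP, hη, h1⟩ := h
  exact ⟨U, P, hUP, hη, h1.trans hE⟩

/-- translation in time, without force -/
lemma Reach.shift {ν r : ℝ} {t : ℝ} {w0 w1 : R3 → R3} {E : ℝ≥0∞}
    (h : Reach ν r (fun _ _ _ => 0) 0 t w0 w1 E) (s : ℝ) :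
    Reach ν r (fun _ _ _ => 0) s (s + t) w0 w1 E := by
  obtain ⟨U, P, hUP, ⟨η, hη, ha, hb⟩, hE⟩ := h
  have hsh : ContDiff ℝ ∞ fun z : ℝ × R3 => ((z.1 - s, z.2) : ℝ × R3) :=
    (contDiff_fst.sub contDiff_const).prodMk contDiff_snd
  have hSm : ∀ {F : ℝ → R3 → ℝ}, Sm univ F → Sm univ (fun τ => F (τ - s)) := by
    intro F hF
    exact ContDiffOn.comp (s := univ ×ˢ univ) hF hsh.contDiffOn fun z _ => ⟨mem_univ _, mem_univ _⟩
  refine ⟨fun τ => U (τ - s), fun τ => P (τ - s), ⟨fun i => hSm (hUP.smU i), hSm hUP.smP,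
    fun τ => hUP.perU _, fun τ => hUP.perP _, fun τ x => hUP.div _ x⟩, ⟨η, hη, fun τ hτ => ?_,
    fun τ hτ => ?_⟩, ?_⟩
  · exact ha _ (by linarith)
  · exact hb _ (by linarith)
  · have e : ∀ τ, res ν (fun τ => U (τ - s)) (fun τ => P (τ - s)) τ = res ν U P (τ - s) := by
      intro τ
      funext x i
      unfold res
      rw [deriv_comp_sub_const (f := fun σ => U σ x i)]
    simp only [e]
    have h1 : ∫⁻ τ in Ioc s (s + t), cost r (fun x i => res ν U P (τ - s) x i - 0)
        = ∫⁻ τ in Ioc 0 t, cost r (fun x i => res ν U P τ x i - 0) := by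
      rw [← lintegral_indicator measurableSet_Ioc, ← lintegral_indicator measurableSet_Ioc,
        ← lintegral_sub_right_eq_self (fun τ => (Ioc 0 t).indicator
          (fun τ => cost r (fun x i => res ν U P τ x i - 0)) τ) s]
      refine lintegral_congr fun τ => ?_
      by_cases h : τ ∈ Ioc s (s + t)
      · rw [indicator_of_mem h, indicator_of_mem]
        exact ⟨by linarith [h.1], by linarith [h.2]⟩
      · rw [indicator_of_notMem h, indicator_of_notMem]
        intro h2
        exact h ⟨by linarith [h2.1], by linarith [h2.2]⟩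
    rw [h1]
    exact hE

end Pool.Agent.H3NS
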