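import Pool.Agent.H3NS.Link

set_option autoImplicit false
set_option maxHeartbeats 4000000
set_option synthInstance.maxHeartbeats 400000

open MeasureTheory Set Filter Topology
open scoped ENNReal NNReal ContDiff

namespace Pool.Agent.H3NS

open Pool.Agent.H356R3.NS

lemma cost_lin4 {r : ℝ} (hr : 1 ≤ r) {X Y Z W : R3 → R3} (hX : Continuous X) (hY : Continuous Y)
    (hZ : Continuous Z) (hW : Continuous W) (a b c d : ℝ) :
    cost r (fun x i => a * X x i + b * Y x i + c * Z x i - d * W x i)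
      ≤ ENNReal.ofReal |a| * cost r X + ENNReal.ofReal |b| * cost r Y + ENNReal.ofReal |c| * cost r Z
        + ENNReal.ofReal |d| * cost r W := by
  have h1 : Continuous (fun x i => a * X x i + b * Y x i - (-c) * Z x i : R3 → R3) :=
    ((hX.const_smul a).add (hY.const_smul b)).sub (hZ.const_smul (-c))
  have e : (fun x i => a * X x i + b * Y x i + c * Z x i - d * W x i : R3 → R3)
      = fun x => (fun x i => a * X x i + b * Y x i - (-c) * Z x i : R3 → R3) x + (-d) • W x := by
    funext x i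
    simp only [Pi.add_apply, Pi.smul_apply, smul_eq_mul]
    ring
  rw [e]
  refine (cost_add hr h1 (hW.const_smul (-d))).trans ?_
  have h2 : cost r (-d • W) = ENNReal.ofReal |d| * cost r W := by
    have h3 := cost_smul hr (-d) W
    rw [abs_neg] at h3
    exact h3
  rw [h2]
  refine add_le_add ((cost_lin3 hr hX hY hZ a b (-c)).trans ?_) le_rfl
  rw [abs_neg]

/-- the force that keeps a field at rest -/
noncomputable def stat (ν : ℝ) (w : R3 → R3) : R3 → R3 := fun x i => adv w w x i - ν * lap w x i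

lemma stat_smo (ν : ℝ) {w : R3 → R3} (hw : Smo w) : Smo (stat ν w) :=
  contDiff_pi.2 fun i => ((hw.adv hw).comp i).sub (contDiff_const.mul (hw.lap.comp i))

lemma stat_per (ν : ℝ) {w : R3 → R3} (hw : Pe w) : Pe (stat ν w) := fun x j => by
  funext i
  unfold stat
  rw [(Pe.adv hw hw) x j, (Pe.lap hw) x j]

lemma adv_add {a b : R3 → R3} (ha : Smo a) (hb : Smo b) (x : R3) (i : Fin 3) :
    adv (fun x i => a x i + b x i) (fun x i => a x i + b x i) x i
      = adv a a x i + (adv a b x i + adv b a x i) + adv b b x i := by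
  unfold adv
  have e : ∀ j, pd j (fun y => a y i + b y i) x = pd j (fun y => a y i) x + pd j (fun y => b y i) x :=
    fun j => pd_add (ha.comp i) (hb.comp i) j x
  simp only [e]
  rw [← Finset.sum_add_distrib, ← Finset.sum_add_distrib, ← Finset.sum_add_distrib]
  refine Finset.sum_congr rfl fun j _ => ?_
  ring

lemma lap_add {a b : R3 → R3} (ha : Smo a) (hb : Smo b) (x : R3) (i : Fin 3) :
    lap (fun x i => a x i + b x i) x i = lap a x i + lap b x i := by
  unfold lap
  have e : ∀ j, (pd j fun y => a y i + b y i) = fun y => pd j (fun y => a y i) y + pd j (fun y => b y i) y :=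
    fun j => funext fun y => pd_add (ha.comp i) (hb.comp i) j y
  simp only [e]
  rw [← Finset.sum_add_distrib]
  refine Finset.sum_congr rfl fun j _ => ?_
  rw [pd_add (pd_smooth (ha.comp i) j) (pd_smooth (hb.comp i) j)]

lemma res_sum {ν : ℝ} {g b : R3 → R3} (hg : Smo g) {B : ℝ → R3 → R3} {pB : ℝ → R3 → ℝ}
    (hB : AdmissiblePeriodic ν b B pB) {τ : ℝ} (hτ : 0 < τ) (x : R3) (i : Fin 3) :
    res ν (fun s x i => g x i + B s x i) pB τ x i
      = stat ν g x i + (adv g (B τ) x i + adv (B τ) g x i) := by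
  have h0 := adm_res hB hτ x i
  have hBs : Smo (B τ) := (adm_sv hB).slice (mem_Ici.2 hτ.le)
  unfold res at h0 ⊢
  have e1 : deriv (fun s => g x i + B s x i) τ = deriv (fun s => B s x i) τ := deriv_const_add _
  rw [e1, adv_add hg hBs, lap_add hg hBs]
  unfold stat
  linarith

/-- the constant in the bound of the deviation -/
noncomputable def Cd : ℝ := 2 * Cc + 9218 * (S4 + 9)

lemma Cd_pos : 0 < Cd := by
  have := S4_nonneg
  have := Cc_pos
  unfold Cd
  positivity

theorem steer0 {ν r p : ℝ} (hν : 0 < ν) (hr : 2 < r) (hp1 : 1 ≤ p) (hp2 : p < 2) :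
    ∃ C : ℝ, 1 ≤ C ∧ ∀ w0 w1 : R3 → R3, Smo w0 → Pe w0 → (∀ x, ∑ i, pd i (fun y => w0 y i) x = 0) →
      Smo w1 → Pe w1 → (∀ x, ∑ i, pd i (fun y => w1 y i) x = 0) → ∀ K : ℝ, 1 ≤ K →
      cost r (stat ν w0) ≤ ENNReal.ofReal K → cost r (stat ν w1) ≤ ENNReal.ofReal K →
      (∀ x, ‖w0 x‖ₑ ≤ ENNReal.ofReal K) → (∀ x, ‖w1 x‖ₑ ≤ ENNReal.ofReal K) →
      ∀ E0 : ℝ, 0 < E0 → ∀ L : ℝ, 0 < L → ∀ ζ : ℝ, 0 < ζ → C1le (fun x i => w1 x i - w0 x i) ζ →
      ∃ (U : ℝ → R3 → R3) (P : ℝ → R3 → ℝ), GoP ν r p (fun _ _ _ => 0) (fun _ _ _ => 0) 0 L w0 w1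
        (ENNReal.ofReal (C * ‖mean w1 - mean w0‖ + E0 + 2 * K ^ 2 * L)) U P ∧
        ∀ τ, cost r (fun x i => U τ x i - w0 x i) ≤ ENNReal.ofReal (Cd * ζ + E0) := by
  have hr1 : 1 ≤ r := by linarith
  have hCc := Cc_pos
  obtain ⟨C, hC1, hC⟩ := smoothTransition_deriv_bound
  have hC0 : 0 < C := by linarith
  refine ⟨2 * C, by linarith, fun w0 w1 hw0 hq0 hd0 hw1 hq1 hd1 K hK hs0 hs1 hb0 hb1 E0 hE0 L hL ζ hζ hζ' => ?_⟩
  obtain ⟨D, hD⟩ : ∃ D, D = ‖mean w1 - mean w0‖ := ⟨_, rfl⟩
  have hD0 : 0 ≤ D := by rw [hD]; exact norm_nonneg _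
  obtain ⟨e, hed⟩ : ∃ e, e = E0 / (32 * C) := ⟨_, rfl⟩
  have he : 0 < e := by rw [hed]; positivity
  obtain ⟨g, hg, hgp, hgd, hge, Cg, hCg, hlink⟩ := link0 hν hr hp1 hp2 hw0 hq0 hd0 hw1 hq1 hd1 he
  -- bounds for `g`
  obtain ⟨Kg, hKg, hKg'⟩ := cost_fin hr1 (stat_smo ν hg) (stat_per ν hgp)
  have hgsv : SV (Ici (0 : ℝ)) (fun _ => g) := SV.const hg hgp
  have hU : UniqueDiffOn ℝ (Ici (0 : ℝ)) := uniqueDiffOn_Ici 0
  have h00 : (0 : ℝ) ∈ Ici (0 : ℝ) := mem_Ici.2 le_rfl
  obtain ⟨G1, hG1, hG1'⟩ := hgsv.c1 hU (isCompact_singleton (x := (0 : ℝ))) (fun t ht => by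
    rw [mem_singleton_iff.1 ht]; exact h00)
  have hgb : ∀ x, ‖g x‖ₑ ≤ ENNReal.ofReal G1 := by
    intro x
    rw [← ofReal_norm]
    apply ENNReal.ofReal_le_ofReal
    rw [pi_norm_le_iff_of_nonneg hG1.le]
    intro i
    exact (hG1' 0 rfl).v x i
  obtain ⟨Q, hQd⟩ : ∃ Q, Q = 2 * K + Kg + 2 * (2 * K + G1) ^ p := ⟨_, rfl⟩
  have hQ : 0 < Q := by rw [hQd]; positivity
  obtain ⟨e', he', he'1, he'2⟩ : ∃ e' : ℝ, 0 < e' ∧ e' ≤ e ∧ e' ≤ E0 / (24 * (Cg + 2)) :=
    ⟨min e (E0 / (24 * (Cg + 2))), lt_min he (by positivity), min_le_left _ _, min_le_right _ _⟩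
  obtain ⟨δ1, hδ1, hδ1a, hδ1b, hδ1c, hδ1d⟩ : ∃ δ1 : ℝ, 0 < δ1 ∧ δ1 ≤ E0 / (32 * Q) ∧ δ1 ≤ E0 / (24 * C) ∧
      δ1 ≤ L / 4 ∧ δ1 ≤ 1 / 4 :=
    ⟨min (min (E0 / (32 * Q)) (E0 / (24 * C))) (min (L / 4) (1 / 4)),
      lt_min (lt_min (by positivity) (by positivity)) (lt_min (by positivity) (by norm_num)),
      (min_le_left _ _).trans (min_le_left _ _), (min_le_left _ _).trans (min_le_right _ _),
      (min_le_right _ _).trans (min_le_left _ _), (min_le_right _ _).trans (min_le_right _ _)⟩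
  obtain ⟨b, B, pB, φ, hB, hφ, hcross, hsup, hlate, hint, hinit, hBc⟩ := hlink e' he' δ1 hδ1
  rw [← hD] at hinit
  have hBsv : SV (Ici 0) B := adm_sv hB
  set V : ℝ → R3 → R3 := fun τ x i => g x i + B τ x i with hV
  have hsv : SV (Ici 0) V := ⟨fun i => (hgsv.sm i).add (hBsv.sm i), fun t ht x j => by
    funext i
    simp only [hV]
    rw [hgp x j, hBsv.per t ht x j]⟩
  have hVd : ∀ τ, 0 ≤ τ → ∀ x, ∑ i, pd i (fun y => V τ y i) x = 0 := by
    intro τ hτ x
    have e1 : ∀ i, pd i (fun y => V τ y i) x = pd i (fun y => g y i) x + pd i (fun y => B τ y i) x :=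
      fun i => pd_add (hg.comp i) ((hBsv.sm i).slice (mem_Ici.2 hτ)) i x
    simp only [e1]
    rw [Finset.sum_add_distrib, hgd x, hB.divFree τ hτ x, add_zero]
  have hw0sv : SV (Ici (0 : ℝ)) (fun _ => w0) := SV.const hw0 hq0
  have hw1sv : SV (Ici (0 : ℝ)) (fun _ => w1) := SV.const hw1 hq1
  have hD1 : SV (Ici (0 : ℝ)) (fun t x i => V t x i - w0 x i) := hsv.sub hw0sv
  have hD2 : SV (Ici (0 : ℝ)) (fun t x i => w1 x i - V t x i) := hw1sv.sub hsv
  have hX2 := SV.adv hU hD1 hD1
  have hX3 := SV.adv hU hD2 hD2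
  have hcs0 : Continuous (stat ν w0) := (stat_smo ν hw0).continuous
  have hcs1 : Continuous (stat ν w1) := (stat_smo ν hw1).continuous
  have hRc : ∀ τ, 0 ≤ τ → Continuous (fun x i => stat ν g x i + (adv g (B τ) x i + adv (B τ) g x i) : R3 → R3) := by
    intro τ hτ
    have hBs : Smo (B τ) := hBsv.slice (mem_Ici.2 hτ)
    exact (stat_smo ν hg).continuous.add ((hg.adv hBs).continuous.add (hBs.adv hg).continuous)
  have hRb : ∀ τ, 0 ≤ τ → cost r (fun x i => stat ν g x i + (adv g (B τ) x i + adv (B τ) g x i))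
      ≤ ENNReal.ofReal Kg + ENNReal.ofReal Cg * φ τ := by
    intro τ hτ
    have hBs : Smo (B τ) := hBsv.slice (mem_Ici.2 hτ)
    exact (cost_add hr1 (stat_smo ν hg).continuous ((hg.adv hBs).continuous.add (hBs.adv hg).continuous)).trans
      (add_le_add hKg' (hcross τ hτ))
  have hKc : IsCompact (Icc (0 : ℝ) 1) := isCompact_Icc
  have hKs : Icc (0 : ℝ) 1 ⊆ Ici 0 := fun t ht => ht.1
  obtain ⟨M2, hM2, h2⟩ := hX2.c1 hU hKc hKs
  obtain ⟨M3, hM3, h3⟩ := hX3.c1 hU hKc hKs
  obtain ⟨σ, hσ, hσ'⟩ := hsv.c1_unif hU hKc hKs (η := e / Cc) (by positivity)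
  obtain ⟨δ0, hδ0, hδ0a, hδ0b, hδ0c⟩ : ∃ δ0 : ℝ, 0 < δ0 ∧ δ0 ≤ δ1 / 4 ∧ δ0 ≤ σ / 4 ∧
      δ0 ≤ E0 / (16 * (Cc * M2)) :=
    ⟨min (δ1 / 4) (min (σ / 4) (E0 / (16 * (Cc * M2)))),
      lt_min (by positivity) (lt_min (by positivity) (by positivity)), min_le_left _ _,
      (min_le_right _ _).trans (min_le_left _ _), (min_le_right _ _).trans (min_le_right _ _)⟩
  obtain ⟨δ2, hδ2, hδ2a, hδ2b⟩ : ∃ δ2 : ℝ, 0 < δ2 ∧ δ2 ≤ δ1 ∧ δ2 ≤ E0 / (8 * (Cc * M3)) :=
    ⟨min δ1 (E0 / (8 * (Cc * M3))), lt_min hδ1 (by positivity), min_le_left _ _, min_le_right _ _⟩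
  -- the distances
  have he1 : ∀ τ, 0 ≤ τ → τ ≤ 2 * δ0 →
      cost r (fun x i => V τ x i - w0 x i) ≤ ENNReal.ofReal (D + 2 * e + e') := by
    intro τ h0 hτ
    have hτm : τ ∈ Icc (0 : ℝ) 1 := ⟨h0, by linarith⟩
    have h0m : (0 : ℝ) ∈ Icc (0 : ℝ) 1 := ⟨le_rfl, zero_le_one⟩
    have hc := hσ' τ hτm 0 h0m (by rw [sub_zero, abs_of_nonneg h0]; linarith)
    have hd1 : SV (Ici (0 : ℝ)) (fun t x i => V t x i - V 0 x i) :=
      hsv.sub (SV.const (hsv.slice h00) (hsv.per 0 h00))
    have h4 : cost r (fun x i => V τ x i - V 0 x i) ≤ ENNReal.ofReal e := by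
      have := hd1.cost_le hr1 (mem_Ici.2 h0) (M := e / Cc) (by positivity) hc
      refine this.trans (le_of_eq ?_)
      congr 1
      field_simp
    have h5 : cost r (fun x i => V 0 x i - w0 x i) ≤ ENNReal.ofReal (D + e + e') := by
      have hB0 : V 0 = fun x i => g x i + b x i := by
        funext x i
        simp only [hV]
        rw [hB.initial]
      rw [hB0]
      exact hinit
    refine (cost_tri hr1 (hsv.cont (mem_Ici.2 h0)) (hsv.cont h00) hw0.continuous).trans
      ((add_le_add h4 h5).trans (le_of_eq ?_))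
    rw [← ENNReal.ofReal_add he.le (by positivity)]
    congr 1
    ring
  have he2 : ∀ τ, δ1 ≤ τ → cost r (fun x i => w1 x i - V τ x i) ≤ ENNReal.ofReal (e + 3 * δ1) := by
    intro τ hτ
    have hτ0 : τ ∈ Ici (0 : ℝ) := mem_Ici.2 (hδ1.le.trans hτ)
    refine (cost_tri hr1 (b := g) hw1.continuous hg.continuous (hsv.cont hτ0)).trans ?_
    have h4 : cost r (fun x i => g x i - V τ x i) ≤ ENNReal.ofReal (3 * δ1) := by
      rw [cost_neg hr1]
      have e1 : (fun x i => V τ x i - g x i) = B τ := by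
        funext x i
        simp only [hV]
        ring
      rw [e1]
      exact hlate τ hτ
    refine (add_le_add hge h4).trans (le_of_eq ?_)
    rw [← ENNReal.ofReal_add he.le (by positivity)]
  -- the path
  set χ1 := cut δ0 δ0 with hχ1
  set χ2 := cut δ1 δ2 with hχ2
  have hχ1s : ContDiff ℝ ∞ χ1 := cut_smooth _ _
  have hχ2s : ContDiff ℝ ∞ χ2 := cut_smooth _ _
  have z1 : ∀ τ, τ ≤ δ0 → χ1 τ = 0 := fun τ h => cut_zero hδ0 h
  have o1 : ∀ τ, 2 * δ0 ≤ τ → χ1 τ = 1 := fun τ h => cut_one hδ0 (by linarith)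
  have z2 : ∀ τ, τ ≤ δ1 → χ2 τ = 0 := fun τ h => cut_zero hδ2 h
  have o2 : ∀ τ, δ1 + δ2 ≤ τ → χ2 τ = 1 := fun τ h => cut_one hδ2 h
  have n1 : ∀ τ, 0 ≤ χ1 τ := fun τ => cut_nonneg _ _ _
  have l1 : ∀ τ, χ1 τ ≤ 1 := fun τ => cut_le_one _ _ _
  have n2 : ∀ τ, 0 ≤ χ2 τ := fun τ => cut_nonneg _ _ _
  have l2 : ∀ τ, χ2 τ ≤ 1 := fun τ => cut_le_one _ _ _
  set U : ℝ → R3 → R3 := fun τ x i => (1 - χ1 τ) * w0 x i + (χ1 τ - χ2 τ) * V τ x i + χ2 τ * w1 x i with hUd
  set P : ℝ → R3 → ℝ := fun τ x => (χ1 τ - χ2 τ) * pB τ x with hPd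
  have hz : ∀ τ < δ0, χ1 τ - χ2 τ = 0 := fun τ h => by rw [z1 τ h.le, z2 τ (by linarith), sub_zero]
  have hpath : Path U P := by
    refine ⟨fun i => ?_, ?_, fun τ x j => ?_, fun τ x j => ?_, fun τ x => ?_⟩
    · refine Sm.add (Sm.add ?_ ?_) ?_
      · exact (Sm.time (contDiff_const.sub hχ1s)).mul (Sm.space (hw0.comp i))
      · exact Sm.cut (hsv.sm i) (hχ1s.sub hχ2s) hδ0 hz
      · exact (Sm.time hχ2s).mul (Sm.space (hw1.comp i))
    · exact Sm.cut (adm_smp hB) (hχ1s.sub hχ2s) hδ0 hz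
    · funext i
      simp only [hUd]
      rw [hq0 x j, hq1 x j]
      rcases lt_or_ge τ δ0 with h | h
      · rw [hz τ h]
        ring
      · rw [hsv.per τ (show τ ∈ Ici (0 : ℝ) by simp only [mem_Ici]; linarith) x j]
    · simp only [hPd]
      rcases lt_or_ge τ δ0 with h | h
      · rw [hz τ h]
        ring
      · rw [hB.periodic_p τ (by linarith) x j]
    · rcases lt_or_ge τ δ0 with h | h
      · have e : ∀ i, (fun y => U τ y i) = fun y => w0 y i := by
          intro i
          funext y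
          simp only [hUd]
          rw [hz τ h, z1 τ h.le, z2 τ (by linarith)]
          ring
        simp only [e]
        exact hd0 x
      · have hτ : τ ∈ Ici (0 : ℝ) := by simp only [mem_Ici]; linarith
        have e : ∀ i, pd i (fun y => U τ y i) x = (1 - χ1 τ) * pd i (fun y => w0 y i) x
            + (χ1 τ - χ2 τ) * pd i (fun y => V τ y i) x + χ2 τ * pd i (fun y => w1 y i) x := by
          intro i
          have a1 : ContDiff ℝ ∞ fun y => w0 y i := hw0.comp i
          have a2 : ContDiff ℝ ∞ fun y => V τ y i := (hsv.sm i).slice hτ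
          have a3 : ContDiff ℝ ∞ fun y => w1 y i := hw1.comp i
          have e1 : (fun y => U τ y i) = fun y => (fun y => (1 - χ1 τ) * w0 y i
              + (χ1 τ - χ2 τ) * V τ y i) y + (fun y => χ2 τ * w1 y i) y := rfl
          rw [e1, pd_add ((contDiff_const.mul a1).add (contDiff_const.mul a2)) (contDiff_const.mul a3),
            pd_add (contDiff_const.mul a1) (contDiff_const.mul a2), pd_mul a1, pd_mul a2, pd_mul a3]
        simp only [e]
        rw [Finset.sum_add_distrib, Finset.sum_add_distrib, ← Finset.mul_sum, ← Finset.mul_sum,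
          ← Finset.mul_sum, hd0 x, hd1 x, hVd τ hτ x]
        ring
  refine ⟨U, P, ⟨hpath, ⟨δ0, hδ0, fun τ hτ => ?_, fun τ hτ => ?_⟩, ?_⟩, ?_⟩
  · have h4 : τ ≤ δ0 := by linarith
    refine ⟨?_, ?_⟩
    · funext x i
      simp only [hUd]
      rw [z1 τ h4, z2 τ (by linarith)]
      ring
    · funext x
      simp only [hPd]
      rw [z1 τ h4, z2 τ (by linarith)]
      simp
  · have h4 : δ1 + δ2 ≤ τ := by linarith
    refine ⟨?_, ?_⟩
    · funext x i
      simp only [hUd]
      rw [o1 τ (by linarith), o2 τ h4]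
      ring
    · funext x
      simp only [hPd]
      rw [o1 τ (by linarith), o2 τ h4]
      simp
  · simp only [sub_zero]
    -- the supremum norm
    have hdev : ∀ τ, dev (U τ) (fun _ _ => 0) ≤ ENNReal.ofReal (2 * K + G1) + φ τ := by
      intro τ
      refine dev_le fun x => ?_
      have e1 : U τ x - (fun (_ : R3) (_ : Fin 3) => (0 : ℝ)) x
          = (1 - χ1 τ) • w0 x + (χ1 τ - χ2 τ) • (g x + B τ x) + χ2 τ • w1 x := by
        funext i
        simp only [hUd, hV, Pi.sub_apply, Pi.add_apply, Pi.smul_apply, smul_eq_mul]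
        ring
      have hsm : ∀ (a : ℝ) (v : R3), |a| ≤ 1 → ‖a • v‖ₑ ≤ ‖v‖ₑ := by
        intro a v ha
        rw [enorm_smul]
        have : ‖a‖ₑ ≤ 1 := by
          rw [← ofReal_norm, ENNReal.ofReal_le_one]
          exact ha
        calc _ ≤ 1 * ‖v‖ₑ := mul_le_mul' this le_rfl
          _ = _ := one_mul _
      have q1 := n1 τ
      have q2 := l1 τ
      have q3 := n2 τ
      have q4 := l2 τ
      rw [e1]
      refine (enorm_add_le _ _).trans ((add_le_add ((enorm_add_le _ _).trans (add_le_add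
        ((hsm _ _ (abs_le.2 ⟨by linarith, by linarith⟩)).trans (hb0 x))
        ((hsm _ _ (abs_le.2 ⟨by linarith, by linarith⟩)).trans ((enorm_add_le _ _).trans
          (add_le_add (hgb x) (hsup τ x))))))
        ((hsm _ _ (abs_le.2 ⟨by linarith, by linarith⟩)).trans (hb1 x))).trans (le_of_eq ?_))
      rw [show 2 * K + G1 = K + (G1 + K) by ring, ENNReal.ofReal_add (by positivity) (by positivity),
        ENNReal.ofReal_add hG1.le (by positivity)]
      ring
    have hdevp : ∀ τ, dev (U τ) (fun _ _ => 0) ^ p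
        ≤ ENNReal.ofReal (2 * (2 * K + G1) ^ p) + 2 * φ τ ^ p := by
      intro τ
      refine (ENNReal.rpow_le_rpow (hdev τ) (by linarith)).trans ((rpow_add_le2 hp1 hp2 _ _).trans ?_)
      rw [mul_add, ENNReal.ofReal_rpow_of_nonneg (by positivity) (by linarith),
        ENNReal.ofReal_mul (p := 2) (by norm_num), ENNReal.ofReal_ofNat]
    set Φ : ℝ → ℝ≥0∞ := fun τ => ENNReal.ofReal Q + (ENNReal.ofReal Cg * φ τ + 2 * φ τ ^ p) with hΦ
    have hΦb : ∀ τ, ENNReal.ofReal K + (ENNReal.ofReal Kg + ENNReal.ofReal Cg * φ τ) + ENNReal.ofReal K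
        + (ENNReal.ofReal (2 * (2 * K + G1) ^ p) + 2 * φ τ ^ p) ≤ Φ τ := by
      intro τ
      apply le_of_eq
      simp only [hΦ]
      rw [hQd, show 2 * K + Kg + 2 * (2 * K + G1) ^ p = K + (K + (Kg + 2 * (2 * K + G1) ^ p)) by ring,
        ENNReal.ofReal_add (by positivity) (by positivity), ENNReal.ofReal_add (by positivity) (by positivity),
        ENNReal.ofReal_add (by positivity) (by positivity)]
      ring
    have eA : ENNReal.ofReal (C / δ0 * (D + 2 * e + e') + Cc * M2)
        = ENNReal.ofReal (C / δ0) * ENNReal.ofReal (D + 2 * e + e') + ENNReal.ofReal (Cc * M2) := by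
      rw [ENNReal.ofReal_add (mul_nonneg (by positivity) (by positivity)) (by positivity),
        ENNReal.ofReal_mul (p := C / δ0) (by positivity)]
    have eC : ENNReal.ofReal (C / δ2 * (e + 3 * δ1) + Cc * M3)
        = ENNReal.ofReal (C / δ2) * ENNReal.ofReal (e + 3 * δ1) + ENNReal.ofReal (Cc * M3) := by
      rw [ENNReal.ofReal_add (mul_nonneg (by positivity) (by positivity)) (by positivity),
        ENNReal.ofReal_mul (p := C / δ2) (by positivity)]
    -- first stage
    have g1 : ∀ τ ∈ Ioc 0 (2 * δ0), cost r (fun x i => res ν U P τ x i) + dev (U τ) (fun _ _ => 0) ^ p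
        ≤ Φ τ + ENNReal.ofReal (C / δ0 * (D + 2 * e + e') + Cc * M2) := by
      intro τ hτ
      have hτ0 : τ ∈ Ici (0 : ℝ) := hτ.1.le
      have hτm : τ ∈ Icc (0 : ℝ) 1 := ⟨hτ.1.le, by linarith [hτ.2]⟩
      have eq1 : (fun x i => res ν U P τ x i) = fun x i =>
          (1 - χ1 τ) * stat ν w0 x i
          + χ1 τ * (stat ν g x i + (adv g (B τ) x i + adv (B τ) g x i))
          + (deriv Real.smoothTransition ((τ - δ0) / δ0) / δ0) * (V τ x i - w0 x i)
          - (χ1 τ * (1 - χ1 τ)) * adv (fun y i => V τ y i - w0 y i) (fun y i => V τ y i - w0 y i) x i := by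
        funext x i
        have h5 := res_mix (ν := ν) (U := U) (P := P) (v := fun _ => w0) (B := V) (pv := fun _ _ => 0)
          (pB := pB) (χ := χ1) (t := τ) (χ' := deriv Real.smoothTransition ((τ - δ0) / δ0) / δ0) (by
            have h6 : ∀ᶠ σ in 𝓝 τ, σ < δ1 := gt_mem_nhds (by linarith [hτ.2])
            filter_upwards [h6] with σ hσ
            funext y l
            simp only [hUd]
            rw [z2 σ hσ.le]
            ring) (by
            funext y
            simp only [hPd]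
            rw [z2 τ (by linarith [hτ.2])]
            ring) (cut_deriv _ _ _) hw0 (hsv.slice hτ0) contDiff_const ((adm_smp hB).slice hτ0) x i
            (differentiableAt_const _) ((hsv.sm i).diffAt hτ.1 x)
        rw [h5, res_const, res_sum hg hB hτ.1]
        rfl
      rw [eq1]
      have k1 := he1 τ hτ.1.le hτ.2
      have k3 := hX2.cost_le hr1 hτ0 hM2 (h2 τ hτm)
      have c0 := n1 τ
      have c1 := l1 τ
      have a1 : ENNReal.ofReal |1 - χ1 τ| ≤ 1 := by
        rw [ENNReal.ofReal_le_one, abs_le]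
        constructor <;> linarith
      have a1' : ENNReal.ofReal |χ1 τ| ≤ 1 := by
        rw [ENNReal.ofReal_le_one, abs_le]
        constructor <;> linarith
      have a2 : ENNReal.ofReal |deriv Real.smoothTransition ((τ - δ0) / δ0) / δ0| ≤ ENNReal.ofReal (C / δ0) :=
        ENNReal.ofReal_le_ofReal (abs_cut_deriv hC hδ0 _)
      have a3 : ENNReal.ofReal |χ1 τ * (1 - χ1 τ)| ≤ 1 := by
        rw [ENNReal.ofReal_le_one, abs_le]
        constructor <;> nlinarith
      have hc4 := cost_lin4 hr1 hcs0 (hRc τ hτ0) (hD1.cont hτ0) (hX2.cont hτ0) (1 - χ1 τ) (χ1 τ)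
        (deriv Real.smoothTransition ((τ - δ0) / δ0) / δ0) (χ1 τ * (1 - χ1 τ))
      calc _ ≤ (ENNReal.ofReal |1 - χ1 τ| * cost r (stat ν w0)
              + ENNReal.ofReal |χ1 τ| * cost r (fun x i => stat ν g x i + (adv g (B τ) x i + adv (B τ) g x i))
              + ENNReal.ofReal |deriv Real.smoothTransition ((τ - δ0) / δ0) / δ0|
                * cost r (fun x i => V τ x i - w0 x i)
              + ENNReal.ofReal |χ1 τ * (1 - χ1 τ)|
                * cost r (adv (fun y i => V τ y i - w0 y i) (fun y i => V τ y i - w0 y i)))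
              + (ENNReal.ofReal (2 * (2 * K + G1) ^ p) + 2 * φ τ ^ p) := add_le_add hc4 (hdevp τ)
        _ ≤ (1 * ENNReal.ofReal K + 1 * (ENNReal.ofReal Kg + ENNReal.ofReal Cg * φ τ)
              + ENNReal.ofReal (C / δ0) * ENNReal.ofReal (D + 2 * e + e') + 1 * ENNReal.ofReal (Cc * M2))
              + (ENNReal.ofReal (2 * (2 * K + G1) ^ p) + 2 * φ τ ^ p) :=
            add_le_add (add_le_add (add_le_add (add_le_add (mul_le_mul' a1 hs0)
              (mul_le_mul' a1' (hRb τ hτ0))) (mul_le_mul' a2 k1)) (mul_le_mul' a3 k3)) le_rfl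
        _ = (ENNReal.ofReal K + (ENNReal.ofReal Kg + ENNReal.ofReal Cg * φ τ)
              + (ENNReal.ofReal (2 * (2 * K + G1) ^ p) + 2 * φ τ ^ p))
              + ENNReal.ofReal (C / δ0 * (D + 2 * e + e') + Cc * M2) := by
            rw [eA]
            ring
        _ ≤ _ := by
            refine add_le_add (le_trans ?_ (hΦb τ)) le_rfl
            exact add_le_add le_self_add le_rfl
    -- the formula for the later times
    have g2 : ∀ τ, 2 * δ0 < τ → ∀ c', HasDerivAt χ2 c' τ →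
        (fun x i => res ν U P τ x i) = fun x i =>
          (1 - χ2 τ) * (stat ν g x i + (adv g (B τ) x i + adv (B τ) g x i))
          + χ2 τ * stat ν w1 x i + c' * (w1 x i - V τ x i)
          - (χ2 τ * (1 - χ2 τ)) * adv (fun y i => w1 y i - V τ y i) (fun y i => w1 y i - V τ y i) x i := by
      intro τ hτ c' hc'
      have hτp : 0 < τ := by linarith
      have hτ0 : τ ∈ Ici (0 : ℝ) := hτp.le
      funext x i
      have h5 := res_mix (ν := ν) (U := U) (P := P) (v := V) (B := fun _ => w1) (pv := pB)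
          (pB := fun _ _ => 0) (χ := χ2) (t := τ) (χ' := c') (by
            have h6 : ∀ᶠ σ in 𝓝 τ, 2 * δ0 < σ := lt_mem_nhds hτ
            filter_upwards [h6] with σ hσ
            funext y l
            simp only [hUd]
            rw [o1 σ hσ.le]
            ring) (by
            funext y
            simp only [hPd]
            rw [o1 τ hτ.le]
            ring) hc' (hsv.slice hτ0) hw1 ((adm_smp hB).slice hτ0) contDiff_const x i
            ((hsv.sm i).diffAt hτp x) (differentiableAt_const _)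
      rw [h5, res_const, res_sum hg hB hτp]
      rfl
    have g2a : ∀ τ ∈ Ioo (2 * δ0) δ1, cost r (fun x i => res ν U P τ x i) + dev (U τ) (fun _ _ => 0) ^ p
        ≤ Φ τ := by
      intro τ hτ
      have hτ0 : τ ∈ Ici (0 : ℝ) := by simp only [mem_Ici]; linarith [hτ.1]
      have h5 : HasDerivAt χ2 0 τ := by
        have h6 : χ2 =ᶠ[𝓝 τ] fun _ => 0 := by
          filter_upwards [gt_mem_nhds hτ.2] with σ hσ
          exact z2 σ hσ.le
        exact (hasDerivAt_const τ (0 : ℝ)).congr_of_eventuallyEq h6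
      rw [g2 τ hτ.1 0 h5, z2 τ hτ.2.le]
      simp only [zero_mul, sub_zero, add_zero, one_mul]
      refine le_trans (add_le_add (hRb τ hτ0) (hdevp τ)) (le_trans ?_ (hΦb τ))
      refine add_le_add ?_ le_rfl
      exact le_add_right le_add_self
    have g2c : ∀ τ ∈ Ioc (δ1 + δ2) L, cost r (fun x i => res ν U P τ x i) + dev (U τ) (fun _ _ => 0) ^ p
        ≤ ENNReal.ofReal (2 * K ^ 2) := by
      intro τ hτ
      have h5 : HasDerivAt χ2 0 τ := by
        have h6 : χ2 =ᶠ[𝓝 τ] fun _ => 1 := by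
          filter_upwards [lt_mem_nhds hτ.1] with σ hσ
          exact o2 σ hσ.le
        exact (hasDerivAt_const τ (1 : ℝ)).congr_of_eventuallyEq h6
      have hUw : U τ = w1 := by
        funext x i
        simp only [hUd]
        rw [o1 τ (by linarith [hτ.1]), o2 τ hτ.1.le]
        ring
      rw [g2 τ (by linarith [hτ.1]) 0 h5, o2 τ hτ.1.le, hUw]
      simp only [zero_mul, sub_self, mul_zero, sub_zero, zero_add, add_zero, one_mul]
      have h7 : dev w1 (fun _ _ => 0) ^ p ≤ ENNReal.ofReal (K ^ 2) := by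
        have h8 : dev w1 (fun _ _ => 0) ≤ ENNReal.ofReal K := dev_le fun x => by
          have : w1 x - (fun (_ : R3) (_ : Fin 3) => (0 : ℝ)) x = w1 x := by
            funext i
            simp
          rw [this]
          exact hb1 x
        refine (ENNReal.rpow_le_rpow h8 (by linarith)).trans ?_
        rw [ENNReal.ofReal_rpow_of_nonneg (by positivity) (by linarith)]
        apply ENNReal.ofReal_le_ofReal
        rw [← Real.rpow_two]
        exact Real.rpow_le_rpow_of_exponent_le hK hp2.le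
      refine (add_le_add hs1 h7).trans ?_
      rw [← ENNReal.ofReal_add (by positivity) (by positivity)]
      apply ENNReal.ofReal_le_ofReal
      nlinarith
    have g2b : ∀ τ ∈ Icc δ1 (δ1 + δ2), cost r (fun x i => res ν U P τ x i) + dev (U τ) (fun _ _ => 0) ^ p
        ≤ Φ τ + ENNReal.ofReal (C / δ2 * (e + 3 * δ1) + Cc * M3) := by
      intro τ hτ
      have hτ0 : τ ∈ Ici (0 : ℝ) := by simp only [mem_Ici]; linarith [hτ.1]
      have hτm : τ ∈ Icc (0 : ℝ) 1 := ⟨hτ0, by linarith [hτ.2]⟩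
      rw [g2 τ (by linarith [hτ.1]) _ (cut_deriv _ _ _)]
      have k1 := he2 τ hτ.1
      have k3 := hX3.cost_le hr1 hτ0 hM3 (h3 τ hτm)
      have c0 := n2 τ
      have c1 := l2 τ
      have a1 : ENNReal.ofReal |1 - χ2 τ| ≤ 1 := by
        rw [ENNReal.ofReal_le_one, abs_le]
        constructor <;> linarith
      have a1' : ENNReal.ofReal |χ2 τ| ≤ 1 := by
        rw [ENNReal.ofReal_le_one, abs_le]
        constructor <;> linarith
      have a2 : ENNReal.ofReal |deriv Real.smoothTransition ((τ - δ1) / δ2) / δ2| ≤ ENNReal.ofReal (C / δ2) :=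
        ENNReal.ofReal_le_ofReal (abs_cut_deriv hC hδ2 _)
      have a3 : ENNReal.ofReal |χ2 τ * (1 - χ2 τ)| ≤ 1 := by
        rw [ENNReal.ofReal_le_one, abs_le]
        constructor <;> nlinarith
      have hc4 := cost_lin4 hr1 (hRc τ hτ0) hcs1 (hD2.cont hτ0) (hX3.cont hτ0) (1 - χ2 τ) (χ2 τ)
        (deriv Real.smoothTransition ((τ - δ1) / δ2) / δ2) (χ2 τ * (1 - χ2 τ))
      calc _ ≤ (ENNReal.ofReal |1 - χ2 τ| * cost r (fun x i => stat ν g x i + (adv g (B τ) x i + adv (B τ) g x i))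
              + ENNReal.ofReal |χ2 τ| * cost r (stat ν w1)
              + ENNReal.ofReal |deriv Real.smoothTransition ((τ - δ1) / δ2) / δ2|
                * cost r (fun x i => w1 x i - V τ x i)
              + ENNReal.ofReal |χ2 τ * (1 - χ2 τ)|
                * cost r (adv (fun y i => w1 y i - V τ y i) (fun y i => w1 y i - V τ y i)))
              + (ENNReal.ofReal (2 * (2 * K + G1) ^ p) + 2 * φ τ ^ p) := add_le_add hc4 (hdevp τ)
        _ ≤ (1 * (ENNReal.ofReal Kg + ENNReal.ofReal Cg * φ τ) + 1 * ENNReal.ofReal K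
              + ENNReal.ofReal (C / δ2) * ENNReal.ofReal (e + 3 * δ1) + 1 * ENNReal.ofReal (Cc * M3))
              + (ENNReal.ofReal (2 * (2 * K + G1) ^ p) + 2 * φ τ ^ p) :=
            add_le_add (add_le_add (add_le_add (add_le_add (mul_le_mul' a1 (hRb τ hτ0))
              (mul_le_mul' a1' hs1)) (mul_le_mul' a2 k1)) (mul_le_mul' a3 k3)) le_rfl
        _ = ((ENNReal.ofReal Kg + ENNReal.ofReal Cg * φ τ) + ENNReal.ofReal K
              + (ENNReal.ofReal (2 * (2 * K + G1) ^ p) + 2 * φ τ ^ p))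
              + ENNReal.ofReal (C / δ2 * (e + 3 * δ1) + Cc * M3) := by
            rw [eC]
            ring
        _ ≤ _ := by
            refine add_le_add (le_trans ?_ (hΦb τ)) le_rfl
            refine add_le_add ?_ le_rfl
            rw [add_assoc (ENNReal.ofReal K)]
            exact le_add_self
    -- integration
    have hΦi : ∀ S : Set ℝ, S ⊆ Ioc 0 1 → ∫⁻ τ in S, Φ τ
        ≤ ENNReal.ofReal Q * volume S + ENNReal.ofReal ((Cg + 2) * e') := by
      intro S hS
      simp only [hΦ]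
      rw [lintegral_add_left measurable_const, setLIntegral_const]
      refine add_le_add le_rfl ?_
      refine (lintegral_mono_set hS).trans ?_
      have h5 : ∀ τ, ENNReal.ofReal Cg * φ τ + 2 * φ τ ^ p ≤ ENNReal.ofReal (Cg + 2) * (φ τ + φ τ ^ p) := by
        intro τ
        rw [mul_add]
        refine add_le_add (mul_le_mul' (ENNReal.ofReal_le_ofReal (by linarith)) le_rfl)
          (mul_le_mul' ?_ le_rfl)
        rw [show (2 : ℝ≥0∞) = ENNReal.ofReal 2 by simp]
        exact ENNReal.ofReal_le_ofReal (by linarith)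
      refine (lintegral_mono h5).trans ?_
      rw [lintegral_const_mul (f := fun τ => φ τ + φ τ ^ p) _ (hφ.add (hφ.pow_const p)),
        ENNReal.ofReal_mul (by positivity)]
      exact mul_le_mul' le_rfl hint
    have hsub : Ioc 0 L ⊆ Ioc 0 (2 * δ0) ∪ (Ioo (2 * δ0) δ1 ∪ (Icc δ1 (δ1 + δ2) ∪
        Ioc (δ1 + δ2) L)) := by
      intro τ hτ
      by_cases q1 : τ ≤ 2 * δ0
      · exact Or.inl ⟨hτ.1, q1⟩
      · push Not at q1
        by_cases q2 : τ < δ1
        · exact Or.inr (Or.inl ⟨q1, q2⟩)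
        · push Not at q2
          by_cases q3 : τ ≤ δ1 + δ2
          · exact Or.inr (Or.inr (Or.inl ⟨q2, q3⟩))
          · push Not at q3
            exact Or.inr (Or.inr (Or.inr ⟨q3, hτ.2⟩))
    have i1 : ∫⁻ τ in Ioc 0 (2 * δ0), (cost r (fun x i => res ν U P τ x i) + dev (U τ) (fun _ _ => 0) ^ p)
        ≤ ENNReal.ofReal (Q * (2 * δ0) + (Cg + 2) * e' + (C / δ0 * (D + 2 * e + e') + Cc * M2) * (2 * δ0)) := by
      refine (setLIntegral_mono' measurableSet_Ioc g1).trans ?_
      rw [lintegral_add_right _ measurable_const, setLIntegral_const, Real.volume_Ioc, sub_zero,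
        ENNReal.ofReal_add (p := Q * (2 * δ0) + (Cg + 2) * e')
          (q := (C / δ0 * (D + 2 * e + e') + Cc * M2) * (2 * δ0)) (by positivity) (by positivity),
        ENNReal.ofReal_mul (p := C / δ0 * (D + 2 * e + e') + Cc * M2) (by positivity)]
      refine add_le_add ((hΦi _ fun τ hτ => ⟨hτ.1, by linarith [hτ.2]⟩).trans (le_of_eq ?_)) le_rfl
      rw [Real.volume_Ioc, sub_zero, ← ENNReal.ofReal_mul hQ.le, ← ENNReal.ofReal_add (by positivity) (by positivity)]
    have i2 : ∫⁻ τ in Ioo (2 * δ0) δ1, (cost r (fun x i => res ν U P τ x i) + dev (U τ) (fun _ _ => 0) ^ p)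
        ≤ ENNReal.ofReal (Q * δ1 + (Cg + 2) * e') := by
      refine (setLIntegral_mono' measurableSet_Ioo g2a).trans
        ((hΦi _ fun τ hτ => ⟨by linarith [hτ.1], by linarith [hτ.2]⟩).trans ?_)
      rw [Real.volume_Ioo, ← ENNReal.ofReal_mul hQ.le,
        ← ENNReal.ofReal_add (mul_nonneg hQ.le (by linarith)) (by positivity)]
      apply ENNReal.ofReal_le_ofReal
      nlinarith
    have i3 : ∫⁻ τ in Icc δ1 (δ1 + δ2), (cost r (fun x i => res ν U P τ x i) + dev (U τ) (fun _ _ => 0) ^ p)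
        ≤ ENNReal.ofReal (Q * δ2 + (Cg + 2) * e' + (C / δ2 * (e + 3 * δ1) + Cc * M3) * δ2) := by
      refine (setLIntegral_mono' measurableSet_Icc g2b).trans ?_
      rw [lintegral_add_right _ measurable_const, setLIntegral_const, Real.volume_Icc, add_sub_cancel_left,
        ENNReal.ofReal_add (p := Q * δ2 + (Cg + 2) * e') (by positivity) (by positivity),
        ENNReal.ofReal_mul (p := C / δ2 * (e + 3 * δ1) + Cc * M3) (by positivity)]
      refine add_le_add ((hΦi _ fun τ hτ => ⟨by linarith [hτ.1], by linarith [hτ.2]⟩).trans (le_of_eq ?_)) le_rfl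
      rw [Real.volume_Icc, add_sub_cancel_left, ← ENNReal.ofReal_mul hQ.le,
        ← ENNReal.ofReal_add (by positivity) (by positivity)]
    have i4 : ∫⁻ τ in Ioc (δ1 + δ2) L, (cost r (fun x i => res ν U P τ x i) + dev (U τ) (fun _ _ => 0) ^ p)
        ≤ ENNReal.ofReal (2 * K ^ 2 * L) := by
      refine (setLIntegral_mono' measurableSet_Ioc g2c).trans ?_
      rw [setLIntegral_const, Real.volume_Ioc, ← ENNReal.ofReal_mul (by positivity)]
      apply ENNReal.ofReal_le_ofReal
      have : 0 ≤ 2 * K ^ 2 := by positivity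
      nlinarith
    refine (lintegral_mono_set hsub).trans ((lintegral_union_le _ _ _).trans ?_)
    refine (add_le_add i1 ((lintegral_union_le _ _ _).trans (add_le_add i2
      ((lintegral_union_le _ _ _).trans (add_le_add i3 i4))))).trans ?_
    rw [← ENNReal.ofReal_add (by positivity) (by positivity), ← ENNReal.ofReal_add (by positivity) (by positivity),
      ← ENNReal.ofReal_add (by positivity) (by positivity)]
    apply ENNReal.ofReal_le_ofReal
    rw [← hD]
    have b1 : C / δ0 * (D + 2 * e + e') * (2 * δ0) = 2 * C * D + E0 / 8 + 2 * C * e' := by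
      rw [hed]
      field_simp
      ring
    have b1' : 2 * C * e' ≤ E0 / 16 := by
      calc 2 * C * e' ≤ 2 * C * e := by gcongr
        _ = E0 / 16 := by rw [hed]; field_simp; ring
    have b2 : C / δ2 * (e + 3 * δ1) * δ2 ≤ E0 / 32 + E0 / 8 := by
      have h5 : C / δ2 * (e + 3 * δ1) * δ2 = C * e + 3 * C * δ1 := by field_simp
      have h6 : C * e = E0 / 32 := by rw [hed]; field_simp
      have h7 : 3 * C * δ1 ≤ E0 / 8 := by
        calc 3 * C * δ1 ≤ 3 * C * (E0 / (24 * C)) := by gcongr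
          _ = E0 / 8 := by field_simp; ring
      rw [h5, h6]
      linarith
    have b3 : Cc * M2 * (2 * δ0) ≤ E0 / 8 := by
      calc Cc * M2 * (2 * δ0) ≤ Cc * M2 * (2 * (E0 / (16 * (Cc * M2)))) := by gcongr
        _ = E0 / 8 := by field_simp; ring
    have b4 : Cc * M3 * δ2 ≤ E0 / 8 := by
      calc Cc * M3 * δ2 ≤ Cc * M3 * (E0 / (8 * (Cc * M3))) := by gcongr
        _ = E0 / 8 := by field_simp
    have b5 : Q * (2 * δ0) + Q * δ1 + Q * δ2 ≤ E0 / 8 := by
      have h5 : Q * (2 * δ0) + Q * δ1 + Q * δ2 ≤ Q * (4 * δ1) := by nlinarith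
      refine h5.trans ?_
      calc Q * (4 * δ1) ≤ Q * (4 * (E0 / (32 * Q))) := by gcongr
        _ = E0 / 8 := by field_simp; ring
    have b6 : 3 * ((Cg + 2) * e') ≤ E0 / 8 := by
      calc 3 * ((Cg + 2) * e') ≤ 3 * ((Cg + 2) * (E0 / (24 * (Cg + 2)))) := by gcongr
        _ = E0 / 8 := by field_simp; ring
    nlinarith
  · -- the deviation from `w0`
    have hS4 := S4_nonneg
    have hdiffs : Smo (fun x i => w1 x i - w0 x i) := contDiff_pi.2 fun i => (hw1.comp i).sub (hw0.comp i)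
    have hdiffp : Pe (fun x i => w1 x i - w0 x i : R3 → R3) := fun x j => by
      funext i
      show w1 (x + Pi.single j 1) i - w0 (x + Pi.single j 1) i = _
      rw [hq1 x j, hq0 x j]
    have k1 : cost r (fun x i => w1 x i - w0 x i) ≤ ENNReal.ofReal (Cc * ζ) :=
      cost_C1 hr1 (hdiffs.of_le (by simp)) hdiffp hζ hζ'
    have k2 : lei w0 w1 ≤ ENNReal.ofReal ((S4 + 9) * ζ) := by
      refine le_trans (le_of_eq ?_) (leiLin_le (hdiffs.of_le (by simp)) hdiffp hζ hζ')
      unfold lei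
      refine tsum_congr fun k => ?_
      congr 1
      have h5 : fc (fun x i => w1 x i - w0 x i) k = fc w1 k - fc w0 k := fc_sub hw1.continuous hw0.continuous k
      rw [h5, ← enorm_neg, neg_sub]
    have k3 : ∀ τ, 0 ≤ τ → cost r (fun x i => V τ x i - w0 x i)
        ≤ ENNReal.ofReal (E0 + (Cc + 9218 * (S4 + 9)) * ζ) := by
      intro τ hτ
      have h5 : cost r (fun x i => V τ x i - w1 x i) ≤ ENNReal.ofReal (9218 * ((S4 + 9) * ζ) + e' + e) := by
        refine (cost_tri hr1 (b := g) (hsv.cont (mem_Ici.2 hτ)) hg.continuous hw1.continuous).trans ?_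
        have e1 : (fun x i => V τ x i - g x i) = B τ := by
          funext x i
          simp only [hV]
          ring
        rw [e1, cost_neg hr1 g w1]
        refine (add_le_add ((hBc τ hτ).trans (add_le_add (mul_le_mul' le_rfl k2) le_rfl)) hge).trans (le_of_eq ?_)
        rw [← ENNReal.ofReal_mul (by norm_num), ← ENNReal.ofReal_add (by positivity) (by positivity),
          ← ENNReal.ofReal_add (by positivity) (by positivity)]
      refine (cost_tri hr1 (b := w1) (hsv.cont (mem_Ici.2 hτ)) hw1.continuous hw0.continuous).trans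
        ((add_le_add h5 k1).trans ?_)
      rw [← ENNReal.ofReal_add (by positivity) (by positivity)]
      apply ENNReal.ofReal_le_ofReal
      have h6 : e ≤ E0 / 32 := by
        rw [hed]
        apply div_le_div_of_nonneg_left hE0.le (by norm_num)
        linarith
      nlinarith
    intro τ
    rcases lt_or_ge τ δ0 with h | h
    · have e1 : (fun x i => U τ x i - w0 x i) = fun (_ : R3) (_ : Fin 3) => (0 : ℝ) := by
        funext x i
        simp only [hUd]
        rw [z1 τ h.le, z2 τ (by linarith)]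
        ring
      rw [e1, cost_zero r hr1]
      exact zero_le
    · have hτ0 : 0 ≤ τ := by linarith
      have c1 := n1 τ
      have c2 := l1 τ
      have c3 := n2 τ
      have c4 := l2 τ
      have e1 : (fun x i => U τ x i - w0 x i : R3 → R3)
          = fun x i => (χ1 τ - χ2 τ) * (V τ x i - w0 x i) + χ2 τ * (w1 x i - w0 x i)
            - 0 * (w1 x i - w0 x i) := by
        funext x i
        simp only [hUd]
        ring
      rw [e1]
      refine (cost_lin3 hr1 (X := fun x i => V τ x i - w0 x i) (Y := fun x i => w1 x i - w0 x i)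
        (Z := fun x i => w1 x i - w0 x i) ((hsv.cont (mem_Ici.2 hτ0)).sub hw0.continuous)
        (hw1.continuous.sub hw0.continuous) (hw1.continuous.sub hw0.continuous) _ _ _).trans ?_
      have a1 : ENNReal.ofReal |χ1 τ - χ2 τ| ≤ 1 := by
        rw [ENNReal.ofReal_le_one, abs_le]
        constructor <;> linarith
      have a2 : ENNReal.ofReal |χ2 τ| ≤ 1 := by
        rw [ENNReal.ofReal_le_one, abs_le]
        constructor <;> linarith
      rw [abs_zero, ENNReal.ofReal_zero, zero_mul, add_zero]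
      refine (add_le_add (mul_le_mul' a1 (k3 τ hτ0)) (mul_le_mul' a2 k1)).trans (le_of_eq ?_)
      rw [one_mul, one_mul, ← ENNReal.ofReal_add (by positivity) (by positivity)]
      congr 1
      unfold Cd
      ring

end Pool.Agent.H3NS
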